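import Pool.Agent.H87.GEN.Cbr
import Pool.Agent.H6.OWN.Bfl

/-!
# No affine label with a gain

`no_aff`: at a node without relations the coordinate `c j` has no label which is affine over the
coordinates `c k`, `k < j`, with a precision larger than `g j`: the slopes of the visible label are
functions of the point, the ones of the closed label are functions of the line and polynomials in the
time.
-/

set_option autoImplicit false

namespace Pool.NVX

open Finset Real MvPolynomial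
open Pool.Agent.H49.Ent Pool.Agent.H32.Dense Pool.STK Pool.KA Pool.KSAT Pool.K2S Pool.PB Pool.S6C
open Pool.GEN Pool.CHT
open Pool.MIC6 (ptr_x)

variable {m : ℕ}

/-- A polynomial of the time. -/
noncomputable def tpo (p : Polynomial ℝ) : MvPolynomial (Option (Fin m)) ℝ :=
  Polynomial.aeval (X none) p

theorem tpo_eval (p : Polynomial ℝ) (b : Option (Fin m) → ℝ) :
    eval b (tpo p) = p.eval (b none) := by
  unfold tpo
  rw [Polynomial.aeval_def, Polynomial.hom_eval₂, eval_X]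
  have h1 : (eval b).comp (algebraMap ℝ (MvPolynomial (Option (Fin m)) ℝ)) = RingHom.id ℝ := by
    ext x
    simp
  rw [h1]
  rfl

theorem tpo_deg (p : Polynomial ℝ) :
    (tpo p : MvPolynomial (Option (Fin m)) ℝ).totalDegree ≤ p.natDegree := by
  unfold tpo
  rw [Polynomial.aeval_eq_sum_range]
  refine totalDegree_finsetSum_le fun i hi => ?_
  rw [MvPolynomial.smul_eq_C_mul]
  refine (totalDegree_mul _ _).trans ?_
  rw [totalDegree_C, zero_add]
  refine (totalDegree_pow _ _).trans ?_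
  rw [totalDegree_X, mul_one]
  exact Nat.lt_succ_iff.1 (Finset.mem_range.1 hi)

/-- A coordinate of a line, as a polynomial of the time. -/
noncomputable def pthl (u d : ℝ) : MvPolynomial (Option (Fin m)) ℝ := C u + X none * C d

theorem pthl_eval (u d : ℝ) (b : Option (Fin m) → ℝ) :
    eval b (pthl u d) = u + b none * d := by
  unfold pthl
  simp

theorem pthl_deg (u d : ℝ) : (pthl u d : MvPolynomial (Option (Fin m)) ℝ).totalDegree ≤ 1 := by
  unfold pthl
  refine (totalDegree_add _ _).trans (max_le ?_ ?_)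
  · rw [totalDegree_C]
    exact Nat.zero_le _
  · refine (totalDegree_mul _ _).trans ?_
    rw [totalDegree_C, totalDegree_X]

/-- The distance of the coordinate `c j` from the affine function with the slopes `κ` through the
line. -/
noncomputable def rlp (c : ℕ → Fin m) (j : ℕ) (u d : Fin m → ℝ) (κ : ℕ → Polynomial ℝ) :
    MvPolynomial (Option (Fin m)) ℝ :=
  X (some (c j)) - (pthl (u (c j)) (d (c j)) +
    ∑ k ∈ range j, tpo (κ k) * (X (some (c k)) - pthl (u (c k)) (d (c k))))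

theorem rlp_eval (c : ℕ → Fin m) (j : ℕ) (u d : Fin m → ℝ) (κ : ℕ → Polynomial ℝ)
    (b : Option (Fin m) → ℝ) :
    eval b (rlp c j u d κ) = b (some (c j)) - (u (c j) + b none * d (c j) +
      ∑ k ∈ range j, (κ k).eval (b none) * (b (some (c k)) - (u (c k) + b none * d (c k)))) := by
  unfold rlp
  simp [pthl_eval, tpo_eval]

theorem rlp_deg {c : ℕ → Fin m} {j : ℕ} {u d : Fin m → ℝ} {κ : ℕ → Polynomial ℝ} {K D : ℕ}
    (hK : ∀ k, (κ k).natDegree ≤ K) (hD : K + 2 ≤ D) :
    (rlp c j u d κ).totalDegree ≤ D := by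
  unfold rlp
  refine (totalDegree_sub _ _).trans (max_le ?_ ((totalDegree_add _ _).trans (max_le ?_ ?_)))
  · rw [totalDegree_X]
    omega
  · exact (pthl_deg _ _).trans (by omega)
  · refine totalDegree_finsetSum_le fun k _ => ?_
    refine (totalDegree_mul _ _).trans ?_
    have h1 := (tpo_deg (m := m) (κ k)).trans (hK k)
    have h2 : (X (some (c k)) - pthl (u (c k)) (d (c k)) :
        MvPolynomial (Option (Fin m)) ℝ).totalDegree ≤ 1 := by
      refine (totalDegree_sub _ _).trans (max_le ?_ (pthl_deg _ _))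
      rw [totalDegree_X]
    omega

theorem rlp_dep (c : ℕ → Fin m) (j : ℕ) (u d : Fin m → ℝ) (κ : ℕ → Polynomial ℝ) :
    DepC c (j + 1) (rlp c j u d κ) := by
  intro b b' hn hb
  rw [rlp_eval, rlp_eval, hn, hb j (by omega)]
  congr 2
  refine Finset.sum_congr rfl fun k hk => ?_
  rw [hb k (by have := Finset.mem_range.1 hk; omega)]

variable {J : ℕ}

/-- **No affine label with a gain.** The coordinate `c j` has no label which is affine over the
coordinates `c k`, `k < j`: `ν` is a line through the point, `ρ` are visible slopes, `κ'` are closed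
slopes, which may depend on the time. -/
theorem no_aff {F : Fam m J} {c : ℕ → Fin m} {D D' K a w e h j : ℕ} {g : ℕ → ℕ} {κ M R : ℝ}
    {B₀ B : F.Ω → Prop} {G : PtT F → ℕ → MvPolynomial (Option (Fin m)) ℝ}
    {H : LnT F → ℕ → MvPolynomial (Option (Fin m)) ℝ} (hc : Set.InjOn c (Set.Iio (j + 1)))
    (hR : RelvF F c (j + 1) a w g D h κ B₀ G)
    (hL : ChOK F c (j + 1) (fun _ => D') a w e g B₀ G H) (hD : K + 2 ≤ D) (hB : Sub B B₀)
    (hP : κ * Pe F.p B₀ ≤ Pe F.p B) (hP0 : 0 < Pe F.p B) (ν : PtT F → F.Ω)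
    (ρ : PtT F → ℕ → ℝ) (κ' : LnT F → ℕ → Polynomial ℝ) (hK : ∀ s k, (κ' s k).natDegree ≤ K)
    (hν : ∀ ω, B ω → ptr F J (ν (ptr F J ω)) = ptr F J ω) (hR0 : 0 ≤ R)
    (hρ : ∀ ω, B ω → ∀ k < j, |ρ (ptr F J ω) k| ≤ R) (hM : 0 < M)
    (hv : ∀ ω, B ω → |(bd F ω (some (c j)) - bd F (ν (ptr F J ω)) (some (c j))) -
      ∑ k ∈ range j, ρ (ptr F J ω) k *
        (bd F ω (some (c k)) - bd F (ν (ptr F J ω)) (some (c k)))| ≤ M * 2 ^ a)
    (hd : ∀ ω, B ω → ∀ b, NBx c (G (ptr F J ω)) g a (F.t ω) j b →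
      |∑ k ∈ range j, (ρ (ptr F J ω) k - (κ' (slam F w ω) k).eval (b none)) *
        (b (some (c k)) - (F.x ω (c k) + (b none - F.t ω) * bd F ω (some (c k))))| ≤ M)
    (hJ : (j * R + 1) ≤ M * 2 ^ J) (hh : 2 ^ h * (3 * M) < 1 / 2 ^ g j) : False := by
  classical
  have hJ0 : (0 : ℝ) < 2 ^ J := by positivity
  have ha0 : (0 : ℝ) < 2 ^ a := by positivity
  have hM3 : 0 < 3 * M := by linarith
  -- the distance of the two samples at the point
  have hx : ∀ ω, B ω → |(F.x ω (c j) - F.x (ν (ptr F J ω)) (c j)) -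
      ∑ k ∈ range j, ρ (ptr F J ω) k * (F.x ω (c k) - F.x (ν (ptr F J ω)) (c k))| ≤ M := by
    intro ω hω
    have h1 : ∀ i : Fin m, |F.x ω i - F.x (ν (ptr F J ω)) i| ≤ 1 / 2 ^ J := fun i =>
      ptr_x F (hν ω hω) i
    have h2 : |∑ k ∈ range j, ρ (ptr F J ω) k * (F.x ω (c k) - F.x (ν (ptr F J ω)) (c k))| ≤
        j * (R * (1 / 2 ^ J)) := by
      refine (Finset.abs_sum_le_sum_abs _ _).trans ?_
      calc _ ≤ ∑ k ∈ range j, R * (1 / 2 ^ J) := by
            refine Finset.sum_le_sum fun k hk => ?_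
            rw [abs_mul]
            exact mul_le_mul (hρ ω hω k (Finset.mem_range.1 hk)) (h1 _) (abs_nonneg _) hR0
        _ = j * (R * (1 / 2 ^ J)) := by
            rw [Finset.sum_const, Finset.card_range, nsmul_eq_mul]
    have h3 : (j * R + 1) * (1 / 2 ^ J) ≤ M := by
      rw [mul_one_div, div_le_iff₀ hJ0]
      exact hJ
    have h4 := h1 (c j)
    have h5 := abs_sub (F.x ω (c j) - F.x (ν (ptr F J ω)) (c j))
      (∑ k ∈ range j, ρ (ptr F J ω) k * (F.x ω (c k) - F.x (ν (ptr F J ω)) (c k)))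
    calc _ ≤ _ := h5
      _ ≤ 1 / 2 ^ J + j * (R * (1 / 2 ^ J)) := add_le_add h4 h2
      _ = (j * R + 1) * (1 / 2 ^ J) := by ring
      _ ≤ M := h3
  have ht : ∀ ω, B ω → F.t (ν (ptr F J ω)) = F.t ω := by
    intro ω hω
    have h1 : F.T (ν (ptr F J ω)) = F.T ω :=
      congrArg (fun y : PtT F => y.2.1) (hν ω hω)
    unfold Fam.t
    rw [h1]
  -- the value at the sample
  have hval : ∀ ω, B ω → |eval (bt F ω) (rlp c j (F.u (ν (ptr F J ω))) (F.d (ν (ptr F J ω)))
      fun k => Polynomial.C (ρ (ptr F J ω) k))| ≤ 3 * M := by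
    intro ω hω
    rw [rlp_eval]
    have h1 := hx ω hω
    have e1 : bt F ω none = F.t (ν (ptr F J ω)) := (ht ω hω).symm
    have e2 : ∀ i : Fin m, F.u (ν (ptr F J ω)) i + bt F ω none * F.d (ν (ptr F J ω)) i =
        F.x (ν (ptr F J ω)) i := by
      intro i
      rw [e1]
      rfl
    simp only [e2, Polynomial.eval_C]
    have e3 : bt F ω (some (c j)) - (F.x (ν (ptr F J ω)) (c j) +
        ∑ k ∈ range j, ρ (ptr F J ω) k * (bt F ω (some (c k)) - F.x (ν (ptr F J ω)) (c k))) =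
        (F.x ω (c j) - F.x (ν (ptr F J ω)) (c j)) -
        ∑ k ∈ range j, ρ (ptr F J ω) k * (F.x ω (c k) - F.x (ν (ptr F J ω)) (c k)) := by
      change F.x ω (c j) - (F.x (ν (ptr F J ω)) (c j) +
        ∑ k ∈ range j, ρ (ptr F J ω) k * (F.x ω (c k) - F.x (ν (ptr F J ω)) (c k))) = _
      ring
    rw [e3]
    linarith
  -- the difference
  have hdif : ∀ ω, B ω → ∀ b, NBx c (G (ptr F J ω)) g a (F.t ω) (j + 1) b →
      |eval b (rlp c j (F.u (ν (ptr F J ω))) (F.d (ν (ptr F J ω)))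
        fun k => Polynomial.C (ρ (ptr F J ω) k)) -
      eval b (rlp c j (slam F w ω).1.1 (slam F w ω).1.2 (κ' (slam F w ω)))| ≤ 3 * M := by
    intro ω hω b hb
    rw [rlp_eval, rlp_eval]
    have hb' : NBx c (G (ptr F J ω)) g a (F.t ω) j b := ⟨hb.1, fun l hl => hb.2 l (by omega)⟩
    have h1 := hx ω hω
    have h2 := hv ω hω
    have h3 := hd ω hω b hb'
    have eν : ∀ i : Fin m, F.u (ν (ptr F J ω)) i + b none * F.d (ν (ptr F J ω)) i =
        F.x (ν (ptr F J ω)) i + (b none - F.t ω) * F.d (ν (ptr F J ω)) i := by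
      intro i
      rw [← ht ω hω]
      unfold Fam.x
      ring
    have eω : ∀ i : Fin m, (slam F w ω).1.1 i + b none * (slam F w ω).1.2 i =
        F.x ω i + (b none - F.t ω) * F.d ω i := by
      intro i
      change F.u ω i + b none * F.d ω i = _
      unfold Fam.x
      ring
    simp only [eν, eω, Polynomial.eval_C]
    obtain ⟨τ, hτ⟩ : ∃ τ, τ = b none - F.t ω := ⟨_, rfl⟩
    have hτa : |τ| ≤ 1 / 2 ^ a := by rw [hτ]; exact hb.1
    change |(F.d ω (c j) - F.d (ν (ptr F J ω)) (c j)) - ∑ k ∈ range j, ρ (ptr F J ω) k *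
        (F.d ω (c k) - F.d (ν (ptr F J ω)) (c k))| ≤ M * 2 ^ a at h2
    have h4 : |τ * ((F.d ω (c j) - F.d (ν (ptr F J ω)) (c j)) - ∑ k ∈ range j,
        ρ (ptr F J ω) k * (F.d ω (c k) - F.d (ν (ptr F J ω)) (c k)))| ≤ M := by
      rw [abs_mul]
      calc _ ≤ 1 / 2 ^ a * (M * 2 ^ a) := mul_le_mul hτa h2 (abs_nonneg _) (by positivity)
        _ = M := by field_simp
    rw [← hτ]
    change |∑ k ∈ range j, (ρ (ptr F J ω) k - (κ' (slam F w ω) k).eval (b none)) *
      (b (some (c k)) - (F.x ω (c k) + (b none - F.t ω) * F.d ω (c k)))| ≤ M at h3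
    rw [← hτ] at h3
    have key : b (some (c j)) - (F.x (ν (ptr F J ω)) (c j) + τ * F.d (ν (ptr F J ω)) (c j) +
          ∑ k ∈ range j, ρ (ptr F J ω) k *
            (b (some (c k)) - (F.x (ν (ptr F J ω)) (c k) + τ * F.d (ν (ptr F J ω)) (c k)))) -
        (b (some (c j)) - (F.x ω (c j) + τ * F.d ω (c j) +
          ∑ k ∈ range j, (κ' (slam F w ω) k).eval (b none) *
            (b (some (c k)) - (F.x ω (c k) + τ * F.d ω (c k))))) =
        ((F.x ω (c j) - F.x (ν (ptr F J ω)) (c j)) -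
          ∑ k ∈ range j, ρ (ptr F J ω) k * (F.x ω (c k) - F.x (ν (ptr F J ω)) (c k))) +
        τ * ((F.d ω (c j) - F.d (ν (ptr F J ω)) (c j)) - ∑ k ∈ range j,
          ρ (ptr F J ω) k * (F.d ω (c k) - F.d (ν (ptr F J ω)) (c k))) -
        ∑ k ∈ range j, (ρ (ptr F J ω) k - (κ' (slam F w ω) k).eval (b none)) *
          (b (some (c k)) - (F.x ω (c k) + τ * F.d ω (c k))) := by
      have s1 : ∑ k ∈ range j, ρ (ptr F J ω) k *
            (b (some (c k)) - (F.x (ν (ptr F J ω)) (c k) + τ * F.d (ν (ptr F J ω)) (c k))) =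
          ∑ k ∈ range j, ρ (ptr F J ω) k * (F.x ω (c k) - F.x (ν (ptr F J ω)) (c k)) +
          τ * ∑ k ∈ range j, ρ (ptr F J ω) k * (F.d ω (c k) - F.d (ν (ptr F J ω)) (c k)) +
          (∑ k ∈ range j, (ρ (ptr F J ω) k - (κ' (slam F w ω) k).eval (b none)) *
          (b (some (c k)) - (F.x ω (c k) + τ * F.d ω (c k))) +
          ∑ k ∈ range j, (κ' (slam F w ω) k).eval (b none) *
            (b (some (c k)) - (F.x ω (c k) + τ * F.d ω (c k)))) := by
        rw [Finset.mul_sum, ← Finset.sum_add_distrib, ← Finset.sum_add_distrib,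
          ← Finset.sum_add_distrib]
        refine Finset.sum_congr rfl fun k _ => ?_
        ring
      rw [s1]
      ring
    rw [key]
    obtain ⟨A₁, hA₁⟩ : ∃ A₁, A₁ = (F.x ω (c j) - F.x (ν (ptr F J ω)) (c j)) -
      ∑ k ∈ range j, ρ (ptr F J ω) k * (F.x ω (c k) - F.x (ν (ptr F J ω)) (c k)) := ⟨_, rfl⟩
    obtain ⟨A₂, hA₂⟩ : ∃ A₂, A₂ = τ * ((F.d ω (c j) - F.d (ν (ptr F J ω)) (c j)) -
      ∑ k ∈ range j, ρ (ptr F J ω) k * (F.d ω (c k) - F.d (ν (ptr F J ω)) (c k))) := ⟨_, rfl⟩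
    obtain ⟨A₃, hA₃⟩ : ∃ A₃, A₃ = ∑ k ∈ range j,
      (ρ (ptr F J ω) k - (κ' (slam F w ω) k).eval (b none)) *
      (b (some (c k)) - (F.x ω (c k) + τ * F.d ω (c k))) := ⟨_, rfl⟩
    rw [← hA₁] at h1 ⊢
    rw [← hA₂] at h4 ⊢
    rw [← hA₃] at h3 ⊢
    obtain ⟨p1, p2⟩ := abs_le.1 h1
    obtain ⟨p3, p4⟩ := abs_le.1 h4
    obtain ⟨p5, p6⟩ := abs_le.1 h3
    rw [abs_le]
    constructor <;> linarith
  obtain ⟨B'', hB'', hPe, hbd⟩ := hR B hB hP
    (fun y => rlp c j (F.u (ν y)) (F.d (ν y)) fun k => Polynomial.C (ρ y k))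
    (fun s => rlp c j s.1.1 s.1.2 (κ' s)) (3 * M)
    (fun y => rlp_deg (K := K) (fun k => by
      rw [Polynomial.natDegree_C]
      exact Nat.zero_le _) hD)
    (fun s => rlp_deg (hK s) hD) (fun y => rlp_dep _ _ _ _ _) (fun s => rlp_dep _ _ _ _ _) hM3
    hval hdif
  have hpos : 0 < Pe F.p B'' := by linarith
  obtain ⟨ω, hω⟩ : ∃ ω, B'' ω := by
    by_contra hcon
    push Not at hcon
    have h1 : Pe F.p B'' = 0 := by
      unfold Pe
      exact Finset.sum_eq_zero fun ω _ => by simp [hcon ω]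
    linarith
  have hBω := hB'' ω hω
  have hB0 := hB ω hBω
  -- two points of the box
  have hbox : ∀ s : ℝ, |s| ≤ 1 → NBx c (G (ptr F J ω)) g a (F.t ω) (j + 1)
      (Function.update (bt F ω) (some (c j))
        (eval (bt F ω) (G (ptr F J ω) j) + s / 2 ^ g j)) := by
    intro s hs
    have hne : ∀ l < j, c l ≠ c j := fun l hl h =>
      absurd (hc (show l < j + 1 by omega) (show j < j + 1 by omega) h) (by omega)
    have hG : ∀ l ≤ j, eval (Function.update (bt F ω) (some (c j))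
        (eval (bt F ω) (G (ptr F J ω) j) + s / 2 ^ g j)) (G (ptr F J ω) l) =
        eval (bt F ω) (G (ptr F J ω) l) := by
      intro l hl
      refine hL.depG _ l _ _ ?_ fun k hk => ?_
      · rw [Function.update_of_ne (by simp)]
      · rw [Function.update_of_ne]
        intro h
        exact hne k (by omega) (Option.some.inj h)
    refine ⟨?_, fun l hl => ?_⟩
    · rw [Function.update_of_ne (by simp)]
      change |F.t ω - F.t ω| ≤ _
      rw [sub_self, abs_zero]
      positivity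
    · rw [hG l (by omega)]
      rcases Nat.lt_or_ge l j with h | h
      · rw [Function.update_of_ne (fun h' => hne l h (Option.some.inj h'))]
        exact hL.pos ω hB0 l hl
      · have hlj : l = j := by omega
        rw [hlj, Function.update_self, add_sub_cancel_left, abs_div,
          abs_of_pos (show (0 : ℝ) < 2 ^ g j by positivity)]
        exact div_le_div_of_nonneg_right hs (by positivity)
  have h1 := hbd ω hω _ (hbox 1 (by norm_num))
  have h2 := hbd ω hω _ (hbox (-1) (by norm_num))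
  rw [rlp_eval] at h1 h2
  have hne : ∀ l < j, c l ≠ c j := fun l hl h =>
    absurd (hc (show l < j + 1 by omega) (show j < j + 1 by omega) h) (by omega)
  have hs : ∀ s : ℝ, ∑ k ∈ range j, (Polynomial.C (ρ (ptr F J ω) k)).eval
      (Function.update (bt F ω) (some (c j))
        (eval (bt F ω) (G (ptr F J ω) j) + s / 2 ^ g j) none) *
      (Function.update (bt F ω) (some (c j))
        (eval (bt F ω) (G (ptr F J ω) j) + s / 2 ^ g j) (some (c k)) -
        (F.u (ν (ptr F J ω)) (c k) + Function.update (bt F ω) (some (c j))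
        (eval (bt F ω) (G (ptr F J ω) j) + s / 2 ^ g j) none * F.d (ν (ptr F J ω)) (c k))) =
      ∑ k ∈ range j, (Polynomial.C (ρ (ptr F J ω) k)).eval (bt F ω none) *
        (bt F ω (some (c k)) - (F.u (ν (ptr F J ω)) (c k) +
          bt F ω none * F.d (ν (ptr F J ω)) (c k))) := by
    intro s
    refine Finset.sum_congr rfl fun k hk => ?_
    rw [Function.update_of_ne (by simp), Function.update_of_ne (fun h' =>
      hne k (Finset.mem_range.1 hk) (Option.some.inj h'))]
  rw [hs, Function.update_self, Function.update_of_ne (by simp)] at h1 h2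
  obtain ⟨q, hq⟩ : ∃ q, q = F.u (ν (ptr F J ω)) (c j) + bt F ω none *
    F.d (ν (ptr F J ω)) (c j) + ∑ k ∈ range j, (Polynomial.C (ρ (ptr F J ω) k)).eval
      (bt F ω none) * (bt F ω (some (c k)) - (F.u (ν (ptr F J ω)) (c k) +
          bt F ω none * F.d (ν (ptr F J ω)) (c k))) := ⟨_, rfl⟩
  rw [← hq] at h1 h2
  have h3 := (abs_le.1 h1).2
  have h4 := (abs_le.1 h2).1
  have h5 : (-1 : ℝ) / 2 ^ g j = -(1 / 2 ^ g j) := by ring
  rw [h5] at h4
  linarith
end Pool.NVX
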