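import Pool.Agent.H77.NV.S6a

/-!
# The slope of the plane is conjugate to the relation

`s6_conj`: in the plane of the ball, the direction of the relation of the slopes is conjugate to the
slope, up to a small error: otherwise the slope has a closed quadratic relation (`alg2`).
-/

set_option autoImplicit false

namespace Pool.NVX

open Finset Real MvPolynomial
open Pool.Agent.H49.Ent Pool.Agent.H32.Dense Pool.STK Pool.KA Pool.KSAT Pool.K2S Pool.PB Pool.S6C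
open Pool.GEN Pool.CHT
open Pool.D2R (dd hs dd_add dd_smul dd_congr hs_add_right hs_add_left hs_smul_right hs_smul_left
  hs_comm)
open Pool.F5 (lp gp der_lp dd_gp deg_gp deg_lp eo bdS bdS_slam eval_lp eval_gp)
open Pool.SHR (dir mvp dvc Shr RelvH dir_deg dir_dep relvF_low)
open Pool.PB.Trl (rt rt_mem t_rt)
open Pool.FLF (Fam.sub)

variable {m J : ℕ}

/-- The error of the quadratic relation. -/
theorem con_er {P₂ rel HXX HX2 H22 A G0 G2 GN L2 brk kn kk kx : ℝ} (hA : 0 < A) (hG0 : 0 < G0)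
    (hG2 : 0 < G2) (hGN : 0 < GN) (hL2 : 0 < L2) (hb : 1 ≤ brk) (hbr : brk * G2 ≤ 3 * L2)
    (hkn : 1 ≤ kn) (hkk : 1 ≤ kk) (hkx : 1 ≤ kx) (h1 : |P₂| ≤ A)
    (h2 : |HXX| ≤ G0 * G0 * kn / GN * brk) (h3 : |rel| ≤ A * G0 * kn * brk / L2)
    (h4 : |HX2| ≤ kk * G0 * (kx * (L2 / GN))) (h5 : |H22| ≤ kk * G2 * (kx * (L2 / GN))) :
    |P₂ ^ 2 * HXX - 2 * P₂ * rel * HX2 + rel ^ 2 * H22| ≤
      8 * (kn * kn * kk * kx) * (A ^ 2 * (G0 * G0 / GN) * brk) := by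
  obtain ⟨Z, hZ⟩ : ∃ Z : ℝ, Z = A ^ 2 * (G0 * G0 / GN) * brk := ⟨_, rfl⟩
  have hZ0 : 0 ≤ Z := by rw [hZ]; positivity
  have hρ0 : 0 ≤ A * G0 * kn * brk / L2 := by positivity
  have k1 : |P₂ ^ 2 * HXX| ≤ kn * Z := by
    rw [abs_mul, abs_pow]
    calc |P₂| ^ 2 * |HXX| ≤ A ^ 2 * (G0 * G0 * kn / GN * brk) :=
          mul_le_mul (pow_le_pow_left₀ (abs_nonneg _) h1 2) h2 (abs_nonneg _) (by positivity)
      _ = kn * Z := by rw [hZ]; ring
  have k2 : |2 * P₂ * rel * HX2| ≤ 2 * (kn * kk * kx) * Z := by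
    rw [abs_mul, abs_mul, abs_mul, abs_of_pos (show (0 : ℝ) < 2 by norm_num)]
    calc 2 * |P₂| * |rel| * |HX2| ≤ 2 * A * (A * G0 * kn * brk / L2) *
          (kk * G0 * (kx * (L2 / GN))) := by
          refine mul_le_mul (mul_le_mul (mul_le_mul_of_nonneg_left h1 (by norm_num)) h3
            (abs_nonneg _) (by positivity)) h4 (abs_nonneg _) (by positivity)
      _ = 2 * (kn * kk * kx) * Z := by rw [hZ]; field_simp
  have k3 : |rel ^ 2 * H22| ≤ 3 * (kn * kn * kk * kx) * Z := by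
    rw [abs_mul, abs_pow]
    calc |rel| ^ 2 * |H22| ≤ (A * G0 * kn * brk / L2) ^ 2 * (kk * G2 * (kx * (L2 / GN))) :=
          mul_le_mul (pow_le_pow_left₀ (abs_nonneg _) h3 2) h5 (abs_nonneg _) (by positivity)
      _ = (kn * kn * kk * kx) * Z * (brk * G2 / L2) := by rw [hZ]; field_simp
      _ ≤ (kn * kn * kk * kx) * Z * 3 := by
          refine mul_le_mul_of_nonneg_left ?_ (by positivity)
          rw [div_le_iff₀ hL2]
          exact hbr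
      _ = _ := by ring
  rw [← hZ]
  have m1 : kn ≤ kn * kn * kk * kx := by
    have a1 : kn ≤ kn * kn := le_mul_of_one_le_left (by linarith) hkn
    have a2 : kn * kn ≤ kn * kn * kk := le_mul_of_one_le_right (by positivity) hkk
    have a3 : kn * kn * kk ≤ kn * kn * kk * kx := le_mul_of_one_le_right (by positivity) hkx
    linarith
  have m2 : kn * kk * kx ≤ kn * kn * kk * kx := by
    have : kn * kk * kx ≤ kn * (kn * kk * kx) := le_mul_of_one_le_left (by positivity) hkn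
    calc _ ≤ _ := this
      _ = _ := by ring
  have s1 : |P₂ ^ 2 * HXX - 2 * P₂ * rel * HX2 + rel ^ 2 * H22| ≤
      |P₂ ^ 2 * HXX| + |2 * P₂ * rel * HX2| + |rel ^ 2 * H22| :=
    (abs_add_le _ _).trans (add_le_add (abs_sub _ _) le_rfl)
  have s2 : kn * Z ≤ (kn * kn * kk * kx) * Z := mul_le_mul_of_nonneg_right m1 hZ0
  have s3 : 2 * (kn * kk * kx) * Z ≤ 2 * (kn * kn * kk * kx) * Z :=
    mul_le_mul_of_nonneg_right (by linarith) hZ0
  have s4 : 0 ≤ (kn * kn * kk * kx) * Z := by positivity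
  nlinarith

/-- The value of the conjugate direction. -/
theorem con_fin {B W P₁ P₂ v₂ rel H12 H22 A G0 G1 G2 GN L2 brk kn kk kx kq E₁ : ℝ} (hA : 0 < A)
    (hG0 : 0 < G0) (hG1 : 0 < G1) (hG2 : 0 < G2) (hGN : 0 < GN) (hL2 : 0 < L2) (hb : 1 ≤ brk)
    (hkn : 1 ≤ kn) (hkk : 1 ≤ kk) (hkx : 1 ≤ kx) (hkq : 1 ≤ kq) (h1 : |P₂| ≤ A)
    (hlow : A / kx ≤ |P₂|) (h3 : |rel| ≤ A * G0 * kn * brk / L2)
    (h4 : |H12 + v₂ * H22| ≤ kk * G1 * (kx * (L2 / GN)))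
    (h5 : |H22| ≤ kk * G2 * (kx * (L2 / GN)))
    (h6 : |P₁ + v₂ * P₂| ≤ kq * (A * (G1 / G2))) (hB : |B| ≤ E₁)
    (hBe : B = P₂ * W - rel * (P₂ * H12 - P₁ * H22)) :
    |W| ≤ kx / A * (E₁ + 2 * (kn * kk * kx * kq) * (A ^ 2 * (G0 * G1 / GN) * brk)) := by
  obtain ⟨Z, hZ⟩ : ∃ Z : ℝ, Z = A ^ 2 * (G0 * G1 / GN) * brk := ⟨_, rfl⟩
  have hZ0 : 0 ≤ Z := by rw [hZ]; positivity
  have k1 : |P₂ * H12 - P₁ * H22| ≤ 2 * kq * (A * (kk * G1 * (kx * (L2 / GN)))) := by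
    have e1 : P₂ * H12 - P₁ * H22 = P₂ * (H12 + v₂ * H22) - (P₁ + v₂ * P₂) * H22 := by ring
    rw [e1]
    refine (abs_sub _ _).trans ?_
    rw [abs_mul, abs_mul]
    have a1 : |P₂| * |H12 + v₂ * H22| ≤ A * (kk * G1 * (kx * (L2 / GN))) :=
      mul_le_mul h1 h4 (abs_nonneg _) hA.le
    have a2 : |P₁ + v₂ * P₂| * |H22| ≤ kq * (A * (G1 / G2)) * (kk * G2 * (kx * (L2 / GN))) :=
      mul_le_mul h6 h5 (abs_nonneg _) (by positivity)
    have a3 : kq * (A * (G1 / G2)) * (kk * G2 * (kx * (L2 / GN))) =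
        kq * (A * (kk * G1 * (kx * (L2 / GN)))) := by field_simp
    have a4 : A * (kk * G1 * (kx * (L2 / GN))) ≤ kq * (A * (kk * G1 * (kx * (L2 / GN)))) :=
      le_mul_of_one_le_left (by positivity) hkq
    linarith
  have k2 : |rel * (P₂ * H12 - P₁ * H22)| ≤ 2 * (kn * kk * kx * kq) * Z := by
    rw [abs_mul]
    calc |rel| * |P₂ * H12 - P₁ * H22| ≤ A * G0 * kn * brk / L2 *
          (2 * kq * (A * (kk * G1 * (kx * (L2 / GN))))) :=
          mul_le_mul h3 k1 (abs_nonneg _) (by positivity)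
      _ = _ := by rw [hZ]; field_simp
  have k3 : |P₂| * |W| ≤ E₁ + 2 * (kn * kk * kx * kq) * Z := by
    have e1 : P₂ * W = B + rel * (P₂ * H12 - P₁ * H22) := by rw [hBe]; ring
    rw [← abs_mul, e1]
    exact (abs_add_le _ _).trans (add_le_add hB k2)
  rw [← hZ]
  have k4 : A / kx * |W| ≤ E₁ + 2 * (kn * kk * kx * kq) * Z :=
    (mul_le_mul_of_nonneg_right hlow (abs_nonneg _)).trans k3
  have k5 : |W| = kx / A * (A / kx * |W|) := by field_simp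
  rw [k5]
  exact mul_le_mul_of_nonneg_left k4 (by positivity)

/-- The bracket. -/
theorem brk_le {g₁ g₂ lam₁ lam₂ p q : ℕ} (h1 : g₂ ≤ lam₂) (h2 : lam₁ + g₂ ≤ lam₂ + g₁ + q)
    (h3 : q ≤ p) : (1 + (2 : ℝ) ^ lam₁ / 2 ^ (g₁ + p) + 2 ^ lam₂ / 2 ^ (g₂ + p)) * 2 ^ g₂ ≤
      3 * 2 ^ lam₂ := by
  have pw : ∀ {x y : ℕ}, x ≤ y → (2 : ℝ) ^ x ≤ 2 ^ y := fun h => pow_le_pow_right₀ (by norm_num) h
  have a1 : (2 : ℝ) ^ g₂ ≤ 2 ^ lam₂ := pw h1
  have a2 : (2 : ℝ) ^ lam₁ / 2 ^ (g₁ + p) * 2 ^ g₂ ≤ 2 ^ lam₂ := by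
    rw [div_mul_eq_mul_div, div_le_iff₀ (by positivity), ← pow_add, ← pow_add]
    exact pw (by omega)
  have a3 : (2 : ℝ) ^ lam₂ / 2 ^ (g₂ + p) * 2 ^ g₂ ≤ 2 ^ lam₂ := by
    rw [div_mul_eq_mul_div, div_le_iff₀ (by positivity), ← pow_add, ← pow_add]
    exact pw (by omega)
  linarith

/-- **(S6) The direction of the relation is conjugate to the slope of the plane**, at the time of the
sample. -/
theorem s6_conj (m D M : ℕ) : ∃ (C : ℕ) (C₁ : ℝ), 1 ≤ C₁ ∧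
    ∀ {J : ℕ} {F : Fam m J} {c : ℕ → Fin m}
    {a w w₂ e h h' n n' p q s x xX lam₁ lam₂ D' D₂ D₃ G : ℕ} {g gN g₄ : ℕ → ℕ} {κ θ : ℝ}
    {B₀ A B : F.Ω → Prop} {T T₄ : PtT F → ℕ → MvPolynomial (Option (Fin m)) ℝ}
    {TH NH : LnT F → ℕ → MvPolynomial (Option (Fin m)) ℝ} {v : PtT F → Fin m → ℝ}
    {X : PtT F → Option (Fin m) → ℝ} {ν₀ : PtT F → F.Ω} {ξ : LnT F → Polynomial ℝ}
    {al₂ : PtT F → ℝ},
    Set.InjOn c (Set.Iio 3) → C ≤ D₂ → RelvF F c 2 a w₂ g D₂ h κ B₀ T →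
    ChOK F c 2 (fun _ => D') a w₂ e g B₀ T TH →
    Rel3 F c a w e n p lam₁ lam₂ D₃ h' g gN g₄ A B T T₄ NH v X ν₀ → Sub B B₀ →
    0 < Pe F.p B → 0 ≤ κ → κ * 2 ^ C * Pe F.p B₀ ≤ Pe F.p B →
    w + C * (n' + h + s + 1) ≤ w₂ → w₂ ≤ a → a + 1 ≤ J →
    (∀ (B' : F.Ω → Prop) (hB' : 0 < Pe F.p B'), Sub B' B → Pe F.p B ≤ 2 ^ C * Pe F.p B' →
      (Fam.sub F B' hB').Tm θ) → 0 ≤ θ → C₁ * (θ + 1) ≤ ((J : ℝ) - w) * Real.log 2 →
    C₁ * (θ + 1) ≤ s → g 1 + w * M ≤ gN 1 + w₂ * M →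
    (∀ s', (NH s' 3).totalDegree ≤ D) → (∀ s', DepC c 3 (NH s' 3)) →
    (∀ s', (ξ s').natDegree ≤ D) → (∀ y l, (T y l).totalDegree ≤ D) →
    (∀ y l, DepC c l (T y l)) → (∀ y, v y (c 1) = 1 ∧ v y (c 0) = 0) →
    (∀ ω, B ω → Shr F c 1 a g T v x 2 ω) →
    (∀ ω, B ω → |X (ptr F J ω) (some (c 1))| ≤ 2 ^ xX) → xX + g 1 + C * (n' + h + 1) ≤ J →
    C * (n' + h + 1) ≤ p →
    (∀ ω, B ω → ∀ b, NBx c (T (ptr F J ω)) g a (F.t ω) 1 b →
      |b (some (c 0)) - (F.x ω (c 0) + (b none - F.t ω) * bd F ω (some (c 0)))| ≤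
        2 ^ n' / 2 ^ g 0) →
    (∀ ω, B ω → ∀ b, NBx c (T (ptr F J ω)) g a (F.t ω) 2 b →
      |(b (some (c 1)) - (F.x ω (c 1) + (b none - F.t ω) * bd F ω (some (c 1)))) -
        X (ptr F J ω) (some (c 1)) *
        (b (some (c 0)) - (F.x ω (c 0) + (b none - F.t ω) * bd F ω (some (c 0))))| ≤
        2 ^ n' / 2 ^ g 1) →
    (∀ ω, B ω → ∀ t : ℝ, |t - F.t ω| ≤ 1 / 2 ^ a →
      |X (ptr F J ω) (some (c 1)) - (ξ (slam F w ω)).eval t| ≤
        2 ^ n' * (2 ^ g 0 / 2 ^ gN 1)) →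
    (∀ ω, B ω → ∀ b, NBx c (T (ptr F J ω)) g a (F.t ω) 3 b →
      |eval b (dir (ek (c 2)) (NH (slam F w ω) 3)) - al₂ (ptr F J ω)| ≤
        2 ^ x * (2 ^ lam₂ / 2 ^ gN 3)) →
    (∀ ω, B ω → ∀ t : ℝ, |t - F.t ω| ≤ 1 / 2 ^ a →
      |(hcl (c 2) (NH (slam F w ω) 3) (slam F w ω)).eval t| ≤ 2 ^ (a + lam₂) / 2 ^ gN 3) →
    (∀ ω, B ω → 2 ^ (a + lam₂) / 2 ^ gN 3 / 2 ^ x ≤
      |(hcl (c 2) (NH (slam F w ω) 3) (slam F w ω)).eval (F.t ω)|) →
    (∀ ω, B ω → |(hcl (c 1) (NH (slam F w ω) 3) (slam F w ω)).eval (F.t ω) +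
      v (ptr F J ω) (c 2) * (hcl (c 2) (NH (slam F w ω) 3) (slam F w ω)).eval (F.t ω)| ≤
      2 ^ (q + a + lam₂) / 2 ^ gN 3 * (2 ^ g 1 / 2 ^ g 2)) →
    g 2 ≤ lam₂ → lam₁ + g 2 ≤ lam₂ + g 1 + q → q ≤ p → gN 1 ≤ g 1 + s →
    C * (w₂ + n' + h + s + 1) ≤ G + C * w →
    ∃ B' : F.Ω → Prop, Sub B' B ∧ Pe F.p B / 2 ≤ Pe F.p B' ∧ ∀ ω, B' ω →
      |(hcl (c 2) (NH (slam F w ω) 3) (slam F w ω)).eval (F.t ω) *
          hs (NH (slam F w ω) 3) (bt F ω) (X (ptr F J ω)) (eo (some (c 1))) -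
        (hcl (c 1) (NH (slam F w ω) 3) (slam F w ω)).eval (F.t ω) *
          hs (NH (slam F w ω) 3) (bt F ω) (X (ptr F J ω)) (eo (some (c 2)))| ≤
      2 ^ (G + q + C * (n + n' + x + h + s + 1)) * (2 ^ (a + lam₂) / 2 ^ gN 3) *
        (2 ^ (g 0 + g 1) / 2 ^ gN 3) *
        (1 + 2 ^ lam₁ / 2 ^ (g 1 + p) + 2 ^ lam₂ / 2 ^ (g 2 + p)) := by
  classical
  obtain ⟨cA, C₁, hC₁, halg⟩ := alg2 m (5 * D) M
  obtain ⟨cH, hhes⟩ := hes_bd D
  have pw : ∀ {x y : ℕ}, x ≤ y → (2 : ℝ) ^ x ≤ 2 ^ y := fun h => pow_le_pow_right₀ (by norm_num) h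
  refine ⟨cA + cH + 9, C₁, hC₁, ?_⟩
  intro J F c a w w₂ e h h' n n' p q s x xX lam₁ lam₂ D' D₂ D₃ G g gN g₄ κ θ B₀ A B T T₄ TH NH v X
    ν₀ ξ al₂ hc hD₂ hR hL H hB hPB hκ hκP hww hw2a haJ1 hTm hθ hθJ hθs hgM hNd hNp hξ hTd hTp hvv
    hS hX hxJ hp hb1 hb2 hy hbox hup hlow hCv hg2 hlg hqp hgN1 hG
  obtain ⟨C, hC⟩ : ∃ C, C = cA + cH + 9 := ⟨_, rfl⟩
  rw [← hC] at hD₂ hκP hww hTm hxJ hp hG ⊢
  have haJ : a ≤ J := by omega
  have hw : w ≤ w₂ := (Nat.le_add_right _ _).trans hww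
  have hwa : w ≤ a := hw.trans hw2a
  have hwJ : w ≤ J := hwa.trans haJ
  have hc2 : Set.InjOn c (Set.Iio 2) := hc.mono (Set.Iio_subset_Iio (by norm_num))
  have hAC : cA + 1 ≤ C := by rw [hC]; omega
  have mCA : ∀ y : ℕ, cA * y ≤ C * y := fun y => Nat.mul_le_mul_right _ (by omega)
  -- the numbers
  obtain ⟨A₀, hA₀⟩ : ∃ A₀ : ℝ, A₀ = 2 ^ (a + lam₂) / 2 ^ gN 3 := ⟨_, rfl⟩
  have hA0 : 0 < A₀ := by rw [hA₀]; positivity
  obtain ⟨brk, hbrk⟩ : ∃ brk : ℝ,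
    brk = 1 + 2 ^ lam₁ / 2 ^ (g 1 + p) + 2 ^ lam₂ / 2 ^ (g 2 + p) := ⟨_, rfl⟩
  have hb1' : 1 ≤ brk := by
    rw [hbrk]
    have h1 : (0 : ℝ) ≤ 2 ^ lam₁ / 2 ^ (g 1 + p) := by positivity
    have h2 : (0 : ℝ) ≤ 2 ^ lam₂ / 2 ^ (g 2 + p) := by positivity
    linarith
  have hbr : brk * 2 ^ g 2 ≤ 3 * 2 ^ lam₂ := by rw [hbrk]; exact brk_le hg2 hlg hqp
  obtain ⟨k, hk⟩ : ∃ k, k = cH * (n + x + 1) := ⟨_, rfl⟩
  obtain ⟨Z, hZ⟩ : ∃ Z, Z = n + n + k + x + 3 := ⟨_, rfl⟩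
  obtain ⟨η₀, hη₀⟩ : ∃ η₀ : ℝ, η₀ = 2 ^ Z * (A₀ ^ 2 * (2 ^ g 0 * 2 ^ g 0 / 2 ^ gN 3) * brk) :=
    ⟨_, rfl⟩
  have hη0 : 0 ≤ η₀ := by rw [hη₀]; positivity
  obtain ⟨Y₁, hY₁⟩ : ∃ Y₁ : ℝ, Y₁ = 2 ^ g 0 / 2 ^ gN 1 := ⟨_, rfl⟩
  have hY0 : 0 < Y₁ := by rw [hY₁]; positivity
  rw [← hA₀] at hlow
  have hCv' : ∀ ω, B ω → |(hcl (c 1) (NH (slam F w ω) 3) (slam F w ω)).eval (F.t ω) +
      v (ptr F J ω) (c 2) * (hcl (c 2) (NH (slam F w ω) 3) (slam F w ω)).eval (F.t ω)| ≤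
      2 ^ q * (A₀ * (2 ^ g 1 / 2 ^ g 2)) := by
    intro ω hω
    refine (hCv ω hω).trans (le_of_eq ?_)
    rw [hA₀, Nat.add_assoc, pow_add 2 q]
    ring
  -- the polynomials
  obtain ⟨P, hP⟩ : ∃ P : ℕ → LnT F → Polynomial ℝ, P = fun i s' => hcl (c i) (NH s' 3) s' :=
    ⟨_, rfl⟩
  obtain ⟨E, hE⟩ : ∃ E : ℕ → ℕ → LnT F → Polynomial ℝ, E = fun i j s' => hij c i j (NH s' 3) s' :=
    ⟨_, rfl⟩
  have hPd : ∀ i s', (P i s').natDegree ≤ D := fun i s' => by rw [hP]; exact hcl_deg _ (hNd s') _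
  have hEd : ∀ i j s', (E i j s').natDegree ≤ D := fun i j s' => by
    rw [hE]
    exact hij_deg c i j (hNd s') _
  obtain ⟨al, hal⟩ : ∃ al : LnT F → Polynomial ℝ, al = fun s' => P 2 s' ^ 2 * E 0 0 s' -
    2 * P 0 s' * P 2 s' * E 0 2 s' + P 0 s' ^ 2 * E 2 2 s' := ⟨_, rfl⟩
  obtain ⟨be, hbe⟩ : ∃ be : LnT F → Polynomial ℝ, be = fun s' => P 2 s' ^ 2 * E 0 1 s' -
    P 0 s' * P 2 s' * E 1 2 s' - P 1 s' * P 2 s' * E 0 2 s' + P 0 s' * P 1 s' * E 2 2 s' :=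
    ⟨_, rfl⟩
  obtain ⟨ga, hga⟩ : ∃ ga : LnT F → Polynomial ℝ, ga = fun s' => P 2 s' ^ 2 * E 1 1 s' -
    2 * P 1 s' * P 2 s' * E 1 2 s' + P 1 s' ^ 2 * E 2 2 s' := ⟨_, rfl⟩
  have d3 : ∀ (P Q R : Polynomial ℝ), P.natDegree ≤ D → Q.natDegree ≤ D → R.natDegree ≤ D →
      (P * Q * R).natDegree ≤ 3 * D := by
    intro P Q R h1 h2 h3
    have k1 := Polynomial.natDegree_mul_le (p := P) (q := Q)
    have k2 := Polynomial.natDegree_mul_le (p := P * Q) (q := R)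
    omega
  have d3s : ∀ (P R : Polynomial ℝ), P.natDegree ≤ D → R.natDegree ≤ D →
      (P ^ 2 * R).natDegree ≤ 3 * D := by
    intro P R h1 h2
    rw [pow_two]
    exact d3 _ _ _ h1 h1 h2
  have d3t : ∀ (P Q R : Polynomial ℝ), P.natDegree ≤ D → Q.natDegree ≤ D → R.natDegree ≤ D →
      (2 * P * Q * R).natDegree ≤ 3 * D := by
    intro P Q R h1 h2 h3
    have e1 : 2 * P * Q * R = Polynomial.C 2 * (P * Q * R) := by
      rw [show (Polynomial.C (2 : ℝ)) = 2 from rfl]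
      ring
    rw [e1]
    exact (Polynomial.natDegree_C_mul_le _ _).trans (d3 _ _ _ h1 h2 h3)
  have hald : ∀ s', (al s').natDegree ≤ 3 * D := by
    intro s'
    rw [hal]
    refine (Polynomial.natDegree_add_le _ _).trans (max_le ((Polynomial.natDegree_sub_le _ _).trans
      (max_le ?_ ?_)) ?_)
    · exact d3s _ _ (hPd _ _) (hEd _ _ _)
    · exact d3t _ _ _ (hPd _ _) (hPd _ _) (hEd _ _ _)
    · exact d3s _ _ (hPd _ _) (hEd _ _ _)
  have hbed : ∀ s', (be s').natDegree ≤ 3 * D := by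
    intro s'
    rw [hbe]
    refine (Polynomial.natDegree_add_le _ _).trans (max_le ((Polynomial.natDegree_sub_le _ _).trans
      (max_le ((Polynomial.natDegree_sub_le _ _).trans (max_le ?_ ?_)) ?_)) ?_)
    · exact d3s _ _ (hPd _ _) (hEd _ _ _)
    · exact d3 _ _ _ (hPd _ _) (hPd _ _) (hEd _ _ _)
    · exact d3 _ _ _ (hPd _ _) (hPd _ _) (hEd _ _ _)
    · exact d3 _ _ _ (hPd _ _) (hPd _ _) (hEd _ _ _)
  have hgad : ∀ s', (ga s').natDegree ≤ 3 * D := by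
    intro s'
    rw [hga]
    refine (Polynomial.natDegree_add_le _ _).trans (max_le ((Polynomial.natDegree_sub_le _ _).trans
      (max_le ?_ ?_)) ?_)
    · exact d3s _ _ (hPd _ _) (hEd _ _ _)
    · exact d3t _ _ _ (hPd _ _) (hPd _ _) (hEd _ _ _)
    · exact d3s _ _ (hPd _ _) (hEd _ _ _)
  obtain ⟨Q, hQ⟩ : ∃ Q : ℕ → LnT F → Polynomial ℝ, Q = fun i s' =>
    if i = 0 then al s' + 2 * (be s' * ξ s') + ga s' * (ξ s' * ξ s') else
      if i = 1 then Polynomial.C Y₁ * (be s' + ga s' * ξ s') else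
        Polynomial.C (Y₁ ^ 2) * ga s' := ⟨_, rfl⟩
  have hQ0 : ∀ s', Q 0 s' = al s' + 2 * (be s' * ξ s') + ga s' * (ξ s' * ξ s') := fun s' => by
    rw [hQ]; simp
  have hQ1 : ∀ s', Q 1 s' = Polynomial.C Y₁ * (be s' + ga s' * ξ s') := fun s' => by
    rw [hQ]; simp
  have hQ2 : ∀ s', Q 2 s' = Polynomial.C (Y₁ ^ 2) * ga s' := fun s' => by rw [hQ]; simp
  have hQd : ∀ i < 3, ∀ s', (Q i s').natDegree ≤ 5 * D := by
    intro i hi s'
    have a1 := hald s'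
    have a2 := hbed s'
    have a3 := hgad s'
    have a4 := hξ s'
    have a5 : (be s' * ξ s').natDegree ≤ 4 * D := by
      have := Polynomial.natDegree_mul_le (p := be s') (q := ξ s')
      omega
    have a6 : (ga s' * ξ s').natDegree ≤ 4 * D := by
      have := Polynomial.natDegree_mul_le (p := ga s') (q := ξ s')
      omega
    have a7 : (ξ s' * ξ s').natDegree ≤ 2 * D := by
      have := Polynomial.natDegree_mul_le (p := ξ s') (q := ξ s')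
      omega
    have a8 : (ga s' * (ξ s' * ξ s')).natDegree ≤ 5 * D := by
      have := Polynomial.natDegree_mul_le (p := ga s') (q := ξ s' * ξ s')
      omega
    interval_cases i
    · rw [hQ0]
      refine (Polynomial.natDegree_add_le _ _).trans (max_le ((Polynomial.natDegree_add_le _ _).trans
        (max_le (by omega) ?_)) a8)
      rw [show (2 : Polynomial ℝ) = Polynomial.C 2 from rfl]
      exact (Polynomial.natDegree_C_mul_le _ _).trans (by omega)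
    · rw [hQ1]
      exact (Polynomial.natDegree_C_mul_le _ _).trans ((Polynomial.natDegree_add_le _ _).trans
        (max_le (by omega) (by omega)))
    · rw [hQ2]
      exact (Polynomial.natDegree_C_mul_le _ _).trans (by omega)
  -- the data at one sample and one time
  have hself : ∀ ω, |F.t ω - F.t ω| ≤ 1 / 2 ^ a := fun ω => by
    rw [sub_self, abs_zero]; positivity
  have hdat : ∀ ω, B ω → ∀ t : ℝ, |t - F.t ω| ≤ 1 / 2 ^ a →
      ∃ rel : ℝ, |rel| ≤ A₀ * 2 ^ g 0 * 2 ^ n * brk / 2 ^ lam₂ ∧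
      |(E 2 2 (slam F w ω)).eval t| ≤ 2 ^ k * 2 ^ g 2 * (2 ^ x * (2 ^ lam₂ / 2 ^ gN 3)) ∧
      |(E 1 2 (slam F w ω)).eval t + v (ptr F J ω) (c 2) * (E 2 2 (slam F w ω)).eval t| ≤
        2 ^ k * 2 ^ g 1 * (2 ^ x * (2 ^ lam₂ / 2 ^ gN 3)) ∧
      |(al (slam F w ω)).eval t + 2 * (be (slam F w ω)).eval t * X (ptr F J ω) (some (c 1)) +
        (ga (slam F w ω)).eval t * X (ptr F J ω) (some (c 1)) ^ 2| ≤ η₀ ∧
      (be (slam F w ω)).eval t + (ga (slam F w ω)).eval t * X (ptr F J ω) (some (c 1)) =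
        (P 2 (slam F w ω)).eval t * ((P 2 (slam F w ω)).eval t *
          hs (NH (slam F w ω) 3) (bt F ω + (t - F.t ω) • bd F ω) (X (ptr F J ω))
            (eo (some (c 1))) - (P 1 (slam F w ω)).eval t *
          hs (NH (slam F w ω) 3) (bt F ω + (t - F.t ω) • bd F ω) (X (ptr F J ω))
            (eo (some (c 2)))) -
        rel * ((P 2 (slam F w ω)).eval t * (E 1 2 (slam F w ω)).eval t -
          (P 1 (slam F w ω)).eval t * (E 2 2 (slam F w ω)).eval t) := by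
    intro ω hω t ht
    obtain ⟨r1, r2, r3⟩ := hhes (c := c) (a := a) (n := n) (x := x) (g := g)
      (M := 2 ^ x * (2 ^ lam₂ / 2 ^ gN 3)) (al := al₂ (ptr F J ω)) (R := NH (slam F w ω) 3)
      (T := T) (v := v) (X := X (ptr F J ω)) (ω := ω) hc hTd hTp (hNd _) (hNp _) (H.x0 ω hω)
      (hvv _).1 (hvv _).2 (hS ω hω) (H.pl ω hω) (by positivity) (hbox ω hω) t ht
    rw [← hk] at r1 r2 r3
    obtain ⟨R, hRR⟩ : ∃ R, R = NH (slam F w ω) 3 := ⟨_, rfl⟩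
    obtain ⟨y, hyy⟩ : ∃ y, y = bt F ω + (t - F.t ω) • bd F ω := ⟨_, rfl⟩
    have hPe : ∀ i, (P i (slam F w ω)).eval t = (hcl (c i) R (slam F w ω)).eval t := fun i => by
      rw [hP, hRR]
    have hEe : ∀ i j, (E i j (slam F w ω)).eval t =
        hs R y (eo (some (c i))) (eo (some (c j))) := fun i j => by
      rw [hE, hRR, hyy]
      exact hij_eval F w ω c i j _ t
    rw [← hRR, ← hyy] at r1 r2 r3 ⊢
    obtain ⟨rel, hrel⟩ : ∃ rel : ℝ, rel = (P 0 (slam F w ω)).eval t +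
      (P 1 (slam F w ω)).eval t * X (ptr F J ω) (some (c 1)) +
      (P 2 (slam F w ω)).eval t * X (ptr F J ω) (some (c 2)) := ⟨_, rfl⟩
    have hrelb : |rel| ≤ A₀ * 2 ^ g 0 * 2 ^ n * brk / 2 ^ lam₂ := by
      have h1 := H.rel ω hω t ht
      rw [← hRR, ← hPe, ← hPe, ← hPe, ← hbrk] at h1
      have e1 : rel = (P 0 (slam F w ω)).eval t + ((P 1 (slam F w ω)).eval t +
          v (ptr F J ω) (c 2) * (P 2 (slam F w ω)).eval t) * X (ptr F J ω) (some (c 1)) +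
          (P 2 (slam F w ω)).eval t * (X (ptr F J ω) (some (c 2)) -
            v (ptr F J ω) (c 2) * X (ptr F J ω) (some (c 1))) := by rw [hrel]; ring
      rw [e1]
      refine h1.trans (le_of_eq ?_)
      rw [hA₀, pow_add, pow_add, pow_add]
      field_simp
    obtain ⟨c1, c2⟩ := con_id hc (R := R) (by rw [hRR]; exact hNp _) (X := X (ptr F J ω))
      (H.x0 ω hω) (H.x1 ω hω) y ((P 0 (slam F w ω)).eval t) ((P 1 (slam F w ω)).eval t)
      ((P 2 (slam F w ω)).eval t) (X (ptr F J ω) (some (c 1))) rel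
      (al := (al (slam F w ω)).eval t) (be := (be (slam F w ω)).eval t)
      (ga := (ga (slam F w ω)).eval t) (hEe 0 0) (hEe 0 1) (hEe 0 2) (hEe 1 1) (hEe 1 2)
      (hEe 2 2) rfl hrel (by
        rw [hal]
        simp only [Polynomial.eval_add, Polynomial.eval_sub, Polynomial.eval_mul,
          Polynomial.eval_pow, Polynomial.eval_ofNat]) (by
        rw [hbe]
        simp only [Polynomial.eval_add, Polynomial.eval_sub, Polynomial.eval_mul,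
          Polynomial.eval_pow]) (by
        rw [hga]
        simp only [Polynomial.eval_add, Polynomial.eval_sub, Polynomial.eval_mul,
          Polynomial.eval_pow, Polynomial.eval_ofNat])
    refine ⟨rel, hrelb, by rw [hEe]; exact r2, ?_, ?_, c2⟩
    · rw [hEe, hEe]
      have h1 : hs R y (dvc (v (ptr F J ω))) (eo (some (c 2))) =
          hs R y (eo (some (c 1))) (eo (some (c 2))) +
            v (ptr F J ω) (c 2) * hs R y (eo (some (c 2))) (eo (some (c 2))) := by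
        rw [hs_comm, hs_v1 hc (by rw [hRR]; exact hNp _) (hvv _).1 (hvv _).2,
          hs_comm R y (eo (some (c 2))) (eo (some (c 1)))]
      rw [← h1]
      exact r3
    · rw [c1]
      have hXX := H.xx ω hω t ht
      rw [← hRR, ← hyy, ← hbrk] at hXX
      have hupt := hup ω hω t ht
      rw [← hRR, ← hPe, ← hA₀] at hupt
      refine (con_er (A := A₀) (G0 := 2 ^ g 0) (G2 := 2 ^ g 2) (GN := 2 ^ gN 3) (L2 := 2 ^ lam₂)
        (brk := brk) (kn := 2 ^ n) (kk := 2 ^ k) (kx := 2 ^ x) hA0 (by positivity) (by positivity)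
        (by positivity) (by positivity) hb1' hbr (one_le_pow₀ (by norm_num))
        (one_le_pow₀ (by norm_num)) (one_le_pow₀ (by norm_num)) hupt ?_ hrelb r1
        (by rw [hEe]; exact r2)).trans (le_of_eq ?_)
      · refine hXX.trans (le_of_eq ?_)
        rw [pow_add, pow_add]
      · rw [hη₀, hZ]
        simp only [pow_add]
        ring
  -- the bad event
  obtain ⟨Bd, hBd⟩ : ∃ Bd : F.Ω → Prop, Bd = fun ω => B ω ∧ ∃ i < 3, 2 ^ G * η₀ <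
    wmx w (slam F w ω).2.2 (Q i (slam F w ω)) := ⟨_, rfl⟩
  have hBdB : Sub Bd B := fun ω h => by rw [hBd] at h; exact h.1
  have hlt : Pe F.p Bd < Pe F.p B / 2 := by
    by_contra hcon
    rw [not_lt] at hcon
    have hPBd : 0 < Pe F.p Bd := lt_of_lt_of_le (by linarith) hcon
    have hPe2 : Pe F.p B ≤ 2 * Pe F.p Bd := by linarith
    refine halg (F := F) (c := c) (a := a) (w := w) (w₂ := w₂) (e := e) (h := h) (n := n')
      (n₁ := gN 1) (p := p) (s := s) (x := xX) (D' := D') (D₂ := D₂) (G := G) (g := g) (κ := κ)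
      (θ := θ) (B₀ := B₀) (B := Bd) (T := T) (TH := TH) (ν := ν₀)
      (X := fun y => X y (some (c 1))) (ξ := ξ) (q := Q) (η := fun _ => η₀) hc2 (by omega) hR hL
      (fun ω h => hB ω (hBdB ω h)) hPBd hκ ?_ ?_ hw2a haJ ?_ hθ hθJ hθs hgM
      (fun s' => (hξ s').trans (by omega)) hQd (fun ω h => H.nu ω (hBdB ω h))
      (fun ω h => hX ω (hBdB ω h)) ?_ (fun ω h => H.ve1 ω (hBdB ω h)) ?_
      (fun ω h => hb1 ω (hBdB ω h)) (fun ω h => hb2 ω (hBdB ω h))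
      (fun ω h => hy ω (hBdB ω h)) ?_ ?_ ?_
    · have h1 : κ * 2 ^ (cA + 1) * Pe F.p B₀ ≤ κ * 2 ^ C * Pe F.p B₀ :=
        mul_le_mul_of_nonneg_right (mul_le_mul_of_nonneg_left (pw hAC) hκ)
          (Pe_nonneg F.isLaw B₀)
      have h2 : κ * 2 ^ (cA + 1) * Pe F.p B₀ = 2 * (κ * 2 ^ cA * Pe F.p B₀) := by
        rw [pow_succ]; ring
      linarith
    · have := mCA (n' + h + s + 1)
      omega
    · intro B' hB' h1 h2
      refine hTm B' hB' (fun ω h => hBdB ω (h1 ω h)) ?_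
      calc Pe F.p B ≤ 2 * Pe F.p Bd := hPe2
        _ ≤ 2 * (2 ^ cA * Pe F.p B') := by linarith
        _ = 2 ^ (cA + 1) * Pe F.p B' := by rw [pow_succ]; ring
        _ ≤ _ := mul_le_mul_of_nonneg_right (pw hAC) (Pe_nonneg F.isLaw B')
    · have := mCA (n' + h + 1)
      omega
    · have := mCA (n' + h + 1)
      omega
    · intro ω hω t ht
      obtain ⟨rel, -, -, -, h1, -⟩ := hdat ω (hBdB ω hω) t ht
      rw [hQ0, hQ1, hQ2, ← hY₁]
      refine le_trans (le_of_eq ?_) h1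
      congr 1
      simp only [Polynomial.eval_add, Polynomial.eval_mul, Polynomial.eval_C, Polynomial.eval_ofNat]
      field_simp
      ring
    · obtain ⟨d, hd⟩ : ∃ d, w₂ = w + d := ⟨w₂ - w, by omega⟩
      have e1 : C * (w₂ + n' + h + s + 1) = C * w + C * (d + n' + h + s + 1) := by
        rw [hd]; ring
      have e2 : cA * (w₂ + n' + h + s + 1) = cA * w + cA * (d + n' + h + s + 1) := by
        rw [hd]; ring
      have e3 := mCA (d + n' + h + s + 1)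
      omega
    · intro ω hω
      rw [hBd] at hω
      exact hω.2
  refine ⟨fun ω => B ω ∧ ¬ Bd ω, fun ω h => h.1, ?_, fun ω hω => ?_⟩
  · have h1 : Pe F.p B = Pe F.p (fun ω => B ω ∧ Bd ω) + Pe F.p (fun ω => B ω ∧ ¬ Bd ω) := by
      simp_rw [Pe_eq]
      rw [← Finset.sum_add_distrib]
      refine Finset.sum_congr rfl fun ω _ => ?_
      by_cases h2 : Bd ω <;> by_cases h3 : B ω <;> simp [h2, h3]
    have h2 : Pe F.p (fun ω => B ω ∧ Bd ω) ≤ Pe F.p Bd := Pe_mono F.isLaw fun ω h => h.2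
    linarith
  obtain ⟨hωB, hωn⟩ := hω
  have hQle : ∀ i < 3, |(Q i (slam F w ω)).eval (F.t ω)| ≤ 2 ^ G * η₀ := by
    intro i hi
    have h1 : F.t ω - rt F w ω / 2 ^ w ≤ F.t ω ∧ F.t ω ≤ F.t ω + (1 - rt F w ω) / 2 ^ w := by
      obtain ⟨r0, r1⟩ := rt_mem F w ω
      have a1 : 0 ≤ rt F w ω / 2 ^ w := div_nonneg r0 (by positivity)
      have a2 : 0 ≤ (1 - rt F w ω) / 2 ^ w := div_nonneg (by linarith) (by positivity)
      constructor <;> linarith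
    refine (le_wmx (P := Q i (slam F w ω)) ((win_iff hwJ ω _).1 h1)).trans ?_
    by_contra hcon
    rw [not_le] at hcon
    refine hωn ?_
    rw [hBd]
    exact ⟨hωB, i, hi, hcon⟩
  obtain ⟨rel, hrel, h22, hv2, -, hid⟩ := hdat ω hωB (F.t ω) (hself ω)
  rw [sub_self, zero_smul, add_zero] at hid
  have hPe : ∀ i, (P i (slam F w ω)).eval (F.t ω) =
      (hcl (c i) (NH (slam F w ω) 3) (slam F w ω)).eval (F.t ω) := fun i => by rw [hP]
  have hyω := hy ω hωB (F.t ω) (hself ω)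
  rw [← hY₁] at hyω
  -- the slope of the quadratic relation
  have hBb : |(be (slam F w ω)).eval (F.t ω) + (ga (slam F w ω)).eval (F.t ω) *
      X (ptr F J ω) (some (c 1))| ≤ 2 ^ (n' + 1) * (2 ^ G * η₀) / Y₁ := by
    obtain ⟨δ, hδ⟩ : ∃ δ, δ = X (ptr F J ω) (some (c 1)) - (ξ (slam F w ω)).eval (F.t ω) :=
      ⟨_, rfl⟩
    rw [← hδ] at hyω
    have q1 := hQle 1 (by norm_num)
    have q2 := hQle 2 (by norm_num)
    rw [hQ1, Polynomial.eval_mul, Polynomial.eval_C, Polynomial.eval_add, Polynomial.eval_mul] at q1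
    rw [hQ2, Polynomial.eval_mul, Polynomial.eval_C] at q2
    rw [le_div_iff₀ hY0]
    have e1 : ((be (slam F w ω)).eval (F.t ω) + (ga (slam F w ω)).eval (F.t ω) *
        X (ptr F J ω) (some (c 1))) * Y₁ = Y₁ * ((be (slam F w ω)).eval (F.t ω) +
        (ga (slam F w ω)).eval (F.t ω) * (ξ (slam F w ω)).eval (F.t ω)) +
        Y₁ ^ 2 * (ga (slam F w ω)).eval (F.t ω) * (δ / Y₁) := by
      rw [hδ]
      field_simp
      ring
    have e2 : |δ / Y₁| ≤ 2 ^ n' := by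
      rw [abs_div, abs_of_pos hY0, div_le_iff₀ hY0]
      exact hyω
    have e3 : |((be (slam F w ω)).eval (F.t ω) + (ga (slam F w ω)).eval (F.t ω) *
        X (ptr F J ω) (some (c 1)))| * Y₁ = |((be (slam F w ω)).eval (F.t ω) +
        (ga (slam F w ω)).eval (F.t ω) * X (ptr F J ω) (some (c 1))) * Y₁| := by
      rw [abs_mul, abs_of_pos hY0]
    rw [e3, e1]
    refine (abs_add_le _ _).trans ?_
    rw [abs_mul _ (δ / Y₁)]
    have e4 : |Y₁ ^ 2 * (ga (slam F w ω)).eval (F.t ω)| * |δ / Y₁| ≤ 2 ^ G * η₀ * 2 ^ n' :=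
      mul_le_mul q2 e2 (abs_nonneg _) (by positivity)
    have e5 : (1 : ℝ) ≤ 2 ^ n' := one_le_pow₀ (by norm_num)
    have e6 : 0 ≤ (2 : ℝ) ^ G * η₀ := by positivity
    have e7 : (2 : ℝ) ^ (n' + 1) * (2 ^ G * η₀) = 2 * (2 ^ G * η₀ * 2 ^ n') := by
      rw [pow_succ]; ring
    have e8 : 2 ^ G * η₀ ≤ 2 ^ G * η₀ * 2 ^ n' := le_mul_of_one_le_right e6 e5
    rw [e7]
    linarith
  have hupt := hup ω hωB (F.t ω) (hself ω)
  rw [← hA₀] at hupt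
  have hfin := con_fin (A := A₀) (G0 := 2 ^ g 0) (G1 := 2 ^ g 1) (G2 := 2 ^ g 2) (GN := 2 ^ gN 3)
    (L2 := 2 ^ lam₂) (brk := brk) (kn := 2 ^ n) (kk := 2 ^ k) (kx := 2 ^ x) (kq := 2 ^ q)
    (v₂ := v (ptr F J ω) (c 2)) (P₁ := (P 1 (slam F w ω)).eval (F.t ω)) hA0 (by positivity)
    (by positivity) (by positivity) (by positivity) (by positivity) hb1'
    (one_le_pow₀ (by norm_num)) (one_le_pow₀ (by norm_num)) (one_le_pow₀ (by norm_num))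
    (one_le_pow₀ (by norm_num)) (by rw [hPe]; exact hupt) (by rw [hPe]; exact hlow ω hωB) hrel
    hv2 h22 (by rw [hPe, hPe]; exact hCv' ω hωB) hBb hid
  rw [hPe, hPe] at hfin
  rw [← hbrk]
  refine hfin.trans ?_
  -- the numbers
  obtain ⟨T₀, hT₀⟩ : ∃ T₀, T₀ = n + n' + x + h + s + 1 := ⟨_, rfl⟩
  rw [← hT₀, ← hA₀]
  have hT1 : 1 ≤ T₀ := by omega
  have hkT : k ≤ cH * T₀ := by rw [hk]; exact Nat.mul_le_mul_left _ (by omega)
  have hCT : C * T₀ = cA * T₀ + cH * T₀ + 9 * T₀ := by rw [hC]; ring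
  obtain ⟨V, hV⟩ : ∃ V : ℝ, V = A₀ * (2 ^ (g 0 + g 1) / 2 ^ gN 3) * brk := ⟨_, rfl⟩
  have hV0 : 0 ≤ V := by rw [hV]; positivity
  have hgN' : (2 : ℝ) ^ gN 1 ≤ 2 ^ g 1 * 2 ^ s := by rw [← pow_add]; exact pw hgN1
  have t1 : 2 ^ x / A₀ * (2 ^ (n' + 1) * (2 ^ G * η₀) / Y₁) ≤
      2 ^ (x + n' + 1 + G + Z + s) * V := by
    have e1 : 2 ^ x / A₀ * (2 ^ (n' + 1) * (2 ^ G * η₀) / Y₁) =
        2 ^ (x + n' + 1 + G + Z) * (A₀ * (2 ^ g 0 * 2 ^ gN 1 / 2 ^ gN 3) * brk) := by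
      rw [hη₀, hY₁]
      simp only [pow_add]
      field_simp
    rw [e1, hV]
    have e2 : A₀ * (2 ^ g 0 * 2 ^ gN 1 / 2 ^ gN 3) * brk ≤
        A₀ * (2 ^ g 0 * (2 ^ g 1 * 2 ^ s) / 2 ^ gN 3) * brk := by
      refine mul_le_mul_of_nonneg_right (mul_le_mul_of_nonneg_left
        (div_le_div_of_nonneg_right (mul_le_mul_of_nonneg_left hgN' (by positivity))
          (by positivity)) hA0.le) (by linarith)
    refine (mul_le_mul_of_nonneg_left e2 (by positivity)).trans (le_of_eq ?_)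
    simp only [pow_add]
    ring
  have t2 : 2 ^ x / A₀ * (2 * (2 ^ n * 2 ^ k * 2 ^ x * 2 ^ q) *
      (A₀ ^ 2 * (2 ^ g 0 * 2 ^ g 1 / 2 ^ gN 3) * brk)) = 2 ^ (x + 1 + n + k + x + q) * V := by
    rw [hV]
    simp only [pow_add]
    field_simp
  have t3 : 2 ^ (G + q + C * T₀) * A₀ * (2 ^ (g 0 + g 1) / 2 ^ gN 3) * brk =
      2 ^ (G + q + C * T₀) * V := by rw [hV]; ring
  rw [t3, mul_add, t2]
  have u1 : (2 : ℝ) ^ (x + n' + 1 + G + Z + s) * V ≤ 2 ^ (G + q + C * T₀ - 1) * V :=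
    mul_le_mul_of_nonneg_right (pw (by rw [hZ]; omega)) hV0
  have u2 : (2 : ℝ) ^ (x + 1 + n + k + x + q) * V ≤ 2 ^ (G + q + C * T₀ - 1) * V :=
    mul_le_mul_of_nonneg_right (pw (by omega)) hV0
  have u3 : (2 : ℝ) ^ (G + q + C * T₀) = 2 * 2 ^ (G + q + C * T₀ - 1) := by
    rw [← pow_succ', Nat.sub_add_cancel (by omega)]
  rw [u3]
  linarith

end Pool.NVX
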