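import Pool.Agent.H77.NV.Alt
import Pool.Agent.H31.NV.Tte
import Pool.Agent.H6.NV.End2

/-!
# Two samples of one line: the contradiction

`tt_fin`: from the relations of the direction of the plane at the samples of one window to a label
with a gain.
-/

set_option autoImplicit false

namespace Pool.NVX

open Finset Real MvPolynomial
open Pool.Agent.H49.Ent Pool.Agent.H32.Dense Pool.STK Pool.KA Pool.KSAT Pool.K2S Pool.PB Pool.S6C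
open Pool.GEN Pool.CHT
open Pool.SHR (dir mvp RelvH Shr relvF_low)

variable {m J : ℕ}

/-- Representatives of the windows of an event. -/
theorem rep_win {F : Fam m J} (a : ℕ) {B : F.Ω → Prop} (ω₀ : F.Ω) :
    ∃ rp : LnT F → F.Ω, ∀ ω, B ω → B (rp (slam F a ω)) ∧ slam F a (rp (slam F a ω)) =
      slam F a ω := by
  classical
  have hrep : ∀ s : LnT F, ∃ ω' : F.Ω, (∃ ω, B ω ∧ slam F a ω = s) → B ω' ∧ slam F a ω' = s := by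
    intro s
    by_cases h : ∃ ω, B ω ∧ slam F a ω = s
    · obtain ⟨ω, h1⟩ := h
      exact ⟨ω, fun _ => h1⟩
    · exact ⟨ω₀, fun h' => absurd h' h⟩
  choose rp hrp using hrep
  exact ⟨rp, fun ω hω => hrp _ ⟨ω, hω, rfl⟩⟩

/-- **The direction is almost constant on the windows**: contradiction. -/
theorem tt_near {F : Fam m J} {c : ℕ → Fin m} {D' D₂ a e h : ℕ} {g : ℕ → ℕ}
    {κ R₁ Λ ε M₁ ζ₁ : ℝ} {B₀ B : F.Ω → Prop}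
    {T : PtT F → ℕ → MvPolynomial (Option (Fin m)) ℝ}
    {TH : LnT F → ℕ → MvPolynomial (Option (Fin m)) ℝ} (hc : Set.InjOn c (Set.Iio 3))
    (hR : RelvF F c 3 a a g D₂ h κ B₀ T) (hL : ChOK F c 3 (fun _ => D') a a e g B₀ T TH)
    (hD : 1 ≤ D₂) (hB : Sub B B₀) (hP : κ * Pe F.p B₀ ≤ Pe F.p B)
    (hP0 : 0 < Pe F.p B) (ν : PtT F → F.Ω) (X₁ : PtT F → ℝ) (hΛ : 1 ≤ Λ) (hR0 : 0 ≤ R₁)
    (hν : ∀ ω, B ω → ptr F J (ν (ptr F J ω)) = ptr F J ω)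
    (hX1 : ∀ ω, B ω → |X₁ (ptr F J ω)| ≤ R₁)
    (hv1 : ∀ ω, B ω → |(bd F ω (some (c 1)) - bd F (ν (ptr F J ω)) (some (c 1))) -
      X₁ (ptr F J ω) * (bd F ω (some (c 0)) - bd F (ν (ptr F J ω)) (some (c 0)))| ≤ ζ₁)
    (hb0 : ∀ ω, B ω → ∀ b, NBx c (T (ptr F J ω)) g a (F.t ω) 1 b →
      |b (some (c 0)) - (F.x ω (c 0) + (b none - F.t ω) * bd F ω (some (c 0)))| ≤ Λ / 2 ^ g 0)
    (hM : 0 < M₁) (hζ : ζ₁ ≤ M₁ * 2 ^ a) (hd : 2 * ε * Λ ≤ M₁ * 2 ^ g 1)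
    (hJ : R₁ + 1 ≤ M₁ * 2 ^ J) (hh : 2 ^ h * (3 * M₁) < 1 / 2 ^ g 1) (rp : LnT F → F.Ω)
    (hrp : ∀ ω, B ω → |X₁ (ptr F J ω) - X₁ (ptr F J (rp (slam F a ω)))| * 2 ^ g 1 / 2 ^ g 0 ≤ ε) :
    False := by
  have hc2 : Set.InjOn c (Set.Iio (1 + 1)) := hc.mono fun x hx => by
    rw [Set.mem_Iio] at hx ⊢
    omega
  have hG0 : (0 : ℝ) < 2 ^ g 0 := by positivity
  have hG1 : (0 : ℝ) < 2 ^ g 1 := by positivity
  refine tt_end (F := F) (c := c) (D := D₂) (D' := D') (a := a) (e := e) (h := h) (j := 1) (g := g)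
    (κ := κ) (M := M₁) (R := R₁) (d := 2 * (ε * 2 ^ g 0 / 2 ^ g 1)) (Y := Λ / 2 ^ g 0) (B₀ := B₀)
    (B := B) (G := T) (H := TH) le_rfl hc2
    (relvF_low hR (by norm_num) hc hL.depG)
    (hL.mono (by norm_num) (fun _ => le_rfl) le_rfl le_rfl) hD hB hP hP0 ν
    (fun y _ => X₁ y) (fun _ _ => 0) hν hR0 (fun ω hω k _ => hX1 ω hω) hM
    (fun ω _ k hk h1 => by omega) (fun ω ω' h1 h2 h3 => ?_) (fun ω hω => ?_) hb0
    (by positivity) ?_ (by simpa using hJ) hh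
  · have k1 := hrp ω h1
    have k2 := hrp ω' h2
    rw [← h3] at k2
    have k3 : ∀ x : ℝ, |x| * 2 ^ g 1 / 2 ^ g 0 ≤ ε → |x| ≤ ε * 2 ^ g 0 / 2 ^ g 1 := by
      intro x hx
      rw [div_le_iff₀ hG0] at hx
      rw [le_div_iff₀ hG1]
      exact hx
    have e1 : X₁ (ptr F J ω) - X₁ (ptr F J ω') =
        (X₁ (ptr F J ω) - X₁ (ptr F J (rp (slam F a ω)))) -
        (X₁ (ptr F J ω') - X₁ (ptr F J (rp (slam F a ω)))) := by ring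
    rw [e1]
    refine (abs_sub _ _).trans ?_
    linarith [k3 _ k1, k3 _ k2]
  · rw [Finset.sum_range_one]
    exact (hv1 ω hω).trans hζ
  · have e1 : 2 * (ε * 2 ^ g 0 / 2 ^ g 1) * (Λ / 2 ^ g 0) = 2 * ε * Λ / 2 ^ g 1 := by
      field_simp
    rw [e1, div_le_iff₀ hG1]
    exact hd

/-- **The contradiction** from the relations of the direction of the plane. `X₁, X₂` = the direction,
`σ` = the slope of the label of `c 2` in the direction `c 1`, `P₀, P₁, P₂` = the mixed second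
derivatives of the label of the target along the line. -/
theorem tt_fin {F : Fam m J} {c : ℕ → Fin m} {D D' D₂ a w e h : ℕ} {g : ℕ → ℕ}
    {κ R₁ R₂ Λ er k₀ δ ε M₁ M₂ ζ₁ ζ₂ : ℝ} {B₀ B : F.Ω → Prop}
    {T : PtT F → ℕ → MvPolynomial (Option (Fin m)) ℝ}
    {TH : LnT F → ℕ → MvPolynomial (Option (Fin m)) ℝ} (hc : Set.InjOn c (Set.Iio 3))
    (hR : RelvF F c 3 a a g D₂ h κ B₀ T) (hL : ChOK F c 3 (fun _ => D') a a e g B₀ T TH)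
    (hD : D + 2 ≤ D₂) (hB : Sub B B₀) (hκ : 0 ≤ κ) (hP : 4 * (κ * Pe F.p B₀) ≤ Pe F.p B)
    (hP0 : 0 < Pe F.p B) (hwa : w ≤ a) (haJ : a ≤ J) (ν : PtT F → F.Ω) (X₁ X₂ σ : PtT F → ℝ)
    (P₀ P₁ P₂ : LnT F → Polynomial ℝ) (T₂ T₃ h₁ h₂ h₃ ξ : F.Ω → ℝ)
    (hd0 : ∀ s, (P₀ s).natDegree ≤ D) (hd1 : ∀ s, (P₁ s).natDegree ≤ D)
    (hd2 : ∀ s, (P₂ s).natDegree ≤ D)
    (hν : ∀ ω, B ω → B (ν (ptr F J ω)) ∧ ptr F J (ν (ptr F J ω)) = ptr F J ω)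
    (hR1 : 1 ≤ R₁) (hR2 : 0 ≤ R₂)
    (hσR : ∀ ω, B ω → |σ (ptr F J ω)| ≤ R₁) (hX1 : ∀ ω, B ω → |X₁ (ptr F J ω)| ≤ R₁)
    (hX2 : ∀ ω, B ω → |X₂ (ptr F J ω)| ≤ R₂)
    (hv1 : ∀ ω, B ω → |(bd F ω (some (c 1)) - bd F (ν (ptr F J ω)) (some (c 1))) -
      X₁ (ptr F J ω) * (bd F ω (some (c 0)) - bd F (ν (ptr F J ω)) (some (c 0)))| ≤ ζ₁)
    (hv2 : ∀ ω, B ω → |((bd F ω (some (c 2)) - bd F (ν (ptr F J ω)) (some (c 2))) -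
      X₂ (ptr F J ω) * (bd F ω (some (c 0)) - bd F (ν (ptr F J ω)) (some (c 0)))) -
      σ (ptr F J ω) * ((bd F ω (some (c 1)) - bd F (ν (ptr F J ω)) (some (c 1))) -
      X₁ (ptr F J ω) * (bd F ω (some (c 0)) - bd F (ν (ptr F J ω)) (some (c 0))))| ≤ ζ₂)
    (hb0 : ∀ ω, B ω → ∀ b, NBx c (T (ptr F J ω)) g a (F.t ω) 1 b →
      |b (some (c 0)) - (F.x ω (c 0) + (b none - F.t ω) * bd F ω (some (c 0)))| ≤ Λ / 2 ^ g 0)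
    (hb1 : ∀ ω, B ω → ∀ b, NBx c (T (ptr F J ω)) g a (F.t ω) 2 b →
      |(b (some (c 1)) - (F.x ω (c 1) + (b none - F.t ω) * bd F ω (some (c 1)))) -
        X₁ (ptr F J ω) *
        (b (some (c 0)) - (F.x ω (c 0) + (b none - F.t ω) * bd F ω (some (c 0))))| ≤ Λ / 2 ^ g 1)
    (hb2 : ∀ ω, B ω → ∀ b, NBx c (T (ptr F J ω)) g a (F.t ω) 3 b →
      |((b (some (c 2)) - (F.x ω (c 2) + (b none - F.t ω) * bd F ω (some (c 2)))) -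
        X₂ (ptr F J ω) *
        (b (some (c 0)) - (F.x ω (c 0) + (b none - F.t ω) * bd F ω (some (c 0))))) -
        σ (ptr F J ω) *
        ((b (some (c 1)) - (F.x ω (c 1) + (b none - F.t ω) * bd F ω (some (c 1)))) -
        X₁ (ptr F J ω) *
        (b (some (c 0)) - (F.x ω (c 0) + (b none - F.t ω) * bd F ω (some (c 0)))))| ≤ Λ / 2 ^ g 2)
    (hΛ : 1 ≤ Λ) (her : 0 ≤ er) (hk₀ : 0 < k₀) (hδ : 0 ≤ δ) (hδ1 : δ ≤ 1) (hε : 0 < ε)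
    (hε1 : ε ≤ 1)
    (hpr : ∀ ω ω', B ω → B ω' → slam F a ω = slam F a ω' →
      |X₁ (ptr F J ω) - X₁ (ptr F J ω')| * 2 ^ g 1 / 2 ^ g 0 ≤ Λ ∧
      |(X₂ (ptr F J ω) - X₂ (ptr F J ω')) -
        σ (ptr F J ω) * (X₁ (ptr F J ω) - X₁ (ptr F J ω'))| * 2 ^ g 2 / 2 ^ g 0 ≤ Λ)
    (hrel : ∀ ω, B ω → ∀ t : ℝ, |t - F.t ω| ≤ 2 / 2 ^ a →
      |(P₀ (slam F w ω)).eval t + (P₁ (slam F w ω)).eval t * X₁ (ptr F J ω) +
        (P₂ (slam F w ω)).eval t * X₂ (ptr F J ω)| ≤ er * (k₀ * 2 ^ g 0 / 2 ^ g 2))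
    (hqd : ∀ ω ω', B ω → B ω' → slam F a ω = slam F a ω' → ∀ x y : ℝ,
      x = (X₁ (ptr F J ω) - X₁ (ptr F J ω')) * 2 ^ g 1 / 2 ^ g 0 →
      y = ((X₂ (ptr F J ω) - X₂ (ptr F J ω')) -
        σ (ptr F J ω) * (X₁ (ptr F J ω) - X₁ (ptr F J ω'))) * 2 ^ g 2 / 2 ^ g 0 →
      |2 * (x * T₂ ω + y * T₃ ω) - (x ^ 2 * h₁ ω + 2 * x * y * h₂ ω + y ^ 2 * h₃ ω)| ≤ 2 * er)
    (hbd : ∀ ω, B ω → |T₃ ω| ≤ Λ ∧ |h₂ ω| ≤ Λ ∧ |h₃ ω| ≤ Λ ∧ |ξ ω| ≤ Λ)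
    (hlow : ∀ ω, B ω → 1 / Λ ≤ |(P₂ (slam F w ω)).eval (F.t ω) / k₀|)
    (hup : ∀ ω, B ω → |(P₂ (slam F w ω)).eval (F.t ω) / k₀| ≤ Λ)
    (hC2 : ∀ ω, B ω → |((P₁ (slam F w ω)).eval (F.t ω) +
      σ (ptr F J ω) * (P₂ (slam F w ω)).eval (F.t ω)) * 2 ^ g 2 / 2 ^ g 1 / k₀| ≤ Λ)
    (hvar : ∀ ω, B ω → ∀ t : ℝ, |t - F.t ω| ≤ 2 / 2 ^ a →
      |(P₂ (slam F w ω)).eval t - (P₂ (slam F w ω)).eval (F.t ω)| ≤ δ * k₀)
    (hcm : ∀ ω, B ω → |((P₁ (slam F w (ν (ptr F J ω)))).eval (F.t (ν (ptr F J ω))) +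
      σ (ptr F J ω) * (P₂ (slam F w (ν (ptr F J ω)))).eval (F.t (ν (ptr F J ω)))) *
        2 ^ g 2 / 2 ^ g 1 / k₀ -
      (((P₁ (slam F w ω)).eval (F.t ω) + σ (ptr F J ω) * (P₂ (slam F w ω)).eval (F.t ω)) *
        2 ^ g 2 / 2 ^ g 1 / k₀ + ξ ω * T₂ ω)| ≤ er ∧
      |(P₂ (slam F w (ν (ptr F J ω)))).eval (F.t (ν (ptr F J ω))) / k₀ -
        ((P₂ (slam F w ω)).eval (F.t ω) / k₀ + ξ ω * T₃ ω)| ≤ er)
    -- the numbers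
    (hM1 : 0 < M₁) (hM2 : 0 < M₂) (hn1 : ζ₁ ≤ M₁ * 2 ^ a) (hn2 : 2 * ε * Λ ≤ M₁ * 2 ^ g 1)
    (hn3 : R₁ + 1 ≤ M₁ * 2 ^ J) (hn4 : 2 ^ h * (3 * M₁) < 1 / 2 ^ g 1)
    (hn5 : Λ ^ 2 * 2 ^ g 1 / 2 ^ g 2 ≤ R₁)
    (hn6 : ζ₂ + Λ ^ 2 * 2 ^ g 1 / 2 ^ g 2 * ζ₁ ≤ M₂ * 2 ^ a)
    (hn7 : 332 * Λ ^ 13 * er / ε ^ 2 + 8 * Λ ^ 4 * δ ≤ M₂ * 2 ^ g 2)
    (hn8 : 2 * (R₂ + 2 * R₁ ^ 2) + 1 ≤ M₂ * 2 ^ J) (hn9 : 2 ^ h * (3 * M₂) < 1 / 2 ^ g 2) :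
    False := by
  classical
  have hG0 : (0 : ℝ) < 2 ^ g 0 := by positivity
  have hG1 : (0 : ℝ) < 2 ^ g 1 := by positivity
  have hG2 : (0 : ℝ) < 2 ^ g 2 := by positivity
  have hΛ0 : 0 < Λ := by linarith
  have hκB : 0 ≤ κ * Pe F.p B₀ := mul_nonneg hκ (Pe_nonneg F.isLaw _)
  obtain ⟨ω₀, hω₀⟩ : ∃ ω, B ω := by
    by_contra hcon
    push Not at hcon
    have h1 : Pe F.p B = 0 := by
      unfold Pe
      exact Finset.sum_eq_zero fun ω _ => by simp [hcon ω]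
    linarith
  -- the case of an almost constant direction, for a part of the event
  have hnear : ∀ (B' : F.Ω → Prop) (rp : LnT F → F.Ω), Sub B' B → κ * Pe F.p B₀ ≤ Pe F.p B' →
      0 < Pe F.p B' → (∀ ω, B' ω → |X₁ (ptr F J ω) -
        X₁ (ptr F J (rp (slam F a ω)))| * 2 ^ g 1 / 2 ^ g 0 ≤ ε) → False :=
    fun B' rp h1 h2 h3 h4 => tt_near hc hR hL (by omega) (fun ω h => hB ω (h1 ω h)) h2 h3 ν X₁ hΛ
      (by linarith) (fun ω h => (hν ω (h1 ω h)).2) (fun ω h => hX1 ω (h1 ω h))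
      (fun ω h => hv1 ω (h1 ω h)) (fun ω h => hb0 ω (h1 ω h)) hM1 hn1 hn2 hn3 hn4 rp h4
  -- the representatives
  obtain ⟨rp, hrp⟩ := rep_win (F := F) a (B := B) ω₀
  obtain ⟨nr, hnr⟩ : ∃ nr : F.Ω → Prop, nr = fun ω => B ω ∧ |X₁ (ptr F J ω) -
      X₁ (ptr F J (rp (slam F a ω)))| * 2 ^ g 1 / 2 ^ g 0 ≤ ε := ⟨_, rfl⟩
  obtain ⟨B₁, hB₁⟩ : ∃ B₁ : F.Ω → Prop, B₁ = fun ω => B ω ∧ ε < |X₁ (ptr F J ω) -
      X₁ (ptr F J (rp (slam F a ω)))| * 2 ^ g 1 / 2 ^ g 0 := ⟨_, rfl⟩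
  have hs1 : Pe F.p B ≤ Pe F.p nr + Pe F.p B₁ := Pe_or F.isLaw fun ω hω => by
    rcases le_or_gt (|X₁ (ptr F J ω) - X₁ (ptr F J (rp (slam F a ω)))| * 2 ^ g 1 / 2 ^ g 0) ε
      with h1 | h1
    · left
      rw [hnr]
      exact ⟨hω, h1⟩
    · right
      rw [hB₁]
      exact ⟨hω, h1⟩
  have hp1 : Pe F.p B / 2 ≤ Pe F.p B₁ := by
    by_contra hcon
    push Not at hcon
    refine hnear nr rp (fun ω h => by rw [hnr] at h; exact h.1) (by linarith) (by linarith)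
      fun ω h => by rw [hnr] at h; exact h.2
  have hB1 : Sub B₁ B := fun ω h => by rw [hB₁] at h; exact h.1
  -- the numbers of one pair
  obtain ⟨A, hA⟩ : ∃ A : F.Ω → F.Ω → ℝ, A = fun ω ω' =>
      (X₁ (ptr F J ω) - X₁ (ptr F J ω')) * 2 ^ g 1 / 2 ^ g 0 := ⟨_, rfl⟩
  obtain ⟨Bb, hBb⟩ : ∃ Bb : F.Ω → F.Ω → ℝ, Bb = fun ω ω' => ((X₂ (ptr F J ω) - X₂ (ptr F J ω')) -
      σ (ptr F J ω) * (X₁ (ptr F J ω) - X₁ (ptr F J ω'))) * 2 ^ g 2 / 2 ^ g 0 := ⟨_, rfl⟩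
  have hAabs : ∀ ω ω', |A ω ω'| = |X₁ (ptr F J ω) - X₁ (ptr F J ω')| * 2 ^ g 1 / 2 ^ g 0 := by
    intro ω ω'
    rw [hA]
    simp only
    rw [abs_div, abs_mul, abs_of_pos hG1, abs_of_pos hG0]
  have hBabs : ∀ ω ω', |Bb ω ω'| = |(X₂ (ptr F J ω) - X₂ (ptr F J ω')) -
      σ (ptr F J ω) * (X₁ (ptr F J ω) - X₁ (ptr F J ω'))| * 2 ^ g 2 / 2 ^ g 0 := by
    intro ω ω'
    rw [hBb]
    simp only
    rw [abs_div, abs_mul, abs_of_pos hG2, abs_of_pos hG0]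
  obtain ⟨c₂, hc₂⟩ : ∃ c₂ : F.Ω → ℝ → ℝ, c₂ = fun ω t => ((P₁ (slam F w ω)).eval t +
      σ (ptr F J ω) * (P₂ (slam F w ω)).eval t) * 2 ^ g 2 / 2 ^ g 1 / k₀ := ⟨_, rfl⟩
  obtain ⟨c₃, hc₃⟩ : ∃ c₃ : F.Ω → ℝ → ℝ, c₃ = fun ω t => (P₂ (slam F w ω)).eval t / k₀ :=
    ⟨_, rfl⟩
  have hsm : ∀ ω ω', slam F a ω = slam F a ω' → slam F w ω = slam F w ω' := fun ω ω' h => by
    rw [slam_coarse F hwa haJ ω, slam_coarse F hwa haJ ω', h]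
  have hlin : ∀ ω ω', B ω → B ω' → slam F a ω = slam F a ω' → ∀ t : ℝ, |t - F.t ω| ≤ 1 / 2 ^ a →
      |c₂ ω t * A ω ω' + c₃ ω t * Bb ω ω'| ≤ 2 * er := by
    intro ω ω' h1 h2 h3 t ht
    have ht' : |t - F.t ω'| ≤ 2 / 2 ^ a := by
      have k1 := t_win haJ h3
      have e1 : t - F.t ω' = (t - F.t ω) + (F.t ω - F.t ω') := by ring
      rw [e1]
      refine (abs_add_le _ _).trans ?_
      calc _ ≤ 1 / 2 ^ a + 1 / 2 ^ a := add_le_add ht k1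
        _ = 2 / 2 ^ a := by ring
    have k1 := hrel ω h1 t (ht.trans (div_le_div_of_nonneg_right (by norm_num) (by positivity)))
    have k2 := hrel ω' h2 t ht'
    rw [← hsm ω ω' h3] at k2
    have k3 : |((P₀ (slam F w ω)).eval t + (P₁ (slam F w ω)).eval t * X₁ (ptr F J ω) +
        (P₂ (slam F w ω)).eval t * X₂ (ptr F J ω)) -
        ((P₀ (slam F w ω)).eval t + (P₁ (slam F w ω)).eval t * X₁ (ptr F J ω') +
        (P₂ (slam F w ω)).eval t * X₂ (ptr F J ω'))| ≤ 2 * er * (k₀ * 2 ^ g 0 / 2 ^ g 2) := by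
      refine (abs_sub _ _).trans ((add_le_add k1 k2).trans (le_of_eq ?_))
      ring
    have e1 : c₂ ω t * A ω ω' + c₃ ω t * Bb ω ω' =
        (((P₀ (slam F w ω)).eval t + (P₁ (slam F w ω)).eval t * X₁ (ptr F J ω) +
        (P₂ (slam F w ω)).eval t * X₂ (ptr F J ω)) -
        ((P₀ (slam F w ω)).eval t + (P₁ (slam F w ω)).eval t * X₁ (ptr F J ω') +
        (P₂ (slam F w ω)).eval t * X₂ (ptr F J ω'))) / (k₀ * 2 ^ g 0 / 2 ^ g 2) := by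
      rw [hc₂, hc₃, hA, hBb]
      field_simp
      ring
    rw [e1, abs_div, abs_of_pos (show 0 < k₀ * 2 ^ g 0 / 2 ^ g 2 by positivity),
      div_le_iff₀ (by positivity)]
    exact k3
  have h0a : (0 : ℝ) ≤ 1 / 2 ^ a := by positivity
  have hself : ∀ ω : F.Ω, |F.t ω - F.t ω| ≤ 1 / 2 ^ a := fun ω => by
    rw [sub_self, abs_zero]
    exact h0a
  have hup' : ∀ ω, B ω → |c₃ ω (F.t ω)| ≤ Λ := fun ω hω => by rw [hc₃]; exact hup ω hω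
  have hlow' : ∀ ω, B ω → 1 / Λ ≤ |c₃ ω (F.t ω)| := fun ω hω => by rw [hc₃]; exact hlow ω hω
  have hC2' : ∀ ω, B ω → |c₂ ω (F.t ω)| ≤ Λ := fun ω hω => by rw [hc₂]; exact hC2 ω hω
  obtain ⟨μ, hμ⟩ : ∃ μ : F.Ω → ℝ, μ = fun ω => T₂ ω - c₂ ω (F.t ω) / c₃ ω (F.t ω) * T₃ ω :=
    ⟨_, rfl⟩
  obtain ⟨E, hE⟩ : ∃ E : ℝ, E = 9 * Λ ^ 5 * (2 * er) := ⟨_, rfl⟩
  have hE0 : 0 ≤ E := by rw [hE]; positivity
  have hsepr : ∀ ω ω', B ω → B ω' → slam F a ω = slam F a ω' →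
      |A ω ω'| * |2 * μ ω - A ω ω' * (h₁ ω - 2 * (c₂ ω (F.t ω) / c₃ ω (F.t ω)) * h₂ ω +
        (c₂ ω (F.t ω) / c₃ ω (F.t ω)) ^ 2 * h₃ ω)| ≤ E := by
    intro ω ω' k1 k2 k3
    obtain ⟨b1, b2, b3, -⟩ := hbd ω k1
    obtain ⟨p1, p2⟩ := hpr ω ω' k1 k2 k3
    rw [hE, hμ]
    exact alt_sep hΛ (by positivity) (by rw [hAabs]; exact p1) (by rw [hBabs]; exact p2)
      (hC2' ω k1) (hlow' ω k1) b1 b2 b3 (hlin ω ω' k1 k2 k3 _ (hself ω))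
      (hqd ω ω' k1 k2 k3 _ _ (by rw [hA]) (by rw [hBb]))
  -- the part with many values
  obtain ⟨μ₀, hμ₀⟩ : ∃ μ₀ : ℝ, μ₀ = 2 * Λ * E / ε ^ 2 := ⟨_, rfl⟩
  have hμ₀0 : 0 ≤ μ₀ := by rw [hμ₀]; positivity
  obtain ⟨B₂, hB₂⟩ : ∃ B₂ : F.Ω → Prop, B₂ = fun ω => B₁ ω ∧ μ₀ < |μ ω| := ⟨_, rfl⟩
  obtain ⟨B₃, hB₃⟩ : ∃ B₃ : F.Ω → Prop, B₃ = fun ω => B₁ ω ∧ |μ ω| ≤ μ₀ := ⟨_, rfl⟩
  have hs2 : Pe F.p B₁ ≤ Pe F.p B₂ + Pe F.p B₃ := Pe_or F.isLaw fun ω hω => by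
    rcases le_or_gt |μ ω| μ₀ with h1 | h1
    · right
      rw [hB₃]
      exact ⟨hω, h1⟩
    · left
      rw [hB₂]
      exact ⟨hω, h1⟩
  have hp3 : Pe F.p B / 4 ≤ Pe F.p B₃ := by
    by_contra hcon
    push Not at hcon
    have hp2 : Pe F.p B / 4 ≤ Pe F.p B₂ := by linarith
    obtain ⟨r₂, hr₂⟩ := rep_win (F := F) a (B := B₂) ω₀
    refine hnear B₂ r₂ (fun ω h => by rw [hB₂] at h; exact hB1 ω h.1) (by linarith) (by linarith)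
      fun ω hω => ?_
    by_contra hfar
    push Not at hfar
    obtain ⟨k1, k2⟩ := hr₂ ω hω
    have hω' := hω
    rw [hB₂] at hω' k1
    obtain ⟨hω1, hωμ⟩ := hω'
    obtain ⟨hr1, -⟩ := k1
    have hωB := hB1 ω hω1
    have hrB := hB1 _ hr1
    obtain ⟨q1, q2⟩ := hrp ω hωB
    rw [hB₁] at hω1 hr1
    have f1 : ε ≤ |A ω (rp (slam F a ω))| := by rw [hAabs]; exact hω1.2.le
    have f2 : ε ≤ |A ω (r₂ (slam F a ω))| := by rw [hAabs]; exact hfar.le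
    have f3 : ε ≤ |A ω (rp (slam F a ω)) - A ω (r₂ (slam F a ω))| := by
      have e1 : A ω (rp (slam F a ω)) - A ω (r₂ (slam F a ω)) =
          A (r₂ (slam F a ω)) (rp (slam F a ω)) := by
        rw [hA]
        simp only
        ring
      rw [e1, hAabs]
      have f4 := hr1.2
      rw [k2] at f4
      exact f4.le
    have f5 := alt_two hΛ hE0 hε hε1 (by rw [hAabs]; exact (hpr ω _ hωB q1 q2.symm).1) f1 f2 f3
      (hsepr ω _ hωB q1 q2.symm) (hsepr ω _ hωB hrB k2.symm)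
    rw [← hμ₀] at f5
    linarith
  -- the quotient is visible
  have hB3 : Sub B₃ B := fun ω h => by rw [hB₃] at h; exact hB1 ω h.1
  obtain ⟨q, hq⟩ : ∃ q : PtT F → ℝ, q = fun y =>
      c₂ (ν y) (F.t (ν y)) / c₃ (ν y) (F.t (ν y)) := ⟨_, rfl⟩
  have hσν : ∀ ω, B ω → σ (ptr F J (ν (ptr F J ω))) = σ (ptr F J ω) := fun ω hω => by
    rw [(hν ω hω).2]
  have hqΛ : ∀ ω, B ω → |q (ptr F J ω)| ≤ Λ ^ 2 := by
    intro ω hω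
    obtain ⟨n1, n2⟩ := hν ω hω
    have k1 := hC2' _ n1
    have k2 := hlow' _ n1
    have k3 : 0 < |c₃ (ν (ptr F J ω)) (F.t (ν (ptr F J ω)))| := lt_of_lt_of_le (by positivity) k2
    rw [hq]
    simp only
    rw [abs_div, div_le_iff₀ k3]
    rw [div_le_iff₀ hΛ0] at k2
    nlinarith
  have hqn : ∀ ω, B₃ ω → |q (ptr F J ω) - c₂ ω (F.t ω) / c₃ ω (F.t ω)| ≤
      2 * Λ ^ 3 * er + Λ ^ 4 * μ₀ := by
    intro ω hω
    have hωB := hB3 ω hω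
    obtain ⟨n1, n2⟩ := hν ω hωB
    obtain ⟨m1, m2⟩ := hcm ω hωB
    obtain ⟨-, -, -, b4⟩ := hbd ω hωB
    have k1 := alt_rat (T₂ := T₂ ω) (T₃ := T₃ ω) (ξ := ξ ω) (e := er) (c₂ := c₂ ω (F.t ω))
      (c₃ := c₃ ω (F.t ω)) (d₂ := c₂ (ν (ptr F J ω)) (F.t (ν (ptr F J ω))))
      (d₃ := c₃ (ν (ptr F J ω)) (F.t (ν (ptr F J ω)))) hΛ her (hC2' ω hωB) (hlow' ω hωB)
      (hup' ω hωB) (hlow' _ n1) b4 (by
        rw [hc₂]
        simp only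
        rw [hσν ω hωB]
        exact m1) (by rw [hc₃]; exact m2)
    rw [hB₃] at hω
    have k2 : |T₂ ω - c₂ ω (F.t ω) / c₃ ω (F.t ω) * T₃ ω| ≤ μ₀ := by
      have := hω.2
      rw [hμ] at this
      exact this
    rw [hq]
    refine k1.trans ?_
    have h4 : (0 : ℝ) ≤ Λ ^ 4 := by positivity
    nlinarith
  -- the closed relation
  obtain ⟨κ₁, hκ₁⟩ : ∃ κ₁ : ℝ, κ₁ = 82 * Λ ^ 11 * er / ε ^ 2 := ⟨_, rfl⟩
  obtain ⟨ρ₁, hρ₁⟩ : ∃ ρ₁ : PtT F → ℝ, ρ₁ = fun y => σ y - q y * (2 ^ g 1 / 2 ^ g 2) := ⟨_, rfl⟩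
  obtain ⟨ρ₀, hρ₀⟩ : ∃ ρ₀ : PtT F → ℝ, ρ₀ = fun y => X₂ y - ρ₁ y * X₁ y := ⟨_, rfl⟩
  have hmain : ∀ ω, B₃ ω → ∀ t : ℝ, |t - F.t ω| ≤ 1 / 2 ^ a →
      |c₂ ω t - c₃ ω t * q (ptr F J ω)| ≤ κ₁ := by
    intro ω hω t ht
    have hωB := hB3 ω hω
    obtain ⟨q1, q2⟩ := hrp ω hωB
    have hω1 := hω
    rw [hB₃] at hω1
    have hω2 := hω1.1
    rw [hB₁] at hω2
    have f1 : ε ≤ |A ω (rp (slam F a ω))| := by rw [hAabs]; exact hω2.2.le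
    obtain ⟨x, hx⟩ : ∃ x, x = A ω (rp (slam F a ω)) := ⟨_, rfl⟩
    obtain ⟨y, hy⟩ : ∃ y, y = Bb ω (rp (slam F a ω)) := ⟨_, rfl⟩
    rw [← hx] at f1
    have hx0 : 0 < |x| := hε.trans_le f1
    have hx1 : x ≠ 0 := abs_pos.1 hx0
    have l1 := hlin ω _ hωB q1 q2.symm t ht
    have l2 := hlin ω _ hωB q1 q2.symm _ (hself ω)
    rw [← hx, ← hy] at l1 l2
    have dv : ∀ u : ℝ, |u| ≤ 2 * er → |u / x| ≤ 2 * er / ε := by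
      intro u hu
      rw [abs_div]
      exact div_le_div₀ (by positivity) hu hε f1
    have l3 := dv _ l1
    have l4 := dv _ l2
    have hc30 : 0 < |c₃ ω (F.t ω)| := lt_of_lt_of_le (by positivity) (hlow' ω hωB)
    have hc31 : c₃ ω (F.t ω) ≠ 0 := abs_pos.1 hc30
    have l5 : |c₂ ω (F.t ω) / c₃ ω (F.t ω) + y / x| ≤ 2 * er / ε * Λ := by
      have e1 : c₂ ω (F.t ω) / c₃ ω (F.t ω) + y / x =
          (c₂ ω (F.t ω) * x + c₃ ω (F.t ω) * y) / x * (1 / c₃ ω (F.t ω)) := by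
        field_simp
      rw [e1, abs_mul]
      refine mul_le_mul l4 ?_ (abs_nonneg _) (by positivity)
      rw [abs_div, abs_one, div_le_iff₀ hc30]
      have := hlow' ω hωB
      rw [div_le_iff₀ hΛ0] at this
      linarith
    have l6 := hqn ω hω
    have l7 : |c₃ ω t| ≤ 2 * Λ := by
      have k1 := hvar ω hωB t (ht.trans (div_le_div_of_nonneg_right (by norm_num)
        (by positivity)))
      have k2 : |c₃ ω t - c₃ ω (F.t ω)| ≤ δ := by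
        have e1 : c₃ ω t - c₃ ω (F.t ω) =
            ((P₂ (slam F w ω)).eval t - (P₂ (slam F w ω)).eval (F.t ω)) / k₀ := by
          rw [hc₃]
          simp only
          ring
        rw [e1, abs_div, abs_of_pos hk₀, div_le_iff₀ hk₀]
        exact k1
      have k3 := hup' ω hωB
      have e1 : c₃ ω t = (c₃ ω t - c₃ ω (F.t ω)) + c₃ ω (F.t ω) := by ring
      rw [e1]
      refine (abs_add_le _ _).trans ?_
      linarith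
    have e2 : c₂ ω t - c₃ ω t * q (ptr F J ω) = (c₂ ω t * x + c₃ ω t * y) / x -
        c₃ ω t * ((q (ptr F J ω) - c₂ ω (F.t ω) / c₃ ω (F.t ω)) +
          (c₂ ω (F.t ω) / c₃ ω (F.t ω) + y / x)) := by
      field_simp
      ring
    rw [e2]
    have l8 : |c₃ ω t * ((q (ptr F J ω) - c₂ ω (F.t ω) / c₃ ω (F.t ω)) +
          (c₂ ω (F.t ω) / c₃ ω (F.t ω) + y / x))| ≤
        2 * Λ * ((2 * Λ ^ 3 * er + Λ ^ 4 * μ₀) + 2 * er / ε * Λ) := by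
      rw [abs_mul]
      exact mul_le_mul l7 ((abs_add_le _ _).trans (add_le_add l6 l5)) (abs_nonneg _)
        (by positivity)
    refine (abs_sub _ _).trans ((add_le_add l3 l8).trans ?_)
    -- the size
    obtain ⟨Z, hZ⟩ : ∃ Z : ℝ, Z = er / ε ^ 2 := ⟨_, rfl⟩
    have hZ0 : 0 ≤ Z := by rw [hZ]; positivity
    have z1 : er ≤ Z := by
      rw [hZ, le_div_iff₀ (by positivity)]
      nlinarith [mul_le_mul_of_nonneg_left (show ε ^ 2 ≤ 1 by nlinarith) her]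
    have z2 : er / ε ≤ Z := by
      rw [hZ, div_le_div_iff₀ hε (by positivity)]
      have : ε ^ 2 ≤ ε := by nlinarith
      exact mul_le_mul_of_nonneg_left this her
    have z3 : μ₀ = 36 * Λ ^ 6 * Z := by
      rw [hμ₀, hE, hZ]
      ring
    have z4 : κ₁ = 82 * Λ ^ 11 * Z := by rw [hκ₁, hZ]; ring
    have y2 : 2 * er / ε = 2 * (er / ε) := by ring
    rw [z3, z4, y2]
    have w1 : (1 : ℝ) ≤ Λ ^ 11 := one_le_pow₀ hΛ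
    have w2 : Λ ^ 4 ≤ Λ ^ 11 := pow_le_pow_right₀ hΛ (by norm_num)
    have w3 : Λ ^ 2 ≤ Λ ^ 11 := pow_le_pow_right₀ hΛ (by norm_num)
    have v1 : Λ ^ 4 * er ≤ Λ ^ 11 * Z := mul_le_mul w2 z1 her (by positivity)
    have v2 : er / ε ≤ Λ ^ 11 * Z := by nlinarith
    have v3 : Λ ^ 2 * (er / ε) ≤ Λ ^ 11 * Z := mul_le_mul w3 z2 (by positivity) (by positivity)
    have e3 : 2 * (er / ε) + 2 * Λ * (2 * Λ ^ 3 * er + Λ ^ 4 * (36 * Λ ^ 6 * Z) +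
        2 * (er / ε) * Λ) = 2 * (er / ε) + 4 * (Λ ^ 4 * er) + 72 * (Λ ^ 11 * Z) +
        4 * (Λ ^ 2 * (er / ε)) := by ring
    rw [e3]
    linarith
  have hκ₁0 : 0 ≤ κ₁ := by rw [hκ₁]; positivity
  have hG12 : (0 : ℝ) < 2 ^ g 1 / 2 ^ g 2 := by positivity
  have hqR : ∀ ω, B ω → |q (ptr F J ω) * (2 ^ g 1 / 2 ^ g 2)| ≤ Λ ^ 2 * 2 ^ g 1 / 2 ^ g 2 := by
    intro ω hω
    rw [abs_mul, abs_of_pos hG12, mul_div_assoc]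
    exact mul_le_mul_of_nonneg_right (hqΛ ω hω) hG12.le
  have hρ1R : ∀ ω, B ω → |ρ₁ (ptr F J ω)| ≤ 2 * R₁ := by
    intro ω hω
    rw [hρ₁]
    simp only
    refine (abs_sub _ _).trans ?_
    linarith [hσR ω hω, hqR ω hω]
  have hρ0R : ∀ ω, B ω → |ρ₀ (ptr F J ω)| ≤ R₂ + 2 * R₁ ^ 2 := by
    intro ω hω
    rw [hρ₀]
    simp only
    refine (abs_sub _ _).trans ?_
    rw [abs_mul]
    have k1 := mul_le_mul (hρ1R ω hω) (hX1 ω hω) (abs_nonneg _) (by linarith)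
    have k2 := hX2 ω hω
    nlinarith
  have hRR : 2 * R₁ ≤ R₂ + 2 * R₁ ^ 2 := by nlinarith
  refine nv_end2 (F := F) (c := c) (D := D) (D' := D') (D₂ := D₂) (a := a) (w := w) (w₂ := a)
    (e := e) (h := h) (g := g) (κ := κ) (M := M₂) (R := R₂ + 2 * R₁ ^ 2)
    (er := er * (k₀ * 2 ^ g 0 / 2 ^ g 2)) (k₀ := k₀ / Λ) (k₁ := k₀ * (2 ^ g 1 / 2 ^ g 2) * κ₁)
    (δ := δ * Λ) (Y := Λ / 2 ^ g 0) (Y₁ := Λ / 2 ^ g 1) (Yu := 2 * Λ ^ 3 / 2 ^ g 2) (B₀ := B₀)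
    (B := B₃) (G := T) (H := TH) hc hR hL hD (fun ω h => hB ω (hB3 ω h)) (by linarith)
    (by linarith) hwa le_rfl haJ ν X₁ ρ₁ ρ₀ P₀ P₁ P₂ hd0 hd1 hd2
    (fun ω h => (hν ω (hB3 ω h)).2) (fun ω h => (hρ1R ω (hB3 ω h)).trans hRR)
    (fun ω h => hρ0R ω (hB3 ω h)) hM2 (fun ω h => ?_) (by positivity) (fun ω h => ?_)
    (by positivity) (fun ω h t ht => ?_) (fun ω h t ht => ?_) (fun ω h t ht => ?_)
    (by positivity) (fun ω h => hb0 ω (hB3 ω h)) (by positivity) (fun ω h => hb1 ω (hB3 ω h))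
    (by positivity) (fun ω h b hb => ?_) ?_ hn8 hn9
  · -- the velocities
    have hωB := hB3 ω h
    have k1 := hv1 ω hωB
    have k2 := hv2 ω hωB
    obtain ⟨V0, hV0⟩ : ∃ V0, V0 = bd F ω (some (c 0)) - bd F (ν (ptr F J ω)) (some (c 0)) :=
      ⟨_, rfl⟩
    obtain ⟨V1, hV1⟩ : ∃ V1, V1 = bd F ω (some (c 1)) - bd F (ν (ptr F J ω)) (some (c 1)) :=
      ⟨_, rfl⟩
    obtain ⟨V2, hV2⟩ : ∃ V2, V2 = bd F ω (some (c 2)) - bd F (ν (ptr F J ω)) (some (c 2)) :=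
      ⟨_, rfl⟩
    rw [← hV0, ← hV1] at k1
    rw [← hV0, ← hV1, ← hV2] at k2
    rw [← hV0, ← hV1, ← hV2]
    have e1 : V2 - ρ₁ (ptr F J ω) * V1 - ρ₀ (ptr F J ω) * V0 =
        ((V2 - X₂ (ptr F J ω) * V0) - σ (ptr F J ω) * (V1 - X₁ (ptr F J ω) * V0)) +
        q (ptr F J ω) * (2 ^ g 1 / 2 ^ g 2) * (V1 - X₁ (ptr F J ω) * V0) := by
      rw [hρ₀, hρ₁]
      ring
    rw [e1]
    refine (abs_add_le _ _).trans (le_trans (add_le_add k2 ?_) hn6)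
    rw [abs_mul]
    exact mul_le_mul (hqR ω hωB) k1 (abs_nonneg _) (by positivity)
  · -- the lower bound
    have k1 := hlow ω (hB3 ω h)
    rw [abs_div, abs_of_pos hk₀, le_div_iff₀ hk₀] at k1
    calc k₀ / Λ = 1 / Λ * k₀ := by ring
      _ ≤ _ := k1
  · -- the variation
    have k1 := hvar ω (hB3 ω h) t ht
    have e1 : δ * Λ * (k₀ / Λ) = δ * k₀ := by field_simp
    rw [e1]
    exact k1
  · -- the direction `c 1`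
    have k1 := hmain ω h t ht
    have e1 : (P₁ (slam F w ω)).eval t + (P₂ (slam F w ω)).eval t * ρ₁ (ptr F J ω) =
        k₀ * (2 ^ g 1 / 2 ^ g 2) * (c₂ ω t - c₃ ω t * q (ptr F J ω)) := by
      rw [hρ₁, hc₂, hc₃]
      simp only
      field_simp
      ring
    rw [e1, abs_mul, abs_of_pos (show 0 < k₀ * (2 ^ g 1 / 2 ^ g 2) by positivity)]
    exact mul_le_mul_of_nonneg_left k1 (by positivity)
  · -- the relation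
    have k1 := hrel ω (hB3 ω h) t (ht.trans (div_le_div_of_nonneg_right (by norm_num)
        (by positivity)))
    have e1 : (P₀ (slam F w ω)).eval t + ((P₁ (slam F w ω)).eval t +
        (P₂ (slam F w ω)).eval t * ρ₁ (ptr F J ω)) * X₁ (ptr F J ω) +
        (P₂ (slam F w ω)).eval t * ρ₀ (ptr F J ω) =
        (P₀ (slam F w ω)).eval t + (P₁ (slam F w ω)).eval t * X₁ (ptr F J ω) +
        (P₂ (slam F w ω)).eval t * X₂ (ptr F J ω) := by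
      rw [hρ₀]
      ring
    rw [e1]
    exact k1
  · -- the box
    have hωB := hB3 ω h
    have k1 := hb1 ω hωB b ⟨hb.1, fun l hl => hb.2 l (by omega)⟩
    have k2 := hb2 ω hωB b hb
    obtain ⟨V0, hV0⟩ : ∃ V0, V0 = b (some (c 0)) -
      (F.x ω (c 0) + (b none - F.t ω) * bd F ω (some (c 0))) := ⟨_, rfl⟩
    obtain ⟨V1, hV1⟩ : ∃ V1, V1 = b (some (c 1)) -
      (F.x ω (c 1) + (b none - F.t ω) * bd F ω (some (c 1))) := ⟨_, rfl⟩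
    obtain ⟨V2, hV2⟩ : ∃ V2, V2 = b (some (c 2)) -
      (F.x ω (c 2) + (b none - F.t ω) * bd F ω (some (c 2))) := ⟨_, rfl⟩
    rw [← hV0, ← hV1] at k1
    rw [← hV0, ← hV1, ← hV2] at k2
    rw [← hV0, ← hV1, ← hV2]
    have e1 : V2 - ρ₁ (ptr F J ω) * V1 - ρ₀ (ptr F J ω) * V0 =
        ((V2 - X₂ (ptr F J ω) * V0) - σ (ptr F J ω) * (V1 - X₁ (ptr F J ω) * V0)) +
        q (ptr F J ω) * (2 ^ g 1 / 2 ^ g 2) * (V1 - X₁ (ptr F J ω) * V0) := by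
      rw [hρ₀, hρ₁]
      ring
    rw [e1]
    refine (abs_add_le _ _).trans ?_
    rw [abs_mul]
    have k3 := mul_le_mul (hqR ω hωB) k1 (abs_nonneg _) (by positivity)
    have e2 : Λ ^ 2 * 2 ^ g 1 / 2 ^ g 2 * (Λ / 2 ^ g 1) = Λ ^ 3 / 2 ^ g 2 := by
      field_simp
    rw [e2] at k3
    have k4 : Λ / 2 ^ g 2 ≤ Λ ^ 3 / 2 ^ g 2 := by
      refine div_le_div_of_nonneg_right ?_ hG2.le
      calc Λ = Λ ^ 1 := (pow_one _).symm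
        _ ≤ Λ ^ 3 := pow_le_pow_right₀ hΛ (by norm_num)
    have e3 : 2 * Λ ^ 3 / 2 ^ g 2 = Λ ^ 3 / 2 ^ g 2 + Λ ^ 3 / 2 ^ g 2 := by ring
    rw [e3]
    linarith
  · -- the numbers
    have e1 : 4 * (er * (k₀ * 2 ^ g 0 / 2 ^ g 2)) / (k₀ / Λ) * (Λ / 2 ^ g 0) =
        4 * Λ ^ 2 * er / 2 ^ g 2 := by
      field_simp
    have e2 : 4 * (k₀ * (2 ^ g 1 / 2 ^ g 2) * κ₁) / (k₀ / Λ) * (Λ / 2 ^ g 1) =
        4 * Λ ^ 2 * κ₁ / 2 ^ g 2 := by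
      field_simp
    have e3 : 4 * (δ * Λ) * (2 * Λ ^ 3 / 2 ^ g 2) = 8 * Λ ^ 4 * δ / 2 ^ g 2 := by ring
    rw [e1, e2, e3, ← add_div, ← add_div, div_le_iff₀ hG2]
    refine le_trans ?_ hn7
    have z1 : er ≤ er / ε ^ 2 := by
      rw [le_div_iff₀ (by positivity)]
      nlinarith [mul_le_mul_of_nonneg_left (show ε ^ 2 ≤ 1 by nlinarith) her]
    have z2 : Λ ^ 2 ≤ Λ ^ 13 := pow_le_pow_right₀ hΛ (by norm_num)
    have z3 : Λ ^ 2 * er ≤ Λ ^ 13 * (er / ε ^ 2) := mul_le_mul z2 z1 her (by positivity)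
    have e4 : 4 * Λ ^ 2 * κ₁ = 328 * (Λ ^ 13 * (er / ε ^ 2)) := by
      rw [hκ₁]
      ring
    have e5 : 332 * Λ ^ 13 * er / ε ^ 2 = 332 * (Λ ^ 13 * (er / ε ^ 2)) := by ring
    rw [e4, e5]
    linarith

end Pool.NVX
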