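import Pool.Agent.H77.NV.Ent
import Pool.Agent.H77.NV.Ttf
import Pool.Agent.H80.NV.Bxs
import Pool.Agent.H80.NV.Wn

/-!
# The end for two thin coordinates

`rel3_fin`: the contradiction, if the second derivative in the direction `v` is not larger than the
one in the direction `c 2`, in natural units.
-/

set_option autoImplicit false

namespace Pool.NVX

open Finset Real MvPolynomial
open Pool.Agent.H49.Ent Pool.Agent.H32.Dense Pool.STK Pool.KA Pool.KSAT Pool.K2S Pool.PB Pool.S6C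
open Pool.GEN Pool.CHT
open Pool.D2R (dd hs dd_add dd_smul dd_congr hs_add_right hs_add_left hs_smul_right hs_smul_left
  hs_comm pol_ext bt_near)
open Pool.F5 (lp gp der_lp dd_gp deg_gp deg_lp eo bdS bdS_slam eval_lp eval_gp)
open Pool.SHR (dir mvp dvc Shr RelvH dir_deg dir_dep relvF_low)
open Pool.PB.Trl (rt rt_mem t_rt)

variable {m J : ℕ}

theorem Rel3.sub {F : Fam m J} {c : ℕ → Fin m} {a w e n p lam₁ lam₂ D h : ℕ}
    {g gN g₄ : ℕ → ℕ} {A B B' : F.Ω → Prop} {T T₄ : PtT F → ℕ → MvPolynomial (Option (Fin m)) ℝ}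
    {NH : LnT F → ℕ → MvPolynomial (Option (Fin m)) ℝ} {v : PtT F → Fin m → ℝ}
    {X : PtT F → Option (Fin m) → ℝ} {ν₀ : PtT F → F.Ω}
    (H : Rel3 F c a w e n p lam₁ lam₂ D h g gN g₄ A B T T₄ NH v X ν₀) (hB : Sub B' B) :
    Rel3 F c a w e n p lam₁ lam₂ D h g gN g₄ A B' T T₄ NH v X ν₀ :=
  ⟨fun ω h => H.x0 ω (hB ω h), fun ω h => H.x1 ω (hB ω h), fun ω h => H.nu ω (hB ω h),
    fun ω h => H.sl1 ω (hB ω h), fun ω h => H.slv ω (hB ω h), fun ω h => H.sl2 ω (hB ω h),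
    fun ω h => H.ve1 ω (hB ω h), fun ω h => H.ve2 ω (hB ω h),
    fun ω ω' h h' => H.tt1 ω ω' (hB ω h) (hB ω' h'),
    fun ω ω' h h' => H.tt2 ω ω' (hB ω h) (hB ω' h'), fun ω h => H.pl ω (hB ω h),
    fun ω h => H.sep ω (hB ω h), fun ω h => H.rep ω (hB ω h), H.pth, H.pth4, H.dp,
    fun ω h => H.rel ω (hB ω h), fun ω h => H.xx ω (hB ω h)⟩

/-- A line through the exact point, in the event. -/
theorem rep_pt {F : Fam m J} {B : F.Ω → Prop} (ω₀ : F.Ω) :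
    ∃ ν : PtT F → F.Ω, ∀ ω, B ω → B (ν (ptr F J ω)) ∧ ptr F J (ν (ptr F J ω)) = ptr F J ω := by
  classical
  have hrep : ∀ s : PtT F, ∃ ω' : F.Ω, (∃ ω, B ω ∧ ptr F J ω = s) → B ω' ∧ ptr F J ω' = s := by
    intro s
    by_cases h : ∃ ω, B ω ∧ ptr F J ω = s
    · obtain ⟨ω, h1⟩ := h
      exact ⟨ω, fun _ => h1⟩
    · exact ⟨ω₀, fun h' => absurd h' h⟩
  choose rp hrp using hrep
  exact ⟨rp, fun ω hω => hrp _ ⟨ω, hω, rfl⟩⟩

/-- A polynomial in the time which is small at the distance `2 ^ (-a)` is small at the distance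
`2 · 2 ^ (-a)`. -/
theorem pol_two (D : ℕ) : ∃ C : ℝ, 1 ≤ C ∧ ∀ (P : Polynomial ℝ) (t₀ S : ℝ) (a : ℕ),
    P.natDegree ≤ D → (∀ t : ℝ, |t - t₀| ≤ 1 / 2 ^ a → |P.eval t| ≤ S) →
    ∀ t : ℝ, |t - t₀| ≤ 2 / 2 ^ a → |P.eval t| ≤ C * S := by
  obtain ⟨C, hC, hext⟩ := pol_ext D
  refine ⟨C, hC, ?_⟩
  intro P t₀ S a hP hS t ht
  have h2a : (0 : ℝ) < 2 ^ a := by positivity
  obtain ⟨q, hq⟩ : ∃ q : Polynomial ℝ, q = P.comp (Polynomial.C (t₀ - 1 / 2 ^ a) +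
      Polynomial.C (2 / 2 ^ a) * Polynomial.X) := ⟨_, rfl⟩
  have hqe : ∀ y, q.eval y = P.eval (t₀ + (2 * y - 1) / 2 ^ a) := by
    intro y
    rw [hq, Polynomial.eval_comp]
    congr 1
    simp only [Polynomial.eval_add, Polynomial.eval_mul, Polynomial.eval_C, Polynomial.eval_X]
    field_simp
    ring
  have hqd : q.natDegree ≤ D := by
    rw [hq]
    refine (Polynomial.natDegree_comp_le).trans ?_
    have h1 : (Polynomial.C (t₀ - 1 / 2 ^ a) + Polynomial.C (2 / 2 ^ a) * Polynomial.X :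
        Polynomial ℝ).natDegree ≤ 1 := by
      refine (Polynomial.natDegree_add_le _ _).trans (max_le ?_ ?_)
      · rw [Polynomial.natDegree_C]
        exact Nat.zero_le _
      · exact (Polynomial.natDegree_C_mul_le _ _).trans Polynomial.natDegree_X_le
    calc P.natDegree * _ ≤ P.natDegree * 1 := Nat.mul_le_mul_left _ h1
      _ = P.natDegree := mul_one _
      _ ≤ D := hP
  have h1 := hext q S hqd (fun y hy => by
    rw [hqe]
    refine hS _ ?_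
    rw [add_sub_cancel_left, abs_div, abs_of_pos h2a]
    refine div_le_div_of_nonneg_right ?_ h2a.le
    rw [abs_le]
    constructor <;> linarith [hy.1, hy.2]) ((2 ^ a * (t - t₀) + 1) / 2) (by
      rw [abs_div, abs_of_pos (show (0 : ℝ) < 2 by norm_num), div_le_iff₀ (by norm_num)]
      have h2 : |2 ^ a * (t - t₀)| ≤ 2 := by
        rw [abs_mul, abs_of_pos h2a]
        calc (2 : ℝ) ^ a * |t - t₀| ≤ 2 ^ a * (2 / 2 ^ a) :=
              mul_le_mul_of_nonneg_left ht h2a.le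
          _ = 2 := by field_simp
      refine (abs_add_le _ _).trans ?_
      rw [abs_one]
      linarith)
  rw [hqe] at h1
  have e1 : t₀ + (2 * ((2 ^ a * (t - t₀) + 1) / 2) - 1) / 2 ^ a = t := by
    field_simp
    ring
  rw [e1] at h1
  exact h1

/-- **The end for two thin coordinates.** -/
theorem rel3_fin (m D : ℕ) (hD : 1 ≤ D) : ∃ C : ℕ, ∀ {J : ℕ} {F : Fam m J} {c : ℕ → Fin m}
    {a w e n p lam₁ lam₂ D₂ h x q K : ℕ} {g gN : ℕ → ℕ} {κ : ℝ} {B₀ A B : F.Ω → Prop}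
    {N T : PtT F → ℕ → MvPolynomial (Option (Fin m)) ℝ}
    {NH TH : LnT F → ℕ → MvPolynomial (Option (Fin m)) ℝ} {v : PtT F → Fin m → ℝ}
    {v' : LnT F → Fin m → ℝ} {X : PtT F → Option (Fin m) → ℝ} {ν₀ : PtT F → F.Ω}
    {al₁ al₂ : PtT F → ℝ},
    Rel3 F c a w e n p lam₁ lam₂ D h g gN g A B T T NH v X ν₀ → w ≤ a → a ≤ J →
    Set.InjOn c (Set.Iio 3) → RelvF F c 3 a a g D₂ h κ B₀ T → D + 2 ≤ D₂ →
    ChOK F c 3 (fun _ => D) a a e g B₀ T TH → Sub A B₀ → Sub B A → 0 ≤ κ →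
    4 * (κ * Pe F.p B₀) ≤ Pe F.p B → 0 < Pe F.p B → (∀ s, (NH s 3).totalDegree ≤ D) →
    (∀ s, DepC c 3 (NH s 3)) → (∀ ω, B ω → v (ptr F J ω) = v' (slam F a ω)) →
    (∀ y, v y (c 1) = 1 ∧ v y (c 0) = 0 ∧ ∀ k, k ≠ c 1 → k ≠ c 2 → v y k = 0) →
    (∀ ω, A ω → Shr F c 1 a g T v x 2 ω) →
    (∀ ω, A ω → ∀ b, NBx c (T (ptr F J ω)) g a (F.t ω) 2 b →
      |eval b (pderiv (some (c 1)) (T (ptr F J ω) 2)) - v (ptr F J ω) (c 2)| ≤
        2 ^ x * 2 ^ g 1 / 2 ^ g 2) →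
    (∀ ω, A ω → ∀ b, NBx c (T (ptr F J ω)) g a (F.t ω) 3 b →
      |eval b (dir (v (ptr F J ω)) (NH (slam F w ω) 3)) - al₁ (ptr F J ω)| ≤
        2 ^ (x + q) * (2 ^ (g 1 + lam₂) / 2 ^ (g 2 + gN 3)) ∧
      |eval b (dir (ek (c 2)) (NH (slam F w ω) 3)) - al₂ (ptr F J ω)| ≤
        2 ^ x * (2 ^ lam₂ / 2 ^ gN 3) ∧
      |eval b (N (ptr F J ω) 3) - eval b (NH (slam F w ω) 3)| ≤ 2 ^ x / 2 ^ gN 3) →
    (∀ ω, B ω → 2 ^ (a + lam₂) / 2 ^ gN 3 / 2 ^ x ≤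
      |(hcl (c 2) (NH (slam F w ω) 3) (slam F w ω)).eval (F.t ω)|) →
    (∀ ω, B ω → ∀ t : ℝ, F.t ω - rt F w ω / 2 ^ w ≤ t →
      t ≤ F.t ω + (1 - rt F w ω) / 2 ^ w →
      |(hcl (c 2) (NH (slam F w ω) 3) (slam F w ω)).eval t| ≤ 2 ^ (a + lam₂) / 2 ^ gN 3) →
    (∀ ω, B ω → |(hcl (c 1) (NH (slam F w ω) 3) (slam F w ω)).eval (F.t ω) +
      v (ptr F J ω) (c 2) * (hcl (c 2) (NH (slam F w ω) 3) (slam F w ω)).eval (F.t ω)| ≤
      2 ^ (a + lam₁) / 2 ^ gN 3) →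
    g 0 ≤ g 1 + x → g 1 ≤ g 2 + x → lam₁ + g 2 ≤ lam₂ + g 1 + q → g 2 + K ≤ lam₂ →
    w + K ≤ a → K + q ≤ p → C * (n + x + h + q + 1) ≤ K →
    (∀ l < 3, 2 * e + g l + 2 * K ≤ J) → False := by
  classical
  obtain ⟨cE, hent⟩ := ent_bd m D
  obtain ⟨cN, hcmp⟩ := cmp_nu m D
  obtain ⟨cX, hbx⟩ := rel3_bx D hD
  obtain ⟨cY, hbx2⟩ := rel3_bx2 D hD
  obtain ⟨C₄, hC₄, hp2⟩ := pol_two D
  obtain ⟨c₄, hc₄⟩ := pow_unbounded_of_one_lt C₄ (one_lt_two (α := ℝ))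
  obtain ⟨cM, hmkv⟩ := mkv_win D
  obtain ⟨cS, hslp⟩ := slp_all D 4
  obtain ⟨C₅, hC₅, hvel⟩ := vel_one D
  obtain ⟨c₅, hc₅⟩ := pow_unbounded_of_one_lt C₅ (one_lt_two (α := ℝ))
  have pw : ∀ {x y : ℕ}, x ≤ y → (2 : ℝ) ^ x ≤ 2 ^ y := fun h => pow_le_pow_right₀ (by norm_num) h
  obtain ⟨cc, hcc⟩ : ∃ cc, cc = 2 * cE + cN + cX + cY + c₄ + cM + cS + c₅ + 12 := ⟨_, rfl⟩
  refine ⟨20 * cc, ?_⟩
  intro J F c a w e n p lam₁ lam₂ D₂ h x q K g gN κ B₀ A B N T NH TH v v' X ν₀ al₁ al₂ H hwa haJ hc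
    hR hDD hT hA hB hκ hP hP0 hNd hNc hv hvf hS hslb hbox hlow hup hCv n01 n12 n1 n2 n3 n4 n5 n6
  obtain ⟨T₀, hT₀⟩ : ∃ T₀, T₀ = n + x + h + q + 1 := ⟨_, rfl⟩
  have hT1 : 1 ≤ T₀ := by omega
  rw [← hT₀] at n5
  obtain ⟨L, hL⟩ : ∃ L, L = cc * T₀ := ⟨_, rfl⟩
  have hLK : 20 * L ≤ K := by rw [hL]; refine le_trans (le_of_eq ?_) n5; ring
  have mT : ∀ y : ℕ, y ≤ y * T₀ := fun y => Nat.le_mul_of_pos_right _ hT1
  have hLs : 2 * (cE * T₀) + cN * T₀ + cX * T₀ + cY * T₀ + c₄ * T₀ + cM * T₀ + cS * T₀ + c₅ * T₀ +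
      12 * T₀ = L := by rw [hL, hcc]; ring
  have hwJ : w ≤ J := hwa.trans haJ
  obtain ⟨ω₀, hω₀⟩ : ∃ ω, B ω := by
    by_contra hcon
    push Not at hcon
    have h1 : Pe F.p B = 0 := by
      unfold Pe
      exact Finset.sum_eq_zero fun ω _ => by simp [hcon ω]
    linarith
  obtain ⟨νB, hνB⟩ := rep_pt (F := F) (B := B) ω₀
  have hνA : ∀ ω, B ω → A (νB (ptr F J ω)) := fun ω h => hB _ (hνB ω h).1
  have hTA : ChOK F c 3 (fun _ => D) a a e g A T TH := hT.sub hA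
  have hvv : ∀ y, v y (c 1) = 1 ∧ v y (c 0) = 0 := fun y => ⟨(hvf y).1, (hvf y).2.1⟩
  have tE : cE * (n + 1) ≤ cE * T₀ := Nat.mul_le_mul_left _ (by omega)
  have tE' : cE * (x + 1) ≤ cE * T₀ := Nat.mul_le_mul_left _ (by omega)
  have tN : cN * (n + 1) ≤ cN * T₀ := Nat.mul_le_mul_left _ (by omega)
  have tN' : cN * (n + x + 1) ≤ cN * T₀ := Nat.mul_le_mul_left _ (by omega)
  have tS : cS * (x + 1) ≤ cS * T₀ := Nat.mul_le_mul_left _ (by omega)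
  have t4 := mT c₄
  have tM := mT cM
  have t5 := mT c₅
  have tE2 := mT cE
  have tS2 := mT cS
  have hrmE : ∀ l < 3, e + g l + K + cE * (n + 1) ≤ J := fun l hl => by
    have := n6 l hl
    omega
  have hrmN : ∀ l < 3, e + g l + K + cN * (n + 1) ≤ J := fun l hl => by
    have := n6 l hl
    omega
  -- the units
  obtain ⟨u, hu⟩ : ∃ u : ℝ, u = 2 ^ lam₂ / 2 ^ (g 2 + gN 3) := ⟨_, rfl⟩
  have hu0 : 0 < u := by rw [hu]; positivity
  obtain ⟨k₀, hk₀⟩ : ∃ k₀ : ℝ, k₀ = 2 ^ (a + lam₂) / 2 ^ gN 3 := ⟨_, rfl⟩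
  have hk00 : 0 < k₀ := by rw [hk₀]; positivity
  have hku : k₀ = 2 ^ a * (2 ^ g 2 * u) := by
    rw [hk₀, hu, pow_add, pow_add]
    field_simp
  have hEv : (2 : ℝ) ^ (g 1 + lam₂) / 2 ^ (g 2 + gN 3) = 2 ^ g 1 * u := by
    rw [hu, pow_add 2 (g 1)]
    ring
  have hE2 : (2 : ℝ) ^ lam₂ / 2 ^ gN 3 = 2 ^ g 2 * u := by
    rw [hu, pow_add 2 (g 2)]
    field_simp
  rw [hEv, hE2] at hbox
  obtain ⟨Λ, hΛ⟩ : ∃ Λ : ℝ, Λ = 2 ^ L := ⟨_, rfl⟩
  have hΛ1 : 1 ≤ Λ := by rw [hΛ]; exact one_le_pow₀ (by norm_num)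
  obtain ⟨er, her⟩ : ∃ er : ℝ, er = 2 ^ L / 2 ^ K := ⟨_, rfl⟩
  have her0 : 0 ≤ er := by rw [her]; positivity
  have hg0 : (0 : ℝ) < 2 ^ g 0 := by positivity
  have hg1 : (0 : ℝ) < 2 ^ g 1 := by positivity
  have hg2 : (0 : ℝ) < 2 ^ g 2 := by positivity
  have hgN : (0 : ℝ) < 2 ^ gN 3 := by positivity
  have h2a : (0 : ℝ) < 2 ^ a := by positivity
  have hKp : (0 : ℝ) < 2 ^ K := by positivity
  -- the bracket
  obtain ⟨brk, hbrk⟩ : ∃ brk : ℝ, brk = 1 + 2 ^ lam₁ / 2 ^ (g 1 + p) + 2 ^ lam₂ / 2 ^ (g 2 + p) :=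
    ⟨_, rfl⟩
  have hb3 : 2 ^ g 2 * brk ≤ 2 ^ lam₂ * (3 / 2 ^ K) := by
    have q1 : (2 : ℝ) ^ g 2 ≤ 2 ^ lam₂ * (1 / 2 ^ K) := by
      rw [mul_one_div, le_div_iff₀ hKp, ← pow_add]
      exact pw n2
    have q2 : (2 : ℝ) ^ g 2 * (2 ^ lam₁ / 2 ^ (g 1 + p)) ≤ 2 ^ lam₂ * (1 / 2 ^ K) := by
      rw [mul_one_div, ← mul_div_assoc, div_le_div_iff₀ (by positivity) hKp, ← pow_add,
        ← pow_add, ← pow_add]
      exact pw (by omega)
    have q3 : (2 : ℝ) ^ g 2 * (2 ^ lam₂ / 2 ^ (g 2 + p)) ≤ 2 ^ lam₂ * (1 / 2 ^ K) := by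
      rw [mul_one_div, ← mul_div_assoc, div_le_div_iff₀ (by positivity) hKp, ← pow_add,
        ← pow_add, ← pow_add]
      exact pw (by omega)
    rw [hbrk]
    have e3 : (2 : ℝ) ^ lam₂ * (3 / 2 ^ K) = 2 ^ lam₂ * (1 / 2 ^ K) + 2 ^ lam₂ * (1 / 2 ^ K) +
        2 ^ lam₂ * (1 / 2 ^ K) := by ring
    rw [e3]
    calc (2 : ℝ) ^ g 2 * (1 + 2 ^ lam₁ / 2 ^ (g 1 + p) + 2 ^ lam₂ / 2 ^ (g 2 + p)) =
        2 ^ g 2 + 2 ^ g 2 * (2 ^ lam₁ / 2 ^ (g 1 + p)) +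
          2 ^ g 2 * (2 ^ lam₂ / 2 ^ (g 2 + p)) := by ring
      _ ≤ _ := add_le_add (add_le_add q1 q2) q3
  have hrS : 2 ^ (a + g 0 + n) / 2 ^ gN 3 * brk ≤
      3 * 2 ^ n / 2 ^ K * (k₀ * 2 ^ g 0 / 2 ^ g 2) := by
    have e1 : (2 : ℝ) ^ (a + g 0 + n) / 2 ^ gN 3 * brk =
        2 ^ a * 2 ^ g 0 * 2 ^ n / (2 ^ gN 3 * 2 ^ g 2) * (2 ^ g 2 * brk) := by
      rw [pow_add 2 (a + g 0), pow_add 2 a]
      field_simp
    have e2 : 3 * 2 ^ n / 2 ^ K * (k₀ * 2 ^ g 0 / 2 ^ g 2) =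
        2 ^ a * 2 ^ g 0 * 2 ^ n / (2 ^ gN 3 * 2 ^ g 2) * (2 ^ lam₂ * (3 / 2 ^ K)) := by
      rw [hk₀, pow_add 2 a]
      field_simp
    rw [e1, e2]
    exact mul_le_mul_of_nonneg_left hb3 (by positivity)
  have hxS : 2 ^ (g 0 + g 0 + n) / 2 ^ gN 3 * brk ≤ 3 * 2 ^ n / 2 ^ K * (2 ^ g 0 * 2 ^ g 0 * u) := by
    have e1 : (2 : ℝ) ^ (g 0 + g 0 + n) / 2 ^ gN 3 * brk =
        2 ^ g 0 * 2 ^ g 0 * 2 ^ n / (2 ^ gN 3 * 2 ^ g 2) * (2 ^ g 2 * brk) := by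
      rw [pow_add 2 (g 0 + g 0), pow_add 2 (g 0) (g 0)]
      field_simp
    have e2 : 3 * 2 ^ n / 2 ^ K * (2 ^ g 0 * 2 ^ g 0 * u) =
        2 ^ g 0 * 2 ^ g 0 * 2 ^ n / (2 ^ gN 3 * 2 ^ g 2) * (2 ^ lam₂ * (3 / 2 ^ K)) := by
      rw [hu, pow_add 2 (g 2)]
      field_simp
    rw [e1, e2]
    exact mul_le_mul_of_nonneg_left hb3 (by positivity)
  have h3n : (3 : ℝ) * 2 ^ n ≤ 2 ^ (n + 2) := by
    rw [pow_add]
    have : (0 : ℝ) < 2 ^ n := by positivity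
    linarith
  -- the polynomials and the entries
  obtain ⟨P₀, hP₀⟩ : ∃ P₀ : LnT F → Polynomial ℝ, P₀ = fun s => hcl (c 0) (NH s 3) s := ⟨_, rfl⟩
  obtain ⟨P₁, hP₁⟩ : ∃ P₁ : LnT F → Polynomial ℝ, P₁ = fun s => hcl (c 1) (NH s 3) s := ⟨_, rfl⟩
  obtain ⟨P₂, hP₂⟩ : ∃ P₂ : LnT F → Polynomial ℝ, P₂ = fun s => hcl (c 2) (NH s 3) s := ⟨_, rfl⟩
  obtain ⟨T₂, hT₂⟩ : ∃ T₂ : F.Ω → ℝ, T₂ = fun ω =>
      dd (dir (v (ptr F J ω)) (NH (slam F w ω) 3)) (bt F ω)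
        ((1 / 2 ^ g 0 : ℝ) • X (ptr F J ω)) / (2 ^ g 1 * u) := ⟨_, rfl⟩
  obtain ⟨T₃, hT₃⟩ : ∃ T₃ : F.Ω → ℝ, T₃ = fun ω =>
      dd (dir (ek (c 2)) (NH (slam F w ω) 3)) (bt F ω)
        ((1 / 2 ^ g 0 : ℝ) • X (ptr F J ω)) / (2 ^ g 2 * u) := ⟨_, rfl⟩
  obtain ⟨h₁, hh₁⟩ : ∃ h₁ : F.Ω → ℝ, h₁ = fun ω =>
      dd (dir (v (ptr F J ω)) (NH (slam F w ω) 3)) (bt F ω) (dvc (v (ptr F J ω))) /
        (2 ^ g 1 * 2 ^ g 1 * u) := ⟨_, rfl⟩
  obtain ⟨h₂, hh₂⟩ : ∃ h₂ : F.Ω → ℝ, h₂ = fun ω =>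
      dd (dir (v (ptr F J ω)) (NH (slam F w ω) 3)) (bt F ω) (dvc (ek (c 2))) /
        (2 ^ g 1 * 2 ^ g 2 * u) := ⟨_, rfl⟩
  obtain ⟨h₃, hh₃⟩ : ∃ h₃ : F.Ω → ℝ, h₃ = fun ω =>
      dd (dir (ek (c 2)) (NH (slam F w ω) 3)) (bt F ω) (dvc (ek (c 2))) /
        (2 ^ g 2 * 2 ^ g 2 * u) := ⟨_, rfl⟩
  obtain ⟨ξ, hξ⟩ : ∃ ξ : F.Ω → ℝ, ξ = fun ω =>
      2 ^ g 0 * (vl F a (νB (ptr F J ω)) (some (c 0)) - vl F a ω (some (c 0))) := ⟨_, rfl⟩
  -- the numbers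
  obtain ⟨R₁, hR₁⟩ : ∃ R : ℝ, R = 2 ^ (2 * L + n + e + 2 * x) := ⟨_, rfl⟩
  obtain ⟨R₂, hR₂⟩ : ∃ R : ℝ, R = 2 ^ (2 * (n + e + 2 * x) + 1) := ⟨_, rfl⟩
  have nlx : ∀ l i k, (∀ j ∈ Finset.Icc l i, g j ≤ g i + k) → nlp g l i ≤ k := by
    intro l i k hk
    unfold nlp
    have := Finset.sup_le (f := g) hk
    omega
  have nl01 : nlp g 0 1 ≤ x := nlx 0 1 x fun j hj => by
    rw [Finset.mem_Icc] at hj
    have : j = 0 ∨ j = 1 := by omega
    rcases this with rfl | rfl <;> omega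
  have nl12 : nlp g 1 2 ≤ x := nlx 1 2 x fun j hj => by
    rw [Finset.mem_Icc] at hj
    have : j = 1 ∨ j = 2 := by omega
    rcases this with rfl | rfl <;> omega
  have nl02 : nlp g 0 2 ≤ 2 * x := nlx 0 2 (2 * x) fun j hj => by
    rw [Finset.mem_Icc] at hj
    have : j = 0 ∨ j = 1 ∨ j = 2 := by omega
    rcases this with rfl | rfl | rfl <;> omega
  have hX1 : ∀ ω, B ω → |X (ptr F J ω) (some (c 1))| ≤ 2 ^ (n + e + x) := fun ω hω =>
    (H.sl1 ω hω).trans (pw (by omega))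
  have hσ1 : ∀ ω, B ω → |v (ptr F J ω) (c 2)| ≤ 2 ^ (n + e + x) := fun ω hω =>
    (H.slv ω hω).trans (pw (by omega))
  have hRx : (2 : ℝ) ^ (n + e + x) ≤ R₁ := by rw [hR₁]; exact pw (by omega)
  have hX2 : ∀ ω, B ω → |X (ptr F J ω) (some (c 2))| ≤ R₂ := by
    intro ω hω
    have k1 := (H.sl2 ω hω).trans (pw (show n + e + nlp g 0 2 ≤ n + e + 2 * x by omega))
    have k2 : |v (ptr F J ω) (c 2) * X (ptr F J ω) (some (c 1))| ≤
        2 ^ (n + e + x) * 2 ^ (n + e + x) := by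
      rw [abs_mul]
      exact mul_le_mul (hσ1 ω hω) (hX1 ω hω) (abs_nonneg _) (by positivity)
    have e1 : X (ptr F J ω) (some (c 2)) = (X (ptr F J ω) (some (c 2)) -
        v (ptr F J ω) (c 2) * X (ptr F J ω) (some (c 1))) +
        v (ptr F J ω) (c 2) * X (ptr F J ω) (some (c 1)) := by ring
    rw [e1]
    refine (abs_add_le _ _).trans ((add_le_add k1 k2).trans ?_)
    rw [← pow_add, hR₂, pow_succ]
    have g1 : (2 : ℝ) ^ (n + e + 2 * x) ≤ 2 ^ (2 * (n + e + 2 * x)) := pw (by omega)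
    have g2 : (2 : ℝ) ^ (n + e + x + (n + e + x)) ≤ 2 ^ (2 * (n + e + 2 * x)) := pw (by omega)
    linarith
  -- the velocities
  obtain ⟨ζ₁, hζ₁⟩ : ∃ ζ : ℝ, ζ = 2 * (2 ^ a / 2 ^ (g 1 + p)) := ⟨_, rfl⟩
  obtain ⟨ζ₂, hζ₂⟩ : ∃ ζ : ℝ, ζ = 2 * (2 ^ a / 2 ^ (g 2 + p)) := ⟨_, rfl⟩
  have hv1 : ∀ ω, B ω → |(bd F ω (some (c 1)) - bd F (νB (ptr F J ω)) (some (c 1))) -
      X (ptr F J ω) (some (c 1)) *
        (bd F ω (some (c 0)) - bd F (νB (ptr F J ω)) (some (c 0)))| ≤ ζ₁ := by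
    intro ω hω
    obtain ⟨b1, b2⟩ := hνB ω hω
    have k1 := H.ve1 ω hω
    have k2 := H.ve1 _ b1
    rw [b2] at k2
    rw [abs_le] at k1 k2 ⊢
    rw [hζ₁]
    constructor <;> linarith [k1.1, k1.2, k2.1, k2.2]
  have hv2 : ∀ ω, B ω → |(bd F ω (some (c 2)) - bd F (νB (ptr F J ω)) (some (c 2))) -
      v (ptr F J ω) (c 2) * (bd F ω (some (c 1)) - bd F (νB (ptr F J ω)) (some (c 1))) -
      (X (ptr F J ω) (some (c 2)) - v (ptr F J ω) (c 2) * X (ptr F J ω) (some (c 1))) *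
        (bd F ω (some (c 0)) - bd F (νB (ptr F J ω)) (some (c 0)))| ≤ ζ₂ := by
    intro ω hω
    obtain ⟨b1, b2⟩ := hνB ω hω
    have k1 := H.ve2 ω hω
    have k2 := H.ve2 _ b1
    rw [b2] at k2
    rw [abs_le] at k1 k2 ⊢
    rw [hζ₂]
    constructor <;> linarith [k1.1, k1.2, k2.1, k2.2]
  -- the boxes
  obtain ⟨hb0, hb1⟩ := hbx H haJ hB hT.degG hT.depG (Nat.le_add_right _ _)
  have hb2 := hbx2 (y := x) hc H haJ hB hT.degG hT.depG (Nat.le_add_right _ _)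
    (Nat.le_add_right _ _) (fun ω hω b hb => by
      rw [dir_ek]
      exact hslb ω (hB ω hω) b hb)
  have tX : cX * (n + h + 1) ≤ cX * T₀ := Nat.mul_le_mul_left _ (by omega)
  have tY : cY * (n + h + x + 1) ≤ cY * T₀ := Nat.mul_le_mul_left _ (by omega)
  -- the relation
  have hrel : ∀ ω, B ω → ∀ t : ℝ, |t - F.t ω| ≤ 2 / 2 ^ a →
      |(P₀ (slam F w ω)).eval t + (P₁ (slam F w ω)).eval t * X (ptr F J ω) (some (c 1)) +
        (P₂ (slam F w ω)).eval t * X (ptr F J ω) (some (c 2))| ≤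
        er * (k₀ * 2 ^ g 0 / 2 ^ g 2) := by
    intro ω hω t ht
    obtain ⟨Pt, hPt⟩ : ∃ Pt : Polynomial ℝ, Pt = P₀ (slam F w ω) +
        Polynomial.C (X (ptr F J ω) (some (c 1))) * P₁ (slam F w ω) +
        Polynomial.C (X (ptr F J ω) (some (c 2))) * P₂ (slam F w ω) := ⟨_, rfl⟩
    have hPe : ∀ t, Pt.eval t = (P₀ (slam F w ω)).eval t +
        (P₁ (slam F w ω)).eval t * X (ptr F J ω) (some (c 1)) +
        (P₂ (slam F w ω)).eval t * X (ptr F J ω) (some (c 2)) := by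
      intro t
      rw [hPt]
      simp only [Polynomial.eval_add, Polynomial.eval_mul, Polynomial.eval_C]
      ring
    have hPd : Pt.natDegree ≤ D := by
      rw [hPt, hP₀, hP₁, hP₂]
      refine (Polynomial.natDegree_add_le _ _).trans (max_le
        ((Polynomial.natDegree_add_le _ _).trans (max_le (hcl_deg _ (hNd _) _) ?_)) ?_)
      · exact (Polynomial.natDegree_C_mul_le _ _).trans (hcl_deg _ (hNd _) _)
      · exact (Polynomial.natDegree_C_mul_le _ _).trans (hcl_deg _ (hNd _) _)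
    have k1 := hp2 Pt (F.t ω) (3 * 2 ^ n / 2 ^ K * (k₀ * 2 ^ g 0 / 2 ^ g 2)) a hPd (fun t ht => by
      have k2 := H.rel ω hω t ht
      rw [← hbrk] at k2
      rw [hPe, hP₀, hP₁, hP₂]
      refine le_trans (le_of_eq ?_) (k2.trans hrS)
      congr 1
      ring) t ht
    rw [← hPe]
    refine k1.trans ?_
    rw [← mul_assoc]
    refine mul_le_mul_of_nonneg_right ?_ (by positivity)
    rw [her, ← mul_div_assoc]
    refine div_le_div_of_nonneg_right ?_ hKp.le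
    calc C₄ * (3 * 2 ^ n) ≤ 2 ^ c₄ * 2 ^ (n + 2) := mul_le_mul hc₄.le h3n (by positivity)
          (by positivity)
      _ = 2 ^ (c₄ + (n + 2)) := by rw [← pow_add]
      _ ≤ 2 ^ L := pw (by omega)
  -- the quadratic relation
  have hqd : ∀ ω ω', B ω → B ω' → slam F a ω = slam F a ω' → ∀ x y : ℝ,
      x = (X (ptr F J ω) (some (c 1)) - X (ptr F J ω') (some (c 1))) * 2 ^ g 1 / 2 ^ g 0 →
      y = ((X (ptr F J ω) (some (c 2)) - X (ptr F J ω') (some (c 2))) -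
        v (ptr F J ω) (c 2) * (X (ptr F J ω) (some (c 1)) -
          X (ptr F J ω') (some (c 1)))) * 2 ^ g 2 / 2 ^ g 0 →
      |2 * (x * T₂ ω + y * T₃ ω) - (x ^ 2 * h₁ ω + 2 * x * y * h₂ ω + y ^ 2 * h₃ ω)| ≤
        2 * er := by
    intro ω ω' k1 k2 k3 x' y' hx hy
    have hs' : slam F w ω' = slam F w ω := by
      rw [slam_coarse F hwa haJ ω, slam_coarse F hwa haJ ω', k3]
    have m1 := H.xx ω k1 (F.t ω) (by rw [sub_self, abs_zero]; positivity)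
    have m2 := H.xx ω' k2 (F.t ω) (t_win haJ k3)
    rw [hs', pt_same k3] at m2
    rw [← hbrk, sub_self, zero_smul, add_zero] at m1 m2
    have m3 := qd_id hc (hNc (slam F w ω)) (bt F ω) (v := v (ptr F J ω)) (hvf _).1 (hvf _).2.1
      (H.x0 ω k1) (H.x0 ω' k2) (H.x1 ω k1) (H.x1 ω' k2) rfl rfl
    have e1 : 2 * (x' * T₂ ω + y' * T₃ ω) - (x' ^ 2 * h₁ ω + 2 * x' * y' * h₂ ω + y' ^ 2 * h₃ ω) =
        (hs (NH (slam F w ω) 3) (bt F ω) (X (ptr F J ω)) (X (ptr F J ω)) -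
          hs (NH (slam F w ω) 3) (bt F ω) (X (ptr F J ω')) (X (ptr F J ω'))) /
          (2 ^ g 0 * 2 ^ g 0 * u) := by
      rw [m3, hx, hy, hT₂, hT₃, hh₁, hh₂, hh₃]
      simp only [dd_smul]
      field_simp
    rw [e1, abs_div, abs_of_pos (show (0 : ℝ) < 2 ^ g 0 * 2 ^ g 0 * u by positivity),
      div_le_iff₀ (by positivity)]
    refine (abs_sub _ _).trans ((add_le_add (m1.trans hxS) (m2.trans hxS)).trans ?_)
    have e2 : 3 * 2 ^ n / 2 ^ K * (2 ^ g 0 * 2 ^ g 0 * u) +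
        3 * 2 ^ n / 2 ^ K * (2 ^ g 0 * 2 ^ g 0 * u) =
        2 * (3 * 2 ^ n / 2 ^ K) * (2 ^ g 0 * 2 ^ g 0 * u) := by ring
    rw [e2]
    refine mul_le_mul_of_nonneg_right (mul_le_mul_of_nonneg_left ?_ (by norm_num)) (by positivity)
    rw [her]
    exact div_le_div_of_nonneg_right (h3n.trans (pw (by omega))) hKp.le
  -- the entries
  have hQd : ∀ (z : Fin m → ℝ) (s : LnT F) (r : ℝ), (dir z (NH s 3) - C r).totalDegree ≤ D :=
    fun z s r => (totalDegree_sub _ _).trans (max_le (dir_deg _ (hNd s)) (by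
      rw [totalDegree_C]
      exact Nat.zero_le _))
  have hQc : ∀ (z : Fin m → ℝ) (s : LnT F) (r : ℝ), DepC c 3 (dir z (NH s 3) - C r) :=
    fun z s r b b' hn hb => by
      rw [map_sub, map_sub, eval_C, eval_C, dir_dep z (hNc s) b b' hn hb]
  have keyE := hent (h := h) (x := x) (N := K) hc haJ hTA hrmE H.pth hvv hS
  have hbd : ∀ ω, B ω → |T₃ ω| ≤ Λ ∧ |h₂ ω| ≤ Λ ∧ |h₃ ω| ≤ Λ ∧ |ξ ω| ≤ Λ := by
    intro ω hω
    have hωA := hB ω hω
    obtain ⟨-, a2, a3, a4⟩ := keyE (2 ^ x * (2 ^ g 2 * u))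
      (dir (ek (c 2)) (NH (slam F w ω) 3) - C (al₂ (ptr F J ω))) ω hωA (hQc _ _ _) (hQd _ _ _)
      (by positivity) (fun b hb => by rw [map_sub, eval_C]; exact (hbox ω hωA b hb).2.1)
    rw [dd_subC] at a3 a4
    have a2' := a2 (X (ptr F J ω)) (H.rep ω hω)
    rw [dd_subC] at a2'
    refine ⟨?_, ?_, ?_, ?_⟩
    · rw [hT₃, hΛ]
      simp only
      rw [abs_div, abs_of_pos (show (0 : ℝ) < 2 ^ g 2 * u by positivity),
        div_le_iff₀ (by positivity)]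
      refine a2'.trans ?_
      rw [← mul_assoc, ← pow_add]
      exact mul_le_mul_of_nonneg_right (pw (by omega)) (by positivity)
    · rw [hh₂, hΛ]
      simp only
      rw [dd_dir, hs_comm, ← dd_dir, abs_div,
        abs_of_pos (show (0 : ℝ) < 2 ^ g 1 * 2 ^ g 2 * u by positivity),
        div_le_iff₀ (by positivity)]
      refine a3.trans ?_
      have e1 : (2 : ℝ) ^ (cE * (x + 1)) * 2 ^ g 1 * (2 ^ x * (2 ^ g 2 * u)) =
          2 ^ (cE * (x + 1) + x) * (2 ^ g 1 * 2 ^ g 2 * u) := by rw [pow_add]; ring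
      rw [e1]
      exact mul_le_mul_of_nonneg_right (pw (by omega)) (by positivity)
    · rw [hh₃, hΛ]
      simp only
      rw [abs_div, abs_of_pos (show (0 : ℝ) < 2 ^ g 2 * 2 ^ g 2 * u by positivity),
        div_le_iff₀ (by positivity)]
      refine a4.trans ?_
      have e1 : (2 : ℝ) ^ cE * 2 ^ g 2 * (2 ^ x * (2 ^ g 2 * u)) =
          2 ^ (cE + x) * (2 ^ g 2 * 2 ^ g 2 * u) := by rw [pow_add]; ring
      rw [e1]
      exact mul_le_mul_of_nonneg_right (pw (by omega)) (by positivity)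
    · obtain ⟨b1, b2⟩ := hνB ω hω
      have d1 : ∀ ν, A ν → ptr F J ω = ptr F J ν →
          |vl F a ν (some (c 0)) - dd (T (ptr F J ω) 0) (bt F ω) (vl F a ν)| ≤
            C₅ * (2 ^ n / 2 ^ g 0) := fun ν hν hpt =>
        hvel (T (ptr F J ω) 0) (bt F ω) (vl F a ν) (some (c 0)) (rt F a ν) (2 ^ n / 2 ^ g 0)
          (hT.degG _ _) (rt_mem F a ν).1 (rt_mem F a ν).2 fun s s1 s2 =>
            H.pth ω ν hωA hν hpt s s1 s2 0 (by norm_num)
      have d2 := d1 ω hωA rfl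
      have d3 := d1 _ (hB _ b1) b2.symm
      have d4 : dd (T (ptr F J ω) 0) (bt F ω) (vl F a (νB (ptr F J ω))) =
          dd (T (ptr F J ω) 0) (bt F ω) (vl F a ω) :=
        dd_congr (hT.depG _ 0) _ (by rw [vl_none, vl_none]) fun l hl => absurd hl (Nat.not_lt_zero l)
      rw [d4] at d3
      rw [hξ, hΛ]
      simp only
      rw [abs_mul, abs_of_pos hg0]
      have d5 : |vl F a (νB (ptr F J ω)) (some (c 0)) - vl F a ω (some (c 0))| ≤
          2 * (C₅ * (2 ^ n / 2 ^ g 0)) := by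
        rw [abs_le] at d2 d3 ⊢
        constructor <;> linarith [d2.1, d2.2, d3.1, d3.2]
      calc (2 : ℝ) ^ g 0 * |vl F a (νB (ptr F J ω)) (some (c 0)) - vl F a ω (some (c 0))| ≤
            2 ^ g 0 * (2 * (C₅ * (2 ^ n / 2 ^ g 0))) := mul_le_mul_of_nonneg_left d5 hg0.le
        _ = 2 * (C₅ * 2 ^ n) := by field_simp
        _ ≤ 2 * (2 ^ c₅ * 2 ^ n) := by
            refine mul_le_mul_of_nonneg_left (mul_le_mul_of_nonneg_right hc₅.le (by positivity))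
              (by norm_num)
        _ = 2 ^ (c₅ + n + 1) := by rw [pow_succ, pow_add]; ring
        _ ≤ 2 ^ L := pw (by omega)
  have hlow' : ∀ ω, B ω → 1 / Λ ≤ |(P₂ (slam F w ω)).eval (F.t ω) / k₀| := by
    intro ω hω
    have k1 := hlow ω hω
    rw [← hk₀] at k1
    rw [abs_div, abs_of_pos hk00, le_div_iff₀ hk00, hP₂]
    refine le_trans ?_ k1
    rw [hΛ, one_div_mul_eq_div]
    exact div_le_div_of_nonneg_left hk00.le (by positivity) (pw (by omega))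
  have hup' : ∀ ω, B ω → |(P₂ (slam F w ω)).eval (F.t ω) / k₀| ≤ Λ := by
    intro ω hω
    obtain ⟨s1, s2⟩ := win_self F w ω
    have k1 := hup ω hω (F.t ω) s1 s2
    rw [← hk₀] at k1
    rw [abs_div, abs_of_pos hk00, div_le_iff₀ hk00, hP₂]
    refine k1.trans ?_
    nlinarith
  have hC2 : ∀ ω, B ω → |((P₁ (slam F w ω)).eval (F.t ω) +
      v (ptr F J ω) (c 2) * (P₂ (slam F w ω)).eval (F.t ω)) * 2 ^ g 2 / 2 ^ g 1 / k₀| ≤ Λ := by
    intro ω hω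
    have k1 := hCv ω hω
    rw [hP₁, hP₂]
    simp only
    rw [abs_div, abs_div, abs_mul, abs_of_pos hk00, abs_of_pos hg1, abs_of_pos hg2,
      div_le_iff₀ hk00, div_le_iff₀ hg1]
    refine (mul_le_mul_of_nonneg_right k1 hg2.le).trans ?_
    rw [hk₀, hΛ, div_mul_eq_mul_div, mul_div_assoc', div_mul_eq_mul_div]
    refine div_le_div_of_nonneg_right ?_ hgN.le
    rw [← pow_add, ← pow_add, ← pow_add]
    exact pw (by omega)
  have hvar : ∀ ω, B ω → ∀ t : ℝ, |t - F.t ω| ≤ 2 / 2 ^ a →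
      |(P₂ (slam F w ω)).eval t - (P₂ (slam F w ω)).eval (F.t ω)| ≤ er * k₀ := by
    intro ω hω t ht
    have hd2 : (P₂ (slam F w ω)).natDegree ≤ D := by rw [hP₂]; exact hcl_deg _ (hNd _) _
    refine (hmkv (K := k₀) hwa haJ hd2 (fun t s1 s2 => by
      rw [hP₂, hk₀]
      exact hup ω hω t s1 s2) t ht).trans ?_
    refine mul_le_mul_of_nonneg_right ?_ hk00.le
    rw [her, div_le_div_iff₀ h2a hKp, ← pow_add, ← pow_add, ← pow_add]
    exact pw (by omega)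
  -- the comparison of two lines
  have hgu : 1 / 2 ^ gN 3 ≤ u / 2 ^ K := by
    rw [hu, pow_add, div_div, div_le_div_iff₀ hgN (by positivity)]
    calc (1 : ℝ) * (2 ^ g 2 * 2 ^ gN 3 * 2 ^ K) = 2 ^ (g 2 + K) * 2 ^ gN 3 := by
          rw [pow_add]; ring
      _ ≤ 2 ^ lam₂ * 2 ^ gN 3 := mul_le_mul_of_nonneg_right (pw n2) hgN.le
  have hfin : ∀ γ : ℝ, 0 < γ → 2 ^ (cN * (n + x + 1)) * (2 ^ (x + q) * (γ * u) / 2 ^ K +
      2 ^ (cS * (x + 1)) * γ * (2 * (2 ^ x / 2 ^ gN 3)) + 2 ^ (x + q) * (γ * u) / 2 ^ p) ≤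
      er * (γ * u) := by
    intro γ hγ
    obtain ⟨Z, hZ⟩ : ∃ Z : ℝ, Z = γ * u / 2 ^ K := ⟨_, rfl⟩
    have hZ0 : 0 ≤ Z := by rw [hZ]; positivity
    have z1 : 2 ^ (x + q) * (γ * u) / 2 ^ K ≤ 2 ^ (cS * T₀ + x + q + 1) * Z := by
      rw [hZ, mul_div_assoc]
      exact mul_le_mul_of_nonneg_right (pw (by omega)) (by positivity)
    have z2 : 2 ^ (cS * (x + 1)) * γ * (2 * (2 ^ x / 2 ^ gN 3)) ≤
        2 ^ (cS * T₀ + x + q + 1) * Z := by
      calc 2 ^ (cS * (x + 1)) * γ * (2 * (2 ^ x / 2 ^ gN 3)) =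
            2 ^ (cS * (x + 1) + x + 1) * (γ * (1 / 2 ^ gN 3)) := by
              rw [pow_succ, pow_add]
              ring
        _ ≤ 2 ^ (cS * (x + 1) + x + 1) * (γ * (u / 2 ^ K)) :=
            mul_le_mul_of_nonneg_left (mul_le_mul_of_nonneg_left hgu hγ.le) (by positivity)
        _ = 2 ^ (cS * (x + 1) + x + 1) * Z := by rw [hZ]; ring
        _ ≤ _ := mul_le_mul_of_nonneg_right (pw (by omega)) hZ0
    have z3 : 2 ^ (x + q) * (γ * u) / 2 ^ p ≤ 2 ^ (cS * T₀ + x + q + 1) * Z := by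
      rw [hZ, mul_div_assoc]
      refine mul_le_mul (pw (by omega)) ?_ (by positivity) (by positivity)
      exact div_le_div_of_nonneg_left (by positivity) hKp (pw (by omega))
    have z4 : er * (γ * u) = 2 ^ L * Z := by rw [her, hZ]; ring
    rw [z4]
    calc _ ≤ (2 : ℝ) ^ (cN * (n + x + 1)) * (2 ^ (cS * T₀ + x + q + 1) * Z +
          2 ^ (cS * T₀ + x + q + 1) * Z + 2 ^ (cS * T₀ + x + q + 1) * Z) :=
          mul_le_mul_of_nonneg_left (add_le_add (add_le_add z1 z2) z3) (by positivity)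
      _ = 3 * (2 ^ (cN * (n + x + 1)) * 2 ^ (cS * T₀ + x + q + 1)) * Z := by ring
      _ ≤ 4 * (2 ^ (cN * (n + x + 1)) * 2 ^ (cS * T₀ + x + q + 1)) * Z := by
          refine mul_le_mul_of_nonneg_right (mul_le_mul_of_nonneg_right (by norm_num)
            (by positivity)) hZ0
      _ = 2 ^ (cN * (n + x + 1) + (cS * T₀ + x + q + 1) + 2) * Z := by
          rw [pow_add 2 _ 2, pow_add 2 (cN * (n + x + 1))]
          ring
      _ ≤ 2 ^ L * Z := mul_le_mul_of_nonneg_right (pw (by omega)) hZ0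
  have keyN := hcmp (x := x) (N := K) (p := p) hc haJ hTA hrmN H.pth hvv hS
  have hcm : ∀ ω, B ω → |((P₁ (slam F w (νB (ptr F J ω)))).eval (F.t (νB (ptr F J ω))) +
      v (ptr F J ω) (c 2) * (P₂ (slam F w (νB (ptr F J ω)))).eval (F.t (νB (ptr F J ω)))) *
        2 ^ g 2 / 2 ^ g 1 / k₀ -
      (((P₁ (slam F w ω)).eval (F.t ω) + v (ptr F J ω) (c 2) * (P₂ (slam F w ω)).eval (F.t ω)) *
        2 ^ g 2 / 2 ^ g 1 / k₀ + ξ ω * T₂ ω)| ≤ er ∧
      |(P₂ (slam F w (νB (ptr F J ω)))).eval (F.t (νB (ptr F J ω))) / k₀ -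
        ((P₂ (slam F w ω)).eval (F.t ω) / k₀ + ξ ω * T₃ ω)| ≤ er := by
    intro ω hω
    obtain ⟨b1, b2⟩ := hνB ω hω
    have v1 := hv1 ω hω
    have v2 := hv2 ω hω
    rw [hξ, hT₂, hT₃, hP₁, hP₂]
    simp only
    obtain ⟨ν, hν⟩ : ∃ ν, ν = νB (ptr F J ω) := ⟨_, rfl⟩
    rw [← hν] at b1 b2 v1 v2 ⊢
    have hωA := hB ω hω
    have hνA' : A ν := hB ν b1
    have htt : F.t ν = F.t ω := (bt_near b2).2.1
    have bxν : ∀ b, NBx c (T (ptr F J ω)) g a (F.t ω) 3 b →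
        |eval b (dir (v (ptr F J ω)) (NH (slam F w ν) 3)) - al₁ (ptr F J ω)| ≤
          2 ^ (x + q) * (2 ^ g 1 * u) ∧
        |eval b (dir (ek (c 2)) (NH (slam F w ν) 3)) - al₂ (ptr F J ω)| ≤
          2 ^ x * (2 ^ g 2 * u) ∧
        |eval b (N (ptr F J ω) 3) - eval b (NH (slam F w ν) 3)| ≤ 2 ^ x / 2 ^ gN 3 := by
      intro b hb
      have := hbox ν hνA' b (by rw [b2, htt]; exact hb)
      rw [b2] at this
      exact this
    have hdif : ∀ b, NBx c (T (ptr F J ω)) g a (F.t ω) 3 b →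
        |eval b (NH (slam F w ν) 3 - NH (slam F w ω) 3)| ≤ 2 * (2 ^ x / 2 ^ gN 3) := by
      intro b hb
      have k1 := (bxν b hb).2.2
      have k2 := (hbox ω hωA b hb).2.2
      rw [map_sub]
      rw [abs_le] at k1 k2 ⊢
      constructor <;> linarith [k1.1, k1.2, k2.1, k2.2]
    have hdc : DepC c 3 (NH (slam F w ν) 3 - NH (slam F w ω) 3) := fun b b' hn hb => by
      rw [map_sub, map_sub, hNc _ b b' hn hb, hNc _ b b' hn hb]
    have hdd' : (NH (slam F w ν) 3 - NH (slam F w ω) 3).totalDegree ≤ D :=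
      (totalDegree_sub _ _).trans (max_le (hNd _) (hNd _))
    have h02 := c_ne hc (i := 0) (j := 2) (by norm_num) (by norm_num) (by norm_num)
    have h12 := c_ne hc (i := 1) (j := 2) (by norm_num) (by norm_num) (by norm_num)
    have hEa : ∀ b, NBx c (T (ptr F J ω)) g a (F.t ω) 3 b →
        |eval b (dir (v (ptr F J ω)) (NH (slam F w ν) 3 - NH (slam F w ω) 3))| ≤
          2 ^ (cS * (x + 1)) * 2 ^ g 1 * (2 * (2 ^ x / 2 ^ gN 3)) := fun b hb =>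
      hslp (c := c) (l := 1) (i := 3) (a := a) (y := x) (g := g) (G := T) (v := v)
        (ω := ω) (b := b) (by norm_num) hc hT.degG hT.depG hdc hdd' (by positivity) (hvv _).1
        (fun j hj => by
          have : j = 0 := by omega
          subst this
          exact (hvv _).2) (fun j hj hlj => by
          have : j = 2 := by omega
          subst this
          exact hS ω hωA) hb hdif
    have hEb : ∀ b, NBx c (T (ptr F J ω)) g a (F.t ω) 3 b →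
        |eval b (dir (ek (c 2)) (NH (slam F w ν) 3 - NH (slam F w ω) 3))| ≤
          2 ^ (cS * (x + 1)) * 2 ^ g 2 * (2 * (2 ^ x / 2 ^ gN 3)) := by
      intro b hb
      refine (hslp (c := c) (l := 2) (i := 3) (a := a) (y := 0) (g := g) (G := T)
        (v := fun _ => ek (c 2)) (ω := ω) (b := b) (by norm_num) hc hT.degG hT.depG hdc hdd'
        (by positivity) (ek_self _) (fun j hj => by
          have : j = 0 ∨ j = 1 := by omega
          rcases this with rfl | rfl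
          · exact ek_ne h02
          · exact ek_ne h12) (fun j hj hlj => by omega) hb hdif).trans ?_
      refine mul_le_mul_of_nonneg_right (mul_le_mul_of_nonneg_right (pw
        (Nat.mul_le_mul_left _ (by omega))) (by positivity)) (by positivity)
    -- the remainders of the velocities
    obtain ⟨r₁, hr₁⟩ : ∃ r₁, r₁ = (vl F a ν (some (c 1)) - vl F a ω (some (c 1))) -
      X (ptr F J ω) (some (c 1)) * (vl F a ν (some (c 0)) - vl F a ω (some (c 0))) := ⟨_, rfl⟩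
    obtain ⟨r₂, hr₂⟩ : ∃ r₂, r₂ = (vl F a ν (some (c 2)) - vl F a ω (some (c 2))) -
      v (ptr F J ω) (c 2) * (vl F a ν (some (c 1)) - vl F a ω (some (c 1))) -
      (X (ptr F J ω) (some (c 2)) - v (ptr F J ω) (c 2) * X (ptr F J ω) (some (c 1))) *
        (vl F a ν (some (c 0)) - vl F a ω (some (c 0))) := ⟨_, rfl⟩
    have hvb : ∀ (ω' : F.Ω) (k : Fin m), vl F a ω' (some k) = 1 / 2 ^ a * bd F ω' (some k) :=
      fun _ _ => rfl
    have hr1 : |r₁| ≤ 2 / 2 ^ (g 1 + p) := by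
      have e1 : r₁ = -(1 / 2 ^ a) * ((bd F ω (some (c 1)) - bd F ν (some (c 1))) -
          X (ptr F J ω) (some (c 1)) * (bd F ω (some (c 0)) - bd F ν (some (c 0)))) := by
        rw [hr₁, hvb, hvb, hvb, hvb]
        ring
      rw [e1, abs_mul, abs_neg, abs_of_pos (show (0 : ℝ) < 1 / 2 ^ a by positivity)]
      calc 1 / 2 ^ a * _ ≤ 1 / 2 ^ a * ζ₁ := mul_le_mul_of_nonneg_left v1 (by positivity)
        _ = _ := by rw [hζ₁]; field_simp
    have hr2 : |r₂| ≤ 2 / 2 ^ (g 2 + p) := by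
      have e1 : r₂ = -(1 / 2 ^ a) * ((bd F ω (some (c 2)) - bd F ν (some (c 2))) -
          v (ptr F J ω) (c 2) * (bd F ω (some (c 1)) - bd F ν (some (c 1))) -
          (X (ptr F J ω) (some (c 2)) - v (ptr F J ω) (c 2) * X (ptr F J ω) (some (c 1))) *
          (bd F ω (some (c 0)) - bd F ν (some (c 0)))) := by
        rw [hr₂, hvb, hvb, hvb, hvb, hvb, hvb]
        ring
      rw [e1, abs_mul, abs_neg, abs_of_pos (show (0 : ℝ) < 1 / 2 ^ a by positivity)]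
      calc 1 / 2 ^ a * _ ≤ 1 / 2 ^ a * ζ₂ := mul_le_mul_of_nonneg_left v2 (by positivity)
        _ = _ := by rw [hζ₂]; field_simp
    have ca := keyN ω ν hωA hνA' b2.symm (NH (slam F w ω) 3) (NH (slam F w ν) 3)
      (v (ptr F J ω)) (X (ptr F J ω)) (2 ^ (x + q) * (2 ^ g 1 * u)) _ (al₁ (ptr F J ω)) _ r₁ r₂
      (hNc _) (hNc _) (hNd _) (hNd _) (H.x0 ω hω) (H.x1 ω hω) (by positivity) (by positivity)
      (fun b hb => (hbox ω hωA b hb).1) (fun b hb => (bxν b hb).1) hEa rfl hr₁ hr₂ hr1 hr2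
    have cb := keyN ω ν hωA hνA' b2.symm (NH (slam F w ω) 3) (NH (slam F w ν) 3)
      (ek (c 2)) (X (ptr F J ω)) (2 ^ (x + q) * (2 ^ g 2 * u)) _ (al₂ (ptr F J ω)) _ r₁ r₂
      (hNc _) (hNc _) (hNd _) (hNd _) (H.x0 ω hω) (H.x1 ω hω) (by positivity) (by positivity)
      (fun b hb => (hbox ω hωA b hb).2.1.trans (mul_le_mul_of_nonneg_right (pw (by omega))
        (by positivity))) (fun b hb => (bxν b hb).2.1.trans (mul_le_mul_of_nonneg_right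
        (pw (by omega)) (by positivity))) hEb rfl hr₁ hr₂ hr1 hr2
    have ca' := ca.trans (hfin _ hg1)
    have cb' := cb.trans (hfin _ hg2)
    constructor
    · rw [hcl_dir hc a w ν (hNc _) (hvf _).1 (hvf _).2.1, hcl_dir hc a w ω (hNc _) (hvf _).1
        (hvf _).2.1, sub_self, sub_self, zero_smul, zero_smul, add_zero, add_zero, hku]
      rw [← div_le_iff₀ (by positivity)] at ca'
      refine le_trans (le_of_eq ?_) ca'
      rw [← abs_of_pos (show (0 : ℝ) < 2 ^ g 1 * u by positivity), ← abs_div,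
        abs_of_pos (show (0 : ℝ) < 2 ^ g 1 * u by positivity)]
      congr 1
      field_simp
    · rw [hcl_ek hc a w ν (hNc _), hcl_ek hc a w ω (hNc _), sub_self, sub_self, zero_smul,
        zero_smul, add_zero, add_zero, hku]
      rw [← div_le_iff₀ (by positivity)] at cb'
      refine le_trans (le_of_eq ?_) cb'
      rw [← abs_of_pos (show (0 : ℝ) < 2 ^ g 2 * u by positivity), ← abs_div,
        abs_of_pos (show (0 : ℝ) < 2 ^ g 2 * u by positivity)]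
      congr 1
      field_simp
  -- the conclusion
  obtain ⟨ε, hε⟩ : ∃ ε : ℝ, ε = 1 / 2 ^ (L + h + 4) := ⟨_, rfl⟩
  obtain ⟨M₁, hM₁⟩ : ∃ M : ℝ, M = 1 / 2 ^ (g 1 + h + 2) := ⟨_, rfl⟩
  obtain ⟨M₂, hM₂⟩ : ∃ M : ℝ, M = 1 / 2 ^ (g 2 + h + 2) := ⟨_, rfl⟩
  have hJ1 := n6 1 (by norm_num)
  have hJ2 := n6 2 (by norm_num)
  refine tt_fin (F := F) (c := c) (D := D) (D' := D) (D₂ := D₂) (a := a) (w := w) (e := e)
    (h := h) (g := g) (κ := κ) (R₁ := R₁) (R₂ := R₂) (Λ := Λ) (er := er) (k₀ := k₀) (δ := er)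
    (ε := ε) (M₁ := M₁) (M₂ := M₂) (ζ₁ := ζ₁) (ζ₂ := ζ₂) (B₀ := B₀) (B := B) (T := T) (TH := TH)
    hc hR hT hDD (fun ω h => hA ω (hB ω h)) hκ hP hP0 hwa haJ νB (fun y => X y (some (c 1)))
    (fun y => X y (some (c 2))) (fun y => v y (c 2)) P₀ P₁ P₂ T₂ T₃ h₁ h₂ h₃ ξ
    (fun s => by rw [hP₀]; exact hcl_deg _ (hNd s) s)
    (fun s => by rw [hP₁]; exact hcl_deg _ (hNd s) s)
    (fun s => by rw [hP₂]; exact hcl_deg _ (hNd s) s) hνB ?_ ?_
    (fun ω hω => (hσ1 ω hω).trans hRx) (fun ω hω => (hX1 ω hω).trans hRx) hX2 hv1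
    (fun ω hω => ?_) (fun ω hω b hb => ?_) (fun ω hω b hb => ?_) (fun ω hω b hb => ?_) hΛ1 her0
    hk00 her0 ?_ ?_ ?_ (fun ω ω' k1 k2 k3 => ?_) hrel hqd hbd hlow' hup' hC2 hvar hcm ?_ ?_ ?_ ?_
    ?_ ?_ ?_ ?_ ?_ ?_ ?_
  · rw [hR₁]
    exact one_le_pow₀ (by norm_num)
  · rw [hR₂]
    positivity
  · refine le_trans (le_of_eq ?_) (hv2 ω hω)
    congr 1
    ring
  · refine (hb0 ω hω b hb).trans ?_
    rw [hΛ]
    exact div_le_div_of_nonneg_right (pw (by omega)) hg0.le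
  · refine (hb1 ω hω b hb).trans ?_
    rw [hΛ]
    exact div_le_div_of_nonneg_right (pw (by omega)) hg1.le
  · refine le_trans (le_of_eq ?_) ((hb2 ω hω b hb).trans ?_)
    · congr 1
      ring
    · rw [hΛ]
      exact div_le_div_of_nonneg_right (pw (by omega)) hg2.le
  · rw [her, div_le_one hKp]
    exact pw (by omega)
  · rw [hε]
    positivity
  · rw [hε, div_le_one (by positivity)]
    exact one_le_pow₀ (by norm_num)
  · have k4 := H.tt1 ω ω' k1 k2 k3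
    have k5 := H.tt2 ω ω' k1 k2 k3
    have hvs : v (ptr F J ω') = v (ptr F J ω) := by rw [hv ω k1, hv ω' k2, k3]
    rw [hvs] at k5
    have k6 : (2 : ℝ) ^ n ≤ Λ := by rw [hΛ]; exact pw (by omega)
    constructor
    · rw [div_le_iff₀ hg0]
      calc |X (ptr F J ω) (some (c 1)) - X (ptr F J ω') (some (c 1))| * 2 ^ g 1 ≤
            2 ^ (g 0 + n) / 2 ^ g 1 * 2 ^ g 1 := mul_le_mul_of_nonneg_right k4 hg1.le
        _ = 2 ^ n * 2 ^ g 0 := by rw [pow_add]; field_simp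
        _ ≤ Λ * 2 ^ g 0 := mul_le_mul_of_nonneg_right k6 hg0.le
    · rw [div_le_iff₀ hg0]
      have e1 : (X (ptr F J ω) (some (c 2)) - X (ptr F J ω') (some (c 2))) -
          v (ptr F J ω) (c 2) * (X (ptr F J ω) (some (c 1)) - X (ptr F J ω') (some (c 1))) =
          (X (ptr F J ω) (some (c 2)) - v (ptr F J ω) (c 2) * X (ptr F J ω) (some (c 1))) -
          (X (ptr F J ω') (some (c 2)) - v (ptr F J ω) (c 2) * X (ptr F J ω') (some (c 1))) := by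
        ring
      rw [e1]
      calc _ ≤ 2 ^ (g 0 + n) / 2 ^ g 2 * 2 ^ g 2 := mul_le_mul_of_nonneg_right k5 hg2.le
        _ = 2 ^ n * 2 ^ g 0 := by rw [pow_add]; field_simp
        _ ≤ Λ * 2 ^ g 0 := mul_le_mul_of_nonneg_right k6 hg0.le
  · rw [hM₁]
    positivity
  · rw [hM₂]
    positivity
  · rw [hζ₁, hM₁, div_mul_eq_mul_div, one_mul, ← mul_div_assoc,
      div_le_div_iff₀ (by positivity) (by positivity), ← pow_succ', ← pow_add, ← pow_add]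
    exact pw (by omega)
  · rw [hε, hΛ, hM₁, div_mul_eq_mul_div, one_mul]
    have e1 : 2 * (1 / (2 : ℝ) ^ (L + h + 4)) * 2 ^ L = 2 ^ (L + 1) / 2 ^ (L + h + 4) := by
      rw [pow_succ]
      ring
    rw [e1, div_le_div_iff₀ (by positivity) (by positivity), ← pow_add, ← pow_add]
    exact pw (by omega)
  · rw [hM₁, hR₁, div_mul_eq_mul_div, one_mul, le_div_iff₀ (by positivity)]
    have k1 : (2 : ℝ) ^ (2 * L + n + e + 2 * x) + 1 ≤ 2 ^ (2 * L + n + e + 2 * x + 1) := by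
      have : (1 : ℝ) ≤ 2 ^ (2 * L + n + e + 2 * x) := one_le_pow₀ (by norm_num)
      rw [pow_succ]
      linarith
    refine (mul_le_mul_of_nonneg_right k1 (by positivity)).trans ?_
    rw [← pow_add]
    exact pw (by omega)
  · rw [hM₁]
    have e1 : (2 : ℝ) ^ h * (3 * (1 / 2 ^ (g 1 + h + 2))) = 3 / 4 * (1 / 2 ^ g 1) := by
      rw [pow_add, pow_add]
      field_simp
      norm_num
    rw [e1]
    have : (0 : ℝ) < 1 / 2 ^ g 1 := by positivity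
    linarith
  · rw [hΛ, hR₁, ← pow_mul, div_le_iff₀ hg2, ← pow_add, ← pow_add]
    exact pw (by omega)
  · rw [hζ₁, hζ₂, hM₂, hΛ, ← pow_mul, div_mul_eq_mul_div 1, one_mul]
    have e1 : (2 : ℝ) ^ (L * 2) * 2 ^ g 1 / 2 ^ g 2 * (2 * (2 ^ a / 2 ^ (g 1 + p))) =
        2 ^ (L * 2 + 1 + a) / 2 ^ (g 2 + p) := by
      rw [pow_add 2 (L * 2 + 1), pow_succ, pow_add 2 (g 1), pow_add 2 (g 2)]
      field_simp
    have e2 : 2 * ((2 : ℝ) ^ a / 2 ^ (g 2 + p)) ≤ 2 ^ (L * 2 + 1 + a) / 2 ^ (g 2 + p) := by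
      rw [← mul_div_assoc, ← pow_succ']
      exact div_le_div_of_nonneg_right (pw (by omega)) (by positivity)
    rw [e1]
    refine (add_le_add e2 le_rfl).trans ?_
    rw [← add_div, ← two_mul, ← pow_succ', div_le_div_iff₀ (by positivity) (by positivity),
      ← pow_add, ← pow_add]
    exact pw (by omega)
  · have e0 : M₂ * 2 ^ g 2 = 1 / 2 ^ (h + 3) + 1 / 2 ^ (h + 3) := by
      rw [hM₂, show g 2 + h + 2 = g 2 + (h + 2) by ring, pow_add, pow_succ 2 (h + 2)]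
      field_simp
      norm_num
    rw [e0]
    refine add_le_add ?_ ?_
    · have e1 : 332 * Λ ^ 13 * er / ε ^ 2 = 332 * 2 ^ (16 * L + 2 * h + 8) / 2 ^ K := by
        rw [hΛ, her, hε, ← pow_mul]
        have e2 : ((1 : ℝ) / 2 ^ (L + h + 4)) ^ 2 = 1 / 2 ^ (2 * L + 2 * h + 8) := by
          rw [div_pow, one_pow, ← pow_mul]
          congr 2
          ring
        have e3 : (2 : ℝ) ^ (16 * L + 2 * h + 8) = 2 ^ (L * 13) * 2 ^ L * 2 ^ (2 * L + 2 * h + 8) := by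
          rw [← pow_add, ← pow_add]
          congr 1
          ring
        rw [e2, e3]
        field_simp
      rw [e1, div_le_div_iff₀ hKp (by positivity), one_mul]
      calc (332 : ℝ) * 2 ^ (16 * L + 2 * h + 8) * 2 ^ (h + 3) ≤
            2 ^ 9 * 2 ^ (16 * L + 2 * h + 8) * 2 ^ (h + 3) :=
            mul_le_mul_of_nonneg_right (mul_le_mul_of_nonneg_right (by norm_num) (by positivity))
              (by positivity)
        _ = 2 ^ (9 + (16 * L + 2 * h + 8) + (h + 3)) := by rw [← pow_add, ← pow_add]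
        _ ≤ 2 ^ K := pw (by omega)
    · have e1 : 8 * Λ ^ 4 * er = 2 ^ (3 + L * 4 + L) / 2 ^ K := by
        rw [hΛ, her, ← pow_mul, pow_add, pow_add]
        norm_num
        ring
      rw [e1, div_le_div_iff₀ hKp (by positivity), one_mul, ← pow_add]
      exact pw (by omega)
  · rw [hM₂, div_mul_eq_mul_div, one_mul, le_div_iff₀ (by positivity)]
    have k1 : R₂ ≤ 2 * R₁ ^ 2 := by
      rw [hR₂, hR₁, ← pow_mul, pow_succ, mul_comm]
      exact mul_le_mul_of_nonneg_left (pw (by omega)) (by norm_num)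
    have k2 : 1 ≤ R₁ ^ 2 := by
      rw [hR₁, ← pow_mul]
      exact one_le_pow₀ (by norm_num)
    have k3 : 2 * (R₂ + 2 * R₁ ^ 2) + 1 ≤ 2 ^ 4 * R₁ ^ 2 := by linarith
    refine (mul_le_mul_of_nonneg_right k3 (by positivity)).trans ?_
    rw [hR₁, ← pow_mul, ← pow_add, ← pow_add]
    exact pw (by omega)
  · rw [hM₂]
    have e1 : (2 : ℝ) ^ h * (3 * (1 / 2 ^ (g 2 + h + 2))) = 3 / 4 * (1 / 2 ^ g 2) := by
      rw [pow_add, pow_add]
      field_simp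
      norm_num
    rw [e1]
    have : (0 : ℝ) < 1 / 2 ^ g 2 := by positivity
    linarith

end Pool.NVX
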