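import Pool.Agent.H77.NV.End3
import Pool.Agent.H77.NV.Rfin

/-!
# The end for `c 2`, a visible ratio

`rel3_vis`: the contradiction, if the ratio of the closed derivatives of the label of the target in
the directions of `c 1` and `c 2` is visible with a gain.
-/

set_option autoImplicit false

namespace Pool.NVX

open Finset Real MvPolynomial
open Pool.Agent.H49.Ent Pool.Agent.H32.Dense Pool.STK Pool.KA Pool.KSAT Pool.K2S Pool.PB Pool.S6C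
open Pool.GEN Pool.CHT
open Pool.D2R (dd hs dd_add dd_smul dd_congr)
open Pool.F5 (lp gp der_lp dd_gp deg_gp deg_lp eo bdS bdS_slam eval_lp eval_gp)
open Pool.SHR (dir mvp dvc Shr RelvH dir_deg dir_dep relvF_low)
open Pool.PB.Trl (rt rt_mem t_rt)

variable {m J : ℕ}

/-- `2 ^ (g i) * 2 ^ (nlp g l i)` is below the room. -/
theorem nlp_room {g : ℕ → ℕ} {l i k J : ℕ} (h : ∀ j ≤ i, g j + k ≤ J) : nlp g l i + g i + k ≤ J := by
  unfold nlp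
  have h1 : (Finset.Icc l i).sup g + k ≤ J := by
    rcases Nat.lt_or_ge J k with h2 | h2
    · have := h i le_rfl
      omega
    · have h3 : (Finset.Icc l i).sup g ≤ J - k := Finset.sup_le fun j hj => by
        have := h j (Finset.mem_Icc.1 hj).2
        omega
      omega
  have h2 := h i le_rfl
  omega

/-- **The end for `c 2`**, if the ratio is visible with a gain. -/
theorem rel3_vis (D N : ℕ) (hD : 1 ≤ D) : ∃ C : ℕ, ∀ {m J : ℕ} {F : Fam m J} {c : ℕ → Fin m}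
    {a w w₂ e n p lam₁ lam₂ D₂ h x q K G : ℕ} {g gN : ℕ → ℕ} {κ : ℝ} {B₀ A B : F.Ω → Prop}
    {T : PtT F → ℕ → MvPolynomial (Option (Fin m)) ℝ}
    {NH TH : LnT F → ℕ → MvPolynomial (Option (Fin m)) ℝ} {v : PtT F → Fin m → ℝ}
    {X : PtT F → Option (Fin m) → ℝ} {ν₀ : PtT F → F.Ω} {τ : PtT F → ℝ},
    Rel3 F c a w e n p lam₁ lam₂ D h g gN g A B T T NH v X ν₀ → w ≤ w₂ → w₂ ≤ a → a ≤ J →
    Set.InjOn c (Set.Iio 3) → RelvF F c 3 a w₂ g D₂ h κ B₀ T → D * (2 * N + 4) + 2 ≤ D₂ →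
    ChOK F c 3 (fun _ => D) a w₂ e g B₀ T TH → Sub A B₀ → Sub B A →
    κ * Pe F.p B₀ ≤ Pe F.p B → 0 < Pe F.p B → (∀ s, (NH s 3).totalDegree ≤ D) →
    (∀ ω, A ω → ∀ b, NBx c (T (ptr F J ω)) g a (F.t ω) 2 b →
      |eval b (pderiv (some (c 1)) (T (ptr F J ω) 2)) - v (ptr F J ω) (c 2)| ≤
        2 ^ x * 2 ^ g 1 / 2 ^ g 2) →
    (∀ ω, B ω → 2 ^ (a + lam₂) / 2 ^ gN 3 / 2 ^ x ≤
      |(hcl (c 2) (NH (slam F w ω) 3) (slam F w ω)).eval (F.t ω)|) →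
    (∀ ω, B ω → ∀ t : ℝ, F.t ω - rt F w ω / 2 ^ w ≤ t →
      t ≤ F.t ω + (1 - rt F w ω) / 2 ^ w →
      |(hcl (c 2) (NH (slam F w ω) 3) (slam F w ω)).eval t| ≤ 2 ^ (a + lam₂) / 2 ^ gN 3) →
    (∀ ω, B ω → |(hcl (c 1) (NH (slam F w ω) 3) (slam F w ω)).eval (F.t ω) +
      v (ptr F J ω) (c 2) * (hcl (c 2) (NH (slam F w ω) 3) (slam F w ω)).eval (F.t ω)| ≤
      2 ^ (q + a + lam₂) / 2 ^ gN 3 * (2 ^ g 1 / 2 ^ g 2)) →
    (∀ ω, B ω → ∀ t : ℝ, |t - F.t ω| ≤ 1 / 2 ^ a →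
      |(hcl (c 1) (NH (slam F w ω) 3) (slam F w ω)).eval t /
        (hcl (c 2) (NH (slam F w ω) 3) (slam F w ω)).eval t + τ (ptr F J ω)| ≤
        2 ^ g 1 / 2 ^ (g 2 + G)) →
    g 2 + K ≤ lam₂ → lam₁ + g 2 ≤ lam₂ + g 1 + q → K + q ≤ p →
    w + C * (n + x + h + 1) ≤ w₂ → q + N * w ≤ N * w₂ → C * (n + x + h + 1) ≤ K →
    C * (n + x + h + 1) ≤ G → (∀ l < 3, e + g l + q + C * (n + x + h + 1) ≤ J) → False := by
  classical
  obtain ⟨cX, hbx⟩ := rel3_bx D hD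
  obtain ⟨cY, hbx2⟩ := rel3_bx2 D hD
  obtain ⟨cM, hmkv⟩ := mkv_win D
  have pw : ∀ {x y : ℕ}, x ≤ y → (2 : ℝ) ^ x ≤ 2 ^ y := fun h => pow_le_pow_right₀ (by norm_num) h
  obtain ⟨cc, hcc⟩ : ∃ cc, cc = cX + cY + cM + 12 := ⟨_, rfl⟩
  refine ⟨4 * cc, ?_⟩
  intro m J F c a w w₂ e n p lam₁ lam₂ D₂ h x q K G g gN κ B₀ A B T NH TH v X ν₀ τ H hw hw2 haJ hc
    hR hDD hT hA hB hP hP0 hNd hslb hlow hup hCv hτ n2 n1 n4 n3 nN n5 nG n6
  obtain ⟨T₀, hT₀⟩ : ∃ T₀, T₀ = n + x + h + 1 := ⟨_, rfl⟩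
  have hT1 : 1 ≤ T₀ := by omega
  rw [← hT₀] at n3 n5 nG n6
  obtain ⟨L, hL⟩ : ∃ L, L = cc * T₀ := ⟨_, rfl⟩
  have hL4 : 4 * L = 4 * cc * T₀ := by rw [hL]; ring
  rw [← hL4] at n3 n5 nG n6
  have mT : ∀ y : ℕ, y ≤ y * T₀ := fun y => Nat.le_mul_of_pos_right _ hT1
  have hLs : cX * T₀ + cY * T₀ + cM * T₀ + 12 * T₀ = L := by rw [hL, hcc]; ring
  have hwa : w ≤ a := hw.trans hw2
  have tX : cX * (n + h + 1) ≤ cX * T₀ := Nat.mul_le_mul_left _ (by omega)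
  have tY : cY * (n + h + x + 1) ≤ cY * T₀ := Nat.mul_le_mul_left _ (by omega)
  have tM := mT cM
  -- the units
  obtain ⟨k₀, hk₀⟩ : ∃ k₀ : ℝ, k₀ = 2 ^ (a + lam₂) / 2 ^ gN 3 := ⟨_, rfl⟩
  have hk00 : 0 < k₀ := by rw [hk₀]; positivity
  obtain ⟨Λ, hΛ⟩ : ∃ Λ : ℝ, Λ = 2 ^ L := ⟨_, rfl⟩
  have hΛ1 : 1 ≤ Λ := by rw [hΛ]; exact one_le_pow₀ (by norm_num)
  have hg0 : (0 : ℝ) < 2 ^ g 0 := by positivity
  have hg1 : (0 : ℝ) < 2 ^ g 1 := by positivity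
  have hg2 : (0 : ℝ) < 2 ^ g 2 := by positivity
  have hgN : (0 : ℝ) < 2 ^ gN 3 := by positivity
  have h2a : (0 : ℝ) < 2 ^ a := by positivity
  have hKp : (0 : ℝ) < 2 ^ K := by positivity
  have hx2 : (0 : ℝ) < 2 ^ x := by positivity
  rw [← hk₀] at hlow hup
  -- the bracket
  obtain ⟨brk, hbrk⟩ : ∃ brk : ℝ, brk = 1 + 2 ^ lam₁ / 2 ^ (g 1 + p) + 2 ^ lam₂ / 2 ^ (g 2 + p) :=
    ⟨_, rfl⟩
  have hb3 : 2 ^ g 2 * brk ≤ 2 ^ lam₂ * (3 / 2 ^ K) := by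
    have q1 : (2 : ℝ) ^ g 2 ≤ 2 ^ lam₂ * (1 / 2 ^ K) := by
      rw [mul_one_div, le_div_iff₀ hKp, ← pow_add]
      exact pw n2
    have q2 : (2 : ℝ) ^ g 2 * (2 ^ lam₁ / 2 ^ (g 1 + p)) ≤ 2 ^ lam₂ * (1 / 2 ^ K) := by
      rw [mul_one_div, ← mul_div_assoc, div_le_div_iff₀ (by positivity) hKp, ← pow_add,
        ← pow_add, ← pow_add]
      exact pw (by omega)
    have q3 : (2 : ℝ) ^ g 2 * (2 ^ lam₂ / 2 ^ (g 2 + p)) ≤ 2 ^ lam₂ * (1 / 2 ^ K) := by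
      rw [mul_one_div, ← mul_div_assoc, div_le_div_iff₀ (by positivity) hKp, ← pow_add,
        ← pow_add, ← pow_add]
      exact pw (by omega)
    rw [hbrk]
    have e3 : (2 : ℝ) ^ lam₂ * (3 / 2 ^ K) = 2 ^ lam₂ * (1 / 2 ^ K) + 2 ^ lam₂ * (1 / 2 ^ K) +
        2 ^ lam₂ * (1 / 2 ^ K) := by ring
    rw [e3]
    calc (2 : ℝ) ^ g 2 * (1 + 2 ^ lam₁ / 2 ^ (g 1 + p) + 2 ^ lam₂ / 2 ^ (g 2 + p)) =
        2 ^ g 2 + 2 ^ g 2 * (2 ^ lam₁ / 2 ^ (g 1 + p)) +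
          2 ^ g 2 * (2 ^ lam₂ / 2 ^ (g 2 + p)) := by ring
      _ ≤ _ := add_le_add (add_le_add q1 q2) q3
  have hrS : 2 ^ (a + g 0 + n) / 2 ^ gN 3 * brk ≤
      3 * 2 ^ n / 2 ^ K * (k₀ * 2 ^ g 0 / 2 ^ g 2) := by
    have e1 : (2 : ℝ) ^ (a + g 0 + n) / 2 ^ gN 3 * brk =
        2 ^ a * 2 ^ g 0 * 2 ^ n / (2 ^ gN 3 * 2 ^ g 2) * (2 ^ g 2 * brk) := by
      rw [pow_add 2 (a + g 0), pow_add 2 a]
      field_simp
    have e2 : 3 * 2 ^ n / 2 ^ K * (k₀ * 2 ^ g 0 / 2 ^ g 2) =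
        2 ^ a * 2 ^ g 0 * 2 ^ n / (2 ^ gN 3 * 2 ^ g 2) * (2 ^ lam₂ * (3 / 2 ^ K)) := by
      rw [hk₀, pow_add 2 a]
      field_simp
    rw [e1, e2]
    exact mul_le_mul_of_nonneg_left hb3 (by positivity)
  -- the polynomials
  obtain ⟨P₀, hP₀⟩ : ∃ P₀ : LnT F → Polynomial ℝ, P₀ = fun s => hcl (c 0) (NH s 3) s := ⟨_, rfl⟩
  obtain ⟨P₁, hP₁⟩ : ∃ P₁ : LnT F → Polynomial ℝ, P₁ = fun s => hcl (c 1) (NH s 3) s := ⟨_, rfl⟩
  obtain ⟨P₂, hP₂⟩ : ∃ P₂ : LnT F → Polynomial ℝ, P₂ = fun s => hcl (c 2) (NH s 3) s := ⟨_, rfl⟩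
  have hd2 : ∀ s, (P₂ s).natDegree ≤ D := fun s => by rw [hP₂]; exact hcl_deg _ (hNd _) _
  -- the variation
  obtain ⟨δ, hδ⟩ : ∃ δ : ℝ, δ = 2 ^ (cM + x) * 2 ^ w / 2 ^ w₂ := ⟨_, rfl⟩
  have hδ0 : 0 ≤ δ := by rw [hδ]; positivity
  have hvar : ∀ ω, B ω → ∀ t : ℝ, |t - F.t ω| ≤ 2 / 2 ^ w₂ →
      |(P₂ (slam F w ω)).eval t - (P₂ (slam F w ω)).eval (F.t ω)| ≤ δ * (k₀ / 2 ^ x) := by
    intro ω hω t ht
    refine (hmkv (K := k₀) hw (hw2.trans haJ) (hd2 _) (fun t s1 s2 => by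
      rw [hP₂]
      exact hup ω hω t s1 s2) t ht).trans (le_of_eq ?_)
    rw [hδ, pow_add]
    field_simp
  -- the half of the windows
  have hδh : δ ^ (2 * N + 4) ≤ 1 / 2 ^ (q + 4 * L) ∧ δ ≤ 1 / 2 := by
    obtain ⟨y, hy⟩ : ∃ y, w₂ = w + y := Nat.exists_eq_add_of_le hw
    have hy4 : 4 * L ≤ y := by omega
    have hyN : q ≤ N * y := by
      rw [hy, Nat.mul_add] at nN
      omega
    obtain ⟨z, hz⟩ : ∃ z, y = cM + x + z := Nat.exists_eq_add_of_le (by omega)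
    have hzy : y ≤ 2 * z := by omega
    have hδz : δ = (1 / 2) ^ z := by
      rw [hδ, hy, hz, pow_add 2 w, pow_add 2 (cM + x) z, one_div, inv_pow]
      field_simp
    constructor
    · rw [hδz, ← pow_mul, one_div, one_div, inv_pow]
      refine inv_anti₀ (by positivity) (pw ?_)
      have e1 : N * y ≤ z * (2 * N) := by
        calc N * y ≤ N * (2 * z) := Nat.mul_le_mul_left _ hzy
          _ = _ := by ring
      have e2 : z * (2 * N + 4) = z * (2 * N) + 4 * z := by ring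
      rw [e2]
      omega
    · rw [hδz]
      calc (1 / 2 : ℝ) ^ z ≤ (1 / 2) ^ 1 :=
            pow_le_pow_of_le_one (by norm_num) (by norm_num) (by omega)
        _ = _ := pow_one _
  -- the distance from the visible shear
  have hG12 : (0 : ℝ) < 2 ^ g 1 / 2 ^ g 2 := by positivity
  have hG12G : (2 : ℝ) ^ g 1 / 2 ^ (g 2 + G) = 2 ^ g 1 / 2 ^ g 2 / 2 ^ G := by
    rw [pow_add, div_div]
  have hG12' : (2 : ℝ) ^ g 1 / 2 ^ (g 2 + G) ≤ 2 ^ g 1 / 2 ^ g 2 :=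
    div_le_div_of_nonneg_left hg1.le hg2 (pw (by omega))
  have hself : ∀ ω : F.Ω, |F.t ω - F.t ω| ≤ 1 / 2 ^ a := fun ω => by
    rw [sub_self, abs_zero]
    positivity
  have ha2 : (1 : ℝ) / 2 ^ a ≤ 2 / 2 ^ w₂ := by
    rw [div_le_div_iff₀ h2a (by positivity)]
    have := pw hw2
    linarith
  have hcvk : (2 : ℝ) ^ (q + a + lam₂) / 2 ^ gN 3 * (2 ^ g 1 / 2 ^ g 2) =
      2 ^ q * (k₀ * (2 ^ g 1 / 2 ^ g 2)) := by
    rw [hk₀, Nat.add_assoc, pow_add 2 q]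
    ring
  rw [hcvk] at hCv
  have hτ1 : ∀ ω, B ω → |τ (ptr F J ω) - v (ptr F J ω) (c 2)| ≤
      2 ^ (q + x + 1) * (2 ^ g 1 / 2 ^ g 2) := by
    intro ω hω
    have k1 := hlow ω hω
    have k2 := hCv ω hω
    have k3 := (hτ ω hω _ (hself ω)).trans hG12'
    obtain ⟨A1, hA1⟩ : ∃ z, z = (hcl (c 1) (NH (slam F w ω) 3) (slam F w ω)).eval (F.t ω) :=
      ⟨_, rfl⟩
    obtain ⟨A2, hA2⟩ : ∃ z, z = (hcl (c 2) (NH (slam F w ω) 3) (slam F w ω)).eval (F.t ω) :=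
      ⟨_, rfl⟩
    rw [← hA2] at k1
    rw [← hA1, ← hA2] at k2 k3
    have k4 : 0 < |A2| := lt_of_lt_of_le (by positivity) k1
    have k5 : A2 ≠ 0 := abs_pos.1 k4
    have k6 : |A1 / A2 + v (ptr F J ω) (c 2)| ≤ 2 ^ (q + x) * (2 ^ g 1 / 2 ^ g 2) := by
      have e1 : A1 / A2 + v (ptr F J ω) (c 2) = (A1 + v (ptr F J ω) (c 2) * A2) / A2 := by
        field_simp
      rw [e1, abs_div, div_le_iff₀ k4]
      refine k2.trans ?_
      have e2 : k₀ ≤ 2 ^ x * |A2| := by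
        rw [div_le_iff₀ hx2] at k1
        linarith
      calc 2 ^ q * (k₀ * (2 ^ g 1 / 2 ^ g 2)) ≤ 2 ^ q * (2 ^ x * |A2| * (2 ^ g 1 / 2 ^ g 2)) :=
            mul_le_mul_of_nonneg_left (mul_le_mul_of_nonneg_right e2 hG12.le) (by positivity)
        _ = _ := by rw [pow_add]; ring
    have e3 : τ (ptr F J ω) - v (ptr F J ω) (c 2) = (A1 / A2 + τ (ptr F J ω)) -
        (A1 / A2 + v (ptr F J ω) (c 2)) := by ring
    rw [e3]
    refine (abs_sub _ _).trans ((add_le_add k3 k6).trans ?_)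
    have e4 : (1 : ℝ) ≤ 2 ^ (q + x) := one_le_pow₀ (by norm_num)
    rw [pow_succ]
    nlinarith
  have hτ2 : ∀ ω, B ω → ∀ t : ℝ, |t - F.t ω| ≤ 1 / 2 ^ a → |(P₁ (slam F w ω)).eval t +
        (P₂ (slam F w ω)).eval t * τ (ptr F J ω)| ≤ 2 * k₀ * (2 ^ g 1 / 2 ^ (g 2 + G)) := by
    intro ω hω t ht
    have k1 := hlow ω hω
    have k2 := hvar ω hω t (ht.trans ha2)
    have k3 := hτ ω hω t ht
    obtain ⟨s1, s2⟩ := win_self F w ω
    have k4 := hup ω hω _ s1 s2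
    rw [hP₁]
    simp only
    rw [hP₂] at k2 ⊢
    simp only at k2 ⊢
    obtain ⟨A1, hA1⟩ : ∃ z, z = (hcl (c 1) (NH (slam F w ω) 3) (slam F w ω)).eval t := ⟨_, rfl⟩
    obtain ⟨A2, hA2⟩ : ∃ z, z = (hcl (c 2) (NH (slam F w ω) 3) (slam F w ω)).eval t := ⟨_, rfl⟩
    obtain ⟨A3, hA3⟩ : ∃ z, z = (hcl (c 2) (NH (slam F w ω) 3) (slam F w ω)).eval (F.t ω) :=
      ⟨_, rfl⟩
    rw [← hA3] at k1 k2 k4
    rw [← hA2] at k2
    rw [← hA1, ← hA2] at k3 ⊢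
    have hkx : 0 < k₀ / 2 ^ x := by positivity
    have k5 : δ * (k₀ / 2 ^ x) ≤ 1 / 2 * (k₀ / 2 ^ x) :=
      mul_le_mul_of_nonneg_right hδh.2 hkx.le
    have k6 : 0 < |A2| := by
      have := abs_sub_abs_le_abs_sub A3 A2
      rw [abs_sub_comm] at this
      linarith
    have k7 : |A2| ≤ 2 * k₀ := by
      have h1 := abs_sub_abs_le_abs_sub A2 A3
      have h2 : k₀ / 2 ^ x ≤ k₀ := div_le_self hk00.le (one_le_pow₀ (by norm_num))
      linarith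
    have k8 : A2 ≠ 0 := abs_pos.1 k6
    have e1 : A1 + A2 * τ (ptr F J ω) = A2 * (A1 / A2 + τ (ptr F J ω)) := by
      field_simp
    rw [e1, abs_mul]
    exact mul_le_mul k7 k3 (abs_nonneg _) (by positivity)
  -- the boxes
  obtain ⟨hb0, hb1⟩ := hbx H haJ hB hT.degG hT.depG (Nat.le_add_right _ _)
  have hb2 := hbx2 (y := x) hc H haJ hB hT.degG hT.depG (Nat.le_add_right _ _)
    (Nat.le_add_right _ _) (fun ω hω b hb => by
      rw [dir_ek]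
      exact hslb ω (hB ω hω) b hb)
  -- the room
  obtain ⟨M, hM⟩ : ∃ M : ℝ, M = 1 / 2 ^ (g 2 + h + 2) := ⟨_, rfl⟩
  have hM0 : 0 < M := by rw [hM]; positivity
  obtain ⟨R, hR'⟩ : ∃ R : ℝ, R = M * 2 ^ J / 4 := ⟨_, rfl⟩
  have hRr : ∀ {l : ℕ}, l + (g 2 + h + 5) ≤ J → (2 : ℝ) ^ l ≤ R / 2 := by
    intro l hl
    rw [hR', hM]
    have e1 : 1 / (2 : ℝ) ^ (g 2 + h + 2) * 2 ^ J / 4 / 2 = 2 ^ J / 2 ^ (g 2 + h + 5) := by
      rw [show g 2 + h + 5 = g 2 + h + 2 + 3 by ring, pow_add 2 (g 2 + h + 2)]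
      field_simp
      norm_num
    rw [e1, le_div_iff₀ (by positivity), ← pow_add]
    exact pw hl
  have hrm : ∀ j ≤ 2, g j + (e + q + 4 * L) ≤ J := fun j hj => by
    have := n6 j (by omega)
    omega
  have nl12 := nlp_room (l := 1) (i := 2) hrm
  have nl02 := nlp_room (l := 0) (i := 2) hrm
  have nl01 := nlp_room (l := 0) (i := 1) (fun j hj => hrm j (by omega))
  have hrm1 := hrm 1 (by norm_num)
  have hRq : ∀ {l : ℕ}, l + g 1 + (h + 5) ≤ J → (2 : ℝ) ^ l * (2 ^ g 1 / 2 ^ g 2) ≤ R / 2 := by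
    intro l hl
    rw [hR', hM]
    have e1 : 1 / (2 : ℝ) ^ (g 2 + h + 2) * 2 ^ J / 4 / 2 = 2 ^ J / 2 ^ (g 2 + h + 5) := by
      rw [show g 2 + h + 5 = g 2 + h + 2 + 3 by ring, pow_add 2 (g 2 + h + 2)]
      field_simp
      norm_num
    rw [e1, ← mul_div_assoc, ← pow_add, div_le_div_iff₀ hg2 (by positivity), ← pow_add,
      ← pow_add]
    exact pw (by omega)
  have hRτ : ∀ ω, B ω → |τ (ptr F J ω)| ≤ R := by
    intro ω hω
    have k1 := (H.slv ω hω).trans (hRr (by omega))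
    have k2 := (hτ1 ω hω).trans (hRq (by omega))
    have e1 : τ (ptr F J ω) = (τ (ptr F J ω) - v (ptr F J ω) (c 2)) + v (ptr F J ω) (c 2) := by
      ring
    rw [e1]
    refine (abs_add_le _ _).trans ?_
    linarith
  have hRρ : ∀ ω, B ω → |X (ptr F J ω) (some (c 2)) -
      τ (ptr F J ω) * X (ptr F J ω) (some (c 1))| ≤ R := by
    intro ω hω
    have k1 := (H.sl2 ω hω).trans (hRr (by omega))
    have k2 : |(τ (ptr F J ω) - v (ptr F J ω) (c 2)) * X (ptr F J ω) (some (c 1))| ≤ R / 2 := by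
      rw [abs_mul]
      refine (mul_le_mul (hτ1 ω hω) (H.sl1 ω hω) (abs_nonneg _) (by positivity)).trans
        (le_trans (le_of_eq ?_) (hRq (l := q + x + 1 + (n + e + nlp g 0 1)) (by omega)))
      rw [pow_add 2 (q + x + 1)]
      ring
    have e1 : X (ptr F J ω) (some (c 2)) - τ (ptr F J ω) * X (ptr F J ω) (some (c 1)) =
        (X (ptr F J ω) (some (c 2)) - v (ptr F J ω) (c 2) * X (ptr F J ω) (some (c 1))) -
        (τ (ptr F J ω) - v (ptr F J ω) (c 2)) * X (ptr F J ω) (some (c 1)) := by ring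
    rw [e1]
    refine (abs_sub _ _).trans ?_
    linarith
  refine nv_end3 (2 * N + 3) (F := F) (c := c) (D := D) (D' := D) (D₂ := D₂) (a := a) (w := w)
    (w₂ := w₂) (e := e) (h := h) (g := g) (κ := κ) (M := M) (R := R)
    (er := 3 * 2 ^ n / 2 ^ K * (k₀ * 2 ^ g 0 / 2 ^ g 2)) (k₀ := k₀ / 2 ^ x)
    (k₁ := 2 * k₀ * (2 ^ g 1 / 2 ^ (g 2 + G))) (δ := δ) (Y := Λ / 2 ^ g 0) (Y₁ := Λ / 2 ^ g 1)
    (Yu := 2 ^ (q + 2 * L) / 2 ^ g 2) (B₀ := B₀) (B := B) (G := T) (H := TH) hc hR hT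
    (by rw [show 2 * N + 3 + 1 = 2 * N + 4 by ring]; exact hDD) (fun ω h => hA ω (hB ω h)) hP hP0
    hw hw2 haJ ν₀ (fun y => X y (some (c 1))) τ
    (fun y => X y (some (c 2)) - τ y * X y (some (c 1))) P₀ P₁ P₂
    (fun s => by rw [hP₀]; exact hcl_deg _ (hNd s) s)
    (fun s => by rw [hP₁]; exact hcl_deg _ (hNd s) s) hd2 H.nu hRτ hRρ hM0 (fun ω hω => ?_)
    (by positivity) (fun ω hω => by rw [hP₂]; exact hlow ω hω) hδ0 hδh.2 hvar hτ2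
    (fun ω hω t ht => ?_) (by positivity) (fun ω hω b hb => ?_) (by positivity)
    (fun ω hω b hb => ?_) (by positivity) (fun ω hω b hb => ?_) ?_ ?_ ?_
  · -- the velocities
    have k1 := H.ve1 ω hω
    have k2 := H.ve2 ω hω
    have k3 := hτ1 ω hω
    obtain ⟨V0, hV0⟩ : ∃ V0, V0 = bd F ω (some (c 0)) - bd F (ν₀ (ptr F J ω)) (some (c 0)) :=
      ⟨_, rfl⟩
    obtain ⟨V1, hV1⟩ : ∃ V1, V1 = bd F ω (some (c 1)) - bd F (ν₀ (ptr F J ω)) (some (c 1)) :=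
      ⟨_, rfl⟩
    obtain ⟨V2, hV2⟩ : ∃ V2, V2 = bd F ω (some (c 2)) - bd F (ν₀ (ptr F J ω)) (some (c 2)) :=
      ⟨_, rfl⟩
    rw [← hV0, ← hV1] at k1
    rw [← hV0, ← hV1, ← hV2] at k2
    rw [← hV0, ← hV1, ← hV2]
    have e1 : V2 - τ (ptr F J ω) * V1 - (X (ptr F J ω) (some (c 2)) -
        τ (ptr F J ω) * X (ptr F J ω) (some (c 1))) * V0 =
        (V2 - v (ptr F J ω) (c 2) * V1 - (X (ptr F J ω) (some (c 2)) -
          v (ptr F J ω) (c 2) * X (ptr F J ω) (some (c 1))) * V0) -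
        (τ (ptr F J ω) - v (ptr F J ω) (c 2)) * (V1 - X (ptr F J ω) (some (c 1)) * V0) := by
      ring
    rw [e1]
    have k4 := mul_le_mul k3 k1 (abs_nonneg _) (by positivity)
    rw [← abs_mul] at k4
    refine (abs_sub _ _).trans ((add_le_add k2 k4).trans ?_)
    have e2 : (2 : ℝ) ^ (q + x + 1) * (2 ^ g 1 / 2 ^ g 2) * (2 ^ a / 2 ^ (g 1 + p)) =
        2 ^ (q + x + 1) * (2 ^ a / 2 ^ (g 2 + p)) := by
      rw [pow_add 2 (g 1), pow_add 2 (g 2)]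
      field_simp
    rw [e2]
    have e3 : (1 : ℝ) ≤ 2 ^ (q + x + 1) := one_le_pow₀ (by norm_num)
    have e4 : (0 : ℝ) ≤ 2 ^ a / 2 ^ (g 2 + p) := by positivity
    calc (2 : ℝ) ^ a / 2 ^ (g 2 + p) + 2 ^ (q + x + 1) * (2 ^ a / 2 ^ (g 2 + p)) ≤
          2 ^ (q + x + 2) * (2 ^ a / 2 ^ (g 2 + p)) := by
            rw [show q + x + 2 = q + x + 1 + 1 by ring, pow_succ 2 (q + x + 1)]
            obtain ⟨z, hz⟩ : ∃ z : ℝ, z = 2 ^ a / 2 ^ (g 2 + p) := ⟨_, rfl⟩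
            obtain ⟨y, hy⟩ : ∃ y : ℝ, y = 2 ^ (q + x + 1) := ⟨_, rfl⟩
            rw [← hz] at e4 ⊢
            rw [← hy] at e3 ⊢
            nlinarith
      _ ≤ M * 2 ^ a := by
          rw [hM, ← mul_div_assoc, div_mul_eq_mul_div, one_mul,
            div_le_div_iff₀ (by positivity) (by positivity), ← pow_add, ← pow_add, ← pow_add]
          exact pw (by omega)
  · -- the relation
    have k1 := H.rel ω hω t ht
    rw [← hbrk] at k1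
    rw [hP₀, hP₁, hP₂]
    refine le_trans (le_of_eq ?_) (k1.trans hrS)
    congr 1
    ring
  · refine (hb0 ω hω b hb).trans ?_
    rw [hΛ]
    exact div_le_div_of_nonneg_right (pw (by omega)) hg0.le
  · refine (hb1 ω hω b hb).trans ?_
    rw [hΛ]
    exact div_le_div_of_nonneg_right (pw (by omega)) hg1.le
  · have k1 := hb1 ω hω b ⟨hb.1, fun l hl => hb.2 l (by omega)⟩
    have k2 := hb2 ω hω b hb
    have k3 := hτ1 ω hω
    obtain ⟨V0, hV0⟩ : ∃ V0, V0 = b (some (c 0)) -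
      (F.x ω (c 0) + (b none - F.t ω) * bd F ω (some (c 0))) := ⟨_, rfl⟩
    obtain ⟨V1, hV1⟩ : ∃ V1, V1 = b (some (c 1)) -
      (F.x ω (c 1) + (b none - F.t ω) * bd F ω (some (c 1))) := ⟨_, rfl⟩
    obtain ⟨V2, hV2⟩ : ∃ V2, V2 = b (some (c 2)) -
      (F.x ω (c 2) + (b none - F.t ω) * bd F ω (some (c 2))) := ⟨_, rfl⟩
    rw [← hV0, ← hV1] at k1
    rw [← hV0, ← hV1, ← hV2] at k2
    rw [← hV0, ← hV1, ← hV2]
    have e1 : V2 - τ (ptr F J ω) * V1 - (X (ptr F J ω) (some (c 2)) -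
        τ (ptr F J ω) * X (ptr F J ω) (some (c 1))) * V0 =
        (V2 - v (ptr F J ω) (c 2) * V1 - (X (ptr F J ω) (some (c 2)) -
          v (ptr F J ω) (c 2) * X (ptr F J ω) (some (c 1))) * V0) -
        (τ (ptr F J ω) - v (ptr F J ω) (c 2)) * (V1 - X (ptr F J ω) (some (c 1)) * V0) := by
      ring
    rw [e1]
    have k4 := mul_le_mul k3 k1 (abs_nonneg _) (by positivity)
    rw [← abs_mul] at k4
    refine (abs_sub _ _).trans ((add_le_add k2 k4).trans ?_)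
    have e2 : (2 : ℝ) ^ (q + x + 1) * (2 ^ g 1 / 2 ^ g 2) * (2 ^ (cX * (n + h + 1)) / 2 ^ g 1) =
        2 ^ (q + x + 1 + cX * (n + h + 1)) / 2 ^ g 2 := by
      rw [pow_add 2 (q + x + 1)]
      field_simp
    rw [e2, ← add_div]
    refine div_le_div_of_nonneg_right ?_ hg2.le
    have e3 : (2 : ℝ) ^ (cY * (n + h + x + 1)) ≤ 2 ^ (q + 2 * L - 1) := pw (by omega)
    have e4 : (2 : ℝ) ^ (q + x + 1 + cX * (n + h + 1)) ≤ 2 ^ (q + 2 * L - 1) := pw (by omega)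
    have e5 : (2 : ℝ) ^ (q + 2 * L) = 2 * 2 ^ (q + 2 * L - 1) := by
      rw [← pow_succ']
      congr 1
      omega
    rw [e5]
    linarith
  · -- the numbers
    rw [show 2 * N + 3 + 1 = 2 * N + 4 by ring]
    have hhp : (0 : ℝ) < 2 ^ (h + 4) := by positivity
    obtain ⟨Z, hZ⟩ : ∃ Z : ℝ, Z = 1 / 2 ^ (h + 4) * (1 / 2 ^ g 2) := ⟨_, rfl⟩
    have hZM : 3 * Z ≤ M := by
      have e1 : M = 4 * Z := by
        rw [hM, hZ, show g 2 + h + 2 = g 2 + (h + 2) by ring, pow_add 2 (g 2),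
          show h + 4 = h + 2 + 2 by ring, pow_add 2 (h + 2) 2]
        field_simp
        norm_num
      have e2 : 0 ≤ Z := by rw [hZ]; positivity
      rw [e1]
      linarith
    have t1 : 2 * (3 * 2 ^ n / 2 ^ K * (k₀ * 2 ^ g 0 / 2 ^ g 2)) / (k₀ / 2 ^ x) *
        (Λ / 2 ^ g 0) ≤ Z := by
      have e1 : 2 * (3 * 2 ^ n / 2 ^ K * (k₀ * 2 ^ g 0 / 2 ^ g 2)) / (k₀ / 2 ^ x) *
          (Λ / 2 ^ g 0) = 6 * 2 ^ (n + x + L) / 2 ^ K * (1 / 2 ^ g 2) := by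
        rw [hΛ, pow_add 2 (n + x), pow_add 2 n]
        field_simp
        norm_num
      rw [e1, hZ]
      refine mul_le_mul_of_nonneg_right ?_ (by positivity)
      rw [div_le_div_iff₀ hKp hhp, one_mul]
      calc (6 : ℝ) * 2 ^ (n + x + L) * 2 ^ (h + 4) ≤ 2 ^ 3 * 2 ^ (n + x + L) * 2 ^ (h + 4) :=
            mul_le_mul_of_nonneg_right (mul_le_mul_of_nonneg_right (by norm_num)
              (by positivity)) (by positivity)
        _ = 2 ^ (3 + (n + x + L) + (h + 4)) := by rw [← pow_add, ← pow_add]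
        _ ≤ 2 ^ K := pw (by omega)
    have t2 : 2 * (2 * k₀ * (2 ^ g 1 / 2 ^ (g 2 + G))) / (k₀ / 2 ^ x) * (Λ / 2 ^ g 1) ≤ Z := by
      have e1 : 2 * (2 * k₀ * (2 ^ g 1 / 2 ^ (g 2 + G))) / (k₀ / 2 ^ x) * (Λ / 2 ^ g 1) =
          2 ^ (2 + x + L) / 2 ^ G * (1 / 2 ^ g 2) := by
        rw [hΛ, pow_add 2 (2 + x), pow_add 2 2, pow_add 2 (g 2)]
        field_simp
      rw [e1, hZ]
      refine mul_le_mul_of_nonneg_right ?_ (by positivity)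
      rw [div_le_div_iff₀ (by positivity) hhp, one_mul, ← pow_add]
      exact pw (by omega)
    have t3 : δ ^ (2 * N + 4) * (2 ^ (q + 2 * L) / 2 ^ g 2) ≤ Z := by
      refine (mul_le_mul_of_nonneg_right hδh.1 (by positivity)).trans ?_
      have e1 : 1 / (2 : ℝ) ^ (q + 4 * L) * (2 ^ (q + 2 * L) / 2 ^ g 2) =
          2 ^ (q + 2 * L) / 2 ^ (q + 4 * L) * (1 / 2 ^ g 2) := by ring
      rw [e1, hZ]
      refine mul_le_mul_of_nonneg_right ?_ (by positivity)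
      rw [div_le_div_iff₀ (by positivity) hhp, one_mul, ← pow_add]
      exact pw (by omega)
    linarith
  · have e1 : 2 * R = M * 2 ^ J / 2 := by rw [hR']; ring
    have e2 : (1 : ℝ) ≤ M * 2 ^ J / 2 := by
      have e3 : M * 2 ^ J / 2 = 2 ^ J / 2 ^ (g 2 + h + 3) := by
        rw [hM, show g 2 + h + 3 = g 2 + h + 2 + 1 by ring, pow_succ 2 (g 2 + h + 2)]
        field_simp
      rw [e3, le_div_iff₀ (by positivity), one_mul]
      have := hrm 2 le_rfl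
      exact pw (by omega)
    rw [e1]
    linarith
  · rw [hM]
    have e1 : (2 : ℝ) ^ h * (3 * (1 / 2 ^ (g 2 + h + 2))) = 3 / 4 * (1 / 2 ^ g 2) := by
      rw [pow_add, pow_add]
      field_simp
      norm_num
    rw [e1]
    have : (0 : ℝ) < 1 / 2 ^ g 2 := by positivity
    linarith

end Pool.NVX
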