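import Mathlib

/-!
# Two samples of one line: the algebra

`alt_sep`: the linear and the quadratic relation of the difference of two directions. `alt_two`: two
separated differences. `alt_rat`: the quotients of two lines through one point.
-/

set_option autoImplicit false

namespace Pool.NVX

open Real

/-- **The linear and the quadratic relation** of a difference `(a, b)`. -/
theorem alt_sep {a b c₂ c₃ T₂ T₃ x y z e Λ : ℝ} (hΛ : 1 ≤ Λ) (he : 0 ≤ e) (ha : |a| ≤ Λ)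
    (hb : |b| ≤ Λ) (h2 : |c₂| ≤ Λ) (h3 : 1 / Λ ≤ |c₃|) (hT : |T₃| ≤ Λ) (hy : |y| ≤ Λ)
    (hz : |z| ≤ Λ) (r₁ : |c₂ * a + c₃ * b| ≤ e)
    (r₂ : |2 * (a * T₂ + b * T₃) - (a ^ 2 * x + 2 * a * b * y + b ^ 2 * z)| ≤ e) :
    |a| * |2 * (T₂ - c₂ / c₃ * T₃) - a * (x - 2 * (c₂ / c₃) * y + (c₂ / c₃) ^ 2 * z)| ≤
      9 * Λ ^ 5 * e := by
  have hΛ0 : 0 < Λ := by linarith
  have hc0 : 0 < |c₃| := lt_of_lt_of_le (by positivity) h3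
  have hc : c₃ ≠ 0 := abs_pos.1 hc0
  have hinv : 1 / |c₃| ≤ Λ := by
    rw [div_le_iff₀ hc0]
    rw [div_le_iff₀ hΛ0] at h3
    linarith
  obtain ⟨β, hβ⟩ : ∃ β, β = c₂ / c₃ := ⟨_, rfl⟩
  obtain ⟨η, hη⟩ : ∃ η, η = (c₂ * a + c₃ * b) / c₃ := ⟨_, rfl⟩
  have hb' : b = -β * a + η := by
    rw [hβ, hη]
    field_simp
    ring
  have hβ1 : |β| ≤ Λ ^ 2 := by
    rw [hβ, abs_div, div_eq_mul_one_div]
    calc |c₂| * (1 / |c₃|) ≤ Λ * Λ := mul_le_mul h2 hinv (by positivity) hΛ0.le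
      _ = Λ ^ 2 := by ring
  have hη1 : |η| ≤ Λ * e := by
    rw [hη, abs_div, div_eq_mul_one_div]
    calc |c₂ * a + c₃ * b| * (1 / |c₃|) ≤ e * Λ := mul_le_mul r₁ hinv (by positivity) he
      _ = Λ * e := by ring
  have hη2 : |η| ≤ 2 * Λ ^ 3 := by
    have e1 : η = b + β * a := by rw [hb']; ring
    rw [e1]
    refine (abs_add_le _ _).trans ?_
    rw [abs_mul]
    have h4 : |β| * |a| ≤ Λ ^ 2 * Λ := mul_le_mul hβ1 ha (abs_nonneg _) (by positivity)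
    have h5 : Λ ≤ Λ ^ 3 := by nlinarith [sq_nonneg (Λ - 1), mul_self_nonneg Λ]
    calc |b| + |β| * |a| ≤ Λ + Λ ^ 2 * Λ := add_le_add hb h4
      _ ≤ 2 * Λ ^ 3 := by nlinarith
  rw [← hβ, ← abs_mul]
  have key : a * (2 * (T₂ - β * T₃) - a * (x - 2 * β * y + β ^ 2 * z)) =
      (2 * (a * T₂ + b * T₃) - (a ^ 2 * x + 2 * a * b * y + b ^ 2 * z)) -
      2 * η * T₃ + 2 * a * η * y + (-(2 * β * a * η) + η ^ 2) * z := by
    rw [hb']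
    ring
  rw [key]
  have g1 : |2 * η * T₃| ≤ 2 * Λ ^ 2 * e := by
    rw [abs_mul, abs_mul, abs_of_pos (show (0 : ℝ) < 2 by norm_num)]
    calc 2 * |η| * |T₃| ≤ 2 * (Λ * e) * Λ :=
          mul_le_mul (mul_le_mul_of_nonneg_left hη1 (by norm_num)) hT (abs_nonneg _)
            (by positivity)
      _ = _ := by ring
  have g2 : |2 * a * η * y| ≤ 2 * Λ ^ 3 * e := by
    rw [abs_mul, abs_mul, abs_mul, abs_of_pos (show (0 : ℝ) < 2 by norm_num)]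
    calc 2 * |a| * |η| * |y| ≤ 2 * Λ * (Λ * e) * Λ :=
          mul_le_mul (mul_le_mul (mul_le_mul_of_nonneg_left ha (by norm_num)) hη1 (abs_nonneg _)
            (by positivity)) hy (abs_nonneg _) (by positivity)
      _ = _ := by ring
  have g3 : |(-(2 * β * a * η) + η ^ 2) * z| ≤ 4 * Λ ^ 5 * e := by
    have k1 : |2 * β * a * η| ≤ 2 * Λ ^ 4 * e := by
      rw [abs_mul, abs_mul, abs_mul, abs_of_pos (show (0 : ℝ) < 2 by norm_num)]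
      calc 2 * |β| * |a| * |η| ≤ 2 * Λ ^ 2 * Λ * (Λ * e) :=
            mul_le_mul (mul_le_mul (mul_le_mul_of_nonneg_left hβ1 (by norm_num)) ha (abs_nonneg _)
              (by positivity)) hη1 (abs_nonneg _) (by positivity)
        _ = _ := by ring
    have k2 : |η ^ 2| ≤ 2 * Λ ^ 4 * e := by
      rw [abs_pow, pow_two]
      calc |η| * |η| ≤ 2 * Λ ^ 3 * (Λ * e) := mul_le_mul hη2 hη1 (abs_nonneg _) (by positivity)
        _ = _ := by ring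
    rw [abs_mul]
    have k3 : |-(2 * β * a * η) + η ^ 2| ≤ 4 * Λ ^ 4 * e := by
      refine (abs_add_le _ _).trans ?_
      rw [abs_neg]
      linarith
    calc _ ≤ 4 * Λ ^ 4 * e * Λ := mul_le_mul k3 hz (abs_nonneg _) (by positivity)
      _ = _ := by ring
  have p1 : (1 : ℝ) ≤ Λ ^ 5 := one_le_pow₀ hΛ
  have p2 : Λ ^ 2 ≤ Λ ^ 5 := pow_le_pow_right₀ hΛ (by norm_num)
  have p3 : Λ ^ 3 ≤ Λ ^ 5 := pow_le_pow_right₀ hΛ (by norm_num)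
  have q1 : e ≤ Λ ^ 5 * e := by nlinarith
  have q2 : 2 * Λ ^ 2 * e ≤ 2 * Λ ^ 5 * e := by nlinarith
  have q3 : 2 * Λ ^ 3 * e ≤ 2 * Λ ^ 5 * e := by nlinarith
  rw [abs_le] at r₂ g1 g2 g3 ⊢
  constructor <;> linarith [r₂.1, r₂.2, g1.1, g1.2, g2.1, g2.2, g3.1, g3.2]

/-- **Two separated differences.** -/
theorem alt_two {a a' μ A E Λ ε : ℝ} (hΛ : 1 ≤ Λ) (hE : 0 ≤ E) (hε : 0 < ε) (hε1 : ε ≤ 1)
    (ha : |a| ≤ Λ) (h1 : ε ≤ |a|) (h2 : ε ≤ |a'|) (h3 : ε ≤ |a - a'|)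
    (r : |a| * |2 * μ - a * A| ≤ E) (r' : |a'| * |2 * μ - a' * A| ≤ E) :
    |μ| ≤ 2 * Λ * E / ε ^ 2 := by
  have k : ∀ x X : ℝ, ε ≤ x → 0 ≤ X → x * X ≤ E → X ≤ E / ε := by
    intro x X hx hX h
    rw [le_div_iff₀ hε]
    nlinarith
  have k1 := k _ _ h1 (abs_nonneg _) r
  have k2 := k _ _ h2 (abs_nonneg _) r'
  have k3 : |a - a'| * |A| ≤ 2 * (E / ε) := by
    rw [← abs_mul]
    have e1 : (a - a') * A = (2 * μ - a' * A) - (2 * μ - a * A) := by ring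
    rw [e1]
    refine (abs_sub _ _).trans ?_
    linarith
  have k4 : |A| ≤ 2 * (E / ε) / ε := by
    rw [le_div_iff₀ hε]
    nlinarith [abs_nonneg A]
  have k5 : |2 * μ| ≤ E / ε + Λ * (2 * (E / ε) / ε) := by
    have e1 : 2 * μ = (2 * μ - a * A) + a * A := by ring
    rw [e1]
    refine (abs_add_le _ _).trans (add_le_add k1 ?_)
    rw [abs_mul]
    exact mul_le_mul ha k4 (abs_nonneg _) (by linarith)
  rw [abs_mul, abs_of_pos (show (0 : ℝ) < 2 by norm_num)] at k5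
  have e2 : Λ * (2 * (E / ε) / ε) = 2 * Λ * E / ε ^ 2 := by
    field_simp
  rw [e2] at k5
  have e3 : E / ε ≤ 2 * Λ * E / ε ^ 2 := by
    rw [div_le_div_iff₀ hε (by positivity)]
    have h4 : ε ^ 2 ≤ ε := by nlinarith
    have h5 : E * ε ^ 2 ≤ E * ε := mul_le_mul_of_nonneg_left h4 hE
    have h6 : 0 ≤ E * ε := by positivity
    have h7 : E * ε ≤ 2 * Λ * (E * ε) := by nlinarith
    calc E * ε ^ 2 ≤ E * ε := h5
      _ ≤ 2 * Λ * (E * ε) := h7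
      _ = _ := by ring
  linarith

/-- **The quotients of two lines through one point.** -/
theorem alt_rat {c₂ c₃ d₂ d₃ T₂ T₃ ξ e Λ : ℝ} (hΛ : 1 ≤ Λ) (he : 0 ≤ e) (h2 : |c₂| ≤ Λ)
    (h3 : 1 / Λ ≤ |c₃|) (h3' : |c₃| ≤ Λ) (h4 : 1 / Λ ≤ |d₃|) (hξ : |ξ| ≤ Λ)
    (r₂ : |d₂ - (c₂ + ξ * T₂)| ≤ e) (r₃ : |d₃ - (c₃ + ξ * T₃)| ≤ e) :
    |d₂ / d₃ - c₂ / c₃| ≤ 2 * Λ ^ 3 * e + Λ ^ 4 * |T₂ - c₂ / c₃ * T₃| := by
  have hΛ0 : 0 < Λ := by linarith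
  have inv : ∀ x : ℝ, 1 / Λ ≤ |x| → 0 < |x| ∧ 1 / |x| ≤ Λ := by
    intro x hx
    have h0 : 0 < |x| := lt_of_lt_of_le (by positivity) hx
    refine ⟨h0, ?_⟩
    rw [div_le_iff₀ h0]
    rw [div_le_iff₀ hΛ0] at hx
    linarith
  obtain ⟨p1, p2⟩ := inv _ h3
  obtain ⟨p3, p4⟩ := inv _ h4
  have hc : c₃ ≠ 0 := abs_pos.1 p1
  have hd : d₃ ≠ 0 := abs_pos.1 p3
  obtain ⟨μ, hμ⟩ : ∃ μ, μ = T₂ - c₂ / c₃ * T₃ := ⟨_, rfl⟩
  rw [← hμ]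
  have e1 : d₂ / d₃ - c₂ / c₃ = 1 / d₃ * (1 / c₃) * ((d₂ - (c₂ + ξ * T₂)) * c₃ -
      c₂ * (d₃ - (c₃ + ξ * T₃)) + ξ * (c₃ * μ)) := by
    rw [hμ]
    field_simp
    ring
  rw [e1, abs_mul, abs_mul, abs_div, abs_div, abs_one]
  have g1 : |(d₂ - (c₂ + ξ * T₂)) * c₃ - c₂ * (d₃ - (c₃ + ξ * T₃)) + ξ * (c₃ * μ)| ≤
      2 * Λ * e + Λ ^ 2 * |μ| := by
    have k1 : |(d₂ - (c₂ + ξ * T₂)) * c₃| ≤ e * Λ := by
      rw [abs_mul]
      exact mul_le_mul r₂ h3' (abs_nonneg _) he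
    have k2 : |c₂ * (d₃ - (c₃ + ξ * T₃))| ≤ Λ * e := by
      rw [abs_mul]
      exact mul_le_mul h2 r₃ (abs_nonneg _) hΛ0.le
    have k3 : |ξ * (c₃ * μ)| ≤ Λ * (Λ * |μ|) := by
      rw [abs_mul, abs_mul]
      exact mul_le_mul hξ (mul_le_mul_of_nonneg_right h3' (abs_nonneg _)) (by positivity) hΛ0.le
    refine (abs_add_le _ _).trans ?_
    have k4 := abs_sub ((d₂ - (c₂ + ξ * T₂)) * c₃) (c₂ * (d₃ - (c₃ + ξ * T₃)))
    have k5 : Λ * (Λ * |μ|) = Λ ^ 2 * |μ| := by ring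
    linarith
  calc 1 / |d₃| * (1 / |c₃|) * |(d₂ - (c₂ + ξ * T₂)) * c₃ - c₂ * (d₃ - (c₃ + ξ * T₃)) +
        ξ * (c₃ * μ)| ≤ Λ * Λ * (2 * Λ * e + Λ ^ 2 * |μ|) :=
        mul_le_mul (mul_le_mul p4 p2 (by positivity) hΛ0.le) g1 (abs_nonneg _) (by positivity)
    _ = _ := by ring

end Pool.NVX
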