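import Pool.Agent.H77.NV.Shf
import Pool.Agent.H39.NV.BoxDir
import Pool.Agent.H60.D2.Box
import Pool.Agent.H2.GEN.Iso

/-!
# The derivative of the label of the target in a closed direction

`dirx_box`: the derivative of the closed label of `c 3` in a closed direction is almost constant on
the natural box of the node `(a, a)`.
-/

set_option autoImplicit false

namespace Pool.NVX

open Finset Real MvPolynomial
open Pool.Agent.H49.Ent Pool.Agent.H32.Dense Pool.STK Pool.KA Pool.KSAT Pool.K2S Pool.PB Pool.S6C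
open Pool.GEN Pool.CHT
open Pool.D2R (dd hs dd_add dd_smul dd_congr)
open Pool.F5 (lp gp der_lp dd_gp deg_gp deg_lp eo bdS bdS_slam eval_lp eval_gp)
open Pool.SHR (dir mvp dvc Shr RelvH slp_cmp dir_deg dir_dep)
open Pool.PB.Trl (rt rt_mem t_rt)
open Pool.Z3 (jn jn_lt jn_self nbx_jn join_top)
open Pool.ISO (cwn cwn_slam chOK_win)

variable {m J : ℕ}

/-- **The derivative of the closed label of the target in a closed direction** on the natural box of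
the node `(a, a)`: the variation along the line enters linearly. -/
theorem dirx_box (D : ℕ) (hD : 1 ≤ D) : ∃ C : ℕ, ∀ {m J : ℕ} {F : Fam m J} {c : ℕ → Fin m}
    {l a w e E h s y D₂ : ℕ} {gN g Y : ℕ → ℕ} {κ K₀ : ℝ} {B₀ B : F.Ω → Prop}
    {N T : PtT F → ℕ → MvPolynomial (Option (Fin m)) ℝ}
    {NH TH : LnT F → ℕ → MvPolynomial (Option (Fin m)) ℝ}
    {v : PtT F → Fin m → ℝ} {v' : LnT F → Fin m → ℝ}, l < 3 →
    Set.InjOn c (Set.Iio 4) → w ≤ a → a ≤ J → Sub B B₀ →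
    ChOK F c 4 (fun _ => D) a w E gN B N NH → ChOK F c 3 (fun _ => D) a a e g B₀ T TH →
    RelvH F c 3 a a g Y D₂ h κ B₀ T → D ≤ D₂ → 0 ≤ κ → κ * 2 ^ C * Pe F.p B₀ ≤ Pe F.p B →
    0 ≤ K₀ → h ≤ s → (∀ l < 3, gN l ≤ g l + s) → (∀ j < 3, Y j ≤ J) →
    (∀ l < 4, e + E + gN l + C * (s + 1) ≤ J) → (∀ l < 3, e + E + g l + C * (s + 1) ≤ J) →
    C * (s + 1) ≤ gN 3 → (∀ ω, B ω → v (ptr F J ω) = v' (slam F a ω)) →
    (∀ ω, B ω → v (ptr F J ω) (c l) = 1 ∧ ∀ j < l, v (ptr F J ω) (c j) = 0) →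
    (∀ ω, B ω → ∀ j < 3, l < j → Shr F c l a g T v y j ω) →
    (∀ ω, B ω → ∀ t : ℝ, F.t ω - rt F a ω / 2 ^ a ≤ t → t ≤ F.t ω + (1 - rt F a ω) / 2 ^ a →
      |hs (NH (slam F w ω) 3) (bt F ω + (t - F.t ω) • bd F ω) (bd F ω)
        (dvc (v (ptr F J ω)))| ≤ K₀) →
    ∃ (B' : F.Ω → Prop) (x : PtT F → ℝ), Sub B' B ∧ Pe F.p B / 2 ^ C ≤ Pe F.p B' ∧
      ∀ ω, B' ω → ∀ b, NBx c (T (ptr F J ω)) g a (F.t ω) 3 b →
        |eval b (dir (v (ptr F J ω)) (NH (slam F w ω) 3)) - x (ptr F J ω)| ≤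
          2 ^ (C * (s + y + 1)) * (2 ^ g l / 2 ^ gN 3 + K₀ / 2 ^ a) ∧
        |eval b (N (ptr F J ω) 3) - eval b (NH (slam F w ω) 3)| ≤
          2 ^ (C * (s + y + 1)) / 2 ^ gN 3 := by
  classical
  obtain ⟨cJ, hjoin⟩ := join_top D 3 hD
  obtain ⟨cB, hbox⟩ := box_dir D 4
  obtain ⟨cS, hcmp⟩ := slp_cmp D 4
  have pw : ∀ {x y : ℕ}, x ≤ y → (2 : ℝ) ^ x ≤ 2 ^ y := fun h => pow_le_pow_right₀ (by norm_num) h
  obtain ⟨C, hC⟩ : ∃ C, C = 4 * cJ + 4 * cB + cS + 8 := ⟨_, rfl⟩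
  refine ⟨C, ?_⟩
  intro m J F c l a w e E h s y D₂ gN g Y κ K₀ B₀ B N T NH TH v v' hl hc hwa haJ hB hN hT hRH hDD hκ0
    hκP hK0 hhs hgx hYJ hrN hrg hgN3 hv hv1 hsh hK
  obtain ⟨T₀, hT₀⟩ : ∃ T₀, T₀ = s + 1 := ⟨_, rfl⟩
  have hT1 : 1 ≤ T₀ := by omega
  rw [← hT₀] at hrN hrg hgN3
  have hCc : 4 * (cJ * T₀) + 4 * (cB * T₀) + cS * T₀ + 8 * T₀ = C * T₀ := by rw [hC]; ring
  have mT : ∀ x : ℕ, x ≤ x * T₀ := fun x => Nat.le_mul_of_pos_right _ hT1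
  have h2C : (0 : ℝ) < 2 ^ C := by positivity
  have hc3 : Set.InjOn c (Set.Iio 3) := hc.mono fun x hx => by
    rw [Set.mem_Iio] at hx ⊢
    omega
  -- the joined chart
  have hN1 : ChOK F c 4 (fun _ => D) a a (e + E) gN B N (cwn w a NH) :=
    chOK_win (hN.mono le_rfl (fun _ => le_rfl) le_rfl (Nat.le_add_left _ _)) hwa haJ
  have hRF : RelvF F c 3 a a g D₂ h κ B₀ T := hRH.relv
  have hRFj : RelvF F c 3 a a g D h (1 / 2 ^ C) B T :=
    (hRF.mono hDD le_rfl).sub hB (κ₁ := κ * 2 ^ C) hκP (by positivity)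
      (le_of_eq (by field_simp))
  have hκ4 : (1 : ℝ) / 2 ^ C * 2 ^ 3 ≤ 1 := by
    rw [div_mul_eq_mul_div, one_mul, div_le_one h2C]
    exact pw (by omega)
  obtain ⟨g', hg'⟩ : ∃ g' : ℕ → ℕ, g' = fun _ => gN 3 - cJ * (h + 1) := ⟨_, rfl⟩
  have hcJh : cJ * (h + 1) ≤ cJ * T₀ := Nat.mul_le_mul_left _ (by omega)
  have hcJN : cJ * (h + 1) ≤ gN 3 := by omega
  have hg'2 : g' 3 + cJ * (h + 1) = gN 3 := by rw [hg']; exact Nat.sub_add_cancel hcJN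
  obtain ⟨B₁, b1, p1, -, hJ1⟩ := hjoin (e := e) (E := e + E) (x := s) (g' := g') hc hRFj hκ4
    (hT.sub hB) hN1 hgx (Nat.le_add_right _ _) (by omega) (by omega)
  obtain ⟨e₁, he₁⟩ : ∃ e₁, e₁ = e + E + 2 * cJ * (h + 1) + s := ⟨_, rfl⟩
  rw [← he₁] at hJ1
  obtain ⟨gJ, hgJ⟩ : ∃ gJ, gJ = jn 3 g g' := ⟨_, rfl⟩
  obtain ⟨GJ, hGJ⟩ : ∃ GJ : PtT F → ℕ → MvPolynomial (Option (Fin m)) ℝ,
      GJ = fun y => jn 3 (T y) (N y) := ⟨_, rfl⟩
  obtain ⟨HJ, hHJ⟩ : ∃ HJ : LnT F → ℕ → MvPolynomial (Option (Fin m)) ℝ,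
      HJ = fun s => jn 3 (TH s) (cwn w a NH s) := ⟨_, rfl⟩
  rw [← hgJ, ← hGJ, ← hHJ] at hJ1
  have gl : ∀ j < 3, gJ j = g j := fun j hj => by rw [hgJ]; exact jn_lt hj
  have g3 : gJ 3 = g' 3 := by rw [hgJ]; exact jn_self
  have Gl : ∀ y, ∀ j < 3, GJ y j = T y j := fun y j hj => by rw [hGJ]; exact jn_lt hj
  have H3 : ∀ ω, HJ (slam F a ω) 3 = NH (slam F w ω) 3 := fun ω => by
    rw [hHJ]
    show jn 3 (TH (slam F a ω)) (cwn w a NH (slam F a ω)) 3 = _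
    rw [jn_self, cwn_slam hwa haJ]
  have hnb : ∀ (y : PtT F) (t : ℝ) (i : ℕ) (b : Option (Fin m) → ℝ), i ≤ 3 →
      (NBx c (GJ y) gJ a t i b ↔ NBx c (T y) g a t i b) := fun y t i b hi => by
    rw [hGJ, hgJ]
    exact nbx_jn hi
  have hB1 : Sub B₁ B₀ := fun ω h => hB ω (b1 ω h)
  have hRJ : RelvH F c 3 a a gJ Y D h κ B₀ GJ := by
    rw [hgJ, hGJ]
    exact relvH_jn (relvH_mono hRH hDD le_rfl)
  have room1 : ∀ l < 4, e₁ + gJ l + (h + cB) + cB ≤ J := by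
    intro l hl
    have a1 : 2 * cJ * (h + 1) ≤ 2 * (cJ * T₀) := by
      rw [Nat.mul_assoc]
      exact Nat.mul_le_mul_left _ hcJh
    have a2 : cB ≤ cB * T₀ := mT cB
    have : l = 0 ∨ l = 1 ∨ l = 2 ∨ l = 3 := by omega
    rcases this with rfl | rfl | rfl | rfl
    · have := hrg 0 (by norm_num)
      rw [gl 0 (by norm_num), he₁]
      omega
    · have := hrg 1 (by norm_num)
      rw [gl 1 (by norm_num), he₁]
      omega
    · have := hrg 2 (by norm_num)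
      rw [gl 2 (by norm_num), he₁]
      omega
    · have := hrN 3 (by norm_num)
      rw [g3, he₁]
      omega
  have hshJ : ∀ ω, B₁ ω → ∀ j < 3, l < j → Shr F c l a gJ GJ v y j ω := by
    intro ω hω j hj hlj b hb s' hs'
    rw [gl l hl] at hs'
    rw [gl j hj, Gl _ j hj]
    exact hsh ω (b1 ω hω) j hj hlj b ((hnb _ _ _ _ hj.le).1 hb) s' hs'
  have hP1 : κ * Pe F.p B₀ ≤ Pe F.p B₁ := by
    refine le_trans ?_ p1
    rw [le_div_iff₀ (by positivity)]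
    refine le_trans ?_ hκP
    have e1 : (2 : ℝ) ^ 3 ≤ 2 ^ C := pw (by omega)
    have e2 : 0 ≤ κ * Pe F.p B₀ := mul_nonneg hκ0 (Pe_nonneg F.isLaw B₀)
    nlinarith
  obtain ⟨B₂, al, b2, p2, hal⟩ := hbox (l := l) (i := 3) (a := a) (w := a) (σ := h + cB) (y := y)
    (V := K₀ / 2 ^ a) (v := v) (v' := v') (by norm_num) hl hc hRJ
    hB1 hκ0 hP1 hJ1 (by positivity)
    (fun ω ω' h1 h2 h3 => by
      rw [H3]
      exact vryv haJ h3 (NH (slam F w ω) 3) (v (ptr F J ω)) (hK ω (b1 ω h1))) hYJ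
    (fun j hj => by have := room1 j hj; omega) le_rfl (fun ω hω => hv ω (b1 ω hω))
    (fun ω hω => hv1 ω (b1 ω hω)) hshJ
  refine ⟨B₂, al, fun ω h => b1 ω (b2 ω h), ?_, fun ω hω b hb => ?_⟩
  · refine le_trans ?_ p2
    rw [div_le_div_iff₀ (by positivity) (by norm_num)]
    rw [div_le_iff₀ (by positivity)] at p1
    have e1 : (2 : ℝ) ^ 3 * 2 ≤ 2 ^ C := by
      calc (2 : ℝ) ^ 3 * 2 = 2 ^ 4 := by norm_num
        _ ≤ _ := pw (by omega)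
    have e2 := Pe_nonneg F.isLaw B₁
    nlinarith
  · have h9 := hJ1.agr ω (b2 ω hω) 3 (by norm_num) b ((hnb _ _ _ _ le_rfl).2 hb)
    rw [H3] at h9
    have hG3 : GJ (ptr F J ω) 3 = N (ptr F J ω) 3 := by rw [hGJ]; exact jn_self
    refine ⟨?_, ?_⟩
    swap
    · rw [← hG3]
      refine h9.trans ?_
      rw [g3, ← hg'2, pow_add 2 (g' 3), div_le_div_iff₀ (by positivity) (by positivity), one_mul,
        mul_comm ((2 : ℝ) ^ (C * (s + y + 1)))]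
      refine mul_le_mul_of_nonneg_left (pw ?_) (by positivity)
      have d1 : cJ * (h + 1) ≤ cJ * (s + y + 1) := Nat.mul_le_mul_left _ (by omega)
      have d2 : cJ * (s + y + 1) ≤ C * (s + y + 1) := Nat.mul_le_mul_right _ (by omega)
      exact d1.trans d2
    have h1 := hal ω hω b ((hnb _ _ _ _ le_rfl).2 hb)
    have h2 := hcmp (c := c) (l := l) (i := 3) (a := a) (k := 0) (y := y) (p := gJ 3) (g := gJ)
      (G := GJ) (v := v) (P := GJ (ptr F J ω) 3 - NH (slam F w ω) 3) (ω := ω) (b := b)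
      (by norm_num) hc3 hJ1.degG hJ1.depG (fun b b' hn hb => by
        rw [map_sub, map_sub, hJ1.depG _ 3 b b' hn hb, hN.depH _ 3 b b' hn hb])
      ((totalDegree_sub _ _).trans (max_le (hJ1.degG _ 3) (hN.degH _ 3)))
      (hv1 ω (b1 ω (b2 ω hω))).1 (hv1 ω (b1 ω (b2 ω hω))).2
      (fun j hj hlj => hshJ ω (b2 ω hω) j hj hlj) ((hnb _ _ _ _ le_rfl).2 hb) (fun b hb => by
        rw [map_sub, pow_zero, ← H3]
        exact hJ1.agr ω (b2 ω hω) 3 (by norm_num) b hb)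
    rw [Pool.SHR.dir_sub, map_sub, zero_add] at h2
    have e0 : eval b (dir (v (ptr F J ω)) (NH (slam F w ω) 3)) - al (ptr F J ω) =
        (eval b (dir (v (ptr F J ω)) (GJ (ptr F J ω) 3)) - al (ptr F J ω)) -
        (eval b (dir (v (ptr F J ω)) (GJ (ptr F J ω) 3)) -
          eval b (dir (v (ptr F J ω)) (NH (slam F w ω) 3))) := by ring
    rw [e0]
    refine (abs_sub _ _).trans ((add_le_add h1 h2).trans ?_)
    rw [gl l hl]
    have hg2e : (2 : ℝ) ^ g l / 2 ^ gJ 3 = 2 ^ (cJ * (h + 1)) * (2 ^ g l / 2 ^ gN 3) := by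
      rw [g3, ← hg'2, pow_add]
      field_simp
    have hz0 : (0 : ℝ) ≤ 2 ^ g l / 2 ^ gN 3 := by positivity
    have hk0 : (0 : ℝ) ≤ K₀ / 2 ^ a := by positivity
    rw [hg2e, mul_div_assoc, hg2e]
    obtain ⟨z, hz⟩ : ∃ z : ℝ, z = 2 ^ g l / 2 ^ gN 3 := ⟨_, rfl⟩
    obtain ⟨k, hk⟩ : ∃ k : ℝ, k = K₀ / 2 ^ a := ⟨_, rfl⟩
    rw [← hz, ← hk]
    rw [← hz] at hz0
    rw [← hk] at hk0
    have c1 : (2 : ℝ) ^ (cB * (h + y + 1)) * (2 ^ (cJ * (h + 1)) * z + k) ≤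
        2 ^ ((cB + cJ) * (s + y + 1)) * (z + k) := by
      have d1 : (2 : ℝ) ^ (cJ * (h + 1)) * z + k ≤ 2 ^ (cJ * (s + y + 1)) * (z + k) := by
        have d2 : (2 : ℝ) ^ (cJ * (h + 1)) * z ≤ 2 ^ (cJ * (s + y + 1)) * z :=
          mul_le_mul_of_nonneg_right (pw (Nat.mul_le_mul_left _ (by omega))) hz0
        have d3 : k ≤ 2 ^ (cJ * (s + y + 1)) * k := by
          have : (1 : ℝ) ≤ 2 ^ (cJ * (s + y + 1)) := one_le_pow₀ (by norm_num)
          nlinarith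
        linarith
      have d4 : (2 : ℝ) ^ (cB * (h + y + 1)) ≤ 2 ^ (cB * (s + y + 1)) :=
        pw (Nat.mul_le_mul_left _ (by omega))
      calc _ ≤ (2 : ℝ) ^ (cB * (s + y + 1)) * (2 ^ (cJ * (s + y + 1)) * (z + k)) :=
            mul_le_mul d4 d1 (by positivity) (by positivity)
        _ = _ := by rw [← mul_assoc, ← pow_add, ← Nat.add_mul]
    have c2 : (2 : ℝ) ^ (cS * (y + 1)) * (2 ^ (cJ * (h + 1)) * z) ≤
        2 ^ ((cS + cJ) * (s + y + 1)) * (z + k) := by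
      have d1 : (2 : ℝ) ^ (cS * (y + 1)) ≤ 2 ^ (cS * (s + y + 1)) :=
        pw (Nat.mul_le_mul_left _ (by omega))
      have d2 : (2 : ℝ) ^ (cJ * (h + 1)) ≤ 2 ^ (cJ * (s + y + 1)) :=
        pw (Nat.mul_le_mul_left _ (by omega))
      calc _ ≤ (2 : ℝ) ^ (cS * (s + y + 1)) * (2 ^ (cJ * (s + y + 1)) * (z + k)) :=
            mul_le_mul d1 (mul_le_mul d2 (by linarith) hz0 (by positivity)) (by positivity)
              (by positivity)
        _ = _ := by rw [← mul_assoc, ← pow_add, ← Nat.add_mul]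
    have c3 : (2 : ℝ) ^ ((cB + cJ) * (s + y + 1)) ≤ 2 ^ ((cB + cS + cJ) * (s + y + 1)) :=
      pw (Nat.mul_le_mul_right _ (by omega))
    have c4 : (2 : ℝ) ^ ((cS + cJ) * (s + y + 1)) ≤ 2 ^ ((cB + cS + cJ) * (s + y + 1)) :=
      pw (Nat.mul_le_mul_right _ (by omega))
    have c5 : (2 : ℝ) ^ ((cB + cS + cJ) * (s + y + 1)) * 2 ≤ 2 ^ (C * (s + y + 1)) := by
      rw [← pow_succ]
      refine pw ?_
      rw [hC]
      have : (4 * cJ + 4 * cB + cS + 8) * (s + y + 1) = (cB + cS + cJ) * (s + y + 1) + 1 +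
        ((3 * cJ + 3 * cB) * (s + y + 1) + 8 * (s + y) + 7) := by ring
      rw [this]
      exact Nat.le_add_right _ _
    have hzk : 0 ≤ z + k := by linarith
    have c6 := mul_le_mul_of_nonneg_right c3 hzk
    have c7 := mul_le_mul_of_nonneg_right c4 hzk
    have c8 := mul_le_mul_of_nonneg_right c5 hzk
    linarith

end Pool.NVX
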