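import Pool.Agent.H6.NV.End2

/-!
# The end for two coordinates, with the geometric series

`nv_end3` (from `no_affq`, `j = 2`): as `nv_end2`, with the variation of `P₂` inside a window only in
a high power.
-/

set_option autoImplicit false

namespace Pool.NVX

open Finset Real MvPolynomial
open Pool.Agent.H49.Ent Pool.Agent.H32.Dense Pool.STK Pool.KA Pool.KSAT Pool.K2S Pool.PB Pool.S6C
open Pool.GEN Pool.CHT
open Pool.PB.Trl (rt rt_mem t_rt)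

/-- The partial sum of the geometric series for the inverse of `P`, near the value `r`. -/
noncomputable def gin (N : ℕ) (r : ℝ) (P : Polynomial ℝ) : Polynomial ℝ :=
  Polynomial.C (1 / r) * ∑ j ∈ range (N + 1), (1 - Polynomial.C (1 / r) * P) ^ j

theorem gin_deg {N D : ℕ} {r : ℝ} {P : Polynomial ℝ} (h : P.natDegree ≤ D) :
    (gin N r P).natDegree ≤ D * N := by
  unfold gin
  refine (Polynomial.natDegree_C_mul_le _ _).trans
    (Polynomial.natDegree_sum_le_of_forall_le _ _ fun j hj => ?_)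
  refine Polynomial.natDegree_pow_le.trans ?_
  have hj' : j ≤ N := by
    have := Finset.mem_range.1 hj
    omega
  have e3 : (1 - Polynomial.C (1 / r) * P).natDegree ≤ D := by
    refine (Polynomial.natDegree_sub_le _ _).trans (max_le ?_ ?_)
    · rw [Polynomial.natDegree_one]
      exact Nat.zero_le _
    · exact (Polynomial.natDegree_C_mul_le _ _).trans h
  calc j * _ ≤ N * D := Nat.mul_le_mul hj' e3
    _ = D * N := Nat.mul_comm _ _

theorem gin_eval {N : ℕ} {r δ : ℝ} {P : Polynomial ℝ} {t : ℝ} (hr : r ≠ 0)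
    (hδ : |(r - P.eval t) / r| ≤ δ) (hδ1 : δ ≤ 1 / 2) :
    |(gin N r P).eval t| ≤ 2 / |r| ∧ |1 - (gin N r P).eval t * P.eval t| ≤ δ ^ (N + 1) := by
  obtain ⟨q, hq⟩ : ∃ q : ℝ, q = (r - P.eval t) / r := ⟨_, rfl⟩
  rw [← hq] at hδ
  have hr0 : 0 < |r| := abs_pos.2 hr
  have hq0 := abs_nonneg q
  have e0 : 1 - 1 / r * P.eval t = q := by
    rw [hq]
    field_simp
  have e1 : (gin N r P).eval t = 1 / r * ∑ j ∈ range (N + 1), q ^ j := by
    unfold gin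
    simp only [Polynomial.eval_mul, Polynomial.eval_C, Polynomial.eval_finsetSum,
      Polynomial.eval_pow, Polynomial.eval_sub, Polynomial.eval_one]
    rw [← e0]
  have e2 : (∑ j ∈ range (N + 1), q ^ j) * (1 - q) = 1 - q ^ (N + 1) := geom_sum_mul_neg q (N + 1)
  have e3 : P.eval t = r * (1 - q) := by
    rw [hq]
    field_simp
    ring
  constructor
  · rw [e1, abs_mul, abs_div, abs_one]
    have h1 : |∑ j ∈ range (N + 1), q ^ j| ≤ 2 := by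
      have h2 : (1 : ℝ) / 2 ≤ |1 - q| := by
        have := abs_sub_abs_le_abs_sub (1 : ℝ) q
        rw [abs_one] at this
        linarith
      have h3 : |∑ j ∈ range (N + 1), q ^ j| ≤ ∑ j ∈ range (N + 1), (1 / 2 : ℝ) ^ j := by
        refine (Finset.abs_sum_le_sum_abs _ _).trans (Finset.sum_le_sum fun j _ => ?_)
        rw [abs_pow]
        exact pow_le_pow_left₀ hq0 (by linarith) _
      have h4 : (∑ j ∈ range (N + 1), (1 / 2 : ℝ) ^ j) * (1 - 1 / 2) = 1 - (1 / 2) ^ (N + 1) :=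
        geom_sum_mul_neg _ _
      have h5 : (0 : ℝ) < (1 / 2) ^ (N + 1) := by positivity
      linarith
    calc 1 / |r| * _ ≤ 1 / |r| * 2 := mul_le_mul_of_nonneg_left h1 (by positivity)
      _ = _ := by ring
  · have e4 : 1 - (gin N r P).eval t * P.eval t = q ^ (N + 1) := by
      rw [e1, e3]
      have e5 : 1 / r * (∑ j ∈ range (N + 1), q ^ j) * (r * (1 - q)) =
          (1 / r * r) * ((∑ j ∈ range (N + 1), q ^ j) * (1 - q)) := by ring
      rw [e5, e2, one_div_mul_cancel hr]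
      ring
    rw [e4, abs_pow]
    exact pow_le_pow_left₀ hq0 hδ _

/-- [Q4] **The end for two coordinates**, with the geometric series: the variation `δ` of `P₂` inside
a window enters as `δ ^ (N + 1)`. From `no_affq` (`j = 2`): `q' = r P₂`, `κ' 1 = - r P₁`,
`κ' 0 = - r P₀`, `r` = the partial sum for the inverse of `P₂` near its value at a representative of
the window. -/
theorem nv_end3 (N : ℕ) {m J : ℕ} {F : Fam m J} {c : ℕ → Fin m} {D D' D₂ a w w₂ e h : ℕ}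
    {g : ℕ → ℕ} {κ M R er k₀ k₁ δ Y Y₁ Yu : ℝ} {B₀ B : F.Ω → Prop}
    {G : PtT F → ℕ → MvPolynomial (Option (Fin m)) ℝ}
    {H : LnT F → ℕ → MvPolynomial (Option (Fin m)) ℝ} (hc : Set.InjOn c (Set.Iio 3))
    (hR : RelvF F c 3 a w₂ g D₂ h κ B₀ G)
    (hL : ChOK F c 3 (fun _ => D') a w₂ e g B₀ G H) (hD : D * (N + 1) + 2 ≤ D₂) (hB : Sub B B₀)
    (hP : κ * Pe F.p B₀ ≤ Pe F.p B) (hP0 : 0 < Pe F.p B) (hw : w ≤ w₂) (hwa : w₂ ≤ a)
    (haJ : a ≤ J) (ν : PtT F → F.Ω) (X₁ σ ρ : PtT F → ℝ) (P₀ P₁ P₂ : LnT F → Polynomial ℝ)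
    (hd0 : ∀ s, (P₀ s).natDegree ≤ D) (hd1 : ∀ s, (P₁ s).natDegree ≤ D)
    (hd2 : ∀ s, (P₂ s).natDegree ≤ D)
    (hν : ∀ ω, B ω → ptr F J (ν (ptr F J ω)) = ptr F J ω)
    (hσ : ∀ ω, B ω → |σ (ptr F J ω)| ≤ R) (hρ : ∀ ω, B ω → |ρ (ptr F J ω)| ≤ R) (hM : 0 < M)
    (hv : ∀ ω, B ω → |(bd F ω (some (c 2)) - bd F (ν (ptr F J ω)) (some (c 2))) -
      σ (ptr F J ω) * (bd F ω (some (c 1)) - bd F (ν (ptr F J ω)) (some (c 1))) -
      ρ (ptr F J ω) * (bd F ω (some (c 0)) - bd F (ν (ptr F J ω)) (some (c 0)))| ≤ M * 2 ^ a)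
    (hk : 0 < k₀) (hlow : ∀ ω, B ω → k₀ ≤ |(P₂ (slam F w ω)).eval (F.t ω)|)
    (hδ : 0 ≤ δ) (hδ1 : δ ≤ 1 / 2)
    (hvar : ∀ ω, B ω → ∀ t : ℝ, |t - F.t ω| ≤ 2 / 2 ^ w₂ →
      |(P₂ (slam F w ω)).eval t - (P₂ (slam F w ω)).eval (F.t ω)| ≤ δ * k₀)
    (hf : ∀ ω, B ω → ∀ t : ℝ, |t - F.t ω| ≤ 1 / 2 ^ a →
      |(P₁ (slam F w ω)).eval t + (P₂ (slam F w ω)).eval t * σ (ptr F J ω)| ≤ k₁)
    (hrel : ∀ ω, B ω → ∀ t : ℝ, |t - F.t ω| ≤ 1 / 2 ^ a →
      |(P₀ (slam F w ω)).eval t + ((P₁ (slam F w ω)).eval t +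
        (P₂ (slam F w ω)).eval t * σ (ptr F J ω)) * X₁ (ptr F J ω) +
        (P₂ (slam F w ω)).eval t * ρ (ptr F J ω)| ≤ er)
    (_hY : 0 ≤ Y) (hbox : ∀ ω, B ω → ∀ b, NBx c (G (ptr F J ω)) g a (F.t ω) 1 b →
      |b (some (c 0)) - (F.x ω (c 0) + (b none - F.t ω) * bd F ω (some (c 0)))| ≤ Y)
    (_hY₁ : 0 ≤ Y₁) (hbx1 : ∀ ω, B ω → ∀ b, NBx c (G (ptr F J ω)) g a (F.t ω) 2 b →
      |(b (some (c 1)) - (F.x ω (c 1) + (b none - F.t ω) * bd F ω (some (c 1)))) -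
        X₁ (ptr F J ω) *
        (b (some (c 0)) - (F.x ω (c 0) + (b none - F.t ω) * bd F ω (some (c 0))))| ≤ Y₁)
    (_hYu : 0 ≤ Yu) (hbx2 : ∀ ω, B ω → ∀ b, NBx c (G (ptr F J ω)) g a (F.t ω) 3 b →
      |(b (some (c 2)) - (F.x ω (c 2) + (b none - F.t ω) * bd F ω (some (c 2)))) -
        σ (ptr F J ω) *
        (b (some (c 1)) - (F.x ω (c 1) + (b none - F.t ω) * bd F ω (some (c 1)))) -
        ρ (ptr F J ω) *
        (b (some (c 0)) - (F.x ω (c 0) + (b none - F.t ω) * bd F ω (some (c 0))))| ≤ Yu)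
    (hnum : 2 * er / k₀ * Y + 2 * k₁ / k₀ * Y₁ + δ ^ (N + 1) * Yu ≤ M)
    (hJ : 2 * R + 1 ≤ M * 2 ^ J) (hh : 2 ^ h * (3 * M) < 1 / 2 ^ g 2) : False := by
  classical
  have hw₂J : w₂ ≤ J := by omega
  -- a sample
  obtain ⟨ω₀, hω₀⟩ : ∃ ω, B ω := by
    by_contra hcon
    push Not at hcon
    have h1 : Pe F.p B = 0 := by
      unfold Pe
      exact Finset.sum_eq_zero fun ω _ => by simp [hcon ω]
    linarith
  have hR0 : 0 ≤ R := (abs_nonneg _).trans (hσ ω₀ hω₀)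
  -- the representatives of the windows
  have hrep : ∀ s : LnT F, ∃ ω' : F.Ω, (∃ ω, B ω ∧ slam F w₂ ω = s) → B ω' ∧ slam F w₂ ω' = s := by
    intro s
    by_cases h : ∃ ω, B ω ∧ slam F w₂ ω = s
    · obtain ⟨ω, h1⟩ := h
      exact ⟨ω, fun _ => h1⟩
    · exact ⟨ω₀, fun h' => absurd h' h⟩
  choose rp hrp using hrep
  obtain ⟨co, hco⟩ : ∃ co : LnT F → LnT F, co = fun s => (s.1, s.2.1, s.2.2 / 2 ^ (w₂ - w)) :=
    ⟨_, rfl⟩
  have hcs : ∀ ω, co (slam F w₂ ω) = slam F w ω := fun ω => by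
    rw [hco]
    exact slam_coarse' F hw hw₂J ω
  obtain ⟨p, hp⟩ : ∃ p : LnT F → ℝ, p = fun s => (P₂ (co s)).eval (F.t (rp s)) := ⟨_, rfl⟩
  obtain ⟨r, hr⟩ : ∃ r : LnT F → Polynomial ℝ, r = fun s => gin N (p s) (P₂ (co s)) := ⟨_, rfl⟩
  have hrd : ∀ s, (r s).natDegree ≤ D * N := fun s => by
    rw [hr]
    exact gin_deg (hd2 _)
  obtain ⟨q', hq'⟩ : ∃ q' : LnT F → Polynomial ℝ, q' = fun s => r s * P₂ (co s) := ⟨_, rfl⟩
  obtain ⟨κ', hκ'⟩ : ∃ κ' : LnT F → ℕ → Polynomial ℝ,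
    κ' = fun s k => -(r s * (if k = 0 then P₀ (co s) else P₁ (co s))) :=
    ⟨_, rfl⟩
  have hpw : ∀ ω, B ω → k₀ ≤ |p (slam F w₂ ω)| ∧ B (rp (slam F w₂ ω)) ∧
      |F.t ω - F.t (rp (slam F w₂ ω))| ≤ 1 / 2 ^ w₂ ∧
      slam F w (rp (slam F w₂ ω)) = slam F w ω := by
    intro ω hω
    obtain ⟨h1, h2⟩ := hrp (slam F w₂ ω) ⟨ω, hω, rfl⟩
    have h3 : slam F w (rp (slam F w₂ ω)) = slam F w ω := by
      rw [← hcs, ← hcs ω, h2]
    refine ⟨?_, h1, t_win hw₂J h2.symm, h3⟩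
    have h4 := hlow _ h1
    rw [h3] at h4
    rw [hp]
    simp only
    rw [hcs]
    exact h4
  have hmd : ∀ (s : LnT F) (P : Polynomial ℝ), P.natDegree ≤ D →
      (r s * P).natDegree ≤ D * (N + 1) := fun s P hP =>
    Polynomial.natDegree_mul_le.trans (le_trans (Nat.add_le_add (hrd s) hP) (le_of_eq (by ring)))
  refine no_affq (F := F) (c := c) (D := D₂) (D' := D') (K := D * (N + 1)) (a := a) (w := w₂)
    (e := e) (h := h) (j := 2) (g := g) (κ := κ) (M := M) (R := R) (B₀ := B₀) (B := B) (G := G)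
    (H := H) hc hR hL (by omega) hB hP hP0 ν (fun y k => if k = 0 then ρ y else σ y) q' κ' ?_ ?_
    hν hR0 ?_ hM ?_ ?_ (by simpa using hJ) hh
  · intro s
    rw [hq']
    exact hmd _ _ (hd2 _)
  · intro s k
    rw [hκ']
    simp only
    rw [Polynomial.natDegree_neg]
    split_ifs
    · exact hmd _ _ (hd0 _)
    · exact hmd _ _ (hd1 _)
  · intro ω hω k _
    split_ifs
    · exact hρ ω hω
    · exact hσ ω hω
  · intro ω hω
    have h1 := hv ω hω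
    rw [Finset.sum_range_succ, Finset.sum_range_one]
    simp only [if_true, one_ne_zero, if_false]
    refine (le_of_eq ?_).trans h1
    congr 1
    ring
  · intro ω hω b hb
    obtain ⟨k1, k2, k3, k4⟩ := hpw ω hω
    have hp0 : p (slam F w₂ ω) ≠ 0 := by
      intro h0
      rw [h0, abs_zero] at k1
      linarith
    have hpp : 0 < |p (slam F w₂ ω)| := abs_pos.2 hp0
    have hb1 : |b none - F.t ω| ≤ 1 / 2 ^ a := hb.1
    have hb2 : NBx c (G (ptr F J ω)) g a (F.t ω) 1 b := ⟨hb.1, fun l hl => hb.2 l (by omega)⟩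
    have hb3 : NBx c (G (ptr F J ω)) g a (F.t ω) 2 b := ⟨hb.1, fun l hl => hb.2 l (by omega)⟩
    have hV := hbox ω hω b hb2
    have hV1 := hbx1 ω hω b hb3
    have hU := hbx2 ω hω b hb
    rw [Finset.sum_range_succ, Finset.sum_range_one]
    simp only [if_true, one_ne_zero, if_false]
    rw [hq', hκ']
    simp only [if_true, one_ne_zero, if_false, Polynomial.eval_mul, Polynomial.eval_neg]
    rw [hcs]
    -- the values
    have ha2 : (1 : ℝ) / 2 ^ a ≤ 1 / 2 ^ w₂ :=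
      one_div_le_one_div_of_le (by positivity) (pow_le_pow_right₀ (by norm_num) hwa)
    have e1 : |(P₂ (slam F w ω)).eval (b none) - p (slam F w₂ ω)| ≤ δ * k₀ := by
      have h1 := hvar _ k2 (b none) (by
        have h2 : b none - F.t (rp (slam F w₂ ω)) = (b none - F.t ω) +
          (F.t ω - F.t (rp (slam F w₂ ω))) := by ring
        rw [h2]
        refine (abs_add_le _ _).trans ?_
        calc _ ≤ 1 / 2 ^ w₂ + 1 / 2 ^ w₂ := add_le_add (hb1.trans ha2) k3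
          _ = 2 / 2 ^ w₂ := by ring)
      rw [k4] at h1
      have h2 : p (slam F w₂ ω) = (P₂ (slam F w ω)).eval (F.t (rp (slam F w₂ ω))) := by
        rw [hp]
        simp only
        rw [hcs]
      rw [h2]
      exact h1
    have e2 := hrel ω hω (b none) hb1
    have e3 := hf ω hω (b none) hb1
    have her : 0 ≤ er := (abs_nonneg _).trans e2
    have hk₁ : 0 ≤ k₁ := (abs_nonneg _).trans e3
    have f1 : |(p (slam F w₂ ω) - (P₂ (slam F w ω)).eval (b none)) / p (slam F w₂ ω)| ≤ δ := by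
      rw [abs_div, div_le_iff₀ hpp, abs_sub_comm]
      exact e1.trans (mul_le_mul_of_nonneg_left k1 hδ)
    have hrs : r (slam F w₂ ω) = gin N (p (slam F w₂ ω)) (P₂ (slam F w ω)) := by
      rw [hr]
      simp only
      rw [hcs]
    obtain ⟨i1, i2⟩ := gin_eval (N := N) hp0 f1 hδ1
    rw [← hrs] at i1 i2
    obtain ⟨V, hVd⟩ : ∃ V, V = b (some (c 0)) -
      (F.x ω (c 0) + (b none - F.t ω) * bd F ω (some (c 0))) := ⟨_, rfl⟩
    obtain ⟨V₁, hV₁d⟩ : ∃ V₁, V₁ = b (some (c 1)) -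
      (F.x ω (c 1) + (b none - F.t ω) * bd F ω (some (c 1))) := ⟨_, rfl⟩
    obtain ⟨U, hUd⟩ : ∃ U, U = b (some (c 2)) -
      (F.x ω (c 2) + (b none - F.t ω) * bd F ω (some (c 2))) := ⟨_, rfl⟩
    rw [← hVd] at hV hV1 hU ⊢
    rw [← hV₁d] at hV1 hU ⊢
    rw [← hUd] at hU ⊢
    obtain ⟨A₂, hA₂⟩ : ∃ A₂, A₂ = (P₂ (slam F w ω)).eval (b none) := ⟨_, rfl⟩
    obtain ⟨A₁, hA₁⟩ : ∃ A₁, A₁ = (P₁ (slam F w ω)).eval (b none) := ⟨_, rfl⟩
    obtain ⟨A₀, hA₀⟩ : ∃ A₀, A₀ = (P₀ (slam F w ω)).eval (b none) := ⟨_, rfl⟩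
    obtain ⟨Rv, hRv⟩ : ∃ Rv, Rv = (r (slam F w₂ ω)).eval (b none) := ⟨_, rfl⟩
    obtain ⟨x, hx⟩ : ∃ x, x = X₁ (ptr F J ω) := ⟨_, rfl⟩
    obtain ⟨sg, hsg⟩ : ∃ sg, sg = σ (ptr F J ω) := ⟨_, rfl⟩
    obtain ⟨rh, hrh⟩ : ∃ rh, rh = ρ (ptr F J ω) := ⟨_, rfl⟩
    rw [← hA₂] at e2 e3 i2 ⊢
    rw [← hA₁] at e2 e3 ⊢
    rw [← hA₀] at e2 ⊢
    rw [← hRv] at i1 i2 ⊢
    rw [← hx] at e2 hV1
    rw [← hsg] at e2 e3 hU ⊢
    rw [← hrh] at e2 hU ⊢
    have key : (1 - Rv * A₂) * U - ((rh - -(Rv * A₀)) * V + (sg - -(Rv * A₁)) * V₁) =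
        (1 - Rv * A₂) * (U - sg * V₁ - rh * V) - Rv * (A₁ + A₂ * sg) * (V₁ - x * V) -
          Rv * (A₀ + (A₁ + A₂ * sg) * x + A₂ * rh) * V := by ring
    rw [key]
    have i3 : |Rv| ≤ 2 / k₀ := i1.trans (div_le_div_of_nonneg_left (by norm_num) hk k1)
    have f2 : |Rv * (A₀ + (A₁ + A₂ * sg) * x + A₂ * rh)| ≤ 2 * er / k₀ := by
      rw [abs_mul]
      refine (mul_le_mul i3 e2 (abs_nonneg _) (by positivity)).trans (le_of_eq (by ring))
    have f3 : |Rv * (A₁ + A₂ * sg)| ≤ 2 * k₁ / k₀ := by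
      rw [abs_mul]
      refine (mul_le_mul i3 e3 (abs_nonneg _) (by positivity)).trans (le_of_eq (by ring))
    have g1 : |(1 - Rv * A₂) * (U - sg * V₁ - rh * V)| ≤ δ ^ (N + 1) * Yu := by
      rw [abs_mul]
      exact mul_le_mul i2 hU (abs_nonneg _) (by positivity)
    have g2 : |Rv * (A₀ + (A₁ + A₂ * sg) * x + A₂ * rh) * V| ≤ 2 * er / k₀ * Y := by
      rw [abs_mul]
      exact mul_le_mul f2 hV (abs_nonneg _) (by positivity)
    have g3 : |Rv * (A₁ + A₂ * sg) * (V₁ - x * V)| ≤ 2 * k₁ / k₀ * Y₁ := by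
      rw [abs_mul]
      exact mul_le_mul f3 hV1 (abs_nonneg _) (by positivity)
    calc _ ≤ _ := abs_sub _ _
      _ ≤ δ ^ (N + 1) * Yu + 2 * k₁ / k₀ * Y₁ + 2 * er / k₀ * Y :=
        add_le_add ((abs_sub _ _).trans (add_le_add g1 g3)) g2
      _ ≤ M := by linarith

end Pool.NVX
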