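import Pool.Agent.H77.NV.Shf
import Pool.Agent.H80.NV.Vr2

/-!
# The derivatives in the directions of the plane

`ent_bd`: a polynomial which is bounded on the natural box has bounded derivatives in the directions
of the lines, of the plane, of the shear and of `c 2`. `nu_lin`: the velocity of another line through
the exact point. `qd_id`: the quadratic relation of two directions.
-/

set_option autoImplicit false

namespace Pool.NVX

open Finset Real MvPolynomial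
open Pool.Agent.H49.Ent Pool.Agent.H32.Dense Pool.STK Pool.KA Pool.KSAT Pool.K2S Pool.PB Pool.S6C
open Pool.GEN Pool.CHT
open Pool.D2R (dd hs dd_add dd_smul dd_congr hs_add_right hs_add_left hs_smul_right hs_smul_left
  hs_comm)
open Pool.F5 (lp gp der_lp dd_gp deg_gp deg_lp eo bdS bdS_slam eval_lp eval_gp)
open Pool.SHR (dir mvp dvc Shr dir_deg dir_dep)
open Pool.PB.Trl (rt rt_mem t_rt)

variable {m J : ℕ}

theorem dd_subC (P : MvPolynomial (Option (Fin m)) ℝ) (x W : Option (Fin m) → ℝ) (r : ℝ) :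
    dd (P - C r) x W = dd P x W := by
  rw [Pool.D2R.dd_sub, dd_C, sub_zero]

/-- Two samples of one window: the point of the first one is on the line of the second one. -/
theorem pt_same {F : Fam m J} {a : ℕ} {ω ω' : F.Ω} (h : slam F a ω = slam F a ω') (t : ℝ) :
    bt F ω' + (t - F.t ω') • bd F ω' = bt F ω + (t - F.t ω) • bd F ω := by
  rw [← pt_slam F a ω t, ← pt_slam F a ω' t, h]

/-- **The derivatives of a polynomial which is bounded on the natural box.** -/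
theorem ent_bd (m D : ℕ) : ∃ C : ℕ, ∀ {J : ℕ} {F : Fam m J} {c : ℕ → Fin m}
    {a w e n h x N : ℕ} {g : ℕ → ℕ} {A : F.Ω → Prop}
    {G : PtT F → ℕ → MvPolynomial (Option (Fin m)) ℝ}
    {H : LnT F → ℕ → MvPolynomial (Option (Fin m)) ℝ} {v : PtT F → Fin m → ℝ},
    Set.InjOn c (Set.Iio 3) → a ≤ J → ChOK F c 3 (fun _ => D) a w e g A G H →
    (∀ l < 3, e + g l + N + C * (n + 1) ≤ J) → Pth F c 3 a n g A G →
    (∀ y, v y (c 1) = 1 ∧ v y (c 0) = 0) → (∀ ω, A ω → Shr F c 1 a g G v x 2 ω) →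
    ∀ (M : ℝ) (Q : MvPolynomial (Option (Fin m)) ℝ) (ω : F.Ω), A ω → DepC c 3 Q →
    Q.totalDegree ≤ D → 0 ≤ M →
    (∀ b, NBx c (G (ptr F J ω)) g a (F.t ω) 3 b → |eval b Q| ≤ M) →
    (∀ ν, A ν → ptr F J ω = ptr F J ν → |dd Q (bt F ω) (vl F a ν)| ≤ 2 ^ (C * (n + 1)) * M ∧
      |dd Q (bt F ν) (vl F a ν) - dd Q (bt F ω) (vl F a ν)| ≤ 2 ^ (C * (n + 1)) * M / 2 ^ N) ∧
    (∀ X₀ : Option (Fin m) → ℝ, (∃ (ν₁ ν₂ : F.Ω) (δ : ℝ), A ν₁ ∧ ptr F J ν₁ = ptr F J ω ∧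
      A ν₂ ∧ ptr F J ν₂ = ptr F J ω ∧ |δ| ≤ 2 ^ (h + 3) ∧
      (1 / 2 ^ g 0 : ℝ) • X₀ = δ • (vl F a ν₁ - vl F a ν₂)) →
      |dd Q (bt F ω) ((1 / 2 ^ g 0 : ℝ) • X₀)| ≤ 2 ^ (C * (n + 1) + h + 4) * M) ∧
    |dd Q (bt F ω) (dvc (v (ptr F J ω)))| ≤ 2 ^ (C * (x + 1)) * 2 ^ g 1 * M ∧
    |dd Q (bt F ω) (dvc (ek (c 2)))| ≤ 2 ^ C * 2 ^ g 2 * M := by
  obtain ⟨c₁, hsh⟩ := shf_dd m D 3
  obtain ⟨c₂, hsl⟩ := slp_all D 4
  refine ⟨c₁ + c₂, ?_⟩
  intro J F c a w e n h x N g A G H v hc haJ hch hJ hpth hv hS M Q ω hω hQ hQd hM hbox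
  have pw : ∀ {x y : ℕ}, x ≤ y → (2 : ℝ) ^ x ≤ 2 ^ y := fun h => pow_le_pow_right₀ (by norm_num) h
  have k1 : c₁ * (n + 1) ≤ (c₁ + c₂) * (n + 1) := Nat.mul_le_mul_right _ (by omega)
  have hg1 : ∀ ν, A ν → ptr F J ω = ptr F J ν →
      |dd Q (bt F ω) (vl F a ν)| ≤ 2 ^ ((c₁ + c₂) * (n + 1)) * M ∧
      |dd Q (bt F ν) (vl F a ν) - dd Q (bt F ω) (vl F a ν)| ≤
        2 ^ ((c₁ + c₂) * (n + 1)) * M / 2 ^ N := by
    intro ν hν hpt
    obtain ⟨h1, h2⟩ := hsh (n := n) (N := N) hc haJ hch (fun l hl => by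
      have := hJ l hl
      omega) hpth ω ν hω hν hpt hQ hQd hM hbox
    exact ⟨h1.trans (mul_le_mul_of_nonneg_right (pw k1) hM),
      h2.trans (div_le_div_of_nonneg_right (mul_le_mul_of_nonneg_right (pw k1) hM)
        (by positivity))⟩
  refine ⟨hg1, ?_, ?_, ?_⟩
  · rintro X₀ ⟨ν₁, ν₂, δ, a1, a2, a3, a4, a5, a6⟩
    rw [a6]
    have e1 : δ • (vl F a ν₁ - vl F a ν₂) = δ • (vl F a ν₁ + (-1 : ℝ) • vl F a ν₂) := by
      rw [neg_smul, one_smul, sub_eq_add_neg]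
    rw [e1, dd_smul, dd_add, dd_smul, abs_mul]
    obtain ⟨b1, -⟩ := hg1 ν₁ a1 a2.symm
    obtain ⟨b2, -⟩ := hg1 ν₂ a3 a4.symm
    have b3 : |dd Q (bt F ω) (vl F a ν₁) + -1 * dd Q (bt F ω) (vl F a ν₂)| ≤
        2 * (2 ^ ((c₁ + c₂) * (n + 1)) * M) := by
      refine (abs_add_le _ _).trans ?_
      rw [abs_mul, abs_neg, abs_one, one_mul]
      linarith
    calc |δ| * |dd Q (bt F ω) (vl F a ν₁) + -1 * dd Q (bt F ω) (vl F a ν₂)| ≤
          2 ^ (h + 3) * (2 * (2 ^ ((c₁ + c₂) * (n + 1)) * M)) :=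
          mul_le_mul a5 b3 (abs_nonneg _) (by positivity)
      _ = _ := by
          rw [pow_add 2 _ 4, pow_add 2 _ h, pow_add 2 h 3]
          ring
  · have h1 := hsl (c := c) (l := 1) (i := 3) (a := a) (y := x) (g := g) (M := M) (G := G)
      (v := v) (P := Q) (ω := ω) (b := bt F ω) (by norm_num) hc hch.degG hch.depG hQ hQd hM
      (hv _).1 (fun j hj => by
        have : j = 0 := by omega
        subst this
        exact (hv _).2) (fun j hj hlj => by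
        have : j = 2 := by omega
        subst this
        exact hS ω hω) (hch.self hω le_rfl) hbox
    rw [eval_dir] at h1
    refine h1.trans (mul_le_mul_of_nonneg_right (mul_le_mul_of_nonneg_right (pw
      (Nat.mul_le_mul_right _ (by omega))) (by positivity)) hM)
  · have h02 := c_ne hc (i := 0) (j := 2) (by norm_num) (by norm_num) (by norm_num)
    have h12 := c_ne hc (i := 1) (j := 2) (by norm_num) (by norm_num) (by norm_num)
    have h1 := hsl (c := c) (l := 2) (i := 3) (a := a) (y := 0) (g := g) (M := M) (G := G)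
      (v := fun _ => ek (c 2)) (P := Q) (ω := ω) (b := bt F ω) (by norm_num) hc hch.degG hch.depG
      hQ hQd hM (ek_self _) (fun j hj => by
        have : j = 0 ∨ j = 1 := by omega
        rcases this with rfl | rfl
        · exact ek_ne h02
        · exact ek_ne h12) (fun j hj hlj => by omega) (hch.self hω le_rfl) hbox
    rw [eval_dir] at h1
    refine h1.trans (mul_le_mul_of_nonneg_right (mul_le_mul_of_nonneg_right (pw
      (by omega)) (by positivity)) hM)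

/-- **The velocity of another line** through the exact point. -/
theorem nu_lin {F : Fam m J} {c : ℕ → Fin m} {a : ℕ} {g : ℕ → ℕ} (hc : Set.InjOn c (Set.Iio 3))
    {Q : MvPolynomial (Option (Fin m)) ℝ} (hQ : DepC c 3 Q) (x : Option (Fin m) → ℝ)
    {v : Fin m → ℝ} (hv1 : v (c 1) = 1) (hv0 : v (c 0) = 0) {X : Option (Fin m) → ℝ}
    (hX0 : X none = 0) (hX1 : X (some (c 0)) = 1) (ω ν : F.Ω) {ξ r₁ r₂ : ℝ}
    (hξ : ξ = 2 ^ g 0 * (vl F a ν (some (c 0)) - vl F a ω (some (c 0))))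
    (hr1 : r₁ = (vl F a ν (some (c 1)) - vl F a ω (some (c 1))) -
      X (some (c 1)) * (vl F a ν (some (c 0)) - vl F a ω (some (c 0))))
    (hr2 : r₂ = (vl F a ν (some (c 2)) - vl F a ω (some (c 2))) -
      v (c 2) * (vl F a ν (some (c 1)) - vl F a ω (some (c 1))) -
      (X (some (c 2)) - v (c 2) * X (some (c 1))) *
        (vl F a ν (some (c 0)) - vl F a ω (some (c 0)))) :
    dd Q x (vl F a ν) = dd Q x (vl F a ω) + ξ * dd Q x ((1 / 2 ^ g 0 : ℝ) • X) +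
      r₁ * dd Q x (dvc v) + r₂ * dd Q x (dvc (ek (c 2))) := by
  have h02 := c_ne hc (i := 0) (j := 2) (by norm_num) (by norm_num) (by norm_num)
  have h12 := c_ne hc (i := 1) (j := 2) (by norm_num) (by norm_num) (by norm_num)
  have e1 : dd Q x (vl F a ν) = dd Q x (vl F a ω + ξ • ((1 / 2 ^ g 0 : ℝ) • X) + r₁ • dvc v +
      r₂ • dvc (ek (c 2))) := by
    refine dd_congr hQ x ?_ fun l hl => ?_
    · simp only [Pi.add_apply, Pi.smul_apply, smul_eq_mul]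
      rw [hX0, vl_none, vl_none]
      show 1 / 2 ^ a = 1 / 2 ^ a + ξ * (1 / 2 ^ g 0 * 0) + r₁ * 0 + r₂ * 0
      ring
    · simp only [Pi.add_apply, Pi.smul_apply, smul_eq_mul]
      have : l = 0 ∨ l = 1 ∨ l = 2 := by omega
      rcases this with rfl | rfl | rfl
      · show vl F a ν (some (c 0)) = vl F a ω (some (c 0)) + ξ * (1 / 2 ^ g 0 * X (some (c 0))) +
          r₁ * v (c 0) + r₂ * ek (c 2) (c 0)
        rw [ek_ne h02, hv0, hX1, hξ]
        field_simp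
        ring
      · show vl F a ν (some (c 1)) = vl F a ω (some (c 1)) + ξ * (1 / 2 ^ g 0 * X (some (c 1))) +
          r₁ * v (c 1) + r₂ * ek (c 2) (c 1)
        rw [ek_ne h12, hv1, hr1, hξ]
        field_simp
        ring
      · show vl F a ν (some (c 2)) = vl F a ω (some (c 2)) + ξ * (1 / 2 ^ g 0 * X (some (c 2))) +
          r₁ * v (c 2) + r₂ * ek (c 2) (c 2)
        rw [ek_self, hr2, hr1, hξ]
        field_simp
        ring
  rw [e1, dd_add, dd_add, dd_add, dd_smul _ _ _ ξ, dd_smul _ _ _ r₁, dd_smul _ _ _ r₂]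

/-- **The quadratic relation** of two directions. -/
theorem qd_id {c : ℕ → Fin m} (hc : Set.InjOn c (Set.Iio 3))
    {R : MvPolynomial (Option (Fin m)) ℝ} (hR : DepC c 3 R) (x : Option (Fin m) → ℝ)
    {v : Fin m → ℝ} (hv1 : v (c 1) = 1) (hv0 : v (c 0) = 0) {X X' : Option (Fin m) → ℝ}
    (hX0 : X none = 0) (hX0' : X' none = 0) (hX1 : X (some (c 0)) = 1)
    (hX1' : X' (some (c 0)) = 1) {d₁ d₂ : ℝ} (h1 : d₁ = X (some (c 1)) - X' (some (c 1)))
    (h2 : d₂ = (X (some (c 2)) - X' (some (c 2))) - v (c 2) * (X (some (c 1)) -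
      X' (some (c 1)))) :
    hs R x X X - hs R x X' X' = 2 * (d₁ * dd (dir v R) x X + d₂ * dd (dir (ek (c 2)) R) x X) -
      (d₁ ^ 2 * dd (dir v R) x (dvc v) + 2 * d₁ * d₂ * dd (dir v R) x (dvc (ek (c 2))) +
        d₂ ^ 2 * dd (dir (ek (c 2)) R) x (dvc (ek (c 2)))) := by
  have h02 := c_ne hc (i := 0) (j := 2) (by norm_num) (by norm_num) (by norm_num)
  have h12 := c_ne hc (i := 1) (j := 2) (by norm_num) (by norm_num) (by norm_num)
  obtain ⟨Z, hZ⟩ : ∃ Z : Option (Fin m) → ℝ, Z = X + (-d₁) • dvc v + (-d₂) • dvc (ek (c 2)) :=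
    ⟨_, rfl⟩
  have k0 : X' none = Z none := by
    rw [hZ]
    simp only [Pi.add_apply, Pi.smul_apply, smul_eq_mul]
    show X' none = X none + -d₁ * 0 + -d₂ * 0
    rw [hX0, hX0']
    ring
  have kl : ∀ l < 3, X' (some (c l)) = Z (some (c l)) := by
    intro l hl
    rw [hZ]
    simp only [Pi.add_apply, Pi.smul_apply, smul_eq_mul]
    have : l = 0 ∨ l = 1 ∨ l = 2 := by omega
    rcases this with rfl | rfl | rfl
    · show X' (some (c 0)) = X (some (c 0)) + -d₁ * v (c 0) + -d₂ * ek (c 2) (c 0)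
      rw [ek_ne h02, hv0, hX1, hX1']
      ring
    · show X' (some (c 1)) = X (some (c 1)) + -d₁ * v (c 1) + -d₂ * ek (c 2) (c 1)
      rw [ek_ne h12, hv1, h1]
      ring
    · show X' (some (c 2)) = X (some (c 2)) + -d₁ * v (c 2) + -d₂ * ek (c 2) (c 2)
      rw [ek_self, h1, h2]
      ring
  have e1 : hs R x X' X' = hs R x Z Z :=
    Pool.D2Z.hs_dep hR rfl (fun _ _ => rfl) k0 kl k0 kl
  rw [e1, hZ]
  simp only [hs_add_right, hs_add_left, hs_smul_right, hs_smul_left, dd_dir]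
  rw [hs_comm R x (dvc v) X, hs_comm R x (dvc (ek (c 2))) X,
    hs_comm R x (dvc (ek (c 2))) (dvc v)]
  ring

/-- The second derivative along the line in the direction `v`. -/
theorem hcl_dir {c : ℕ → Fin m} (hc : Set.InjOn c (Set.Iio 3)) {F : Fam m J} (a w : ℕ) (ω : F.Ω)
    {R : MvPolynomial (Option (Fin m)) ℝ} (hR : DepC c 3 R) {v : Fin m → ℝ} (hv1 : v (c 1) = 1)
    (hv0 : v (c 0) = 0) (t : ℝ) :
    (hcl (c 1) R (slam F w ω)).eval t + v (c 2) * (hcl (c 2) R (slam F w ω)).eval t =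
      2 ^ a * dd (dir v R) (bt F ω + (t - F.t ω) • bd F ω) (vl F a ω) := by
  rw [hcl_eval, hcl_eval, dd_dir]
  have e1 : vl F a ω = (1 / 2 ^ a : ℝ) • bd F ω := rfl
  rw [e1, hs_smul_left, hs_three hc hR (X₀ := dvc v) rfl]
  have e2 : dvc v (some (c 0)) = 0 := hv0
  have e3 : dvc v (some (c 1)) = 1 := hv1
  have e4 : dvc v (some (c 2)) = v (c 2) := rfl
  rw [e2, e3, e4]
  field_simp
  ring

/-- The second derivative along the line in the direction `c 2`. -/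
theorem hcl_ek {c : ℕ → Fin m} (hc : Set.InjOn c (Set.Iio 3)) {F : Fam m J} (a w : ℕ) (ω : F.Ω)
    {R : MvPolynomial (Option (Fin m)) ℝ} (hR : DepC c 3 R) (t : ℝ) :
    (hcl (c 2) R (slam F w ω)).eval t =
      2 ^ a * dd (dir (ek (c 2)) R) (bt F ω + (t - F.t ω) • bd F ω) (vl F a ω) := by
  have h02 := c_ne hc (i := 0) (j := 2) (by norm_num) (by norm_num) (by norm_num)
  have h12 := c_ne hc (i := 1) (j := 2) (by norm_num) (by norm_num) (by norm_num)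
  rw [hcl_eval, dd_dir]
  have e1 : vl F a ω = (1 / 2 ^ a : ℝ) • bd F ω := rfl
  rw [e1, hs_smul_left, hs_three hc hR (X₀ := dvc (ek (c 2))) rfl]
  have e2 : dvc (ek (c 2)) (some (c 0)) = 0 := ek_ne h02
  have e3 : dvc (ek (c 2)) (some (c 1)) = 0 := ek_ne h12
  have e4 : dvc (ek (c 2)) (some (c 2)) = 1 := ek_self _
  rw [e2, e3, e4]
  field_simp
  ring

/-- **The comparison of two lines** through one exact point. -/
theorem cmp_nu (m D : ℕ) : ∃ C : ℕ, ∀ {J : ℕ} {F : Fam m J} {c : ℕ → Fin m}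
    {a w e n x N p : ℕ} {g : ℕ → ℕ} {A : F.Ω → Prop}
    {G : PtT F → ℕ → MvPolynomial (Option (Fin m)) ℝ}
    {H : LnT F → ℕ → MvPolynomial (Option (Fin m)) ℝ} {v : PtT F → Fin m → ℝ},
    Set.InjOn c (Set.Iio 3) → a ≤ J → ChOK F c 3 (fun _ => D) a w e g A G H →
    (∀ l < 3, e + g l + N + C * (n + 1) ≤ J) → Pth F c 3 a n g A G →
    (∀ y, v y (c 1) = 1 ∧ v y (c 0) = 0) → (∀ ω, A ω → Shr F c 1 a g G v x 2 ω) →
    ∀ (ω ν : F.Ω), A ω → A ν → ptr F J ω = ptr F J ν →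
    ∀ (R R' : MvPolynomial (Option (Fin m)) ℝ) (z : Fin m → ℝ) (X : Option (Fin m) → ℝ)
      (E E' al ξ r₁ r₂ : ℝ), DepC c 3 R → DepC c 3 R' → R.totalDegree ≤ D →
    R'.totalDegree ≤ D → X none = 0 → X (some (c 0)) = 1 → 0 ≤ E → 0 ≤ E' →
    (∀ b, NBx c (G (ptr F J ω)) g a (F.t ω) 3 b → |eval b (dir z R) - al| ≤ E) →
    (∀ b, NBx c (G (ptr F J ω)) g a (F.t ω) 3 b → |eval b (dir z R') - al| ≤ E) →
    (∀ b, NBx c (G (ptr F J ω)) g a (F.t ω) 3 b → |eval b (dir z (R' - R))| ≤ E') →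
    ξ = 2 ^ g 0 * (vl F a ν (some (c 0)) - vl F a ω (some (c 0))) →
    r₁ = (vl F a ν (some (c 1)) - vl F a ω (some (c 1))) -
      X (some (c 1)) * (vl F a ν (some (c 0)) - vl F a ω (some (c 0))) →
    r₂ = (vl F a ν (some (c 2)) - vl F a ω (some (c 2))) -
      v (ptr F J ω) (c 2) * (vl F a ν (some (c 1)) - vl F a ω (some (c 1))) -
      (X (some (c 2)) - v (ptr F J ω) (c 2) * X (some (c 1))) *
        (vl F a ν (some (c 0)) - vl F a ω (some (c 0))) →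
    |r₁| ≤ 2 / 2 ^ (g 1 + p) → |r₂| ≤ 2 / 2 ^ (g 2 + p) →
    |dd (dir z R') (bt F ν) (vl F a ν) - (dd (dir z R) (bt F ω) (vl F a ω) +
      ξ * dd (dir z R) (bt F ω) ((1 / 2 ^ g 0 : ℝ) • X))| ≤
      2 ^ (C * (n + x + 1)) * (E / 2 ^ N + E' + E / 2 ^ p) := by
  obtain ⟨c₁, hent⟩ := ent_bd m D
  refine ⟨c₁ + 2, ?_⟩
  intro J F c a w e n x N p g A G H v hc haJ hch hJ hpth hv hS ω ν hω hν hpt R R' z X E E' al ξ r₁
    r₂ hR hR' hRd hRd' hX0 hX1 hE hE' hb hb' hbb hξ hr1 hr2 hr1' hr2'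
  have pw : ∀ {x y : ℕ}, x ≤ y → (2 : ℝ) ^ x ≤ 2 ^ y := fun h => pow_le_pow_right₀ (by norm_num) h
  have hCC : c₁ * (n + 1) ≤ (c₁ + 2) * (n + 1) := Nat.mul_le_mul_right _ (by omega)
  have key := hent (h := 0) (x := x) (N := N) hc haJ hch (fun l hl => by
    have := hJ l hl
    omega) hpth hv hS
  have hQd : ∀ P : MvPolynomial (Option (Fin m)) ℝ, P.totalDegree ≤ D → ∀ r : ℝ,
      (dir z P - C r).totalDegree ≤ D := fun P hP r =>
    (totalDegree_sub _ _).trans (max_le (dir_deg _ hP) (by rw [totalDegree_C]; exact Nat.zero_le _))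
  have hQc : ∀ P : MvPolynomial (Option (Fin m)) ℝ, DepC c 3 P → ∀ r : ℝ,
      DepC c 3 (dir z P - C r) := fun P hP r b b' hn hb => by
    rw [map_sub, map_sub, eval_C, eval_C, dir_dep z hP b b' hn hb]
  -- the polynomial of the other line
  obtain ⟨a1, -, -, -⟩ := key E (dir z R' - C al) ω hω (hQc R' hR' al) (hQd R' hRd' al) hE
    (fun b h => by rw [map_sub, eval_C]; exact hb' b h)
  have a2 := (a1 ν hν hpt).2
  rw [dd_subC, dd_subC] at a2
  -- the difference of the two polynomials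
  obtain ⟨b1, -, -, -⟩ := key E' (dir z (R' - R)) ω hω
    (dir_dep z fun b b' hn hb => by
      rw [map_sub, map_sub, hR' b b' hn hb, hR b b' hn hb])
    (dir_deg _ ((totalDegree_sub _ _).trans (max_le hRd' hRd))) hE' hbb
  have b2 := (b1 ν hν hpt).1
  rw [Pool.SHR.dir_sub, Pool.D2R.dd_sub] at b2
  -- the own polynomial
  obtain ⟨-, -, d1, d2⟩ := key E (dir z R - C al) ω hω (hQc R hR al) (hQd R hRd al) hE
    (fun b h => by rw [map_sub, eval_C]; exact hb b h)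
  rw [dd_subC] at d1 d2
  have hlin := nu_lin (F := F) (a := a) (g := g) hc (dir_dep z hR) (bt F ω) (hv _).1 (hv _).2 hX0
    hX1 ω ν hξ hr1 hr2
  obtain ⟨Y, hY⟩ : ∃ Y, Y = dd (dir z R') (bt F ν) (vl F a ν) := ⟨_, rfl⟩
  obtain ⟨Y₁, hY₁⟩ : ∃ Y, Y = dd (dir z R') (bt F ω) (vl F a ν) := ⟨_, rfl⟩
  obtain ⟨Y₂, hY₂⟩ : ∃ Y, Y = dd (dir z R) (bt F ω) (vl F a ν) := ⟨_, rfl⟩
  rw [← hY, ← hY₁] at a2
  rw [← hY₁, ← hY₂] at b2
  rw [← hY₂] at hlin
  rw [← hY]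
  obtain ⟨y₁, hy₁⟩ : ∃ y, y = dd (dir z R) (bt F ω) (dvc (v (ptr F J ω))) := ⟨_, rfl⟩
  obtain ⟨y₂, hy₂⟩ : ∃ y, y = dd (dir z R) (bt F ω) (dvc (ek (c 2))) := ⟨_, rfl⟩
  rw [← hy₁, ← hy₂] at hlin
  rw [← hy₁] at d1
  rw [← hy₂] at d2
  have e1 : Y - (dd (dir z R) (bt F ω) (vl F a ω) +
      ξ * dd (dir z R) (bt F ω) ((1 / 2 ^ g 0 : ℝ) • X)) =
      (Y - Y₁) + (Y₁ - Y₂) + (r₁ * y₁ + r₂ * y₂) := by rw [hlin]; ring
  rw [e1]
  have f1 : |r₁ * y₁| ≤ 2 ^ (c₁ * (x + 1) + 1) * (E / 2 ^ p) := by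
    rw [abs_mul]
    calc |r₁| * |y₁| ≤ 2 / 2 ^ (g 1 + p) * (2 ^ (c₁ * (x + 1)) * 2 ^ g 1 * E) :=
          mul_le_mul hr1' d1 (abs_nonneg _) (by positivity)
      _ = _ := by
          rw [pow_add 2 (g 1), pow_succ]
          field_simp
  have f2 : |r₂ * y₂| ≤ 2 ^ (c₁ + 1) * (E / 2 ^ p) := by
    rw [abs_mul]
    calc |r₂| * |y₂| ≤ 2 / 2 ^ (g 2 + p) * (2 ^ c₁ * 2 ^ g 2 * E) :=
          mul_le_mul hr2' d2 (abs_nonneg _) (by positivity)
      _ = _ := by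
          rw [pow_add 2 (g 2), pow_succ]
          field_simp
  have hEp : 0 ≤ E / 2 ^ p := by positivity
  have hEN : 0 ≤ E / 2 ^ N := by positivity
  obtain ⟨S, hS'⟩ : ∃ S : ℝ, S = 2 ^ ((c₁ + 2) * (n + x + 1)) := ⟨_, rfl⟩
  have g1 : (2 : ℝ) ^ (c₁ * (n + 1)) ≤ S := by
    rw [hS']
    exact pw (Nat.mul_le_mul (by omega) (by omega))
  have g2 : (2 : ℝ) ^ (c₁ * (x + 1) + 1) ≤ S / 2 := by
    rw [le_div_iff₀ (by norm_num), hS', ← pow_succ]
    refine pw ?_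
    have : (c₁ + 2) * (n + x + 1) = c₁ * (x + 1) + 1 + 1 + (c₁ * n + 2 * (n + x)) := by ring
    rw [this]
    exact Nat.le_add_right _ _
  have g3 : (2 : ℝ) ^ (c₁ + 1) ≤ S / 2 := by
    rw [le_div_iff₀ (by norm_num), hS', ← pow_succ]
    refine pw ?_
    have : (c₁ + 2) * (n + x + 1) = c₁ + 1 + 1 + (c₁ * (n + x) + 2 * (n + x)) := by ring
    rw [this]
    exact Nat.le_add_right _ _
  have k1 : |Y - Y₁| ≤ S * (E / 2 ^ N) := by
    refine a2.trans ?_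
    rw [mul_div_assoc]
    exact mul_le_mul_of_nonneg_right g1 hEN
  have k2 : |Y₁ - Y₂| ≤ S * E' := b2.trans (mul_le_mul_of_nonneg_right g1 hE')
  have k3 : |r₁ * y₁ + r₂ * y₂| ≤ S * (E / 2 ^ p) := by
    refine (abs_add_le _ _).trans ?_
    have m1 := f1.trans (mul_le_mul_of_nonneg_right g2 hEp)
    have m2 := f2.trans (mul_le_mul_of_nonneg_right g3 hEp)
    linarith
  refine (abs_add_le _ _).trans ((add_le_add ((abs_add_le _ _).trans (add_le_add k1 k2)) k3).trans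
    (le_of_eq ?_))
  rw [← hS']
  ring

end Pool.NVX
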