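import Pool.Agent.H77.NV.S6
import Pool.Agent.H80.NTT.St

/-!
# S6 of `nv_t3` in the literal of `H80/NTT/St.lean`
-/

set_option autoImplicit false

namespace Pool.NVX

open Finset Real MvPolynomial
open Pool.Agent.H49.Ent Pool.Agent.H32.Dense Pool.STK Pool.KA Pool.KSAT Pool.K2S Pool.PB Pool.S6C
open Pool.GEN Pool.CHT

/-- The literal `S6T` holds. -/
theorem s6T (m D M : ℕ) : S6T m D M := by
  obtain ⟨C, C₁, hC₁, H⟩ := s6_conj m D M
  refine ⟨C, C₁, hC₁, ?_⟩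
  intro J F c a w w₂ e h h' n n' p q s x xX lam₁ lam₂ D' D₂ D₃ G g gN g₄ κ θ B₀ A B T T₄ TH NH v
    X ν₀ ξ al₂
  exact H

end Pool.NVX
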