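import Pool.Agent.H77.NV.Vis
import Pool.Agent.H87.NV.Alg2

/-!
# The Hessian of the closed label in the plane

`hes_bd`: the second derivatives of the closed label of the target in the direction `c 2` and in the
direction of the plane, in the direction `c 2` twice, and in the directions `c 2`, `v`, along the own
line. `hij`: the second derivatives in the directions of the coordinates, as polynomials of the time.
`con_id`: the quadratic relation of the slope.
-/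

set_option autoImplicit false

namespace Pool.NVX

open Finset Real MvPolynomial
open Pool.Agent.H49.Ent Pool.Agent.H32.Dense Pool.STK Pool.KA Pool.KSAT Pool.K2S Pool.PB Pool.S6C
open Pool.GEN Pool.CHT
open Pool.D2R (dd hs dd_add dd_smul dd_congr hs_add_right hs_add_left hs_smul_right hs_smul_left
  hs_comm)
open Pool.F5 (lp gp der_lp dd_gp deg_gp deg_lp eo bdS bdS_slam eval_lp eval_gp)
open Pool.SHR (dir mvp dvc Shr RelvH dir_deg dir_dep relvF_low)
open Pool.PB.Trl (rt rt_mem t_rt)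

variable {m J : ℕ}

/-- **The second derivatives of the closed label** of the target along the own line, at the node
`(a, a)`: the direction `c 2` with the plane, with itself and with `v`. -/
theorem hes_bd (D : ℕ) : ∃ C : ℕ, ∀ {m J : ℕ} {F : Fam m J} {c : ℕ → Fin m}
    {a n x : ℕ} {g : ℕ → ℕ} {M al : ℝ} {R : MvPolynomial (Option (Fin m)) ℝ}
    {T : PtT F → ℕ → MvPolynomial (Option (Fin m)) ℝ} {v : PtT F → Fin m → ℝ}
    {X : Option (Fin m) → ℝ} {ω : F.Ω}, Set.InjOn c (Set.Iio 3) →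
    (∀ y l, (T y l).totalDegree ≤ D) → (∀ y l, DepC c l (T y l)) →
    R.totalDegree ≤ D → DepC c 3 R → X none = 0 →
    v (ptr F J ω) (c 1) = 1 → v (ptr F J ω) (c 0) = 0 → Shr F c 1 a g T v x 2 ω →
    (∀ α β : ℝ, |α| ≤ 2 → |β| ≤ 2 → ∀ l < 3,
      |(bt F ω + α • vl F a ω + β • ((1 / 2 ^ g 0 : ℝ) • X)) (some (c l)) -
        eval (bt F ω + α • vl F a ω + β • ((1 / 2 ^ g 0 : ℝ) • X))
          (T (ptr F J ω) l)| ≤ 2 ^ n / 2 ^ g l) → 0 ≤ M →
    (∀ b, NBx c (T (ptr F J ω)) g a (F.t ω) 3 b → |eval b (dir (ek (c 2)) R) - al| ≤ M) →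
    ∀ t : ℝ, |t - F.t ω| ≤ 1 / 2 ^ a →
      |hs R (bt F ω + (t - F.t ω) • bd F ω) X (eo (some (c 2)))| ≤
        2 ^ (C * (n + x + 1)) * 2 ^ g 0 * M ∧
      |hs R (bt F ω + (t - F.t ω) • bd F ω) (eo (some (c 2))) (eo (some (c 2)))| ≤
        2 ^ (C * (n + x + 1)) * 2 ^ g 2 * M ∧
      |hs R (bt F ω + (t - F.t ω) • bd F ω) (dvc (v (ptr F J ω))) (eo (some (c 2)))| ≤
        2 ^ (C * (n + x + 1)) * 2 ^ g 1 * M := by
  classical
  obtain ⟨c₀, D₁, -, hdil⟩ := nbx_dil 4 (fun _ => D)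
  obtain ⟨cS, hslp⟩ := slp_all D 4
  obtain ⟨K, hK, hder⟩ := Pool.D2R.der_one D
  obtain ⟨c₁, hc₁⟩ := pow_unbounded_of_one_lt K (one_lt_two (α := ℝ))
  have pw : ∀ {x y : ℕ}, x ≤ y → (2 : ℝ) ^ x ≤ 2 ^ y := fun h => pow_le_pow_right₀ (by norm_num) h
  refine ⟨c₀ + D₁ + cS + c₁, ?_⟩
  intro m J F c a n x g M al R T v X ω hc hTd hTp hRd hRp hX0 hv1 hv0 hS hpl hM hbox t ht
  obtain ⟨T₀, hT₀⟩ : ∃ T₀, T₀ = n + x + 1 := ⟨_, rfl⟩
  have hT1 : 1 ≤ T₀ := by omega
  obtain ⟨C, hC⟩ : ∃ C, C = c₀ + D₁ + cS + c₁ := ⟨_, rfl⟩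
  rw [← hT₀, ← hC]
  have hCT : C * T₀ = c₀ * T₀ + D₁ * T₀ + cS * T₀ + c₁ * T₀ := by rw [hC]; ring
  have m0 : c₀ ≤ c₀ * T₀ := Nat.le_mul_of_pos_right _ hT1
  have m1 : n * D₁ ≤ D₁ * T₀ := by
    rw [Nat.mul_comm]
    exact Nat.mul_le_mul_left _ (by omega)
  have m2 : cS * (x + 1) ≤ cS * T₀ := Nat.mul_le_mul_left _ (by omega)
  have m2' : cS * (0 + 1) ≤ cS * T₀ := Nat.mul_le_mul_left _ (by omega)
  have m3 : c₁ ≤ c₁ * T₀ := Nat.le_mul_of_pos_right _ hT1
  -- the function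
  obtain ⟨Q, hQ⟩ : ∃ Q : MvPolynomial (Option (Fin m)) ℝ, Q = dir (ek (c 2)) R - MvPolynomial.C al := ⟨_, rfl⟩
  have hQe : ∀ b, eval b Q = eval b (dir (ek (c 2)) R) - al := fun b => by
    rw [hQ, map_sub, eval_C]
  have hQd : Q.totalDegree ≤ D := by
    rw [hQ]
    refine (totalDegree_sub _ _).trans (max_le (dir_deg _ hRd) ?_)
    rw [totalDegree_C]
    exact Nat.zero_le _
  have hQp : DepC c 3 Q := fun b b' hn hb => by
    rw [hQe, hQe, dir_dep _ hRp b b' hn hb]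
  have hQb : ∀ b, NBx c (T (ptr F J ω)) g a (F.t ω) 3 b → |eval b Q| ≤ M := fun b hb => by
    rw [hQe]
    exact hbox b hb
  have hddQ : ∀ x W : Option (Fin m) → ℝ, dd Q x W = hs R x W (eo (some (c 2))) := by
    intro x W
    rw [hQ, dd_subC, dd_dir, hs_v2 hc hRp]
  -- the point
  obtain ⟨y, hy⟩ : ∃ y, y = bt F ω + (t - F.t ω) • bd F ω := ⟨_, rfl⟩
  obtain ⟨α, hα⟩ : ∃ α, α = 2 ^ a * (t - F.t ω) := ⟨_, rfl⟩
  have hα1 : |α| ≤ 1 := by
    rw [hα, abs_mul, abs_of_pos (show (0 : ℝ) < 2 ^ a by positivity)]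
    calc (2 : ℝ) ^ a * |t - F.t ω| ≤ 2 ^ a * (1 / 2 ^ a) :=
          mul_le_mul_of_nonneg_left ht (by positivity)
      _ = 1 := by field_simp
  have hyα : y = bt F ω + α • vl F a ω := by
    rw [hy, hα]
    unfold vl
    rw [smul_smul]
    congr 2
    field_simp
  have hyn : y none = t := by
    rw [hy]
    show F.t ω + (t - F.t ω) * 1 = t
    ring
  rw [← hy]
  obtain ⟨U, hU⟩ : ∃ U : Option (Fin m) → ℝ, U = (1 / 2 ^ g 0 : ℝ) • X := ⟨_, rfl⟩
  have hU0 : U none = 0 := by rw [hU]; show 1 / 2 ^ g 0 * X none = 0; rw [hX0, mul_zero]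
  have hplβ : ∀ β : ℝ, |β| ≤ 1 → ∀ l < 3, |(y + β • U) (some (c l)) -
      eval (y + β • U) (T (ptr F J ω) l)| ≤ 2 ^ n / 2 ^ g l := by
    intro β hβ l hl
    rw [hyα, hU]
    exact hpl α β (by linarith) (by linarith) l hl
  have hnear : ∀ l < 3, |y (some (c l)) - eval y (T (ptr F J ω) l)| ≤ 2 ^ n / 2 ^ g l := by
    intro l hl
    have h1 := hplβ 0 (by simp) l hl
    rwa [zero_smul, add_zero] at h1
  have hdily : ∀ (P : MvPolynomial (Option (Fin m)) ℝ) (M' : ℝ), DepC c 3 P →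
      P.totalDegree ≤ D → 0 ≤ M' →
      (∀ b, NBx c (T (ptr F J ω)) g a (F.t ω) 3 b → |eval b P| ≤ M') →
      ∀ b : Option (Fin m) → ℝ, |b none - F.t ω| ≤ 1 / 2 ^ a →
      (∀ l < 3, |b (some (c l)) - eval b (T (ptr F J ω) l)| ≤ 2 ^ n / 2 ^ g l) →
      |eval b P| ≤ 2 ^ (c₀ + n * D₁) * M' := fun P M' h1 h2 h3 h4 b h5 h6 =>
    hdil (c := c) (i := 3) (G := T (ptr F J ω)) (Q := P) (g := g) (a := a) (t := F.t ω)
      (M := M') n (by norm_num) hc (hTd _) (hTp _) h1 h2 h3 h4 b h5 h6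
  refine ⟨?_, ?_, ?_⟩
  · -- the plane
    obtain ⟨f, hf⟩ : ∃ f : Polynomial ℝ, f = aeval (slin y U) Q := ⟨_, rfl⟩
    have hfd : f.natDegree ≤ D := by
      rw [hf]
      exact Pool.KBX.natDegree_aeval_le Q _ (slin_deg _ _) hQd
    have h1 := hder f (2 ^ (c₀ + n * D₁) * M) hfd (fun β hβ => by
      rw [hf, (slin_dd _ _ _ _).1]
      have hβ1 : |β| ≤ 1 := by rw [abs_of_nonneg hβ.1]; exact hβ.2
      refine hdily Q M hQp hQd hM hQb _ ?_ (hplβ β hβ1)
      show |y none + β * U none - F.t ω| ≤ _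
      rw [hU0, mul_zero, add_zero, hyn]
      exact ht) 0 (by simp)
    rw [hf, (slin_dd _ _ _ _).2.1, zero_smul, add_zero, hU, dd_smul, hddQ, abs_mul,
      abs_of_pos (show (0 : ℝ) < 1 / 2 ^ g 0 by positivity)] at h1
    have h2 : |hs R y X (eo (some (c 2)))| ≤ 2 ^ g 0 * (K * (2 ^ (c₀ + n * D₁) * M)) := by
      have h3 := mul_le_mul_of_nonneg_left h1 (show (0 : ℝ) ≤ 2 ^ g 0 by positivity)
      rwa [← mul_assoc, mul_one_div, div_self (by positivity), one_mul] at h3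
    refine h2.trans ?_
    have h4 : K * 2 ^ (c₀ + n * D₁) ≤ 2 ^ (C * T₀) := by
      calc K * 2 ^ (c₀ + n * D₁) ≤ 2 ^ c₁ * 2 ^ (c₀ + n * D₁) :=
            mul_le_mul_of_nonneg_right hc₁.le (by positivity)
        _ = 2 ^ (c₁ + (c₀ + n * D₁)) := by rw [← pow_add]
        _ ≤ _ := pw (by omega)
    calc 2 ^ g 0 * (K * (2 ^ (c₀ + n * D₁) * M)) = K * 2 ^ (c₀ + n * D₁) * (2 ^ g 0 * M) := by
          ring
      _ ≤ 2 ^ (C * T₀) * (2 ^ g 0 * M) := mul_le_mul_of_nonneg_right h4 (by positivity)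
      _ = _ := by ring
  · -- the direction `c 2`
    have h02 := c_ne hc (i := 0) (j := 2) (by norm_num) (by norm_num) (by norm_num)
    have h12 := c_ne hc (i := 1) (j := 2) (by norm_num) (by norm_num) (by norm_num)
    have h1 := hdily (dir (ek (c 2)) Q) (2 ^ (cS * (0 + 1)) * 2 ^ g 2 * M) (dir_dep _ hQp)
      (dir_deg _ hQd) (by positivity) (fun b hb =>
        hslp (c := c) (l := 2) (i := 3) (a := a) (y := 0) (g := g) (G := T)
          (v := fun _ => ek (c 2)) (ω := ω) (b := b) (by norm_num) hc hTd hTp hQp hQd hM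
          (ek_self _) (fun j hj => by
            have : j = 0 ∨ j = 1 := by omega
            rcases this with rfl | rfl
            · exact ek_ne h02
            · exact ek_ne h12) (fun j hj hlj => by omega) hb hQb) y (by rw [hyn]; exact ht) hnear
    rw [eval_dir, hddQ, hs_comm, hs_v2 hc hRp] at h1
    refine h1.trans ?_
    calc (2 : ℝ) ^ (c₀ + n * D₁) * (2 ^ (cS * (0 + 1)) * 2 ^ g 2 * M) =
          2 ^ (c₀ + n * D₁ + cS * (0 + 1)) * (2 ^ g 2 * M) := by rw [pow_add _ (c₀ + n * D₁)]; ring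
      _ ≤ 2 ^ (C * T₀) * (2 ^ g 2 * M) := mul_le_mul_of_nonneg_right (pw (by omega))
          (by positivity)
      _ = _ := by ring
  · -- the direction `v`
    have h1 := hdily (dir (v (ptr F J ω)) Q) (2 ^ (cS * (x + 1)) * 2 ^ g 1 * M) (dir_dep _ hQp)
      (dir_deg _ hQd) (by positivity) (fun b hb =>
        hslp (c := c) (l := 1) (i := 3) (a := a) (y := x) (g := g) (G := T) (v := v) (ω := ω)
          (b := b) (by norm_num) hc hTd hTp hQp hQd hM hv1 (fun j hj => by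
            have : j = 0 := by omega
            subst this
            exact hv0) (fun j hj hlj => by
            have : j = 2 := by omega
            subst this
            exact hS) hb hQb) y (by rw [hyn]; exact ht) hnear
    rw [eval_dir, hddQ] at h1
    refine h1.trans ?_
    calc (2 : ℝ) ^ (c₀ + n * D₁) * (2 ^ (cS * (x + 1)) * 2 ^ g 1 * M) =
          2 ^ (c₀ + n * D₁ + cS * (x + 1)) * (2 ^ g 1 * M) := by rw [pow_add _ (c₀ + n * D₁)]; ring
      _ ≤ 2 ^ (C * T₀) * (2 ^ g 1 * M) := mul_le_mul_of_nonneg_right (pw (by omega))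
          (by positivity)
      _ = _ := by ring

/-- **The second derivative in the directions `c i`, `c j`** along the line, as a polynomial of the
time. -/
noncomputable def hij {F : Fam m J} (c : ℕ → Fin m) (i j : ℕ) (P : MvPolynomial (Option (Fin m)) ℝ)
    (s : LnT F) : Polynomial ℝ :=
  lp (gp (gp P (eo (some (c j)))) (eo (some (c i)))) (x0S s) (bdS s)

theorem hij_eval (F : Fam m J) (w : ℕ) (ω : F.Ω) (c : ℕ → Fin m) (i j : ℕ)
    (P : MvPolynomial (Option (Fin m)) ℝ) (t : ℝ) :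
    (hij c i j P (slam F w ω)).eval t =
      hs P (bt F ω + (t - F.t ω) • bd F ω) (eo (some (c i))) (eo (some (c j))) := by
  unfold hij
  rw [eval_lp, pt_slam, eval_gp, dd_gp]

theorem hij_deg {F : Fam m J} {D : ℕ} (c : ℕ → Fin m) (i j : ℕ)
    {P : MvPolynomial (Option (Fin m)) ℝ} (hD : P.totalDegree ≤ D) (s : LnT F) :
    (hij c i j P s).natDegree ≤ D := deg_lp (deg_gp (deg_gp hD _) _) _ _

/-- **The quadratic relation of the slope**, the algebra. -/
theorem con_id {c : ℕ → Fin m} (hc : Set.InjOn c (Set.Iio 3))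
    {R : MvPolynomial (Option (Fin m)) ℝ} (hR : DepC c 3 R) {X : Option (Fin m) → ℝ}
    (hX0 : X none = 0) (hX1 : X (some (c 0)) = 1) (y : Option (Fin m) → ℝ) (P₀ P₁ P₂ x rel : ℝ)
    {H00 H01 H02 H11 H12 H22 al be ga : ℝ} (h00 : H00 = hs R y (eo (some (c 0))) (eo (some (c 0))))
    (h01 : H01 = hs R y (eo (some (c 0))) (eo (some (c 1))))
    (h02 : H02 = hs R y (eo (some (c 0))) (eo (some (c 2))))
    (h11 : H11 = hs R y (eo (some (c 1))) (eo (some (c 1))))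
    (h12 : H12 = hs R y (eo (some (c 1))) (eo (some (c 2))))
    (h22 : H22 = hs R y (eo (some (c 2))) (eo (some (c 2))))
    (hx : x = X (some (c 1))) (hrel : rel = P₀ + P₁ * x + P₂ * X (some (c 2)))
    (hal : al = P₂ ^ 2 * H00 - 2 * P₀ * P₂ * H02 + P₀ ^ 2 * H22)
    (hbe : be = P₂ ^ 2 * H01 - P₀ * P₂ * H12 - P₁ * P₂ * H02 + P₀ * P₁ * H22)
    (hga : ga = P₂ ^ 2 * H11 - 2 * P₁ * P₂ * H12 + P₁ ^ 2 * H22) :
    al + 2 * be * x + ga * x ^ 2 = P₂ ^ 2 * hs R y X X - 2 * P₂ * rel * hs R y X (eo (some (c 2))) +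
      rel ^ 2 * H22 ∧
    be + ga * x = P₂ * (P₂ * hs R y X (eo (some (c 1))) - P₁ * hs R y X (eo (some (c 2)))) -
      rel * (P₂ * H12 - P₁ * H22) := by
  have e0 : ∀ W, hs R y W X = hs R y W (eo (some (c 0))) + x * hs R y W (eo (some (c 1))) +
      X (some (c 2)) * hs R y W (eo (some (c 2))) := by
    intro W
    rw [hs_three hc hR hX0, hX1, ← hx]
    ring
  have e1 := e0 X
  have f0 : hs R y X (eo (some (c 0))) = H00 + x * H01 + X (some (c 2)) * H02 := by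
    rw [hs_comm, e0, h00, h01, h02]
  have f1 : hs R y X (eo (some (c 1))) = H01 + x * H11 + X (some (c 2)) * H12 := by
    rw [hs_comm, e0, h01, h11, h12, hs_comm R y (eo (some (c 1))) (eo (some (c 0)))]
  have f2 : hs R y X (eo (some (c 2))) = H02 + x * H12 + X (some (c 2)) * H22 := by
    rw [hs_comm, e0, h02, h12, h22, hs_comm R y (eo (some (c 2))) (eo (some (c 0))),
      hs_comm R y (eo (some (c 2))) (eo (some (c 1)))]
  rw [e1, f0, f1, f2, hal, hbe, hga, hrel]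
  constructor <;> ring

end Pool.NVX
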