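import Pool.Agent.H80.NV.Axl
import Pool.Agent.H80.NV.Pb
import Pool.Agent.H39.NV.Rem
import Pool.Agent.H87.GEN.Nod

/-!
# Two lines through one exact point

`shf_box`: the natural box is stable under the multiples of the difference of two points with the
same exact point. `shf_dd`: the derivatives along a line through the exact point, at the two points.
`slp_all`: the derivative in a direction of the shear. `vryv`: the variation along the line of the
derivative in a fixed direction.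
-/

set_option autoImplicit false

namespace Pool.NVX

open Finset Real MvPolynomial
open Pool.Agent.H49.Ent Pool.Agent.H32.Dense Pool.STK Pool.KA Pool.KSAT Pool.K2S Pool.PB Pool.S6C
open Pool.GEN Pool.CHT
open Pool.D2R (dd hs dd_add dd_smul dd_congr mv_seg der_one bt_near pd_zero)
open Pool.F5 (lp gp der_lp dd_gp deg_gp deg_lp eo bdS bdS_slam eval_lp eval_gp)
open Pool.SHR (dir mvp dvc Shr markov mvp_box dir_deg dir_dep)
open Pool.PB.Trl (rt rt_mem t_rt)

variable {m J : ℕ}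

theorem dir_gp (v : Fin m → ℝ) (P : MvPolynomial (Option (Fin m)) ℝ) : dir v P = gp P (dvc v) := by
  unfold Pool.SHR.dir Pool.F5.gp
  rw [Fintype.sum_option]
  have e1 : C (dvc v none) * pderiv none P = 0 := by
    show C (0 : ℝ) * _ = _
    rw [C_0, zero_mul]
  rw [e1, zero_add]
  rfl

theorem eval_dir (v : Fin m → ℝ) (P : MvPolynomial (Option (Fin m)) ℝ)
    (x : Option (Fin m) → ℝ) : eval x (dir v P) = dd P x (dvc v) := by
  rw [dir_gp, eval_gp]

theorem dd_dir (v : Fin m → ℝ) (P : MvPolynomial (Option (Fin m)) ℝ)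
    (x W : Option (Fin m) → ℝ) : dd (dir v P) x W = hs P x W (dvc v) := by
  rw [dir_gp, dd_gp]

theorem dd_C (x W : Option (Fin m) → ℝ) (r : ℝ) : dd (C r) x W = 0 := by
  unfold Pool.D2R.dd
  exact Finset.sum_eq_zero fun o _ => by rw [pderiv_C, map_zero, zero_mul]

/-- **The variation along the line** of the derivative in a fixed direction, inside one window. -/
theorem vryv {F : Fam m J} {a : ℕ} (haJ : a ≤ J) {ω ω' : F.Ω}
    (h : slam F a ω = slam F a ω') (P : MvPolynomial (Option (Fin m)) ℝ) (v : Fin m → ℝ) {K₀ : ℝ}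
    (hK : ∀ t : ℝ, F.t ω - rt F a ω / 2 ^ a ≤ t → t ≤ F.t ω + (1 - rt F a ω) / 2 ^ a →
      |hs P (bt F ω + (t - F.t ω) • bd F ω) (bd F ω) (dvc v)| ≤ K₀) :
    |eval (bt F ω) (dir v P) - eval (bt F ω') (dir v P)| ≤ K₀ / 2 ^ a := by
  obtain ⟨s, hsl⟩ : ∃ s, s = slam F a ω := ⟨_, rfl⟩
  obtain ⟨p, hp⟩ : ∃ p, p = lp (dir v P) (x0S s) (bdS s) := ⟨_, rfl⟩
  have hpe : ∀ ν, slam F a ν = s → p.eval (F.t ν) = eval (bt F ν) (dir v P) := by
    intro ν hν
    rw [hp, eval_lp, ← hν, pt_slam, sub_self, zero_smul, add_zero]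
  rw [← hpe ω hsl.symm, ← hpe ω' (by rw [hsl, h])]
  have a0 := t_rt F haJ ω
  have a1 := t_rt F haJ ω'
  have q0 := rt_mem F a ω
  have q1 := rt_mem F a ω'
  have e2 : ((slam F a ω).2.2 : ℝ) = (slam F a ω').2.2 := by rw [h]
  have h2a : (0 : ℝ) < 2 ^ a := by positivity
  have hint : ∀ t ∈ Set.uIcc (F.t ω') (F.t ω), |p.derivative.eval t| ≤ K₀ := by
    intro t ht
    have h3 := hK t
    have e3 : p.derivative.eval t =
        hs P (bt F ω + (t - F.t ω) • bd F ω) (bd F ω) (dvc v) := by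
      rw [hp, (der_lp _ _ _ t).1, hsl, pt_slam, bdS_slam, dd_dir]
    rw [e3]
    have hl : F.t ω - rt F a ω / 2 ^ a ≤ F.t ω' := by
      rw [a0, a1, e2, div_sub_div_same]
      exact div_le_div_of_nonneg_right (by linarith [q1.1]) h2a.le
    have hr : F.t ω' ≤ F.t ω + (1 - rt F a ω) / 2 ^ a := by
      rw [a0, a1, e2, ← add_div]
      exact div_le_div_of_nonneg_right (by linarith [q1.2]) h2a.le
    have hl' : F.t ω - rt F a ω / 2 ^ a ≤ F.t ω := by
      have : 0 ≤ rt F a ω / 2 ^ a := div_nonneg q0.1 h2a.le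
      linarith
    have hr' : F.t ω ≤ F.t ω + (1 - rt F a ω) / 2 ^ a := by
      have : 0 ≤ (1 - rt F a ω) / 2 ^ a := div_nonneg (by linarith [q0.2]) h2a.le
      linarith
    rw [Set.mem_uIcc] at ht
    rcases ht with ht | ht
    · exact h3 (hl.trans ht.1) (ht.2.trans hr')
    · exact h3 (hl'.trans ht.1) (ht.2.trans hr)
  have hK0 : 0 ≤ K₀ := (abs_nonneg _).trans (hint (F.t ω) Set.right_mem_uIcc)
  have hd : |F.t ω - F.t ω'| ≤ 1 / 2 ^ a := by
    rw [a0, a1, e2, div_sub_div_same, abs_div, abs_of_pos h2a]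
    refine div_le_div_of_nonneg_right ?_ h2a.le
    rw [abs_le]
    constructor <;> linarith [q0.1, q0.2, q1.1, q1.2]
  have hmv := Convex.norm_image_sub_le_of_norm_hasDerivWithin_le (𝕜 := ℝ) (f := fun t => p.eval t)
    (f' := fun t => p.derivative.eval t) (s := Set.uIcc (F.t ω') (F.t ω)) (C := K₀)
    (fun t _ => (p.hasDerivAt t).hasDerivWithinAt) (fun t ht => hint t ht) (convex_uIcc _ _)
    Set.left_mem_uIcc Set.right_mem_uIcc
  rw [Real.norm_eq_abs, Real.norm_eq_abs] at hmv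
  refine hmv.trans ?_
  rw [div_eq_mul_one_div]
  exact mul_le_mul_of_nonneg_left hd hK0

/-- **The derivative in a direction of the shear** of a polynomial which is bounded on the natural
box. -/
theorem slp_all (D r : ℕ) : ∃ C : ℕ, ∀ {m J : ℕ} {F : Fam m J} {c : ℕ → Fin m}
    {l i a y : ℕ} {g : ℕ → ℕ} {M : ℝ} {G : PtT F → ℕ → MvPolynomial (Option (Fin m)) ℝ}
    {v : PtT F → Fin m → ℝ} {P : MvPolynomial (Option (Fin m)) ℝ} {ω : F.Ω}
    {b : Option (Fin m) → ℝ}, i < r →
    Set.InjOn c (Set.Iio i) → (∀ y l, (G y l).totalDegree ≤ D) → (∀ y l, DepC c l (G y l)) →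
    DepC c i P → P.totalDegree ≤ D → 0 ≤ M →
    v (ptr F J ω) (c l) = 1 → (∀ j < l, v (ptr F J ω) (c j) = 0) →
    (∀ j < i, l < j → Shr F c l a g G v y j ω) → NBx c (G (ptr F J ω)) g a (F.t ω) i b →
    (∀ b, NBx c (G (ptr F J ω)) g a (F.t ω) i b → |eval b P| ≤ M) →
    |eval b (dir (v (ptr F J ω)) P)| ≤ 2 ^ (C * (y + 1)) * 2 ^ g l * M := by
  obtain ⟨c₀, D₁, hD₁, hdil⟩ := nbx_dil r (fun _ => D)
  obtain ⟨Cm, hC, hmar⟩ := markov D
  obtain ⟨c₁, hc₁⟩ := pow_unbounded_of_one_lt Cm (one_lt_two (α := ℝ))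
  refine ⟨c₁ + c₀ + D₁, ?_⟩
  intro m J F c l i a y g M G v P ω b hi hc hdeg hdep hPd hP hM h1 h0 hS hb hk
  refine (hmar (v (ptr F J ω)) b P (2 ^ (c₀ + (y + 1) * D₁) * M) (g l) hP
    (by positivity) fun s hs0 hs1 => ?_).trans ?_
  · have hs : |s| ≤ 1 / 2 ^ g l := by rw [abs_of_nonneg hs0]; exact hs1
    obtain ⟨m1, m2⟩ := mvp_box (fun j => hdep _ j) h0 h1 hb hs fun j hj hlj =>
      hS j hj hlj b (hb.mono le_rfl hj.le) s hs
    exact hdil (c := c) (i := i) (G := G (ptr F J ω)) (Q := P) (g := g) (a := a) (t := F.t ω)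
      (M := M) (y + 1) hi hc (hdeg _) (hdep _) hPd hP hM hk _ m1 m2
  · have h2 : Cm * 2 ^ (c₀ + (y + 1) * D₁) ≤ 2 ^ ((c₁ + c₀ + D₁) * (y + 1)) := by
      calc Cm * 2 ^ (c₀ + (y + 1) * D₁) ≤ 2 ^ c₁ * 2 ^ (c₀ + (y + 1) * D₁) :=
            mul_le_mul_of_nonneg_right hc₁.le (by positivity)
        _ = 2 ^ (c₁ + (c₀ + (y + 1) * D₁)) := by rw [← pow_add]
        _ ≤ _ := pow_le_pow_right₀ (by norm_num) (by
            have e1 : (c₁ + c₀ + D₁) * (y + 1) = c₁ + (c₀ + (y + 1) * D₁) + (c₁ + c₀) * y := by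
              ring
            rw [e1]
            exact Nat.le_add_right _ _)
    calc Cm * (2 ^ (c₀ + (y + 1) * D₁) * M) * 2 ^ g l =
          Cm * 2 ^ (c₀ + (y + 1) * D₁) * (2 ^ g l * M) := by ring
      _ ≤ 2 ^ ((c₁ + c₀ + D₁) * (y + 1)) * (2 ^ g l * M) :=
          mul_le_mul_of_nonneg_right h2 (by positivity)
      _ = _ := by ring

/-- **The natural box and the difference of two points** with the same exact point: the multiples up
to `2 ^ N`. -/
theorem shf_box (m D r : ℕ) : ∃ C : ℕ, ∀ {J : ℕ} {F : Fam m J} {c : ℕ → Fin m}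
    {a w e k N : ℕ} {g : ℕ → ℕ} {A : F.Ω → Prop}
    {G : PtT F → ℕ → MvPolynomial (Option (Fin m)) ℝ}
    {H : LnT F → ℕ → MvPolynomial (Option (Fin m)) ℝ}, Set.InjOn c (Set.Iio r) →
    ChOK F c r (fun _ => D) a w e g A G H →
    (∀ l < r, e + g l + N + C * (k + 1) ≤ J) → ∀ ω ν, A ω → ptr F J ω = ptr F J ν →
    ∀ b : Option (Fin m) → ℝ, |b none - F.t ω| ≤ 1 / 2 ^ a →
    (∀ l < r, |b (some (c l)) - eval b (G (ptr F J ω) l)| ≤ 2 ^ k / 2 ^ g l) →
    ∀ s : ℝ, |s| ≤ 2 ^ N → ∀ l < r, |(b + s • (bt F ω - bt F ν)) (some (c l)) -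
      eval (b + s • (bt F ω - bt F ν)) (G (ptr F J ω) l)| ≤ 2 ^ (k + 1) / 2 ^ g l := by
  classical
  obtain ⟨c₀, D₁, hD₁, hdil⟩ := nbx_dil (r + 1) (fun _ => D)
  refine ⟨c₀ + 2 * D₁ + m + 3, ?_⟩
  intro J F c a w e k N g A G H hc hch hJ ω ν hω hpt b hbn hb s hs
  obtain ⟨hT, htn, hx⟩ := bt_near hpt
  obtain ⟨δ, hδ⟩ : ∃ δ : Option (Fin m) → ℝ, δ = s • (bt F ω - bt F ν) := ⟨_, rfl⟩
  rw [← hδ]
  have hδ0 : δ none = 0 := by
    rw [hδ, Pi.smul_apply, Pi.sub_apply, htn, sub_self, smul_zero]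
  have hδj : ∀ j, |δ (some j)| ≤ 2 ^ N / 2 ^ J := by
    intro j
    rw [hδ, Pi.smul_apply, Pi.sub_apply, smul_eq_mul, abs_mul, div_eq_mul_one_div]
    exact mul_le_mul hs (hx j) (abs_nonneg _) (by positivity)
  have hGdeg := hch.degG (ptr F J ω)
  have hGdep := hch.depG (ptr F J ω)
  have key : ∀ l < r, ∀ u ∈ Set.Icc (0 : ℝ) 1, |b (some (c l)) + u * δ (some (c l)) -
      eval (fun o => b o + u * δ o) (G (ptr F J ω) l)| ≤ 2 ^ (k + 1) / 2 ^ g l := by
    intro l
    induction l using Nat.strong_induction_on with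
    | _ l ih =>
      intro hl u hu
      have h1 := hb l hl
      have h2 : |u * δ (some (c l))| ≤ 1 / 2 ^ (g l + 1) := by
        rw [abs_mul, abs_of_nonneg hu.1]
        calc u * |δ (some (c l))| ≤ 1 * (2 ^ N / 2 ^ J) :=
              mul_le_mul hu.2 (hδj _) (abs_nonneg _) (by norm_num)
          _ ≤ 1 / 2 ^ (g l + 1) := by
              rw [one_mul, div_le_div_iff₀ (by positivity) (by positivity), one_mul, ← pow_add]
              refine pow_le_pow_right₀ (by norm_num) ?_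
              have := hJ l hl
              have h3 : 1 ≤ (c₀ + 2 * D₁ + m + 3) * (k + 1) := by nlinarith
              omega
      have h3 : ∀ u ∈ Set.Icc (0 : ℝ) 1,
          |dd (G (ptr F J ω) l) (fun o => b o + u * δ o) δ| ≤ 1 / 2 ^ (g l + 1) := by
        intro u hu
        unfold Pool.D2R.dd
        refine (Finset.abs_sum_le_sum_abs _ _).trans ?_
        have h4 : ∀ o ∈ (Finset.univ : Finset (Option (Fin m))),
            |eval (fun o => b o + u * δ o) (pderiv o (G (ptr F J ω) l)) * δ o| ≤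
              1 / 2 ^ (g l + (m + 2)) := by
          intro o _
          have hpos : (0 : ℝ) ≤ 1 / 2 ^ (g l + (m + 2)) := by positivity
          cases o with
          | none =>
            rw [hδ0, mul_zero, abs_zero]
            exact hpos
          | some i =>
            by_cases hi : ∃ j < l, c j = i
            · obtain ⟨j, hj, rfl⟩ := hi
              have h5 := hdil (c := c) (i := l) (G := G (ptr F J ω))
                (Q := pderiv (some (c j)) (G (ptr F J ω) l)) (g := g) (a := a) (t := F.t ω)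
                (M := 2 ^ (e + nlp g j l)) (k + 1) (by omega)
                (hc.mono fun x hx => by rw [Set.mem_Iio] at hx ⊢; omega) hGdeg hGdep
                (DepC.pderiv (hGdep l) j) (totalDegree_pdσ (hGdeg l) _) (by positivity)
                (fun b' hb' => hch.lip ω hω l (by omega) b' hb' j hj)
                (fun o => b o + u * δ o) (by
                  show |b none + u * δ none - F.t ω| ≤ _
                  rw [hδ0, mul_zero, add_zero]
                  exact hbn) (fun i hi => ih i hi (by omega) u hu)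
              rw [abs_mul]
              refine (mul_le_mul h5 (hδj _) (abs_nonneg _) (by positivity)).trans ?_
              rw [← pow_add, ← mul_div_assoc, ← pow_add,
                div_le_div_iff₀ (by positivity) (by positivity), one_mul, ← pow_add]
              refine pow_le_pow_right₀ (by norm_num) ?_
              obtain ⟨i, hi1, hi2⟩ := Finset.exists_mem_eq_sup (Finset.Icc j l)
                ⟨j, Finset.mem_Icc.2 ⟨le_rfl, hj.le⟩⟩ g
              have hi3 := (Finset.mem_Icc.1 hi1).2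
              have h6 := hJ i (by omega)
              have h7 : nlp g j l = (Finset.Icc j l).sup g - g l := rfl
              have h8 : g l ≤ (Finset.Icc j l).sup g :=
                Finset.le_sup (f := g) (Finset.mem_Icc.2 ⟨hj.le, le_rfl⟩)
              rw [hi2] at h7 h8
              have h9 : c₀ + (k + 1) * D₁ + (m + 2) ≤ (c₀ + 2 * D₁ + m + 3) * (k + 1) := by
                have e1 : (c₀ + 2 * D₁ + m + 3) * (k + 1) =
                    c₀ + (k + 1) * D₁ + (m + 2) + (c₀ * k + (k + 1) * D₁ + m * k + 3 * k + 1) := by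
                  ring
                rw [e1]
                exact Nat.le_add_right _ _
              omega
            · rw [pd_zero (hGdep l) (fun j hj h' => hi ⟨j, hj, h'⟩), zero_mul, abs_zero]
              exact hpos
        refine (Finset.sum_le_sum h4).trans ?_
        rw [Finset.sum_const, Finset.card_univ, Fintype.card_option, Fintype.card_fin,
          nsmul_eq_mul, mul_one_div, div_le_div_iff₀ (by positivity) (by positivity), one_mul]
        have h5 : (((m + 1 : ℕ)) : ℝ) ≤ 2 ^ (m + 1) := by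
          have := Nat.lt_two_pow_self (n := m + 1)
          exact_mod_cast this.le
        calc ((m + 1 : ℕ) : ℝ) * 2 ^ (g l + 1) ≤ 2 ^ (m + 1) * 2 ^ (g l + 1) :=
              mul_le_mul_of_nonneg_right h5 (by positivity)
          _ = 2 ^ (g l + (m + 2)) := by
              rw [← pow_add]
              congr 1
              omega
      have h4 := mv_seg (G (ptr F J ω) l) b δ h3 u hu
      have e1 : b (some (c l)) + u * δ (some (c l)) -
          eval (fun o => b o + u * δ o) (G (ptr F J ω) l) =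
          (b (some (c l)) - eval b (G (ptr F J ω) l)) + u * δ (some (c l)) -
          (eval (fun o => b o + u * δ o) (G (ptr F J ω) l) - eval b (G (ptr F J ω) l)) := by
        ring
      rw [e1]
      refine (abs_sub _ _).trans ((add_le_add ((abs_add_le _ _).trans (add_le_add h1 h2))
        h4).trans ?_)
      have h6 : (1 : ℝ) ≤ 2 ^ k := one_le_pow₀ (by norm_num)
      have e2 : (1 : ℝ) / 2 ^ (g l + 1) = 1 / 2 / 2 ^ g l := by
        rw [pow_succ]
        field_simp
      rw [e2, ← add_div, ← add_div]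
      refine div_le_div_of_nonneg_right ?_ (by positivity)
      rw [pow_succ]
      linarith
  intro l hl
  have h1 := key l hl 1 ⟨zero_le_one, le_rfl⟩
  have e1 : (fun o => b o + 1 * δ o) = b + δ := by
    funext o
    rw [Pi.add_apply, one_mul]
  rw [e1, one_mul] at h1
  exact h1

/-- **The derivative along a line through the exact point**, at the own point and at the point of the
line. -/
theorem shf_dd (m D r : ℕ) : ∃ C : ℕ, ∀ {J : ℕ} {F : Fam m J} {c : ℕ → Fin m}
    {a w e n N : ℕ} {g : ℕ → ℕ} {M : ℝ} {A : F.Ω → Prop}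
    {G : PtT F → ℕ → MvPolynomial (Option (Fin m)) ℝ}
    {H : LnT F → ℕ → MvPolynomial (Option (Fin m)) ℝ} {Q : MvPolynomial (Option (Fin m)) ℝ},
    Set.InjOn c (Set.Iio r) → a ≤ J → ChOK F c r (fun _ => D) a w e g A G H →
    (∀ l < r, e + g l + N + C * (n + 1) ≤ J) → Pth F c r a n g A G → ∀ ω ν, A ω → A ν →
    ptr F J ω = ptr F J ν → DepC c r Q → Q.totalDegree ≤ D → 0 ≤ M →
    (∀ b, NBx c (G (ptr F J ω)) g a (F.t ω) r b → |eval b Q| ≤ M) →
    |dd Q (bt F ω) (vl F a ν)| ≤ 2 ^ (C * (n + 1)) * M ∧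
    |dd Q (bt F ν) (vl F a ν) - dd Q (bt F ω) (vl F a ν)| ≤ 2 ^ (C * (n + 1)) * M / 2 ^ N := by
  obtain ⟨c₂, hbx⟩ := shf_box m D r
  obtain ⟨c₀, D₁, hD₁, hdil⟩ := nbx_dil (r + 1) (fun _ => D)
  obtain ⟨C₃, hC₃, hder⟩ := der_one D
  obtain ⟨c₃, hc₃⟩ := pow_unbounded_of_one_lt C₃ (one_lt_two (α := ℝ))
  obtain ⟨C₄, hC₄, hlip⟩ := lip_four D
  obtain ⟨c₄, hc₄⟩ := pow_unbounded_of_one_lt C₄ (one_lt_two (α := ℝ))
  refine ⟨c₂ + c₀ + D₁ + c₃ + c₄, ?_⟩
  intro J F c a w e n N g M A G H Q hc haJ hch hJ hpth ω ν hω hν hpt hQ hQd hM hbox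
  obtain ⟨hT, htn, hx⟩ := bt_near hpt
  have htt : F.t ω = F.t ν := htn
  obtain ⟨M', hM'⟩ : ∃ M' : ℝ, M' = 2 ^ (c₀ + (n + 1) * D₁) * M := ⟨_, rfl⟩
  have hM'0 : 0 ≤ M' := by rw [hM']; positivity
  obtain ⟨δ, hδ⟩ : ∃ δ : Option (Fin m) → ℝ, δ = bt F ω - bt F ν := ⟨_, rfl⟩
  obtain ⟨V, hV⟩ : ∃ V, V = vl F a ν := ⟨_, rfl⟩
  obtain ⟨r₀, hr₀⟩ : ∃ r₀, r₀ = rt F a ν := ⟨_, rfl⟩
  have hr1 := rt_mem F a ν
  rw [← hr₀] at hr1
  -- the two parameters
  have hval : ∀ s : ℝ, |s| ≤ 2 ^ N → ∀ τ : ℝ, -r₀ ≤ τ → τ ≤ 1 - r₀ →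
      |eval (bt F ω + s • δ + τ • V) Q| ≤ M' := by
    intro s hs τ h1 h2
    have h3 : |τ| ≤ 1 := abs_le.2 ⟨by linarith [hr1.2], by linarith [hr1.1]⟩
    have h4 : |(bt F ω + τ • V) none - F.t ω| ≤ 1 / 2 ^ a := by
      rw [Pi.add_apply, Pi.smul_apply, hV, vl_none, smul_eq_mul]
      have e1 : bt F ω none + τ * (1 / 2 ^ a) - F.t ω = τ * (1 / 2 ^ a) := by
        show F.t ω + τ * (1 / 2 ^ a) - F.t ω = _
        ring
      rw [e1, abs_mul, abs_of_pos (show (0 : ℝ) < 1 / 2 ^ a by positivity)]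
      calc |τ| * (1 / 2 ^ a) ≤ 1 * (1 / 2 ^ a) := mul_le_mul_of_nonneg_right h3 (by positivity)
        _ = _ := one_mul _
    have h5 := hbx (c := c) (k := n) (N := N) hc hch (fun l hl => by
        have := hJ l hl
        have h6 : c₂ * (n + 1) ≤ (c₂ + c₀ + D₁ + c₃ + c₄) * (n + 1) :=
          Nat.mul_le_mul_right _ (by omega)
        omega) ω ν hω hpt (bt F ω + τ • V) h4 (fun l hl => by
        rw [hV]
        exact hpth ω ν hω hν hpt τ (by rw [← hr₀]; exact h1) (by rw [← hr₀]; exact h2) l hl) s hs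
    have e2 : bt F ω + s • δ + τ • V = bt F ω + τ • V + s • (bt F ω - bt F ν) := by
      rw [hδ]
      abel
    rw [e2, hM']
    refine hdil (c := c) (i := r) (G := G (ptr F J ω)) (Q := Q) (g := g) (a := a) (t := F.t ω)
      (M := M) (n + 1) (Nat.lt_succ_self r) hc (hch.degG _) (hch.depG _) hQ hQd hM hbox _ ?_ h5
    have e3 : (bt F ω + τ • V + s • (bt F ω - bt F ν)) none = (bt F ω + τ • V) none := by
      rw [Pi.add_apply, Pi.smul_apply, Pi.sub_apply, htn, sub_self, smul_zero, add_zero]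
    rw [e3]
    exact h4
  -- the derivative in the direction of the line
  have hdd : ∀ s : ℝ, |s| ≤ 2 ^ N → |dd Q (bt F ω + s • δ) V| ≤ C₃ * M' := by
    intro s hs
    obtain ⟨q, hq⟩ : ∃ q : Polynomial ℝ, q = lp Q (bt F ω + s • δ - r₀ • V) V := ⟨_, rfl⟩
    have hqe : ∀ t, q.eval t = eval (bt F ω + s • δ + (t - r₀) • V) Q := by
      intro t
      rw [hq, eval_lp]
      congr 1
      congr 1
      funext o
      simp only [Pi.add_apply, Pi.sub_apply, Pi.smul_apply, smul_eq_mul]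
      ring
    have h1 := hder q M' (by rw [hq]; exact deg_lp hQd _ _) (fun t ht => by
      rw [hqe]
      exact hval s hs _ (by linarith [ht.1]) (by linarith [ht.2])) r₀
      (abs_le.2 ⟨by linarith [hr1.1], hr1.2⟩)
    have h2 : q.derivative.eval r₀ = dd Q (bt F ω + s • δ) V := by
      rw [hq, (der_lp _ _ _ r₀).1]
      congr 1
      funext o
      simp only [Pi.add_apply, Pi.sub_apply, Pi.smul_apply, smul_eq_mul]
      ring
    rw [h2] at h1
    exact h1
  have hCM : C₃ * M' ≤ 2 ^ (c₃ + c₀ + (n + 1) * D₁) * M := by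
    rw [hM', show c₃ + c₀ + (n + 1) * D₁ = c₃ + (c₀ + (n + 1) * D₁) by ring, pow_add 2 c₃,
      mul_assoc (2 ^ c₃)]
    exact mul_le_mul_of_nonneg_right hc₃.le (by positivity)
  rw [← hV]
  constructor
  · have h1 := hdd 0 (by rw [abs_zero]; positivity)
    rw [zero_smul, add_zero] at h1
    refine (h1.trans hCM).trans (mul_le_mul_of_nonneg_right
      (pow_le_pow_right₀ (by norm_num) ?_) hM)
    have e1 : (c₂ + c₀ + D₁ + c₃ + c₄) * (n + 1) = c₃ + c₀ + (n + 1) * D₁ +
      (c₂ * (n + 1) + c₀ * n + c₃ * n + c₄ * (n + 1)) := by ring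
    rw [e1]
    exact Nat.le_add_right _ _
  · obtain ⟨q, hq⟩ : ∃ q : Polynomial ℝ, q = lp (gp Q V) (bt F ω) (((2 : ℝ) ^ N) • δ) :=
      ⟨_, rfl⟩
    have hqe : ∀ t, q.eval t = dd Q (bt F ω + (t * 2 ^ N) • δ) V := by
      intro t
      rw [hq, eval_lp, eval_gp]
      congr 1
      funext o
      simp only [Pi.add_apply, Pi.smul_apply, smul_eq_mul]
      ring
    have h1 := hlip q (C₃ * M') (by rw [hq]; exact deg_lp (deg_gp hQd _) _ _) (fun t ht => by
      rw [hqe]
      refine hdd _ ?_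
      rw [abs_mul, abs_of_nonneg ht.1, abs_of_pos (show (0 : ℝ) < 2 ^ N by positivity)]
      exact mul_le_of_le_one_left (by positivity) ht.2) (-(1 / 2 ^ N)) 0 (by
        rw [abs_neg, abs_of_pos (show (0 : ℝ) < 1 / 2 ^ N by positivity),
          div_le_iff₀ (by positivity)]
        have : (1 : ℝ) ≤ 2 ^ N := one_le_pow₀ (by norm_num)
        linarith) (by rw [abs_zero]; norm_num)
    rw [hqe, hqe] at h1
    have e1 : bt F ω + (-(1 / (2 : ℝ) ^ N) * 2 ^ N) • δ = bt F ν := by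
      have e2 : -(1 / (2 : ℝ) ^ N) * 2 ^ N = -1 := by field_simp
      rw [e2, hδ, neg_smul, one_smul]
      abel
    have e3 : bt F ω + ((0 : ℝ) * 2 ^ N) • δ = bt F ω := by
      rw [zero_mul, zero_smul, add_zero]
    rw [e1, e3, sub_zero, abs_neg, abs_of_pos (show (0 : ℝ) < 1 / 2 ^ N by positivity),
      mul_one_div] at h1
    refine h1.trans (div_le_div_of_nonneg_right ?_ (by positivity))
    calc C₄ * (C₃ * M') ≤ 2 ^ c₄ * (2 ^ (c₃ + c₀ + (n + 1) * D₁) * M) :=
          mul_le_mul hc₄.le hCM (by positivity) (by positivity)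
      _ = 2 ^ (c₄ + (c₃ + c₀ + (n + 1) * D₁)) * M := by rw [pow_add]; ring
      _ ≤ _ := by
          refine mul_le_mul_of_nonneg_right (pow_le_pow_right₀ (by norm_num) ?_) hM
          have e4 : (c₂ + c₀ + D₁ + c₃ + c₄) * (n + 1) = c₄ + (c₃ + c₀ + (n + 1) * D₁) +
            (c₂ * (n + 1) + c₀ * n + c₃ * n + c₄ * n) := by ring
          rw [e4]
          exact Nat.le_add_right _ _

end Pool.NVX
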