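import Pool.Agent.H77.NV.Rfin
import Pool.Agent.H77.NV.Dbx
import Pool.Agent.H80.NV.Ttw
import Pool.Agent.H39.NV.Sig

/-!
# No excess of the derivative of the label of `c 3` in the direction `c 2`, both `c 1`, `c 2` thin

`nv_tt`: the family theorem.
-/

set_option autoImplicit false

namespace Pool.NVX

open Finset Real MvPolynomial
open Pool.Agent.H49.Ent Pool.Agent.H32.Dense Pool.STK Pool.KA Pool.KSAT Pool.K2S Pool.PB Pool.S6C
open Pool.GEN Pool.CHT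
open Pool.D2R (dd hs dd_add dd_smul dd_congr hs_add_right hs_smul_right hs_smul_left)
open Pool.F5 (eo lp gp der_lp dd_gp deg_gp deg_lp bdS bdS_slam eval_lp eval_gp)
open Pool.SHR (dir mvp dvc Shr ShrY RelvH relvF_low)
open Pool.PB.Trl (rt rt_mem t_rt)
open Pool.FLF (Fam.sub)
open Pool.ISO (cwn cwn_slam chOK_win)

variable {m J : ℕ}

/-- **The mixed second derivative along the line**, in the direction of the line and in the direction
`e_k + q e_u`, `q` = the derivative of `Pu` in the direction `e_k` at the same point of the line. -/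
noncomputable def hcv {F : Fam m J} (k u : Fin m) (Pu P : MvPolynomial (Option (Fin m)) ℝ)
    (s : LnT F) : Polynomial ℝ :=
  hcl k P s + lp (gp Pu (eo (some k))) (x0S s) (bdS s) * hcl u P s

theorem hcv_eval (F : Fam m J) (w : ℕ) (ω : F.Ω) (k u : Fin m)
    (Pu P : MvPolynomial (Option (Fin m)) ℝ) (t : ℝ) :
    (hcv k u Pu P (slam F w ω)).eval t = (hcl k P (slam F w ω)).eval t +
      eval (bt F ω + (t - F.t ω) • bd F ω) (pderiv (some k) Pu) *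
        (hcl u P (slam F w ω)).eval t := by
  unfold hcv
  rw [Polynomial.eval_add, Polynomial.eval_mul, eval_lp, pt_slam, eval_gp, dd_eo]

theorem hcv_deg {F : Fam m J} {D : ℕ} (k u : Fin m) {Pu P : MvPolynomial (Option (Fin m)) ℝ}
    (hu : Pu.totalDegree ≤ D) (hP : P.totalDegree ≤ D) (s : LnT F) :
    (hcv k u Pu P s).natDegree ≤ 2 * D := by
  unfold hcv
  refine (Polynomial.natDegree_add_le _ _).trans (max_le ((hcl_deg k hP s).trans (by omega)) ?_)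
  refine Polynomial.natDegree_mul_le.trans ?_
  have h1 := hcl_deg u hP s
  have h2 := deg_lp (deg_gp hu (eo (some k))) (x0S s) (bdS s)
  omega

/-- The second derivative along the line in the direction `v`. -/
theorem hs_cv {c : ℕ → Fin m} (hc : Set.InjOn c (Set.Iio 3)) {F : Fam m J} (w : ℕ) (ω : F.Ω)
    {R : MvPolynomial (Option (Fin m)) ℝ} (hR : DepC c 3 R) {v : Fin m → ℝ} (hv1 : v (c 1) = 1)
    (hv0 : v (c 0) = 0) (t : ℝ) :
    hs R (bt F ω + (t - F.t ω) • bd F ω) (bd F ω) (dvc v) =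
      (hcl (c 1) R (slam F w ω)).eval t + v (c 2) * (hcl (c 2) R (slam F w ω)).eval t := by
  rw [hcl_dir hc 0 w ω hR hv1 hv0 t, dd_dir]
  have e1 : vl F 0 ω = (1 / 2 ^ 0 : ℝ) • bd F ω := rfl
  rw [e1, pow_zero, div_one, one_smul, one_mul]

/-- The second derivative along the line in the direction `c 2`. -/
theorem hs_ck {c : ℕ → Fin m} (hc : Set.InjOn c (Set.Iio 3)) {F : Fam m J} (w : ℕ) (ω : F.Ω)
    {R : MvPolynomial (Option (Fin m)) ℝ} (hR : DepC c 3 R) (t : ℝ) :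
    hs R (bt F ω + (t - F.t ω) • bd F ω) (bd F ω) (dvc (ek (c 2))) =
      (hcl (c 2) R (slam F w ω)).eval t := by
  rw [hcl_ek hc 0 w ω hR t, dd_dir]
  have e1 : vl F 0 ω = (1 / 2 ^ 0 : ℝ) • bd F ω := rfl
  rw [e1, pow_zero, div_one, one_smul, one_mul]

/-- **The family theorem for `c 0, c 1, c 2; c 3`, both `c 1` and `c 2` thin** (their sides at the
nodes `(a, w)` and `(a, a)` agree up to `s`): no excess of the derivative of the label of `c 3` in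
the direction `c 2` along the line. -/
theorem nv_tt (m D : ℕ) (hD : 1 ≤ D) : ∃ (C : ℕ) (C₁ : ℝ), 1 ≤ C₁ ∧
    ∀ {J : ℕ} {F : Fam m J} {c : ℕ → Fin m} {w a b a₃ e E h s lam₁ lam₂ D₂ : ℕ}
    {gN g gb g₃ Y : ℕ → ℕ} {κ θ : ℝ} {B₀ B : F.Ω → Prop}
    {N T Tb T₃ : PtT F → ℕ → MvPolynomial (Option (Fin m)) ℝ}
    {NH TH TbH T₃H : LnT F → ℕ → MvPolynomial (Option (Fin m)) ℝ},
    Set.InjOn c (Set.Iio 4) → w ≤ a → a ≤ b → b ≤ a₃ → a₃ ≤ J → 0 < Pe F.p B → Sub B B₀ →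
    ChOK F c 4 (fun _ => D) a w E gN B N NH →
    ChOK F c 3 (fun _ => D) a a e g B₀ T TH → RelvH F c 3 a a g Y D₂ h κ B₀ T →
    ChOK F c 3 (fun _ => D) b b e gb B₀ Tb TbH → RelvF F c 3 b b gb D₂ h κ B₀ Tb →
    ChOK F c 2 (fun _ => D) a₃ a₃ e g₃ B₀ T₃ T₃H →
    D + 2 ≤ D₂ → 0 ≤ κ → κ * 2 ^ C * Pe F.p B₀ ≤ Pe F.p B → κ * 2 ^ C ≤ 1 →
    (∀ (B' : F.Ω → Prop) (hB' : 0 < Pe F.p B'), Sub B' B → Pe F.p B ≤ 2 ^ C * Pe F.p B' →
      (Fam.sub F B' hB').Tm θ) → 0 ≤ θ → C₁ * (θ + 1) ≤ ((J : ℝ) - a₃) * Real.log 2 →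
    C₁ * (θ + 1) ≤ s → h ≤ s → (∀ l < 3, gN l ≤ g l + s) → (∀ l < 3, g l ≤ gN l + s) →
    g 0 ≤ g 1 + s → g 1 ≤ g 2 + s →
    (∀ j < 3, Y j ≤ J) → (∀ l < 4, e + E + gN l + C * (s + 1) ≤ J) →
    (∀ l < 3, 2 * e + E + g l + C * (s + 1) ≤ J) → (∀ l < 3, e + gb l + C * (s + 1) ≤ J) →
    (∀ l < 2, e + g₃ l + C * (s + 1) ≤ J) → C * (s + 1) ≤ gN 3 →
    -- the lower case: no excess for the label of `c 2` in the direction `c 1`
    (∀ ω, B ω → ∀ t : ℝ, F.t ω - rt F w ω / 2 ^ w ≤ t →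
      t ≤ F.t ω + (1 - rt F w ω) / 2 ^ w →
      |(hcl (c 1) (NH (slam F w ω) 2) (slam F w ω)).eval t| ≤ 2 ^ (a + g 1 + s) / 2 ^ g 2) →
    -- the direction `c 2`: the two-sided size
    (∀ ω, B ω → ∀ t : ℝ, F.t ω - rt F w ω / 2 ^ w ≤ t →
      t ≤ F.t ω + (1 - rt F w ω) / 2 ^ w →
      |(hcl (c 2) (NH (slam F w ω) 3) (slam F w ω)).eval t| ≤ 2 ^ (a + lam₂) / 2 ^ gN 3) →
    (∀ ω, B ω → ∃ t : ℝ, F.t ω - rt F w ω / 2 ^ w ≤ t ∧ t ≤ F.t ω + (1 - rt F w ω) / 2 ^ w ∧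
      2 ^ (a + lam₂) / 2 ^ gN 3 / 2 ^ s ≤
        |(hcl (c 2) (NH (slam F w ω) 3) (slam F w ω)).eval t|) →
    -- the direction `c 1`: the two-sided size, if it is large
    (∀ ω, B ω → ∀ t : ℝ, F.t ω - rt F w ω / 2 ^ w ≤ t →
      t ≤ F.t ω + (1 - rt F w ω) / 2 ^ w →
      |(hcv (c 1) (c 2) (NH (slam F w ω) 2) (NH (slam F w ω) 3) (slam F w ω)).eval t| ≤
        2 ^ (a + lam₁) / 2 ^ gN 3) →
    (g 1 < lam₁ → ∀ ω, B ω → ∃ t : ℝ, F.t ω - rt F w ω / 2 ^ w ≤ t ∧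
      t ≤ F.t ω + (1 - rt F w ω) / 2 ^ w ∧ 2 ^ (a + lam₁) / 2 ^ gN 3 / 2 ^ s ≤
        |(hcv (c 1) (c 2) (NH (slam F w ω) 2) (NH (slam F w ω) 3) (slam F w ω)).eval t|) →
    -- the numbers
    g 2 + C * (s + 1) ≤ lam₂ → w + C * (s + 1) ≤ a → g 2 + b + C * (s + 1) ≤ gb 2 + a →
    g 1 ≤ gb 1 → gb 1 + a₃ + C * (s + 1) ≤ g₃ 1 + a → False := by
  classical
  obtain ⟨cG, hsig⟩ := sig_ex D hD
  obtain ⟨cP, rP, hrP, hpth3⟩ := pth_fam m D 3
  obtain ⟨c₀, D₁, hD₁, hdil⟩ := nbx_dil 3 (fun _ => D)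
  obtain ⟨cD, hdbx⟩ := dirx_box D hD
  obtain ⟨cR, rR, hrR, hrel⟩ := rel_three m D hD
  obtain ⟨rL, hrL, hlow1⟩ := low_rem m D
  obtain ⟨rM, hrM, hlow2⟩ := low_rem m (2 * D)
  obtain ⟨cT, htt1⟩ := rel3_tt1 D hD
  obtain ⟨cF, hfin⟩ := rel3_fin m D hD
  have pw : ∀ {x y : ℕ}, x ≤ y → (2 : ℝ) ^ x ≤ 2 ^ y := fun h => pow_le_pow_right₀ (by norm_num) h
  -- the constants
  obtain ⟨k₁, hk₁⟩ : ∃ k, k = 2 * cG + 1 := ⟨_, rfl⟩
  obtain ⟨k₂, hk₂⟩ : ∃ k, k = c₀ + cP * D₁ + k₁ + 1 := ⟨_, rfl⟩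
  obtain ⟨kn, hkn⟩ : ∃ k, k = cR * (k₁ + 1) := ⟨_, rfl⟩
  obtain ⟨kx, hkx⟩ : ∃ k, k = cD * (k₁ + 2) + k₁ + 3 := ⟨_, rfl⟩
  obtain ⟨kB, hkB⟩ : ∃ k, k = 2 * kn + (k₂ + 4) + 1 + cT := ⟨_, rfl⟩
  obtain ⟨q₀, hq₀⟩ : ∃ k, k = kB + k₂ + 3 := ⟨_, rfl⟩
  obtain ⟨kq, hkq⟩ : ∃ k, k = q₀ + k₂ + 1 := ⟨_, rfl⟩
  obtain ⟨kA, hkA⟩ : ∃ k, k = cF * (kn + kx + kq + 2) := ⟨_, rfl⟩
  obtain ⟨kp, hkp⟩ : ∃ k, k = kA + kq + kB := ⟨_, rfl⟩
  obtain ⟨C, hC⟩ : ∃ C, C = cG + 2 * cD + cR + 4 + 2 * cG + cP + kn + 2 * kA + kp + kB + kx +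
      2 * cD * (k₁ + 2) + 30 := ⟨_, rfl⟩
  obtain ⟨C₁, hC₁⟩ : ∃ C₁, C₁ = rP + rR + rL + rM := ⟨_, rfl⟩
  refine ⟨C, C₁, by rw [hC₁]; linarith, ?_⟩
  intro J F c w a b a₃ e E h s lam₁ lam₂ D₂ gN g gb g₃ Y κ θ B₀ B N T Tb T₃ NH TH TbH T₃H hc hwa hab
    hb3 ha3J hPB hB hN hT hRH hTb hRb hT3 hDD hκ0 hκP hκ1 hTm hθ hθJ hθs hhs hgx hgx' g01 g12 hYJ
    hrN hrg hrb hr3 hgN3 hlc hup2 hlw2 hup1 hlw1 n1 n2 n3 n4 n5
  have haJ : a ≤ J := hab.trans (hb3.trans ha3J)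
  have hwJ : w ≤ J := hwa.trans haJ
  obtain ⟨T₀, hT₀⟩ : ∃ T₀, T₀ = s + 1 := ⟨_, rfl⟩
  have hT1 : 1 ≤ T₀ := by omega
  have hsT : s ≤ T₀ := by omega
  rw [← hT₀] at hrN hrg hrb hr3 hgN3 n1 n2 n3 n5
  have mT : ∀ y : ℕ, y ≤ y * T₀ := fun y => Nat.le_mul_of_pos_right _ hT1
  have hCT : cG * T₀ + 2 * (cD * T₀) + cR * T₀ + 4 * T₀ + 2 * (cG * T₀) + cP * T₀ + kn * T₀ +
      2 * (kA * T₀) + kp * T₀ + kB * T₀ + kx * T₀ + 2 * (cD * (k₁ + 2) * T₀) + 30 * T₀ =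
      C * T₀ := by rw [hC]; ring
  have hk1T : k₁ * T₀ = 2 * (cG * T₀) + T₀ := by rw [hk₁]; ring
  have hk2T : k₂ * T₀ = c₀ * T₀ + cP * D₁ * T₀ + k₁ * T₀ + T₀ := by rw [hk₂]; ring
  have hknT : kn * T₀ = cR * (k₁ * T₀) + cR * T₀ := by rw [hkn]; ring
  have hkxT : kx * T₀ = cD * (k₁ + 2) * T₀ + k₁ * T₀ + 3 * T₀ := by rw [hkx]; ring
  have hkBT : kB * T₀ = 2 * (kn * T₀) + k₂ * T₀ + 4 * T₀ + T₀ + cT * T₀ := by rw [hkB]; ring
  have hq0T : q₀ * T₀ = kB * T₀ + k₂ * T₀ + 3 * T₀ := by rw [hq₀]; ring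
  have hkqT : kq * T₀ = q₀ * T₀ + k₂ * T₀ + T₀ := by rw [hkq]; ring
  have hkpT : kp * T₀ = kA * T₀ + kq * T₀ + kB * T₀ := by rw [hkp]; ring
  have hc3 : Set.InjOn c (Set.Iio 3) := hc.mono fun x hx => by
    rw [Set.mem_Iio] at hx ⊢
    omega
  have hc2 : Set.InjOn c (Set.Iio 2) := hc.mono fun x hx => by
    rw [Set.mem_Iio] at hx ⊢
    omega
  -- the shares
  have h2C : (0 : ℝ) < 2 ^ C := by positivity
  have shr : ∀ (k : ℕ) (B' : F.Ω → Prop), k ≤ C → Pe F.p B / 2 ^ k ≤ Pe F.p B' →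
      0 < Pe F.p B' ∧ Pe F.p B ≤ 2 ^ C * Pe F.p B' := by
    intro k B' hk h1
    have h2 : (0 : ℝ) < 2 ^ k := by positivity
    refine ⟨(div_pos hPB h2).trans_le h1, ?_⟩
    rw [div_le_iff₀ h2] at h1
    calc Pe F.p B ≤ Pe F.p B' * 2 ^ k := h1
      _ ≤ Pe F.p B' * 2 ^ C := mul_le_mul_of_nonneg_left (pw hk) (Pe_nonneg F.isLaw B')
      _ = _ := mul_comm _ _
  have hκB : 0 ≤ κ * Pe F.p B₀ := mul_nonneg hκ0 (Pe_nonneg F.isLaw B₀)
  have shk : ∀ (k j : ℕ) (B' : F.Ω → Prop), k + j ≤ C → Pe F.p B / 2 ^ k ≤ Pe F.p B' →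
      κ * 2 ^ j * Pe F.p B₀ ≤ Pe F.p B' := by
    intro k j B' hk h1
    refine le_trans ?_ h1
    rw [le_div_iff₀ (by positivity)]
    refine le_trans ?_ hκP
    have e1 : (2 : ℝ) ^ j * 2 ^ k ≤ 2 ^ C := by
      rw [← pow_add]
      exact pw (by omega)
    calc κ * 2 ^ j * Pe F.p B₀ * 2 ^ k = κ * Pe F.p B₀ * (2 ^ j * 2 ^ k) := by ring
      _ ≤ κ * Pe F.p B₀ * 2 ^ C := mul_le_mul_of_nonneg_left e1 hκB
      _ = _ := by ring
  have cmps : ∀ (k k' : ℕ) (A A' : F.Ω → Prop), Pe F.p B / 2 ^ k ≤ Pe F.p A →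
      Pe F.p A / 2 ^ k' ≤ Pe F.p A' → Pe F.p B / 2 ^ (k + k') ≤ Pe F.p A' := by
    intro k k' A A' h1 h2
    refine le_trans ?_ h2
    rw [pow_add, ← div_div]
    exact div_le_div_of_nonneg_right h1 (by positivity)
  have half : ∀ (k : ℕ) (A A' : F.Ω → Prop), Pe F.p B / 2 ^ k ≤ Pe F.p A →
      Pe F.p A / 2 ≤ Pe F.p A' → Pe F.p B / 2 ^ (k + 1) ≤ Pe F.p A' := fun k A A' h1 h2 =>
    cmps k 1 A A' h1 (by rw [pow_one]; exact h2)
  have hlog : 0 ≤ Real.log 2 := Real.log_nonneg (by norm_num)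
  have hJa : ((J : ℝ) - a₃) * Real.log 2 ≤ ((J : ℝ) - a) * Real.log 2 := by
    refine mul_le_mul_of_nonneg_right ?_ hlog
    have : (a : ℝ) ≤ a₃ := by exact_mod_cast hab.trans hb3
    linarith
  have hJw : ((J : ℝ) - a₃) * Real.log 2 ≤ ((J : ℝ) - w) * Real.log 2 := by
    refine mul_le_mul_of_nonneg_right ?_ hlog
    have : (w : ℝ) ≤ a₃ := by exact_mod_cast hwa.trans (hab.trans hb3)
    linarith
  have hr0 : 0 ≤ θ + 1 := by linarith
  have hrP' : rP * (θ + 1) ≤ C₁ * (θ + 1) := mul_le_mul_of_nonneg_right (by rw [hC₁]; linarith) hr0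
  have hrR' : rR * (θ + 1) ≤ C₁ * (θ + 1) := mul_le_mul_of_nonneg_right (by rw [hC₁]; linarith) hr0
  have hrL' : rL * (θ + 1) ≤ C₁ * (θ + 1) := mul_le_mul_of_nonneg_right (by rw [hC₁]; linarith) hr0
  have hrM' : rM * (θ + 1) ≤ C₁ * (θ + 1) := mul_le_mul_of_nonneg_right (by rw [hC₁]; linarith) hr0
  -- the direction
  have hN1 : ChOK F c 3 (fun _ => D) a a (e + E) gN B N (cwn w a NH) :=
    chOK_win (hN.mono (by norm_num) (fun _ => le_rfl) le_rfl (Nat.le_add_left _ _)) hwa haJ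
  have hRH1 : RelvH F c 3 a a g Y D h κ B₀ T := relvH_mono hRH (by omega) le_rfl
  have hRF : RelvF F c 3 a a g D₂ h κ B₀ T := hRH.relv
  have hN2 : ∀ ω, cwn w a NH (slam F a ω) = NH (slam F w ω) := fun ω => by
    rw [cwn_slam hwa haJ]
  have hgs : cG * (h + s + 1) ≤ 2 * (cG * T₀) := by
    have : h + s + 1 ≤ 2 * T₀ := by omega
    calc cG * (h + s + 1) ≤ cG * (2 * T₀) := Nat.mul_le_mul_left _ this
      _ = _ := by ring
  obtain ⟨B₁, v, v', b1, p1, hv, hvf, hsl⟩ := hsig (a := a) (e := e) (E := e + E) (h := h)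
    (y := s) (Y := Y) hc3 haJ hB hκ0 (shk 0 cG B (by omega) (by rw [pow_zero, div_one])) hPB
    (hT.sub hB) hRH1 hN1 (hgx' 2 (by norm_num)) (fun l hl => hgx l (by omega)) hYJ
    (fun l hl => by
      have := hrg l hl
      omega) (fun ω ω' h1 h2 h3 => by
      rw [hN2]
      refine (vary hwa haJ h3 (NH (slam F w ω) 2) (c 1) (hlc ω h1)).trans (le_of_eq ?_)
      rw [show a + g 1 + s = a + (g 1 + s) by ring, pow_add 2 a]
      field_simp)
  obtain ⟨S₁, hS₁⟩ : ∃ S, S = k₁ * T₀ := ⟨_, rfl⟩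
  have hSs : s ≤ S₁ := by omega
  have hShr : ∀ ω, B₁ ω → Shr F c 1 a g T v S₁ 2 ω := fun ω hω =>
    Pool.SHR.shrY_iff.1 ((Pool.SHR.shrY_iff.2 (hsl ω hω).1).mono le_rfl (by omega))
  have hsl1 : ∀ ω, B₁ ω → ∀ b, NBx c (T (ptr F J ω)) g a (F.t ω) 2 b →
      |eval b (pderiv (some (c 1)) (T (ptr F J ω) 2)) - v (ptr F J ω) (c 2)| ≤
        2 ^ (S₁ + g 1) / 2 ^ g 2 ∧
      |eval b (pderiv (some (c 1)) (NH (slam F w ω) 2)) - v (ptr F J ω) (c 2)| ≤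
        2 ^ (S₁ + g 1) / 2 ^ g 2 := by
    intro ω hω b hb
    obtain ⟨h1, -, h3⟩ := (hsl ω hω).2 b hb
    rw [hN2] at h3
    exact ⟨h1.trans (div_le_div_of_nonneg_right (pw (by omega)) (by positivity)),
      h3.trans (div_le_div_of_nonneg_right (pw (by omega)) (by positivity))⟩
  -- the paths
  have s1 := shr cG B₁ (by omega) p1
  obtain ⟨B₂, b2, p2, hP2⟩ := hpth3 (x := s) (a := a) (e := e) (g := g) s1.1 hc3 haJ
    (hT.sub fun ω h => hB ω (b1 ω h)) (fun l hl => by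
      have := hrg l hl
      rw [← hT₀]
      omega) (hTm B₁ s1.1 b1 s1.2) hθ ((hrP'.trans hθJ).trans hJa) (hrP'.trans hθs)
  rw [← hT₀] at hP2
  have q2 := half cG B₁ B₂ p1 p2
  have sb2 : Sub B₂ B := fun ω h => b1 ω (b2 ω h)
  -- the slope on the line
  obtain ⟨n₂, hn₂⟩ : ∃ n₂, n₂ = k₂ * T₀ := ⟨_, rfl⟩
  have hslope : ∀ ω, B₂ ω → ∀ t : ℝ, F.t ω - rt F a ω / 2 ^ a ≤ t →
      t ≤ F.t ω + (1 - rt F a ω) / 2 ^ a →
      |eval (bt F ω + (t - F.t ω) • bd F ω) (pderiv (some (c 1)) (NH (slam F w ω) 2)) -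
        v (ptr F J ω) (c 2)| ≤ 2 ^ (n₂ + g 1) / 2 ^ g 2 := by
    intro ω hω t t1 t2
    have h2a : (0 : ℝ) < 2 ^ a := by positivity
    obtain ⟨s', hs'⟩ : ∃ s', s' = 2 ^ a * (t - F.t ω) := ⟨_, rfl⟩
    have u1 : -rt F a ω ≤ s' := by
      rw [hs']
      have : -(rt F a ω / 2 ^ a) ≤ t - F.t ω := by linarith
      calc -rt F a ω = 2 ^ a * -(rt F a ω / 2 ^ a) := by field_simp
        _ ≤ _ := mul_le_mul_of_nonneg_left this h2a.le
    have u2 : s' ≤ 1 - rt F a ω := by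
      rw [hs']
      have : t - F.t ω ≤ (1 - rt F a ω) / 2 ^ a := by linarith
      calc 2 ^ a * (t - F.t ω) ≤ 2 ^ a * ((1 - rt F a ω) / 2 ^ a) :=
            mul_le_mul_of_nonneg_left this h2a.le
        _ = _ := by field_simp
    have e1 : bt F ω + (t - F.t ω) • bd F ω = bt F ω + s' • vl F a ω := by
      have e2 : vl F a ω = (1 / 2 ^ a : ℝ) • bd F ω := rfl
      rw [e2, smul_smul, hs']
      congr 2
      field_simp
    rw [e1]
    have hrt := rt_mem F a ω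
    have e3 : |(bt F ω + s' • vl F a ω) none - F.t ω| ≤ 1 / 2 ^ a := by
      rw [Pi.add_apply, Pi.smul_apply, vl_none, smul_eq_mul]
      have e4 : bt F ω none + s' * (1 / 2 ^ a) - F.t ω = s' * (1 / 2 ^ a) := by
        show F.t ω + s' * (1 / 2 ^ a) - F.t ω = _
        ring
      rw [e4, abs_mul, abs_of_pos (show (0 : ℝ) < 1 / 2 ^ a by positivity)]
      have e5 : |s'| ≤ 1 := abs_le.2 ⟨by linarith [hrt.2], by linarith [hrt.1]⟩
      calc |s'| * (1 / 2 ^ a) ≤ 1 * (1 / 2 ^ a) := mul_le_mul_of_nonneg_right e5 (by positivity)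
        _ = _ := one_mul _
    have h1 := hdil (c := c) (i := 2) (G := T (ptr F J ω))
      (Q := pderiv (some (c 1)) (NH (slam F w ω) 2) - MvPolynomial.C (v (ptr F J ω) (c 2))) (g := g) (a := a)
      (t := F.t ω) (M := 2 ^ (S₁ + g 1) / 2 ^ g 2) (cP * T₀) (by norm_num) hc2 (hT.degG _)
      (hT.depG _) (fun b b' hn hb => by
        rw [map_sub, map_sub, eval_C, eval_C, DepC.pderiv (hN.depH (slam F w ω) 2) 1 b b' hn hb])
      ((totalDegree_sub _ _).trans (max_le (totalDegree_pdσ (hN.degH _ 2) _) (by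
        rw [totalDegree_C]
        exact Nat.zero_le _))) (by positivity) (fun b hb => by
        rw [map_sub, eval_C]
        exact (hsl1 ω (b2 ω hω) b hb).2) (bt F ω + s' • vl F a ω) e3
      (fun l hl => hP2 ω ω hω hω rfl s' u1 u2 l (by omega))
    rw [map_sub, eval_C] at h1
    refine h1.trans ?_
    rw [← mul_div_assoc, ← pow_add]
    refine div_le_div_of_nonneg_right (pw ?_) (by positivity)
    have e6 : cP * T₀ * D₁ = cP * D₁ * T₀ := by ring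
    have := mT c₀
    omega
  -- the second derivative in the direction `v`
  have hg2l : g 2 ≤ lam₂ := by omega
  obtain ⟨z, hz⟩ : ∃ z, z + g 2 = lam₂ + g 1 := ⟨lam₂ + g 1 - g 2, by omega⟩
  obtain ⟨L₁, hL₁⟩ : ∃ L₁, L₁ = max lam₁ z := ⟨_, rfl⟩
  have hL1a : lam₁ ≤ L₁ := by rw [hL₁]; exact le_max_left _ _
  have hL1z : z ≤ L₁ := by rw [hL₁]; exact le_max_right _ _
  obtain ⟨lam', hlam'⟩ : ∃ l, l = L₁ + n₂ + 1 := ⟨_, rfl⟩
  have hdev : ∀ ω, B₂ ω → ∀ t : ℝ, F.t ω - rt F a ω / 2 ^ a ≤ t →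
      t ≤ F.t ω + (1 - rt F a ω) / 2 ^ a →
      |((hcl (c 1) (NH (slam F w ω) 3) (slam F w ω)).eval t +
        v (ptr F J ω) (c 2) * (hcl (c 2) (NH (slam F w ω) 3) (slam F w ω)).eval t) -
        (hcv (c 1) (c 2) (NH (slam F w ω) 2) (NH (slam F w ω) 3) (slam F w ω)).eval t| ≤
        2 ^ (a + n₂ + z) / 2 ^ gN 3 := by
    intro ω hω t t1 t2
    obtain ⟨w1, w2⟩ := win_sub hwa haJ ω t1 t2
    have k1 := hup2 ω (sb2 ω hω) t w1 w2
    have k2 := hslope ω hω t t1 t2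
    rw [hcv_eval]
    have e1 : ((hcl (c 1) (NH (slam F w ω) 3) (slam F w ω)).eval t +
        v (ptr F J ω) (c 2) * (hcl (c 2) (NH (slam F w ω) 3) (slam F w ω)).eval t) -
        ((hcl (c 1) (NH (slam F w ω) 3) (slam F w ω)).eval t +
        eval (bt F ω + (t - F.t ω) • bd F ω) (pderiv (some (c 1)) (NH (slam F w ω) 2)) *
          (hcl (c 2) (NH (slam F w ω) 3) (slam F w ω)).eval t) =
        -(eval (bt F ω + (t - F.t ω) • bd F ω) (pderiv (some (c 1)) (NH (slam F w ω) 2)) -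
          v (ptr F J ω) (c 2)) * (hcl (c 2) (NH (slam F w ω) 3) (slam F w ω)).eval t := by ring
    rw [e1, abs_mul, abs_neg]
    refine (mul_le_mul k2 k1 (abs_nonneg _) (by positivity)).trans (le_of_eq ?_)
    rw [div_mul_div_comm, div_eq_div_iff (by positivity) (by positivity), ← pow_add, ← pow_add,
      ← pow_add, ← pow_add]
    congr 1
    omega
  have hCv : ∀ ω, B₂ ω → ∀ t : ℝ, F.t ω - rt F a ω / 2 ^ a ≤ t →
      t ≤ F.t ω + (1 - rt F a ω) / 2 ^ a →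
      |(hcl (c 1) (NH (slam F w ω) 3) (slam F w ω)).eval t +
        v (ptr F J ω) (c 2) * (hcl (c 2) (NH (slam F w ω) 3) (slam F w ω)).eval t| ≤
        2 ^ (a + lam') / 2 ^ gN 3 := by
    intro ω hω t t1 t2
    obtain ⟨w1, w2⟩ := win_sub hwa haJ ω t1 t2
    have k1 := hup1 ω (sb2 ω hω) t w1 w2
    have k2 := hdev ω hω t t1 t2
    have k3 : (2 : ℝ) ^ (a + lam₁) / 2 ^ gN 3 ≤ 2 ^ (a + (L₁ + n₂)) / 2 ^ gN 3 :=
      div_le_div_of_nonneg_right (pw (by omega)) (by positivity)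
    have k4 : (2 : ℝ) ^ (a + n₂ + z) / 2 ^ gN 3 ≤ 2 ^ (a + (L₁ + n₂)) / 2 ^ gN 3 :=
      div_le_div_of_nonneg_right (pw (by omega)) (by positivity)
    have e1 : (2 : ℝ) ^ (a + lam') / 2 ^ gN 3 = 2 ^ (a + (L₁ + n₂)) / 2 ^ gN 3 +
        2 ^ (a + (L₁ + n₂)) / 2 ^ gN 3 := by
      rw [hlam', show a + (L₁ + n₂ + 1) = a + (L₁ + n₂) + 1 by ring, pow_succ]
      ring
    rw [e1]
    rw [abs_le] at k1 k2 ⊢
    constructor <;> linarith [k1.1, k1.2, k2.1, k2.2]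
  have hCk : ∀ ω, B₂ ω → ∀ t : ℝ, F.t ω - rt F a ω / 2 ^ a ≤ t →
      t ≤ F.t ω + (1 - rt F a ω) / 2 ^ a →
      |(hcl (c 2) (NH (slam F w ω) 3) (slam F w ω)).eval t| ≤ 2 ^ (a + lam₂) / 2 ^ gN 3 := by
    intro ω hω t t1 t2
    obtain ⟨w1, w2⟩ := win_sub hwa haJ ω t1 t2
    exact hup2 ω (sb2 ω hω) t w1 w2
  -- the boxes
  have hB2 : Sub B₂ B₀ := fun ω h => hB ω (sb2 ω h)
  have h02 := c_ne hc3 (i := 0) (j := 2) (by norm_num) (by norm_num) (by norm_num)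
  have h12 := c_ne hc3 (i := 1) (j := 2) (by norm_num) (by norm_num) (by norm_num)
  obtain ⟨B₃, al₁, b3, p3, hbx1⟩ := hdbx (l := 1) (a := a) (w := w) (e := e) (E := E) (h := h)
    (s := s) (y := S₁) (D₂ := D₂) (K₀ := 2 ^ (a + lam') / 2 ^ gN 3) (v := v) (v' := v')
    (by norm_num) hc hwa haJ hB2 (hN.sub sb2) hT hRH (by omega) hκ0
    (shk (cG + 1) cD B₂ (by omega) q2) (by positivity) hhs hgx hYJ (fun l hl => by
      have := hrN l hl
      rw [← hT₀]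
      omega) (fun l hl => by
      have := hrg l hl
      rw [← hT₀]
      omega) (by rw [← hT₀]; omega) (fun ω h => hv ω (b2 ω h)) (fun ω h => ⟨(hvf _).1,
      fun j hj => by
        have : j = 0 := by omega
        subst this
        exact (hvf _).2.1⟩) (fun ω h j hj hlj => by
      have : j = 2 := by omega
      subst this
      exact hShr ω (b2 ω h)) (fun ω h t t1 t2 => by
      rw [hs_cv hc3 w ω (hN.depH _ 3) (hvf _).1 (hvf _).2.1]
      exact hCv ω h t t1 t2)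
  have q3 := cmps _ cD B₂ B₃ q2 p3
  have sb3 : Sub B₃ B := fun ω h => sb2 ω (b3 ω h)
  obtain ⟨B₄, al₂, b4, p4, hbx2⟩ := hdbx (l := 2) (a := a) (w := w) (e := e) (E := E) (h := h)
    (s := s) (y := 0) (D₂ := D₂) (K₀ := 2 ^ (a + lam₂) / 2 ^ gN 3) (v := fun _ => ek (c 2))
    (v' := fun _ => ek (c 2))
    (by norm_num) hc hwa haJ (fun ω h => hB ω (sb3 ω h)) (hN.sub sb3) hT hRH (by omega) hκ0
    (shk (cG + 1 + cD) cD B₃ (by omega) q3) (by positivity) hhs hgx hYJ (fun l hl => by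
      have := hrN l hl
      rw [← hT₀]
      omega) (fun l hl => by
      have := hrg l hl
      rw [← hT₀]
      omega) (by rw [← hT₀]; omega) (fun _ _ => rfl) (fun ω h => ⟨ek_self _,
      fun j hj => by
        have : j = 0 ∨ j = 1 := by omega
        rcases this with rfl | rfl
        · exact ek_ne h02
        · exact ek_ne h12⟩) (fun ω h j hj hlj => by omega) (fun ω h t t1 t2 => by
      rw [hs_ck hc3 w ω (hN.depH _ 3)]
      exact hCk ω (b3 ω h) t t1 t2)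
  have q4 := cmps _ cD B₃ B₄ q3 p4
  have sb4 : Sub B₄ B := fun ω h => sb3 ω (b4 ω h)
  have b42 : Sub B₄ B₂ := fun ω h => b3 ω (b4 ω h)
  have b41 : Sub B₄ B₁ := fun ω h => b2 ω (b42 ω h)
  have s4 := shr (cG + 1 + cD + cD) B₄ (by omega) q4
  -- the relation
  obtain ⟨n, hn⟩ : ∃ n, n = cR * (S₁ + 1) := ⟨_, rfl⟩
  have hnT : n ≤ kn * T₀ := by
    have e1 : cR * (S₁ + 1) = cR * S₁ + cR := by ring
    have := mT cR
    rw [← hS₁] at hknT
    omega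
  obtain ⟨p, hp⟩ : ∃ p, p = kp * T₀ := ⟨_, rfl⟩
  obtain ⟨A, B₅, X, ν₀, b5, b5', p5, hRel⟩ := hrel (a := a) (w := w) (w₂ := a) (a₂ := b)
    (a₃ := a₃) (e := e) (E := E) (h := h) (s := S₁) (p := p) (lam₁ := lam') (lam₂ := lam₂)
    (gN := gN) (g := g) (g₂ := gb) (g₃ := g₃) (g₄ := g) (Y := Y) (κ := κ) (θ := θ) (B₀ := B₀)
    (B := B₄) (N := N) (T := T) (T₂ := Tb) (T₃ := T₃) (T₄ := T) (NH := NH) (v := v) (v' := v')
    hc hwa le_rfl hab hb3 ha3J s4.1 (fun ω h => hB ω (sb4 ω h)) (hN.sub sb4) hT hRH1 hTb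
    (hRb.mono (by omega) le_rfl) hT3 hT hκ0 (shk _ cR B₄ (by omega) q4) (by
      refine le_trans (mul_le_mul_of_nonneg_left (pw (by omega)) hκ0) hκ1)
    (fun B' hB' h1 h2 => by
      refine hTm B' hB' (fun ω h => sb4 ω (h1 ω h)) ?_
      have h3 := q4
      rw [div_le_iff₀ (by positivity)] at h3
      have h4 : Pe F.p B₄ * 2 ^ (cG + 1 + cD + cD) ≤
          2 ^ cR * Pe F.p B' * 2 ^ (cG + 1 + cD + cD) :=
        mul_le_mul_of_nonneg_right h2 (by positivity)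
      refine h3.trans (h4.trans ?_)
      have e1 : (2 : ℝ) ^ cR * Pe F.p B' * 2 ^ (cG + 1 + cD + cD) =
          2 ^ (cR + (cG + 1 + cD + cD)) * Pe F.p B' := by rw [pow_add 2 cR]; ring
      rw [e1]
      exact mul_le_mul_of_nonneg_right (pw (by omega)) (Pe_nonneg F.isLaw B')) hθ
    (hrR'.trans hθJ) ((hrR'.trans hθs).trans (by exact_mod_cast hSs)) (hhs.trans hSs)
    (fun l hl => (hgx l hl).trans (by omega)) hYJ (fun l hl => by
      have := hrN l hl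
      omega) (fun l hl => by
      have := hrg l hl
      omega) (fun l hl => by
      have := hrb l hl
      omega) (fun l hl => by
      have := hr3 l hl
      omega) (fun l hl => by
      have := hrg l hl
      omega) (by omega) (fun ω h => hv ω (b41 ω h)) (fun ω h => ⟨(hvf _).2.1, (hvf _).1⟩)
    (fun ω h => Pool.SHR.shrY_iff.2 (hShr ω (b41 ω h))) (fun ω h => hCv ω (b42 ω h))
    (fun ω h => hCk ω (b42 ω h)) (by omega) (by omega) (by omega)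
  rw [← hn] at hRel
  have q5 := cmps _ cR B₄ B₅ q4 p5
  have sA4 : Sub A B₄ := b5
  have sb5 : Sub B₅ B := fun ω h => sb4 ω (b5 ω (b5' ω h))
  have s5 := shr (cG + 1 + cD + cD + cR) B₅ (by omega) q5
  have sA0 : Sub A B₀ := fun ω h => hB ω (sb4 ω (b5 ω h))
  have b54 : Sub B₅ B₄ := fun ω h => b5 ω (b5' ω h)
  rcases le_or_gt (lam₁ + g 2) (lam₂ + g 1 + q₀ * T₀) with hcase | hcase
  · -- the second derivative in the direction `v` is not large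
    obtain ⟨P₂, hP₂⟩ : ∃ P₂ : LnT F → Polynomial ℝ, P₂ = fun s => hcl (c 2) (NH s 3) s :=
      ⟨_, rfl⟩
    obtain ⟨B₆, b6, p6, hlo⟩ := hlow1 (w := w) (s := s) s5.1 P₂
      (fun _ => 2 ^ (a + lam₂) / 2 ^ gN 3 / 2 ^ s) hwJ
      (fun s => by rw [hP₂]; exact hcl_deg _ (hN.degH s 3) s) (hTm B₅ s5.1 sb5 s5.2) hθ
      ((hrL'.trans hθJ).trans hJw) (hrL'.trans hθs) (fun ω hω => by
        obtain ⟨t, t1, t2, t3⟩ := hlw2 ω (sb5 ω hω)
        exact ⟨by positivity, t, t1, t2, by rw [hP₂]; exact t3⟩)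
    have q6 := half _ B₅ B₆ q5 p6
    have s6 := shr _ B₆ (by omega) q6
    obtain ⟨x, hx⟩ : ∃ x, x = kx * T₀ := ⟨_, rfl⟩
    obtain ⟨q, hq⟩ : ∃ q, q = kq * T₀ := ⟨_, rfl⟩
    have hsp : (2 : ℝ) ^ (S₁ + g 1) / 2 ^ g 2 ≤ 2 ^ x * 2 ^ g 1 / 2 ^ g 2 := by
      rw [← pow_add]
      exact div_le_div_of_nonneg_right (pw (by omega)) (by positivity)
    obtain ⟨W, hW⟩ : ∃ W : ℝ, W = 2 ^ (g 1 + lam₂) / 2 ^ (g 2 + gN 3) := ⟨_, rfl⟩
    have hW0 : 0 < W := by rw [hW]; positivity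
    have tD : cD * (s + S₁ + 1) + 1 ≤ x := by
      have e1 : cD * (s + S₁ + 1) ≤ cD * (k₁ + 2) * T₀ := by
        rw [Nat.mul_assoc]
        refine Nat.mul_le_mul_left _ ?_
        rw [Nat.add_mul, ← hS₁]
        omega
      omega
    have tD' : cD * (s + 0 + 1) + 1 ≤ x := by
      have e1 : cD * (s + 0 + 1) ≤ cD * (s + S₁ + 1) := Nat.mul_le_mul_left _ (by omega)
      omega
    refine hfin (a := a) (w := w) (e := e) (n := n) (p := p) (lam₁ := lam') (lam₂ := lam₂)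
      (D₂ := D₂) (h := h) (x := x) (q := q) (K := kA * T₀) (g := g) (gN := gN) (κ := κ)
      (B₀ := B₀) (A := A) (B := B₆) (N := N) (T := T) (NH := NH) (TH := TH) (v := v) (v' := v')
      (X := X) (ν₀ := ν₀) (al₁ := al₁) (al₂ := al₂) (hRel.sub b6) hwa haJ hc3 hRF hDD hT sA0
      (fun ω h => b5' ω (b6 ω h)) hκ0 ?_ s6.1 (fun s => hN.degH s 3) (fun s => hN.depH s 3)
      (fun ω h => hv ω (b41 ω (b54 ω (b6 ω h)))) hvf
      (fun ω h => Pool.SHR.shrY_iff.1 ((Pool.SHR.shrY_iff.2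
        (hShr ω (b41 ω (sA4 ω h)))).mono le_rfl (by omega)))
      (fun ω h b hb => (hsl1 ω (b41 ω (sA4 ω h)) b hb).1.trans hsp) (fun ω h b hb => ?_)
      (fun ω h => ?_) (fun ω h => hup2 ω (sb5 ω (b6 ω h))) (fun ω h => ?_) (by omega) (by omega)
      ?_ (by omega) (by omega) (by omega) ?_ (fun l hl => by
        have := hrg l hl
        omega)
    · have h1 := shk _ 2 B₆ (by omega) q6
      refine le_trans (le_of_eq ?_) h1
      ring
    · obtain ⟨h1, h2⟩ := hbx1 ω (b4 ω (sA4 ω h)) b hb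
      obtain ⟨h3, -⟩ := hbx2 ω (sA4 ω h) b hb
      rw [← hW]
      have e1 : (2 : ℝ) ^ (a + lam') / 2 ^ gN 3 / 2 ^ a = 2 ^ lam' / 2 ^ gN 3 := by
        rw [pow_add]
        field_simp
      have e2 : (2 : ℝ) ^ (a + lam₂) / 2 ^ gN 3 / 2 ^ a = 2 ^ lam₂ / 2 ^ gN 3 := by
        rw [pow_add]
        field_simp
      rw [e1] at h1
      rw [e2] at h3
      refine ⟨h1.trans ?_, h3.trans ?_, h2.trans (div_le_div_of_nonneg_right (pw (by omega))
        (by positivity))⟩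
      · have f1 : (2 : ℝ) ^ g 1 / 2 ^ gN 3 ≤ 2 ^ q * W := by
          rw [hW, ← mul_div_assoc, ← pow_add, div_le_div_iff₀ (by positivity) (by positivity),
            ← pow_add, ← pow_add]
          exact pw (by omega)
        have f2 : (2 : ℝ) ^ lam' / 2 ^ gN 3 ≤ 2 ^ q * W := by
          rw [hW, ← mul_div_assoc, ← pow_add, div_le_div_iff₀ (by positivity) (by positivity),
            ← pow_add, ← pow_add]
          refine pw ?_
          have : L₁ + g 2 ≤ lam₂ + g 1 + q₀ * T₀ := by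
            rw [hL₁]
            rcases le_total lam₁ z with h4 | h4
            · rw [max_eq_right h4]
              omega
            · rw [max_eq_left h4]
              omega
          omega
        calc (2 : ℝ) ^ (cD * (s + S₁ + 1)) * (2 ^ g 1 / 2 ^ gN 3 + 2 ^ lam' / 2 ^ gN 3) ≤
              2 ^ (cD * (s + S₁ + 1)) * (2 ^ q * W + 2 ^ q * W) :=
              mul_le_mul_of_nonneg_left (add_le_add f1 f2) (by positivity)
          _ = 2 ^ (cD * (s + S₁ + 1) + 1 + q) * W := by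
              rw [pow_add 2 (cD * (s + S₁ + 1) + 1), pow_succ]
              ring
          _ ≤ _ := mul_le_mul_of_nonneg_right (pw (by omega)) hW0.le
      · have f1 : (2 : ℝ) ^ g 2 / 2 ^ gN 3 ≤ 2 ^ lam₂ / 2 ^ gN 3 :=
          div_le_div_of_nonneg_right (pw hg2l) (by positivity)
        calc (2 : ℝ) ^ (cD * (s + 0 + 1)) * (2 ^ g 2 / 2 ^ gN 3 + 2 ^ lam₂ / 2 ^ gN 3) ≤
              2 ^ (cD * (s + 0 + 1)) * (2 ^ lam₂ / 2 ^ gN 3 + 2 ^ lam₂ / 2 ^ gN 3) :=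
              mul_le_mul_of_nonneg_left (add_le_add f1 le_rfl) (by positivity)
          _ = 2 ^ (cD * (s + 0 + 1) + 1) * (2 ^ lam₂ / 2 ^ gN 3) := by
              rw [pow_succ]
              ring
          _ ≤ _ := mul_le_mul_of_nonneg_right (pw (by omega)) (by positivity)
    · have h1 := hlo ω h
      rw [hP₂] at h1
      refine le_trans ?_ h1
      rw [div_div _ (2 ^ s), ← pow_add]
      exact div_le_div_of_nonneg_left (by positivity) (by positivity) (pw (by omega))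
    · obtain ⟨t1, t2⟩ := win_self F a ω
      exact hCv ω (b42 ω (b54 ω (b6 ω h))) _ t1 t2
    · have : L₁ + g 2 ≤ lam₂ + g 1 + q₀ * T₀ := by
        rw [hL₁]
        rcases le_total lam₁ z with h4 | h4
        · rw [max_eq_right h4]
          omega
        · rw [max_eq_left h4]
          omega
      omega
    · rw [hkA, Nat.mul_assoc]
      refine Nat.mul_le_mul_left _ ?_
      have e1 : (kn + kx + kq + 2) * T₀ = kn * T₀ + kx * T₀ + kq * T₀ + 2 * T₀ := by ring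
      rw [e1]
      omega
  · -- the second derivative in the direction `v` is large
    have hzl : z + q₀ * T₀ < lam₁ := by omega
    have hL1e : L₁ = lam₁ := by rw [hL₁]; exact max_eq_left (by omega)
    obtain ⟨P₁, hP₁⟩ : ∃ P₁ : LnT F → Polynomial ℝ,
        P₁ = fun s => hcv (c 1) (c 2) (NH s 2) (NH s 3) s := ⟨_, rfl⟩
    obtain ⟨B₆, b6, p6, hlo⟩ := hlow2 (w := w) (s := s) s5.1 P₁
      (fun _ => 2 ^ (a + lam₁) / 2 ^ gN 3 / 2 ^ s) hwJ
      (fun s => by rw [hP₁]; exact hcv_deg _ _ (hN.degH s 2) (hN.degH s 3) s)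
      (hTm B₅ s5.1 sb5 s5.2) hθ
      ((hrM'.trans hθJ).trans hJw) (hrM'.trans hθs) (fun ω hω => by
        obtain ⟨t, t1, t2, t3⟩ := hlw1 (by omega) ω (sb5 ω hω)
        exact ⟨by positivity, t, t1, t2, by rw [hP₁]; exact t3⟩)
    have q6 := half _ B₅ B₆ q5 p6
    have s6 := shr _ B₆ (by omega) q6
    refine htt1 (a := a) (w := w) (e := e) (n := n) (p := p) (lam₁ := lam') (lam₂ := lam₂)
      (D' := D) (h := h) (x := 2 * s + n₂ + 2) (K := kB * T₀) (g := g) (gN := gN) (g₄ := g)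
      (κ := κ) (B₀ := B₀) (A := A) (B := B₆) (T := T) (T₄ := T) (NH := NH) (TH := TH) (v := v)
      (v' := v') (X := X) (ν₀ := ν₀) (hRel.sub b6) hwa haJ hc3 (hRF.mono (by omega) le_rfl) hT sA0
      (fun ω h => b5' ω (b6 ω h)) ?_ s6.1 (fun ω h => hv ω (b41 ω (b54 ω (b6 ω h))))
      (fun ω h => ?_) (fun ω h => ?_) (by omega) (by omega) (by omega) ?_ (fun l hl => by
        have := hrg l hl
        omega)
    · have h1 := shk _ 0 B₆ (by omega) q6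
      rw [pow_zero, mul_one] at h1
      exact h1
    · have h1 := hlo ω h
      rw [hP₁] at h1
      obtain ⟨t1, t2⟩ := win_self F a ω
      have h2 := hdev ω (b42 ω (b54 ω (b6 ω h))) _ t1 t2
      have e1 : (2 : ℝ) ^ (a + lam') / 2 ^ gN 3 / 2 ^ (2 * s + n₂ + 2) =
          2 ^ (a + lam₁) / 2 ^ gN 3 / 2 ^ (2 * s + 1) := by
        rw [hlam', hL1e, div_div, div_div, div_eq_div_iff (by positivity) (by positivity),
          ← pow_add, ← pow_add, ← pow_add, ← pow_add]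
        congr 1
        ring
      have e2 : (2 : ℝ) ^ (a + lam₁) / 2 ^ gN 3 / 2 ^ s / 2 ^ s =
          2 ^ (a + lam₁) / 2 ^ gN 3 / 2 ^ (2 * s + 1) + 2 ^ (a + lam₁) / 2 ^ gN 3 /
            2 ^ (2 * s + 1) := by
        rw [div_div _ (2 ^ s), ← pow_add, ← two_mul, pow_succ 2 (2 * s)]
        field_simp
        norm_num
      have h3 : (2 : ℝ) ^ (a + n₂ + z) / 2 ^ gN 3 ≤ 2 ^ (a + lam₁) / 2 ^ gN 3 /
          2 ^ (2 * s + 1) := by
        rw [div_div, div_le_div_iff₀ (by positivity) (by positivity), ← pow_add, ← pow_add,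
          ← pow_add]
        exact pw (by omega)
      rw [e1]
      rw [e2] at h1
      have h4 : |(hcv (c 1) (c 2) (NH (slam F w ω) 2) (NH (slam F w ω) 3)
          (slam F w ω)).eval (F.t ω)| ≤
          |(hcl (c 1) (NH (slam F w ω) 3) (slam F w ω)).eval (F.t ω) +
        v (ptr F J ω) (c 2) * (hcl (c 2) (NH (slam F w ω) 3) (slam F w ω)).eval (F.t ω)| +
          2 ^ (a + n₂ + z) / 2 ^ gN 3 := by
        obtain ⟨u₁, hu₁⟩ : ∃ u, u = (hcv (c 1) (c 2) (NH (slam F w ω) 2) (NH (slam F w ω) 3)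
          (slam F w ω)).eval (F.t ω) := ⟨_, rfl⟩
        obtain ⟨u₂, hu₂⟩ : ∃ u, u = (hcl (c 1) (NH (slam F w ω) 3) (slam F w ω)).eval (F.t ω) +
          v (ptr F J ω) (c 2) * (hcl (c 2) (NH (slam F w ω) 3) (slam F w ω)).eval (F.t ω) :=
          ⟨_, rfl⟩
        rw [← hu₁, ← hu₂] at h2 ⊢
        have e3 : u₁ = u₂ - (u₂ - u₁) := by ring
        rw [e3]
        exact (abs_sub _ _).trans (by linarith)
      have h5 := h1.trans h4
      linarith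
    · obtain ⟨t1, t2⟩ := win_self F a ω
      exact hCk ω (b42 ω (b54 ω (b6 ω h))) _ t1 t2
    · have := mT cT
      omega

end Pool.NVX
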