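import Pool.Agent.H77.NV.Rfin

/-!
# The ratio at another line through the exact point

`vis_tau`: the ratio of the closed derivatives of the label of the target in the directions of `c 1`
and `c 2` is the same, up to a small error, along another line through the exact point.
-/

set_option autoImplicit false

namespace Pool.NVX

open Finset Real MvPolynomial
open Pool.Agent.H49.Ent Pool.Agent.H32.Dense Pool.STK Pool.KA Pool.KSAT Pool.K2S Pool.PB Pool.S6C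
open Pool.GEN Pool.CHT
open Pool.D2R (dd hs dd_add dd_smul dd_congr hs_add_right hs_add_left hs_smul_right hs_smul_left
  hs_comm pol_ext bt_near)
open Pool.F5 (lp gp der_lp dd_gp deg_gp deg_lp eo bdS bdS_slam eval_lp eval_gp)
open Pool.SHR (dir mvp dvc Shr RelvH dir_deg dir_dep relvF_low)
open Pool.PB.Trl (rt rt_mem t_rt)

variable {m J : ℕ}

/-- The direction `c 1` in the directions `v` and `c 2`. -/
theorem hs_v1 {c : ℕ → Fin m} (hc : Set.InjOn c (Set.Iio 3))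
    {R : MvPolynomial (Option (Fin m)) ℝ} (hR : DepC c 3 R) {v : Fin m → ℝ} (hv1 : v (c 1) = 1)
    (hv0 : v (c 0) = 0) (x X : Option (Fin m) → ℝ) :
    hs R x X (dvc v) = hs R x X (eo (some (c 1))) + v (c 2) * hs R x X (eo (some (c 2))) := by
  rw [hs_three hc hR (X₀ := dvc v) rfl]
  have e2 : dvc v (some (c 0)) = 0 := hv0
  have e3 : dvc v (some (c 1)) = 1 := hv1
  have e4 : dvc v (some (c 2)) = v (c 2) := rfl
  rw [e2, e3, e4]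
  ring

/-- The direction `c 2`. -/
theorem hs_v2 {c : ℕ → Fin m} (hc : Set.InjOn c (Set.Iio 3))
    {R : MvPolynomial (Option (Fin m)) ℝ} (hR : DepC c 3 R) (x X : Option (Fin m) → ℝ) :
    hs R x X (dvc (ek (c 2))) = hs R x X (eo (some (c 2))) := by
  have h02 := c_ne hc (i := 0) (j := 2) (by norm_num) (by norm_num) (by norm_num)
  have h12 := c_ne hc (i := 1) (j := 2) (by norm_num) (by norm_num) (by norm_num)
  rw [hs_three hc hR (X₀ := dvc (ek (c 2))) rfl]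
  have e2 : dvc (ek (c 2)) (some (c 0)) = 0 := ek_ne h02
  have e3 : dvc (ek (c 2)) (some (c 1)) = 0 := ek_ne h12
  have e4 : dvc (ek (c 2)) (some (c 2)) = 1 := ek_self _
  rw [e2, e3, e4]
  ring

/-- **The ratio at another line through the exact point.** -/
theorem vis_tau (m D : ℕ) : ∃ C : ℕ, ∀ {J : ℕ} {F : Fam m J} {c : ℕ → Fin m}
    {a w w₂ e n p lam₁ lam₂ h x q K : ℕ} {g gN g₄ : ℕ → ℕ} {μ : ℝ} {A B : F.Ω → Prop}
    {N T T₄ : PtT F → ℕ → MvPolynomial (Option (Fin m)) ℝ}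
    {NH TH : LnT F → ℕ → MvPolynomial (Option (Fin m)) ℝ} {v : PtT F → Fin m → ℝ}
    {X : PtT F → Option (Fin m) → ℝ} {ν₀ νB : PtT F → F.Ω} {al₁ al₂ : PtT F → ℝ},
    Rel3 F c a w e n p lam₁ lam₂ D h g gN g₄ A B T T₄ NH v X ν₀ → w ≤ a → a ≤ J →
    Set.InjOn c (Set.Iio 3) → ChOK F c 3 (fun _ => D) a w₂ e g A T TH → Sub B A →
    (∀ s, (NH s 3).totalDegree ≤ D) → (∀ s, DepC c 3 (NH s 3)) →
    (∀ y, v y (c 1) = 1 ∧ v y (c 0) = 0) →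
    (∀ ω, A ω → Shr F c 1 a g T v x 2 ω) →
    (∀ ω, A ω → ∀ b, NBx c (T (ptr F J ω)) g a (F.t ω) 3 b →
      |eval b (dir (v (ptr F J ω)) (NH (slam F w ω) 3)) - al₁ (ptr F J ω)| ≤
        2 ^ (x + q) * (2 ^ (g 1 + lam₂) / 2 ^ (g 2 + gN 3)) ∧
      |eval b (dir (ek (c 2)) (NH (slam F w ω) 3)) - al₂ (ptr F J ω)| ≤
        2 ^ (x + q) * (2 ^ lam₂ / 2 ^ gN 3) ∧
      |eval b (N (ptr F J ω) 3) - eval b (NH (slam F w ω) 3)| ≤ 2 ^ x / 2 ^ gN 3) →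
    (∀ ω, B ω → B (νB (ptr F J ω)) ∧ ptr F J (νB (ptr F J ω)) = ptr F J ω) →
    (∀ ω, B ω → 2 ^ (a + lam₂) / 2 ^ gN 3 / 2 ^ x ≤
      |(hcl (c 2) (NH (slam F w ω) 3) (slam F w ω)).eval (F.t ω)|) →
    (∀ ω, B ω → |(hcl (c 2) (NH (slam F w ω) 3) (slam F w ω)).eval (F.t ω)| ≤
      2 ^ (a + lam₂) / 2 ^ gN 3) →
    (∀ ω, B ω → |(hcl (c 1) (NH (slam F w ω) 3) (slam F w ω)).eval (F.t ω) +
      v (ptr F J ω) (c 2) * (hcl (c 2) (NH (slam F w ω) 3) (slam F w ω)).eval (F.t ω)| ≤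
      2 ^ (q + a + lam₂) / 2 ^ gN 3 * (2 ^ g 1 / 2 ^ g 2)) →
    0 ≤ μ →
    (∀ ω, B ω → |(hcl (c 2) (NH (slam F w ω) 3) (slam F w ω)).eval (F.t ω) *
        hs (NH (slam F w ω) 3) (bt F ω) (X (ptr F J ω)) (eo (some (c 1))) -
      (hcl (c 1) (NH (slam F w ω) 3) (slam F w ω)).eval (F.t ω) *
        hs (NH (slam F w ω) 3) (bt F ω) (X (ptr F J ω)) (eo (some (c 2)))| ≤
      μ * (2 ^ (a + lam₂) / 2 ^ gN 3 * (2 ^ (g 0 + g 1 + lam₂) / 2 ^ (g 2 + gN 3)))) →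
    g 2 + K ≤ lam₂ → K + q ≤ p → (∀ l < 3, e + g l + K + C * (n + x + q + 1) ≤ J) →
    ∀ ω, B ω →
      |(hcl (c 1) (NH (slam F w (νB (ptr F J ω))) 3) (slam F w (νB (ptr F J ω)))).eval
          (F.t (νB (ptr F J ω))) /
        (hcl (c 2) (NH (slam F w (νB (ptr F J ω))) 3) (slam F w (νB (ptr F J ω)))).eval
          (F.t (νB (ptr F J ω))) -
        (hcl (c 1) (NH (slam F w ω) 3) (slam F w ω)).eval (F.t ω) /
          (hcl (c 2) (NH (slam F w ω) 3) (slam F w ω)).eval (F.t ω)| ≤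
      2 ^ (C * (n + x + q + 1)) * (1 / 2 ^ K + μ) * (2 ^ g 1 / 2 ^ g 2) := by
  classical
  obtain ⟨cN, hcmp⟩ := cmp_nu m D
  obtain ⟨cS, hslp⟩ := slp_all D 4
  obtain ⟨C₅, hC₅, hvel⟩ := vel_one D
  obtain ⟨c₅, hc₅⟩ := pow_unbounded_of_one_lt C₅ (one_lt_two (α := ℝ))
  have pw : ∀ {x y : ℕ}, x ≤ y → (2 : ℝ) ^ x ≤ 2 ^ y := fun h => pow_le_pow_right₀ (by norm_num) h
  obtain ⟨cc, hcc⟩ : ∃ cc, cc = cN + cS + c₅ + 12 := ⟨_, rfl⟩
  refine ⟨5 * cc, ?_⟩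
  intro J F c a w w₂ e n p lam₁ lam₂ h x q K g gN g₄ μ A B N T T₄ NH TH v X ν₀ νB al₁ al₂ H hwa haJ
    hc hT hB hNd hNc hvv hS hbox hνB hlow hup hCv hμ hM n2 n4 n6
  obtain ⟨T₀, hT₀⟩ : ∃ T₀, T₀ = n + x + q + 1 := ⟨_, rfl⟩
  have hT1 : 1 ≤ T₀ := by omega
  rw [← hT₀] at n6 ⊢
  obtain ⟨L, hL⟩ : ∃ L, L = cc * T₀ := ⟨_, rfl⟩
  have hL5 : 5 * L = 5 * cc * T₀ := by rw [hL]; ring
  rw [← hL5] at n6 ⊢
  have mT : ∀ y : ℕ, y ≤ y * T₀ := fun y => Nat.le_mul_of_pos_right _ hT1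
  have hLs : cN * T₀ + cS * T₀ + c₅ * T₀ + 12 * T₀ = L := by rw [hL, hcc]; ring
  have hwJ : w ≤ J := hwa.trans haJ
  have tN : cN * (n + 1) ≤ cN * T₀ := Nat.mul_le_mul_left _ (by omega)
  have tN' : cN * (n + x + 1) ≤ cN * T₀ := Nat.mul_le_mul_left _ (by omega)
  have tS : cS * (x + 1) ≤ cS * T₀ := Nat.mul_le_mul_left _ (by omega)
  have t5 := mT c₅
  have tS2 := mT cS
  have hrmN : ∀ l < 3, e + g l + K + cN * (n + 1) ≤ J := fun l hl => by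
    have := n6 l hl
    omega
  -- the units
  obtain ⟨u, hu⟩ : ∃ u : ℝ, u = 2 ^ lam₂ / 2 ^ (g 2 + gN 3) := ⟨_, rfl⟩
  have hu0 : 0 < u := by rw [hu]; positivity
  obtain ⟨k₀, hk₀⟩ : ∃ k₀ : ℝ, k₀ = 2 ^ (a + lam₂) / 2 ^ gN 3 := ⟨_, rfl⟩
  have hk00 : 0 < k₀ := by rw [hk₀]; positivity
  have hku : k₀ = 2 ^ a * (2 ^ g 2 * u) := by
    rw [hk₀, hu, pow_add, pow_add]
    field_simp
  have hEv : (2 : ℝ) ^ (g 1 + lam₂) / 2 ^ (g 2 + gN 3) = 2 ^ g 1 * u := by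
    rw [hu, pow_add 2 (g 1)]
    ring
  have hE2 : (2 : ℝ) ^ lam₂ / 2 ^ gN 3 = 2 ^ g 2 * u := by
    rw [hu, pow_add 2 (g 2)]
    field_simp
  rw [hEv, hE2] at hbox
  obtain ⟨Λ, hΛ⟩ : ∃ Λ : ℝ, Λ = 2 ^ L := ⟨_, rfl⟩
  have hΛ1 : 1 ≤ Λ := by rw [hΛ]; exact one_le_pow₀ (by norm_num)
  obtain ⟨er, her⟩ : ∃ er : ℝ, er = 2 ^ L / 2 ^ K := ⟨_, rfl⟩
  have her0 : 0 ≤ er := by rw [her]; positivity
  have hg0 : (0 : ℝ) < 2 ^ g 0 := by positivity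
  have hg1 : (0 : ℝ) < 2 ^ g 1 := by positivity
  have hg2 : (0 : ℝ) < 2 ^ g 2 := by positivity
  have hgN : (0 : ℝ) < 2 ^ gN 3 := by positivity
  have h2a : (0 : ℝ) < 2 ^ a := by positivity
  have hKp : (0 : ℝ) < 2 ^ K := by positivity
  have hgu : 1 / 2 ^ gN 3 ≤ u / 2 ^ K := by
    rw [hu, pow_add, div_div, div_le_div_iff₀ hgN (by positivity)]
    calc (1 : ℝ) * (2 ^ g 2 * 2 ^ gN 3 * 2 ^ K) = 2 ^ (g 2 + K) * 2 ^ gN 3 := by
          rw [pow_add]; ring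
      _ ≤ 2 ^ lam₂ * 2 ^ gN 3 := mul_le_mul_of_nonneg_right (pw n2) hgN.le
  have hfin : ∀ γ : ℝ, 0 < γ → 2 ^ (cN * (n + x + 1)) * (2 ^ (x + q) * (γ * u) / 2 ^ K +
      2 ^ (cS * (x + 1)) * γ * (2 * (2 ^ x / 2 ^ gN 3)) + 2 ^ (x + q) * (γ * u) / 2 ^ p) ≤
      er * (γ * u) := by
    intro γ hγ
    obtain ⟨Z, hZ⟩ : ∃ Z : ℝ, Z = γ * u / 2 ^ K := ⟨_, rfl⟩
    have hZ0 : 0 ≤ Z := by rw [hZ]; positivity
    have z1 : 2 ^ (x + q) * (γ * u) / 2 ^ K ≤ 2 ^ (cS * T₀ + x + q + 1) * Z := by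
      rw [hZ, mul_div_assoc]
      exact mul_le_mul_of_nonneg_right (pw (by omega)) (by positivity)
    have z2 : 2 ^ (cS * (x + 1)) * γ * (2 * (2 ^ x / 2 ^ gN 3)) ≤
        2 ^ (cS * T₀ + x + q + 1) * Z := by
      calc 2 ^ (cS * (x + 1)) * γ * (2 * (2 ^ x / 2 ^ gN 3)) =
            2 ^ (cS * (x + 1) + x + 1) * (γ * (1 / 2 ^ gN 3)) := by
              rw [pow_succ, pow_add]
              ring
        _ ≤ 2 ^ (cS * (x + 1) + x + 1) * (γ * (u / 2 ^ K)) :=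
            mul_le_mul_of_nonneg_left (mul_le_mul_of_nonneg_left hgu hγ.le) (by positivity)
        _ = 2 ^ (cS * (x + 1) + x + 1) * Z := by rw [hZ]; ring
        _ ≤ _ := mul_le_mul_of_nonneg_right (pw (by omega)) hZ0
    have z3 : 2 ^ (x + q) * (γ * u) / 2 ^ p ≤ 2 ^ (cS * T₀ + x + q + 1) * Z := by
      rw [hZ, mul_div_assoc]
      refine mul_le_mul (pw (by omega)) ?_ (by positivity) (by positivity)
      exact div_le_div_of_nonneg_left (by positivity) hKp (pw (by omega))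
    have z4 : er * (γ * u) = 2 ^ L * Z := by rw [her, hZ]; ring
    rw [z4]
    calc _ ≤ (2 : ℝ) ^ (cN * (n + x + 1)) * (2 ^ (cS * T₀ + x + q + 1) * Z +
          2 ^ (cS * T₀ + x + q + 1) * Z + 2 ^ (cS * T₀ + x + q + 1) * Z) :=
          mul_le_mul_of_nonneg_left (add_le_add (add_le_add z1 z2) z3) (by positivity)
      _ = 3 * (2 ^ (cN * (n + x + 1)) * 2 ^ (cS * T₀ + x + q + 1)) * Z := by ring
      _ ≤ 4 * (2 ^ (cN * (n + x + 1)) * 2 ^ (cS * T₀ + x + q + 1)) * Z := by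
          refine mul_le_mul_of_nonneg_right (mul_le_mul_of_nonneg_right (by norm_num)
            (by positivity)) hZ0
      _ = 2 ^ (cN * (n + x + 1) + (cS * T₀ + x + q + 1) + 2) * Z := by
          rw [pow_add 2 _ 2, pow_add 2 (cN * (n + x + 1))]
          ring
      _ ≤ 2 ^ L * Z := mul_le_mul_of_nonneg_right (pw (by omega)) hZ0
  intro ω hω
  obtain ⟨b1, b2⟩ := hνB ω hω
  have hωA := hB ω hω
  -- the velocities
  have v1 : |(bd F ω (some (c 1)) - bd F (νB (ptr F J ω)) (some (c 1))) -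
      X (ptr F J ω) (some (c 1)) *
        (bd F ω (some (c 0)) - bd F (νB (ptr F J ω)) (some (c 0)))| ≤
      2 * (2 ^ a / 2 ^ (g 1 + p)) := by
    have k1 := H.ve1 ω hω
    have k2 := H.ve1 _ b1
    rw [b2] at k2
    rw [abs_le] at k1 k2 ⊢
    constructor <;> linarith [k1.1, k1.2, k2.1, k2.2]
  have v2 : |(bd F ω (some (c 2)) - bd F (νB (ptr F J ω)) (some (c 2))) -
      v (ptr F J ω) (c 2) * (bd F ω (some (c 1)) - bd F (νB (ptr F J ω)) (some (c 1))) -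
      (X (ptr F J ω) (some (c 2)) - v (ptr F J ω) (c 2) * X (ptr F J ω) (some (c 1))) *
        (bd F ω (some (c 0)) - bd F (νB (ptr F J ω)) (some (c 0)))| ≤
      2 * (2 ^ a / 2 ^ (g 2 + p)) := by
    have k1 := H.ve2 ω hω
    have k2 := H.ve2 _ b1
    rw [b2] at k2
    rw [abs_le] at k1 k2 ⊢
    constructor <;> linarith [k1.1, k1.2, k2.1, k2.2]
  have hMω := hM ω hω
  have lw1 := hlow ω hω
  have lw2 := hlow _ b1
  have up1 := hup ω hω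
  have cv1 := hCv ω hω
  obtain ⟨ν, hν⟩ : ∃ ν, ν = νB (ptr F J ω) := ⟨_, rfl⟩
  rw [← hν] at b1 b2 v1 v2 lw2 ⊢
  have hνA' : A ν := hB ν b1
  have htt : F.t ν = F.t ω := (bt_near b2).2.1
  obtain ⟨ξ, hξ⟩ : ∃ ξ : ℝ, ξ = 2 ^ g 0 * (vl F a ν (some (c 0)) - vl F a ω (some (c 0))) :=
    ⟨_, rfl⟩
  have hξΛ : |ξ| ≤ Λ := by
    have d1 : ∀ ν, A ν → ptr F J ω = ptr F J ν →
        |vl F a ν (some (c 0)) - dd (T (ptr F J ω) 0) (bt F ω) (vl F a ν)| ≤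
          C₅ * (2 ^ n / 2 ^ g 0) := fun ν hν hpt =>
      hvel (T (ptr F J ω) 0) (bt F ω) (vl F a ν) (some (c 0)) (rt F a ν) (2 ^ n / 2 ^ g 0)
        (hT.degG _ _) (rt_mem F a ν).1 (rt_mem F a ν).2 fun s s1 s2 =>
          H.pth ω ν hωA hν hpt s s1 s2 0 (by norm_num)
    have d2 := d1 ω hωA rfl
    have d3 := d1 _ hνA' b2.symm
    have d4 : dd (T (ptr F J ω) 0) (bt F ω) (vl F a ν) =
        dd (T (ptr F J ω) 0) (bt F ω) (vl F a ω) :=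
      dd_congr (hT.depG _ 0) _ (by rw [vl_none, vl_none]) fun l hl => absurd hl (Nat.not_lt_zero l)
    rw [d4] at d3
    rw [hξ, hΛ, abs_mul, abs_of_pos hg0]
    have d5 : |vl F a ν (some (c 0)) - vl F a ω (some (c 0))| ≤
        2 * (C₅ * (2 ^ n / 2 ^ g 0)) := by
      rw [abs_le] at d2 d3 ⊢
      constructor <;> linarith [d2.1, d2.2, d3.1, d3.2]
    calc (2 : ℝ) ^ g 0 * |vl F a ν (some (c 0)) - vl F a ω (some (c 0))| ≤
          2 ^ g 0 * (2 * (C₅ * (2 ^ n / 2 ^ g 0))) := mul_le_mul_of_nonneg_left d5 hg0.le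
      _ = 2 * (C₅ * 2 ^ n) := by field_simp
      _ ≤ 2 * (2 ^ c₅ * 2 ^ n) := by
          refine mul_le_mul_of_nonneg_left (mul_le_mul_of_nonneg_right hc₅.le (by positivity))
            (by norm_num)
      _ = 2 ^ (c₅ + n + 1) := by rw [pow_succ, pow_add]; ring
      _ ≤ 2 ^ L := pw (by omega)
  have bxν : ∀ b, NBx c (T (ptr F J ω)) g a (F.t ω) 3 b →
      |eval b (dir (v (ptr F J ω)) (NH (slam F w ν) 3)) - al₁ (ptr F J ω)| ≤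
        2 ^ (x + q) * (2 ^ g 1 * u) ∧
      |eval b (dir (ek (c 2)) (NH (slam F w ν) 3)) - al₂ (ptr F J ω)| ≤
        2 ^ (x + q) * (2 ^ g 2 * u) ∧
      |eval b (N (ptr F J ω) 3) - eval b (NH (slam F w ν) 3)| ≤ 2 ^ x / 2 ^ gN 3 := by
    intro b hb
    have := hbox ν hνA' b (by rw [b2, htt]; exact hb)
    rw [b2] at this
    exact this
  have hdif : ∀ b, NBx c (T (ptr F J ω)) g a (F.t ω) 3 b →
      |eval b (NH (slam F w ν) 3 - NH (slam F w ω) 3)| ≤ 2 * (2 ^ x / 2 ^ gN 3) := by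
    intro b hb
    have k1 := (bxν b hb).2.2
    have k2 := (hbox ω hωA b hb).2.2
    rw [map_sub]
    rw [abs_le] at k1 k2 ⊢
    constructor <;> linarith [k1.1, k1.2, k2.1, k2.2]
  have hdc : DepC c 3 (NH (slam F w ν) 3 - NH (slam F w ω) 3) := fun b b' hn hb => by
    rw [map_sub, map_sub, hNc _ b b' hn hb, hNc _ b b' hn hb]
  have hdd' : (NH (slam F w ν) 3 - NH (slam F w ω) 3).totalDegree ≤ D :=
    (totalDegree_sub _ _).trans (max_le (hNd _) (hNd _))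
  have h02 := c_ne hc (i := 0) (j := 2) (by norm_num) (by norm_num) (by norm_num)
  have h12 := c_ne hc (i := 1) (j := 2) (by norm_num) (by norm_num) (by norm_num)
  have hEa : ∀ b, NBx c (T (ptr F J ω)) g a (F.t ω) 3 b →
      |eval b (dir (v (ptr F J ω)) (NH (slam F w ν) 3 - NH (slam F w ω) 3))| ≤
        2 ^ (cS * (x + 1)) * 2 ^ g 1 * (2 * (2 ^ x / 2 ^ gN 3)) := fun b hb =>
    hslp (c := c) (l := 1) (i := 3) (a := a) (y := x) (g := g) (G := T) (v := v)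
      (ω := ω) (b := b) (by norm_num) hc hT.degG hT.depG hdc hdd' (by positivity) (hvv _).1
      (fun j hj => by
        have : j = 0 := by omega
        subst this
        exact (hvv _).2) (fun j hj hlj => by
        have : j = 2 := by omega
        subst this
        exact hS ω hωA) hb hdif
  have hEb : ∀ b, NBx c (T (ptr F J ω)) g a (F.t ω) 3 b →
      |eval b (dir (ek (c 2)) (NH (slam F w ν) 3 - NH (slam F w ω) 3))| ≤
        2 ^ (cS * (x + 1)) * 2 ^ g 2 * (2 * (2 ^ x / 2 ^ gN 3)) := by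
    intro b hb
    refine (hslp (c := c) (l := 2) (i := 3) (a := a) (y := 0) (g := g) (G := T)
      (v := fun _ => ek (c 2)) (ω := ω) (b := b) (by norm_num) hc hT.degG hT.depG hdc hdd'
      (by positivity) (ek_self _) (fun j hj => by
        have : j = 0 ∨ j = 1 := by omega
        rcases this with rfl | rfl
        · exact ek_ne h02
        · exact ek_ne h12) (fun j hj hlj => by omega) hb hdif).trans ?_
    refine mul_le_mul_of_nonneg_right (mul_le_mul_of_nonneg_right (pw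
      (Nat.mul_le_mul_left _ (by omega))) (by positivity)) (by positivity)
  -- the remainders of the velocities
  obtain ⟨r₁, hr₁⟩ : ∃ r₁, r₁ = (vl F a ν (some (c 1)) - vl F a ω (some (c 1))) -
    X (ptr F J ω) (some (c 1)) * (vl F a ν (some (c 0)) - vl F a ω (some (c 0))) := ⟨_, rfl⟩
  obtain ⟨r₂, hr₂⟩ : ∃ r₂, r₂ = (vl F a ν (some (c 2)) - vl F a ω (some (c 2))) -
    v (ptr F J ω) (c 2) * (vl F a ν (some (c 1)) - vl F a ω (some (c 1))) -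
    (X (ptr F J ω) (some (c 2)) - v (ptr F J ω) (c 2) * X (ptr F J ω) (some (c 1))) *
      (vl F a ν (some (c 0)) - vl F a ω (some (c 0))) := ⟨_, rfl⟩
  have hvb : ∀ (ω' : F.Ω) (k : Fin m), vl F a ω' (some k) = 1 / 2 ^ a * bd F ω' (some k) :=
    fun _ _ => rfl
  have hr1 : |r₁| ≤ 2 / 2 ^ (g 1 + p) := by
    have e1 : r₁ = -(1 / 2 ^ a) * ((bd F ω (some (c 1)) - bd F ν (some (c 1))) -
        X (ptr F J ω) (some (c 1)) * (bd F ω (some (c 0)) - bd F ν (some (c 0)))) := by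
      rw [hr₁, hvb, hvb, hvb, hvb]
      ring
    rw [e1, abs_mul, abs_neg, abs_of_pos (show (0 : ℝ) < 1 / 2 ^ a by positivity)]
    calc 1 / 2 ^ a * _ ≤ 1 / 2 ^ a * (2 * (2 ^ a / 2 ^ (g 1 + p))) :=
          mul_le_mul_of_nonneg_left v1 (by positivity)
      _ = _ := by field_simp
  have hr2 : |r₂| ≤ 2 / 2 ^ (g 2 + p) := by
    have e1 : r₂ = -(1 / 2 ^ a) * ((bd F ω (some (c 2)) - bd F ν (some (c 2))) -
        v (ptr F J ω) (c 2) * (bd F ω (some (c 1)) - bd F ν (some (c 1))) -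
        (X (ptr F J ω) (some (c 2)) - v (ptr F J ω) (c 2) * X (ptr F J ω) (some (c 1))) *
        (bd F ω (some (c 0)) - bd F ν (some (c 0)))) := by
      rw [hr₂, hvb, hvb, hvb, hvb, hvb, hvb]
      ring
    rw [e1, abs_mul, abs_neg, abs_of_pos (show (0 : ℝ) < 1 / 2 ^ a by positivity)]
    calc 1 / 2 ^ a * _ ≤ 1 / 2 ^ a * (2 * (2 ^ a / 2 ^ (g 2 + p))) :=
          mul_le_mul_of_nonneg_left v2 (by positivity)
      _ = _ := by field_simp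
  have keyN := hcmp (x := x) (N := K) (p := p) hc haJ hT hrmN H.pth hvv hS
  have ca := keyN ω ν hωA hνA' b2.symm (NH (slam F w ω) 3) (NH (slam F w ν) 3)
    (v (ptr F J ω)) (X (ptr F J ω)) (2 ^ (x + q) * (2 ^ g 1 * u)) _ (al₁ (ptr F J ω)) _ r₁ r₂
    (hNc _) (hNc _) (hNd _) (hNd _) (H.x0 ω hω) (H.x1 ω hω) (by positivity) (by positivity)
    (fun b hb => (hbox ω hωA b hb).1) (fun b hb => (bxν b hb).1) hEa rfl hr₁ hr₂ hr1 hr2
  have cb := keyN ω ν hωA hνA' b2.symm (NH (slam F w ω) 3) (NH (slam F w ν) 3)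
    (ek (c 2)) (X (ptr F J ω)) (2 ^ (x + q) * (2 ^ g 2 * u)) _ (al₂ (ptr F J ω)) _ r₁ r₂
    (hNc _) (hNc _) (hNd _) (hNd _) (H.x0 ω hω) (H.x1 ω hω) (by positivity) (by positivity)
    (fun b hb => (hbox ω hωA b hb).2.1) (fun b hb => (bxν b hb).2.1) hEb rfl hr₁ hr₂ hr1 hr2
  have ca' := ca.trans (hfin _ hg1)
  have cb' := cb.trans (hfin _ hg2)
  rw [← hξ] at ca' cb'
  -- the four numbers
  have hd1 := hcl_dir hc a w ω (hNc (slam F w ω)) (hvv (ptr F J ω)).1 (hvv _).2 (F.t ω)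
  have hd2 := hcl_ek hc a w ω (hNc (slam F w ω)) (F.t ω)
  have hd1' := hcl_dir hc a w ν (hNc (slam F w ν)) (hvv (ptr F J ω)).1 (hvv _).2 (F.t ν)
  have hd2' := hcl_ek hc a w ν (hNc (slam F w ν)) (F.t ν)
  rw [sub_self, zero_smul, add_zero] at hd1 hd2 hd1' hd2'
  rw [dd_smul, dd_dir (v (ptr F J ω)) (NH (slam F w ω) 3) (bt F ω) (X (ptr F J ω)),
    hs_v1 hc (hNc _) (hvv _).1 (hvv _).2] at ca'
  rw [dd_smul, dd_dir (ek (c 2)) (NH (slam F w ω) 3) (bt F ω) (X (ptr F J ω)),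
    hs_v2 hc (hNc _)] at cb'
  obtain ⟨P1, hP1⟩ : ∃ z, z = (hcl (c 1) (NH (slam F w ω) 3) (slam F w ω)).eval (F.t ω) :=
    ⟨_, rfl⟩
  obtain ⟨P2, hP2⟩ : ∃ z, z = (hcl (c 2) (NH (slam F w ω) 3) (slam F w ω)).eval (F.t ω) :=
    ⟨_, rfl⟩
  obtain ⟨Q1, hQ1⟩ : ∃ z, z = (hcl (c 1) (NH (slam F w ν) 3) (slam F w ν)).eval (F.t ν) :=
    ⟨_, rfl⟩
  obtain ⟨Q2, hQ2⟩ : ∃ z, z = (hcl (c 2) (NH (slam F w ν) 3) (slam F w ν)).eval (F.t ν) :=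
    ⟨_, rfl⟩
  obtain ⟨H1, hH1⟩ : ∃ z, z = hs (NH (slam F w ω) 3) (bt F ω) (X (ptr F J ω))
    (eo (some (c 1))) := ⟨_, rfl⟩
  obtain ⟨H2, hH2⟩ : ∃ z, z = hs (NH (slam F w ω) 3) (bt F ω) (X (ptr F J ω))
    (eo (some (c 2))) := ⟨_, rfl⟩
  obtain ⟨D1, hD1⟩ : ∃ z, z = dd (dir (v (ptr F J ω)) (NH (slam F w ω) 3)) (bt F ω)
    (vl F a ω) := ⟨_, rfl⟩
  obtain ⟨D2, hD2⟩ : ∃ z, z = dd (dir (ek (c 2)) (NH (slam F w ω) 3)) (bt F ω)
    (vl F a ω) := ⟨_, rfl⟩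
  obtain ⟨E1, hE1⟩ : ∃ z, z = dd (dir (v (ptr F J ω)) (NH (slam F w ν) 3)) (bt F ν)
    (vl F a ν) := ⟨_, rfl⟩
  obtain ⟨E2, hE2'⟩ : ∃ z, z = dd (dir (ek (c 2)) (NH (slam F w ν) 3)) (bt F ν)
    (vl F a ν) := ⟨_, rfl⟩
  obtain ⟨σ, hσ⟩ : ∃ z, z = v (ptr F J ω) (c 2) := ⟨_, rfl⟩
  rw [← hP1, ← hP2, ← hD1, ← hσ] at hd1
  rw [← hP2, ← hD2] at hd2
  rw [← hQ1, ← hQ2, ← hE1, ← hσ] at hd1'
  rw [← hQ2, ← hE2'] at hd2'
  rw [← hE1, ← hD1, ← hH1, ← hH2, ← hσ] at ca'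
  rw [← hE2', ← hD2, ← hH2] at cb'
  rw [← hP1, ← hP2, ← hH1, ← hH2] at hMω
  rw [← hP2] at lw1 up1
  rw [← hQ2] at lw2
  rw [← hP1, ← hP2, ← hσ] at cv1
  rw [← hP1, ← hP2, ← hQ1, ← hQ2]
  rw [← hk₀] at lw1 lw2 up1 hMω
  have hcvk : (2 : ℝ) ^ (q + a + lam₂) / 2 ^ gN 3 * (2 ^ g 1 / 2 ^ g 2) =
      2 ^ q * (k₀ * (2 ^ g 1 / 2 ^ g 2)) := by
    rw [hk₀, Nat.add_assoc, pow_add 2 q]
    ring
  rw [hcvk] at cv1
  have hMk : (2 : ℝ) ^ (g 0 + g 1 + lam₂) / 2 ^ (g 2 + gN 3) = 2 ^ g 0 * 2 ^ g 1 * u := by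
    rw [hu, pow_add, pow_add 2 (g 0)]
    ring
  rw [hMk] at hMω
  -- the dimensionless numbers
  obtain ⟨c₂, hc₂⟩ : ∃ z, z = (P1 + σ * P2) / (k₀ * (2 ^ g 1 / 2 ^ g 2)) := ⟨_, rfl⟩
  obtain ⟨c₃, hc₃⟩ : ∃ z, z = P2 / k₀ := ⟨_, rfl⟩
  obtain ⟨d₂, hd₂⟩ : ∃ z, z = (Q1 + σ * Q2) / (k₀ * (2 ^ g 1 / 2 ^ g 2)) := ⟨_, rfl⟩
  obtain ⟨d₃, hd₃⟩ : ∃ z, z = Q2 / k₀ := ⟨_, rfl⟩
  obtain ⟨T₂, hT₂⟩ : ∃ z, z = 1 / 2 ^ g 0 * (H1 + σ * H2) / (2 ^ g 1 * u) := ⟨_, rfl⟩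
  obtain ⟨T₃, hT₃⟩ : ∃ z, z = 1 / 2 ^ g 0 * H2 / (2 ^ g 2 * u) := ⟨_, rfl⟩
  have hG12 : (0 : ℝ) < 2 ^ g 1 / 2 ^ g 2 := by positivity
  have hGk : 0 < k₀ * (2 ^ g 1 / 2 ^ g 2) := by positivity
  have hlowΛ : ∀ z : ℝ, k₀ / 2 ^ x ≤ |z| → 1 / Λ ≤ |z / k₀| := by
    intro z hz
    rw [abs_div, abs_of_pos hk00, le_div_iff₀ hk00]
    refine le_trans ?_ hz
    rw [hΛ, one_div_mul_eq_div]
    exact div_le_div_of_nonneg_left hk00.le (by positivity) (pw (by omega))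
  have f1 : |c₂| ≤ Λ := by
    rw [hc₂, abs_div, abs_of_pos hGk, div_le_iff₀ hGk, hΛ]
    exact cv1.trans (mul_le_mul_of_nonneg_right (pw (by omega)) hGk.le)
  have f2 : 1 / Λ ≤ |c₃| := by rw [hc₃]; exact hlowΛ _ lw1
  have f3 : |c₃| ≤ Λ := by
    rw [hc₃, abs_div, abs_of_pos hk00, div_le_iff₀ hk00]
    nlinarith
  have f4 : 1 / Λ ≤ |d₃| := by rw [hd₃]; exact hlowΛ _ lw2
  have f5 : |d₂ - (c₂ + ξ * T₂)| ≤ er := by
    have e1 : d₂ - (c₂ + ξ * T₂) = (E1 - (D1 + ξ * (1 / 2 ^ g 0 * (H1 + σ * H2)))) /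
        (2 ^ g 1 * u) := by
      rw [hd₂, hc₂, hT₂, hd1, hd1', hku]
      field_simp
    rw [e1, abs_div, abs_of_pos (show (0 : ℝ) < 2 ^ g 1 * u by positivity),
      div_le_iff₀ (by positivity)]
    exact ca'
  have f6 : |d₃ - (c₃ + ξ * T₃)| ≤ er := by
    have e1 : d₃ - (c₃ + ξ * T₃) = (E2 - (D2 + ξ * (1 / 2 ^ g 0 * H2))) / (2 ^ g 2 * u) := by
      rw [hd₃, hc₃, hT₃, hd2, hd2', hku]
      field_simp
    rw [e1, abs_div, abs_of_pos (show (0 : ℝ) < 2 ^ g 2 * u by positivity),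
      div_le_iff₀ (by positivity)]
    exact cb'
  have f7 := alt_rat hΛ1 her0 f1 f2 f3 f4 hξΛ f5 f6
  have hP20 : P2 ≠ 0 := by
    intro h0
    rw [h0, abs_zero] at lw1
    have : 0 < k₀ / 2 ^ x := by positivity
    linarith
  have hQ20 : Q2 ≠ 0 := by
    intro h0
    rw [h0, abs_zero] at lw2
    have : 0 < k₀ / 2 ^ x := by positivity
    linarith
  have f8 : |T₂ - c₂ / c₃ * T₃| ≤ Λ * μ := by
    have e1 : T₂ - c₂ / c₃ * T₃ = (P2 * H1 - P1 * H2) / (P2 * (2 ^ g 0 * 2 ^ g 1 * u)) := by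
      rw [hT₂, hT₃, hc₂, hc₃]
      field_simp
      ring
    have hW : (0 : ℝ) < 2 ^ g 0 * 2 ^ g 1 * u := by positivity
    have hPa : 0 < |P2| := abs_pos.2 hP20
    rw [e1, abs_div, abs_mul, abs_of_pos hW, div_le_iff₀ (by positivity)]
    refine hMω.trans ?_
    have g1 : k₀ ≤ Λ * |P2| := by
      have g2 : k₀ ≤ 2 ^ x * |P2| := by
        rw [div_le_iff₀ (by positivity)] at lw1
        linarith
      refine g2.trans (mul_le_mul_of_nonneg_right ?_ (abs_nonneg _))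
      rw [hΛ]
      exact pw (by omega)
    calc μ * (k₀ * (2 ^ g 0 * 2 ^ g 1 * u)) ≤ μ * (Λ * |P2| * (2 ^ g 0 * 2 ^ g 1 * u)) :=
          mul_le_mul_of_nonneg_left (mul_le_mul_of_nonneg_right g1 hW.le) hμ
      _ = _ := by ring
  have e2 : Q1 / Q2 - P1 / P2 = (d₂ / d₃ - c₂ / c₃) * (2 ^ g 1 / 2 ^ g 2) := by
    rw [hd₂, hd₃, hc₂, hc₃]
    field_simp
    ring
  rw [e2, abs_mul, abs_of_pos hG12]
  refine mul_le_mul_of_nonneg_right (f7.trans ?_) hG12.le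
  have g1 : Λ ^ 4 * |T₂ - c₂ / c₃ * T₃| ≤ Λ ^ 4 * (Λ * μ) :=
    mul_le_mul_of_nonneg_left f8 (by positivity)
  have g2 : 2 * Λ ^ 3 * er ≤ 2 ^ (5 * L) * (1 / 2 ^ K) := by
    rw [her, hΛ]
    have e3 : 2 * (2 ^ L) ^ 3 * (2 ^ L / 2 ^ K) = (2 : ℝ) ^ (4 * L + 1) * (1 / 2 ^ K) := by
      rw [← pow_mul, pow_succ, show 4 * L = L * 3 + L by ring, pow_add]
      ring
    rw [e3]
    exact mul_le_mul_of_nonneg_right (pw (by omega)) (by positivity)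
  have g3 : Λ ^ 4 * (Λ * μ) = 2 ^ (5 * L) * μ := by
    rw [hΛ, ← mul_assoc, ← pow_succ, ← pow_mul]
    congr 2
    ring
  rw [mul_add]
  linarith

end Pool.NVX
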